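import Pool.Agent.Helper78.Expr

/-!
# Closure properties of polynomial-time definable maps

A *context* is a type `C` whose elements are represented by finitely many bit strings.
`PM φ` says that the map `φ : C → D` between contexts is definable by expressions of the language
`E`. For `C = D = List Bool` this gives `PolyTime φ`.
-/

namespace Pool.Agent.Helper78.PT

/-- Types whose elements are represented by finitely many bit strings. -/
class Ctx (C : Type) where
  n : ℕ
  V : ℕ → C → List Bool

instance : Ctx Unit := ⟨0, fun _ _ => []⟩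
instance : Ctx (List Bool) := ⟨1, fun _ x => x⟩
instance : Ctx ℕ := ⟨1, fun _ k => List.replicate k true⟩
instance : Ctx Bool := ⟨1, fun _ b => [b]⟩
instance {C D : Type} [Ctx C] [Ctx D] : Ctx (C × D) :=
  ⟨Ctx.n C + Ctx.n D, fun i c => if i < Ctx.n C then Ctx.V i c.1 else Ctx.V (i - Ctx.n C) c.2⟩

/-- The environment of an element of a context. -/
def envOf {C : Type} [Ctx C] (c : C) : ℕ → List Bool := fun i => if i < Ctx.n C then Ctx.V i c else []

/-- Definable string-valued functions. -/
def Def {C : Type} [Ctx C] (f : C → List Bool) : Prop :=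
  ∃ e : E, ∀ c, den e (Ctx.n C) (envOf c) = f c

/-- Definable maps between contexts. -/
def PM {C D : Type} [Ctx C] [Ctx D] (φ : C → D) : Prop :=
  ∀ i, i < Ctx.n D → Def (fun c => Ctx.V i (φ c))

theorem pm_str {C : Type} [Ctx C] {f : C → List Bool} : PM f ↔ Def f :=
  ⟨fun h => h 0 Nat.one_pos, fun h _ _ => h⟩

theorem pm_nat {C : Type} [Ctx C] {f : C → ℕ} : PM f ↔ Def (fun c => List.replicate (f c) true) :=
  ⟨fun h => h 0 Nat.one_pos, fun h _ _ => h⟩

theorem pm_bool {C : Type} [Ctx C] {f : C → Bool} : PM f ↔ Def (fun c => [f c]) :=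
  ⟨fun h => h 0 Nat.one_pos, fun h _ _ => h⟩

theorem PM.polyTime {f : List Bool → List Bool} (h : PM f) : PolyTime f := by
  obtain ⟨e, he⟩ := pm_str.1 h
  have h1 := polyTime_den e
  have h2 : (fun x => den e 1 (env1 x)) = f := by
    funext x
    rw [← he x]
    congr 1
    funext i
    by_cases hi : i = 0
    · subst hi; simp [env1, envOf, Ctx.n, Ctx.V]
    · have : ¬ i < 1 := by omega
      simp [env1, envOf, hi, Ctx.n]
  rwa [h2] at h1

/-- Shift the variables from `n` on by `k`. -/
def shift (n k : ℕ) : E → E
  | .nil => .nil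
  | .bit b => .bit b
  | .app e₁ e₂ => .app (shift n k e₁) (shift n k e₂)
  | .var i => .var (if i < n then i else i + k)
  | .forr i ef et => .forr (if i < n then i else i + k) (shift n k ef) (shift n k et)
  | .lett e₁ e₂ => .lett (shift n k e₁) (shift n k e₂)
  | .ifNil i e₁ e₂ => .ifNil (if i < n then i else i + k) (shift n k e₁) (shift n k e₂)
  | .ifLe i j e₁ e₂ => .ifLe (if i < n then i else i + k) (if j < n then j else j + k)
      (shift n k e₁) (shift n k e₂)

theorem update_shift {n k n' : ℕ} (hn : n ≤ n') {v v' : ℕ → List Bool}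
    (hv : ∀ i, v i = v' (if i < n then i else i + k)) (x : List Bool) (i : ℕ) :
    Function.update v n' x i = Function.update v' (n' + k) x (if i < n then i else i + k) := by
  by_cases hi : i = n'
  · subst hi
    have : ¬ i < n := by omega
    simp [this]
  · have h1 : (if i < n then i else i + k) ≠ n' + k := by split <;> omega
    rw [Function.update_of_ne hi, Function.update_of_ne h1, hv i]

theorem den_shift (e : E) : ∀ (n k n' : ℕ) (v v' : ℕ → List Bool), n ≤ n' →
    (∀ i, v i = v' (if i < n then i else i + k)) →
    den (shift n k e) (n' + k) v' = den e n' v := by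
  induction e with
  | nil => intro n k n' v v' _ _; rfl
  | bit b => intro n k n' v v' _ _; rfl
  | app e₁ e₂ ih₁ ih₂ =>
    intro n k n' v v' hn hv
    simp only [shift, den, ih₁ n k n' v v' hn hv, ih₂ n k n' v v' hn hv]
  | var i =>
    intro n k n' v v' hn hv
    simp only [shift, den, hv i]
  | forr i ef et ihf iht =>
    intro n k n' v v' hn hv
    simp only [shift, den, ← hv i]
    congr 1
    funext b pre suf
    have h2 : ∀ j, Function.update (Function.update v n' pre) (n' + 1) suf j =
        Function.update (Function.update v' (n' + k) pre) (n' + 1 + k) suf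
          (if j < n then j else j + k) :=
      update_shift (by omega) (update_shift hn hv pre) suf
    have e1 : n' + k + 2 = n' + 2 + k := by omega
    have e2 : n' + k + 1 = n' + 1 + k := by omega
    rw [e1, e2, ihf n k (n' + 2) _ _ (by omega) h2, iht n k (n' + 2) _ _ (by omega) h2]
  | lett e₁ e₂ ih₁ ih₂ =>
    intro n k n' v v' hn hv
    simp only [shift, den, ih₁ n k n' v v' hn hv]
    have e2 : n' + k + 1 = n' + 1 + k := by omega
    rw [e2]
    exact ih₂ n k (n' + 1) _ _ (by omega) (update_shift hn hv _)
  | ifNil i e₁ e₂ ih₁ ih₂ =>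
    intro n k n' v v' hn hv
    simp only [shift, den, ← hv i, ih₁ n k n' v v' hn hv, ih₂ n k n' v v' hn hv]
  | ifLe i j e₁ e₂ ih₁ ih₂ =>
    intro n k n' v v' hn hv
    simp only [shift, den, ← hv i, ← hv j, ih₁ n k n' v v' hn hv, ih₂ n k n' v v' hn hv]

/-- Nested `let`s. -/
def lets : (k : ℕ) → (ℕ → E) → ℕ → E → E
  | 0, _, _, e => e
  | k + 1, h, n, e => lets k h n (.lett (shift n k (h k)) e)

theorem den_lets (n : ℕ) (v : ℕ → List Bool) (h : ℕ → E) : ∀ (k : ℕ) (e : E),
    (∀ i, n ≤ i → v i = []) →
    den (lets k h n e) n v =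
      den e (n + k) (fun i => if i < n then v i else if i < n + k then den (h (i - n)) n v else []) := by
  intro k
  induction k with
  | zero =>
    intro e hv
    simp only [lets, Nat.add_zero]
    congr 1
    funext i
    by_cases hi : i < n
    · simp [hi]
    · simp [hi, hv i (by omega)]
  | succ k ih =>
    intro e hv
    simp only [lets]
    rw [ih _ hv]
    simp only [den]
    have e1 : n + k + 1 = n + (k + 1) := by omega
    rw [e1]
    congr 1
    funext i
    by_cases hi : i = n + k
    · subst hi
      have h1 : ¬ n + k < n := by omega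
      have h2 : n + k < n + (k + 1) := by omega
      simp only [Function.update_self, h1, h2, if_false, if_true, Nat.add_sub_cancel_left]
      apply den_shift (h k) n k n
      · exact le_rfl
      · intro j
        by_cases hj : j < n
        · simp [hj]
        · have h3 : ¬ j + k < n := by omega
          have h4 : ¬ j + k < n + k := by omega
          simp [hj, h3, h4, hv j (by omega)]
    · rw [Function.update_of_ne hi]
      by_cases h1 : i < n
      · simp [h1]
      · by_cases h2 : i < n + k
        · have h3 : i < n + (k + 1) := by omega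
          simp [h1, h2, h3]
        · have h3 : ¬ i < n + (k + 1) := by omega
          simp [h1, h2, h3]

theorem envOf_ge {C : Type} [Ctx C] (c : C) {i : ℕ} (hi : Ctx.n C ≤ i) : envOf c i = [] := by
  simp [envOf, Nat.not_lt.2 hi]

/-- Substitution. -/
theorem PM.def_comp {C D : Type} [Ctx C] [Ctx D] {f : D → List Bool} (hf : Def f) {φ : C → D}
    (hφ : PM φ) : Def (fun c => f (φ c)) := by
  classical
  obtain ⟨e, he⟩ := hf
  have h1 : ∀ i, ∃ e' : E, i < Ctx.n D → ∀ c : C, den e' (Ctx.n C) (envOf c) = Ctx.V i (φ c) := by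
    intro i
    by_cases hi : i < Ctx.n D
    · obtain ⟨e', he'⟩ := hφ i hi
      exact ⟨e', fun _ => he'⟩
    · exact ⟨.nil, fun h => absurd h hi⟩
  choose h hh using h1
  refine ⟨lets (Ctx.n D) h (Ctx.n C) (shift 0 (Ctx.n C) e), fun c => ?_⟩
  show _ = f (φ c)
  rw [den_lets _ _ _ _ _ (fun i hi => envOf_ge c hi), Nat.add_comm, ← he (φ c)]
  apply den_shift
  · exact Nat.zero_le _
  · intro i
    have h0 : ¬ i < 0 := by omega
    have h1 : ¬ i + Ctx.n C < Ctx.n C := by omega
    simp only [h0, if_false, h1]
    by_cases hi : i < Ctx.n D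
    · have h2 : i + Ctx.n C < Ctx.n D + Ctx.n C := by omega
      simp only [h2, if_true, Nat.add_sub_cancel, hh i hi c]
      simp [envOf, hi]
    · have h2 : ¬ i + Ctx.n C < Ctx.n D + Ctx.n C := by omega
      simp [envOf, hi]

theorem PM.comp {B C D : Type} [Ctx B] [Ctx C] [Ctx D] {ψ : C → D} {φ : B → C} (hψ : PM ψ)
    (hφ : PM φ) : PM (fun b => ψ (φ b)) :=
  fun i hi => PM.def_comp (hψ i hi) hφ

theorem def_var {C : Type} [Ctx C] {i : ℕ} (hi : i < Ctx.n C) : Def (fun c : C => Ctx.V i c) :=
  ⟨.var i, fun c => by simp [den, envOf, hi]⟩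

theorem PM.id {C : Type} [Ctx C] : PM (fun c : C => c) := fun _ hi => def_var hi

theorem PM.fst {C D : Type} [Ctx C] [Ctx D] : PM (fun c : C × D => c.1) := by
  intro i hi
  have h : i < Ctx.n (C × D) := Nat.lt_of_lt_of_le hi (Nat.le_add_right _ _)
  refine ⟨.var i, fun c => ?_⟩
  simp only [den, envOf, h, if_true]
  simp [Ctx.V, hi]

theorem PM.snd {C D : Type} [Ctx C] [Ctx D] : PM (fun c : C × D => c.2) := by
  intro i hi
  have h : Ctx.n C + i < Ctx.n (C × D) := Nat.add_lt_add_left hi _
  refine ⟨.var (Ctx.n C + i), fun c => ?_⟩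
  simp only [den, envOf, h, if_true]
  simp [Ctx.V]

theorem PM.pair {B C D : Type} [Ctx B] [Ctx C] [Ctx D] {φ : B → C} {ψ : B → D} (hφ : PM φ)
    (hψ : PM ψ) : PM (fun b => (φ b, ψ b)) := by
  intro i hi
  by_cases h : i < Ctx.n C
  · have h1 := hφ i h
    have h2 : (fun b => Ctx.V i (φ b, ψ b)) = fun b => Ctx.V i (φ b) := by
      funext b
      simp [Ctx.V, h]
    rw [h2]
    exact h1
  · have hi' : i < Ctx.n C + Ctx.n D := hi
    have h1 := hψ (i - Ctx.n C) (by omega)
    have h2 : (fun b => Ctx.V i (φ b, ψ b)) = fun b => Ctx.V (i - Ctx.n C) (ψ b) := by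
      funext b
      simp [Ctx.V, h]
    rw [h2]
    exact h1

theorem Def.nil {C : Type} [Ctx C] : Def (fun _ : C => ([] : List Bool)) := ⟨.nil, fun _ => rfl⟩

theorem Def.app {C : Type} [Ctx C] {f g : C → List Bool} (hf : Def f) (hg : Def g) :
    Def (fun c => f c ++ g c) := by
  obtain ⟨e₁, h₁⟩ := hf
  obtain ⟨e₂, h₂⟩ := hg
  exact ⟨.app e₁ e₂, fun c => by simp [den, h₁, h₂]⟩

theorem Def.bit {C : Type} [Ctx C] (b : Bool) : Def (fun _ : C => [b]) := ⟨.bit b, fun _ => rfl⟩

theorem Def.const {C : Type} [Ctx C] (l : List Bool) : Def (fun _ : C => l) := by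
  induction l with
  | nil => exact Def.nil
  | cons b l ih => exact Def.app (Def.bit b) ih

theorem PM.const {C D : Type} [Ctx C] [Ctx D] (d : D) : PM (fun _ : C => d) :=
  fun _ _ => Def.const _

/-- The basic loop. -/
theorem Def.forr {C : Type} [Ctx C] {g : Bool → C × (List Bool × List Bool) → List Bool}
    (hg : ∀ b, Def (g b)) {h : C → List Bool} (hh : Def h) :
    Def (fun c => forAux (fun b pre suf => g b (c, (pre, suf))) [] (h c)) := by
  obtain ⟨ef, hf⟩ := hg false
  obtain ⟨et, ht⟩ := hg true
  obtain ⟨e, he⟩ := hh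
  refine ⟨.lett e (.forr (Ctx.n C) (shift (Ctx.n C) 1 ef) (shift (Ctx.n C) 1 et)), fun c => ?_⟩
  simp only [den, he c, Function.update_self]
  congr 1
  funext b pre suf
  have h1 : ∀ i, envOf (c, (pre, suf)) i =
      Function.update (Function.update (Function.update (envOf c) (Ctx.n C) (h c))
        (Ctx.n C + 1) pre) (Ctx.n C + 1 + 1) suf (if i < Ctx.n C then i else i + 1) := by
    intro i
    by_cases hi : i < Ctx.n C
    · have a1 : i ≠ Ctx.n C + 1 + 1 := by omega
      have a2 : i ≠ Ctx.n C + 1 := by omega
      have a3 : i ≠ Ctx.n C := by omega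
      have a4 : i < Ctx.n C + (1 + 1) := by omega
      simp only [hi, if_true, Function.update_of_ne a1, Function.update_of_ne a2,
        Function.update_of_ne a3]
      simp [envOf, Ctx.n, Ctx.V, hi, a4]
    · simp only [hi, if_false]
      by_cases h2 : i = Ctx.n C
      · subst h2
        simp [envOf, Ctx.n, Ctx.V]
      · by_cases h3 : i = Ctx.n C + 1
        · subst h3
          simp [envOf, Ctx.n, Ctx.V]
        · have a1 : i + 1 ≠ Ctx.n C + 1 + 1 := by omega
          have a2 : i + 1 ≠ Ctx.n C + 1 := by omega
          have a3 : i + 1 ≠ Ctx.n C := by omega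
          have a4 : ¬ i < Ctx.n C + (1 + 1) := by omega
          rw [Function.update_of_ne a1, Function.update_of_ne a2, Function.update_of_ne a3,
            envOf_ge c (by omega)]
          simp [envOf, Ctx.n, a4]
  have e2 : Ctx.n C + 1 + 2 = Ctx.n C + 2 + 1 := by omega
  rw [e2]
  have h3 := den_shift ef (Ctx.n C) 1 (Ctx.n C + 2) _ _ (by omega) h1
  have h4 := den_shift et (Ctx.n C) 1 (Ctx.n C + 2) _ _ (by omega) h1
  rw [h3, h4]
  cases b with
  | false => exact hf (c, (pre, suf))
  | true => exact ht (c, (pre, suf))

/-! ### String-valued functions -/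

section str

variable {C : Type} [Ctx C]

theorem PM.app {f g : C → List Bool} (hf : PM f) (hg : PM g) : PM (fun c => f c ++ g c) :=
  pm_str.2 (Def.app (pm_str.1 hf) (pm_str.1 hg))

theorem PM.forr {g : Bool → C × (List Bool × List Bool) → List Bool} (hg : ∀ b, PM (g b))
    {h : C → List Bool} (hh : PM h) :
    PM (fun c => forAux (fun b pre suf => g b (c, (pre, suf))) [] (h c)) :=
  pm_str.2 (Def.forr (fun b => pm_str.1 (hg b)) (pm_str.1 hh))

theorem forAux_flatMap (g : Bool → List Bool) (l : List Bool) : ∀ pre,
    forAux (fun b _ _ => g b) pre l = l.flatMap g := by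
  induction l with
  | nil => intro pre; rfl
  | cons b l ih => intro pre; simp [forAux, ih]

/-- Apply a function to each bit of a string and concatenate the results. -/
theorem PM.flatMap {g : Bool → C → List Bool} (hg : ∀ b, PM (g b)) {h : C → List Bool}
    (hh : PM h) : PM (fun c => (h c).flatMap (fun b => g b c)) := by
  have h1 := PM.forr (g := fun b x => g b x.1) (fun b => (hg b).comp PM.fst) hh
  have h2 : (fun c => forAux (fun b pre suf => g b (c, (pre, suf)).1) [] (h c)) =
      fun c => (h c).flatMap (fun b => g b c) := by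
    funext c
    exact forAux_flatMap (fun b => g b c) _ _
  rwa [h2] at h1

/-- Definition by cases on a definable boolean. -/
theorem Def.cond {p : C → Bool} (hp : PM p) {f g : C → List Bool} (hf : Def f) (hg : Def g) :
    Def (fun c => bif p c then f c else g c) := by
  have h1 := PM.flatMap (g := fun b c => Bool.rec (g c) (f c) b) (h := fun c => [p c])
    (fun b => by cases b with
      | false => exact pm_str.2 hg
      | true => exact pm_str.2 hf) (pm_str.2 (pm_bool.1 hp))
  have h2 : (fun c => ([p c]).flatMap (fun b => (Bool.rec (g c) (f c) b : List Bool))) =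
      fun c => bif p c then f c else g c := by
    funext c
    cases p c <;> simp
  rw [h2] at h1
  exact pm_str.1 h1

end str

section general

variable {C D : Type} [Ctx C] [Ctx D]

theorem PM.cond {p : C → Bool} (hp : PM p) {f g : C → D} (hf : PM f) (hg : PM g) :
    PM (fun c => bif p c then f c else g c) := by
  intro i hi
  have h := Def.cond hp (hf i hi) (hg i hi)
  have h2 : (fun c => Ctx.V i (bif p c then f c else g c)) =
      fun c => bif p c then Ctx.V i (f c) else Ctx.V i (g c) := by
    funext c
    cases p c <;> rfl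
  rw [h2]
  exact h

/-- Definable predicates. -/
def PMP (p : C → Prop) : Prop := ∃ q : C → Bool, PM q ∧ ∀ c, q c = true ↔ p c

theorem PM.ite {p : C → Prop} [∀ c, Decidable (p c)] (hp : PMP p) {f g : C → D} (hf : PM f)
    (hg : PM g) : PM (fun c => if p c then f c else g c) := by
  obtain ⟨q, hq, hqp⟩ := hp
  have h := PM.cond hq hf hg
  have h2 : (fun c => bif q c then f c else g c) = fun c => if p c then f c else g c := by
    funext c
    by_cases hc : p c
    · simp [hc, (hqp c).2 hc]
    · have : q c = false := by
        rw [← Bool.not_eq_true, hqp c]; exact hc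
      simp [hc, this]
  rwa [h2] at h

end general

section preds

variable {C : Type} [Ctx C]

theorem PMP.of_bool {q : C → Bool} (hq : PM q) : PMP (fun c => q c = true) :=
  ⟨q, hq, fun _ => Iff.rfl⟩

theorem PMP.congr {p q : C → Prop} (hp : PMP p) (h : ∀ c, p c ↔ q c) : PMP q := by
  obtain ⟨f, hf, hfp⟩ := hp
  exact ⟨f, hf, fun c => (hfp c).trans (h c)⟩

theorem PMP.decide {p : C → Prop} [∀ c, Decidable (p c)] (hp : PMP p) :
    PM (fun c => decide (p c)) := by
  obtain ⟨q, hq, hqp⟩ := hp
  have : (fun c => Decidable.decide (p c)) = q := by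
    funext c
    by_cases hc : p c
    · simp [hc, (hqp c).2 hc]
    · have : q c = false := by
        rw [← Bool.not_eq_true, hqp c]; exact hc
      simp [hc, this]
  rw [this]
  exact hq

theorem PMP.comp {D : Type} [Ctx D] {p : D → Prop} (hp : PMP p) {φ : C → D} (hφ : PM φ) :
    PMP (fun c => p (φ c)) := by
  obtain ⟨q, hq, hqp⟩ := hp
  exact ⟨fun c => q (φ c), hq.comp hφ, fun c => hqp _⟩

theorem PMP.true : PMP (fun _ : C => True) := ⟨fun _ => Bool.true, PM.const _, fun _ => by simp⟩

theorem PMP.false : PMP (fun _ : C => False) := ⟨fun _ => Bool.false, PM.const _, fun _ => by simp⟩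

theorem PMP.not {p : C → Prop} (hp : PMP p) : PMP (fun c => ¬ p c) := by
  obtain ⟨q, hq, hqp⟩ := hp
  refine ⟨fun c => bif q c then Bool.false else Bool.true, PM.cond hq (PM.const _) (PM.const _),
    fun c => ?_⟩
  show _ ↔ ¬ p c
  rw [← hqp c]
  show (bif q c then Bool.false else Bool.true) = Bool.true ↔ _
  cases q c <;> simp

theorem PMP.and {p q : C → Prop} (hp : PMP p) (hq : PMP q) : PMP (fun c => p c ∧ q c) := by
  obtain ⟨f, hf, hfp⟩ := hp
  obtain ⟨g, hg, hgp⟩ := hq
  refine ⟨fun c => bif f c then g c else Bool.false, PM.cond hf hg (PM.const _), fun c => ?_⟩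
  show _ ↔ p c ∧ q c
  rw [← hfp c, ← hgp c]
  show (bif f c then g c else Bool.false) = Bool.true ↔ _
  cases f c <;> simp

theorem PMP.or {p q : C → Prop} (hp : PMP p) (hq : PMP q) : PMP (fun c => p c ∨ q c) := by
  obtain ⟨f, hf, hfp⟩ := hp
  obtain ⟨g, hg, hgp⟩ := hq
  refine ⟨fun c => bif f c then Bool.true else g c, PM.cond hf (PM.const _) hg, fun c => ?_⟩
  show _ ↔ p c ∨ q c
  rw [← hfp c, ← hgp c]
  show (bif f c then Bool.true else g c) = Bool.true ↔ _
  cases f c <;> simp

/-- Emptiness test. -/
theorem PMP.isNil {f : C → List Bool} (hf : PM f) : PMP (fun c => f c = []) := by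
  have h1 : PM (fun x : List Bool => if x = [] then Bool.true else Bool.false) := by
    rw [pm_bool]
    refine ⟨.ifNil 0 (.bit Bool.true) (.bit Bool.false), fun x => ?_⟩
    have h : envOf x 0 = x := by simp [envOf, Ctx.n, Ctx.V]
    simp only [den, h]
    split <;> rfl
  refine ⟨_, h1.comp hf, fun c => ?_⟩
  by_cases h : f c = [] <;> simp [h]

theorem PMP.length_le {f g : C → List Bool} (hf : PM f) (hg : PM g) :
    PMP (fun c => (f c).length ≤ (g c).length) := by
  have h1 : PM (fun x : List Bool × List Bool =>
      if x.1.length ≤ x.2.length then Bool.true else Bool.false) := by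
    rw [pm_bool]
    refine ⟨.ifLe 0 1 (.bit Bool.true) (.bit Bool.false), fun x => ?_⟩
    have h : envOf x 0 = x.1 := by simp [envOf, Ctx.n, Ctx.V]
    have h' : envOf x 1 = x.2 := by simp [envOf, Ctx.n, Ctx.V]
    simp only [den, h, h']
    split <;> rfl
  refine ⟨_, h1.comp (hf.pair hg), fun c => ?_⟩
  by_cases h : (f c).length ≤ (g c).length <;> simp [h]

theorem PM.length {f : C → List Bool} (hf : PM f) : PM (fun c => (f c).length) := by
  rw [pm_nat]
  have h := PM.flatMap (g := fun _ _ => [Bool.true]) (fun _ => PM.const _) hf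
  have h2 : (fun c => (f c).flatMap (fun _ => [Bool.true])) =
      fun c => List.replicate (f c).length Bool.true := by
    funext c
    induction f c with
    | nil => rfl
    | cons b l ih => simp [List.replicate_succ, ih]
  rw [h2] at h
  exact pm_str.1 h

/-- The unary representation of a number. -/
theorem PM.unary {f : C → ℕ} (hf : PM f) : PM (fun c => List.replicate (f c) Bool.true) :=
  pm_str.2 (pm_nat.1 hf)

theorem PMP.le {f g : C → ℕ} (hf : PM f) (hg : PM g) : PMP (fun c => f c ≤ g c) :=
  (PMP.length_le hf.unary hg.unary).congr (fun c => by simp)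

theorem PMP.lt {f g : C → ℕ} (hf : PM f) (hg : PM g) : PMP (fun c => f c < g c) :=
  (PMP.le hg hf).not.congr (fun c => by simp)

theorem PMP.eq {f g : C → ℕ} (hf : PM f) (hg : PM g) : PMP (fun c => f c = g c) :=
  ((PMP.le hf hg).and (PMP.le hg hf)).congr (fun c => by omega)

theorem PM.add {f g : C → ℕ} (hf : PM f) (hg : PM g) : PM (fun c => f c + g c) := by
  rw [pm_nat]
  have h := pm_str.1 (hf.unary.app hg.unary)
  have h2 : (fun c => List.replicate (f c) Bool.true ++ List.replicate (g c) Bool.true) =
      fun c => List.replicate (f c + g c) Bool.true := by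
    funext c
    simp
  rwa [h2] at h

theorem range'_forAux (G : ℕ → List Bool) : ∀ (m k : ℕ),
    forAux (fun _ pre _ => G pre.length) (List.replicate k Bool.true) (List.replicate m Bool.true) =
      (List.range' k m).flatMap G := by
  intro m
  induction m with
  | zero => intro k; simp [forAux]
  | succ m ih =>
    intro k
    simp only [List.replicate_succ, forAux, List.length_replicate, List.range'_succ,
      List.flatMap_cons]
    rw [← ih (k + 1)]
    rfl

/-- Concatenation over a range. -/
theorem PM.rangeFlatMap {N : C → ℕ} (hN : PM N) {g : C × ℕ → List Bool} (hg : PM g) :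
    PM (fun c => (List.range (N c)).flatMap (fun i => g (c, i))) := by
  have h1 := PM.forr (g := fun _ x => g (x.1, x.2.1.length)) (h := fun c =>
    List.replicate (N c) Bool.true) (fun b => hg.comp (PM.fst.pair (PM.length (PM.fst.comp PM.snd))))
    hN.unary
  have h2 : (fun c => forAux (fun _ pre _ => g (c, pre.length)) []
      (List.replicate (N c) Bool.true)) =
      fun c => (List.range (N c)).flatMap (fun i => g (c, i)) := by
    funext c
    have := range'_forAux (fun i => g (c, i)) (N c) 0
    rw [List.range_eq_range']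
    exact this
  rwa [h2] at h1

theorem PM.range {N : C → ℕ} (hN : PM N) {g : C → ℕ → List Bool}
    (hg : PM (fun y : C × ℕ => g y.1 y.2)) :
    PM (fun c => (List.range (N c)).flatMap (fun i => g c i)) :=
  PM.rangeFlatMap hN hg

theorem PM.sum {N : C → ℕ} (hN : PM N) {g : C × ℕ → ℕ} (hg : PM g) :
    PM (fun c => ((List.range (N c)).map (fun i => g (c, i))).sum) := by
  rw [pm_nat]
  have h := pm_str.1 (PM.rangeFlatMap hN hg.unary)
  have h2 : (fun c => (List.range (N c)).flatMap (fun i => List.replicate (g (c, i)) Bool.true)) =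
      fun c => List.replicate ((List.range (N c)).map (fun i => g (c, i))).sum Bool.true := by
    funext c
    induction List.range (N c) with
    | nil => rfl
    | cons b l ih => simp [ih]
  rwa [h2] at h

theorem PM.mul {f g : C → ℕ} (hf : PM f) (hg : PM g) : PM (fun c => f c * g c) := by
  have h := PM.sum hf (hg.comp (PM.fst (D := ℕ)))
  have h2 : (fun c => ((List.range (f c)).map (fun _ => g c)).sum) = fun c => f c * g c := by
    funext c
    simp
  rwa [h2] at h

theorem PM.pow {f : C → ℕ} (hf : PM f) (k : ℕ) : PM (fun c => f c ^ k) := by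
  induction k with
  | zero => simpa using PM.const (C := C) 1
  | succ k ih => simpa [pow_succ] using ih.mul hf

theorem PM.poly {f : C → ℕ} (hf : PM f) (p : Polynomial ℕ) : PM (fun c => p.eval (f c)) := by
  induction p using Polynomial.induction_on' with
  | add p q hp hq => simpa using hp.add hq
  | monomial n a => simpa using (PM.const (C := C) a).mul (hf.pow n)

theorem PM.sub {f g : C → ℕ} (hf : PM f) (hg : PM g) : PM (fun c => f c - g c) := by
  have h : PM (fun c => ((List.range (f c)).map (fun i => if g c ≤ i then 1 else 0)).sum) :=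
    PM.sum hf (g := fun x => if g x.1 ≤ x.2 then 1 else 0)
      (PM.ite (PMP.le (hg.comp PM.fst) PM.snd) (PM.const 1) (PM.const 0))
  have h2 : (fun c => ((List.range (f c)).map (fun i => if g c ≤ i then 1 else 0)).sum) =
      fun c => f c - g c := by
    funext c
    generalize f c = a
    generalize g c = b
    induction a with
    | zero => simp
    | succ a ih =>
      rw [List.range_succ, List.map_append, List.sum_append, ih]
      simp only [List.map_cons, List.map_nil, List.sum_cons, List.sum_nil]
      split <;> omega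
  rwa [h2] at h

/-- Bounded quantification. -/
theorem PMP.ball {N : C → ℕ} (hN : PM N) {p : C × ℕ → Prop} (hp : PMP p) :
    PMP (fun c => ∀ i < N c, p (c, i)) := by
  classical
  have h := PM.rangeFlatMap hN (g := fun x => if p x then [] else [Bool.true])
    (PM.ite hp (PM.const _) (PM.const _))
  refine (PMP.isNil h).congr (fun c => ?_)
  simp [List.flatMap_eq_nil_iff]

theorem PMP.bex {N : C → ℕ} (hN : PM N) {p : C × ℕ → Prop} (hp : PMP p) :
    PMP (fun c => ∃ i < N c, p (c, i)) :=
  (PMP.ball hN hp.not).not.congr (fun c => by push Not; rfl)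

/-- Finite case distinction: concatenation over a fixed list. -/
theorem PM.listFlatMap {A : Type} (L : List A) {g : A → C → List Bool} (hg : ∀ a ∈ L, PM (g a)) :
    PM (fun c => L.flatMap (fun a => g a c)) := by
  induction L with
  | nil => exact PM.const _
  | cons a L ih =>
    exact (hg a List.mem_cons_self).app (ih (fun b hb => hg b (List.mem_cons_of_mem _ hb)))

theorem forAux_find (b : Bool) (i : ℕ) : ∀ (l pre : List Bool),
    forAux (fun b' pre _ => if pre.length = i ∧ b' = b then [Bool.true] else []) pre l ≠ [] ↔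
      ∃ j, l[j]? = some b ∧ pre.length + j = i := by
  intro l
  induction l with
  | nil => intro pre; simp [forAux]
  | cons c l ih =>
    intro pre
    simp only [forAux, ne_eq, List.append_eq_nil_iff, not_and_or]
    rw [← ne_eq, ← ne_eq, ih (c :: pre)]
    constructor
    · rintro (h | ⟨j, hj, hji⟩)
      · by_cases hc : pre.length = i ∧ c = b
        · exact ⟨0, by simp [hc.2], by simp [hc.1]⟩
        · simp [hc] at h
      · refine ⟨j + 1, by simpa using hj, ?_⟩
        simp only [List.length_cons] at hji
        omega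
    · rintro ⟨j, hj, hji⟩
      rcases j with _ | j
      · left
        have hc : pre.length = i ∧ c = b := ⟨by simpa using hji, by simpa using hj⟩
        simp [hc]
      · right
        refine ⟨j, by simpa using hj, ?_⟩
        simp only [List.length_cons]
        omega

theorem PMP.getElem {h : C → List Bool} (hh : PM h) {i : C → ℕ} (hi : PM i) (b : Bool) :
    PMP (fun c => (h c)[i c]? = some b) := by
  have h1 := PM.forr (g := fun b' x => if x.2.1.length = i x.1 ∧ b' = b then [Bool.true] else [])
    (h := h) (fun b' => PM.ite ((PMP.eq (PM.length (PM.fst.comp PM.snd)) (hi.comp PM.fst)).and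
      (by
        by_cases hb : b' = b
        · exact PMP.true.congr (fun _ => by simp [hb])
        · exact PMP.false.congr (fun _ => by simp [hb]))) (PM.const _) (PM.const _)) hh
  refine (PMP.isNil h1).not.congr (fun c => ?_)
  have h2 := forAux_find b (i c) (h c) []
  simp only [List.length_nil, Nat.zero_add] at h2
  rw [← ne_eq]
  refine h2.trans ?_
  constructor
  · rintro ⟨j, hj, rfl⟩
    exact hj
  · intro hj
    exact ⟨_, hj, rfl⟩

theorem PM.optElim {D : Type} [Ctx D] {h : C → List Bool} (hh : PM h) {i : C → ℕ} (hi : PM i)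
    {A : C → D} (hA : PM A) {B : Bool → C → D} (hB : ∀ b, PM (B b)) :
    PM (fun c => ((h c)[i c]?).elim (A c) (fun b => B b c)) := by
  classical
  have h1 := PM.ite (PMP.getElem hh hi Bool.true) (hB Bool.true)
    (PM.ite (PMP.getElem hh hi Bool.false) (hB Bool.false) hA)
  have h2 : (fun c => if (h c)[i c]? = some Bool.true then B Bool.true c else
      if (h c)[i c]? = some Bool.false then B Bool.false c else A c) =
      (fun c => ((h c)[i c]?).elim (A c) (fun b => B b c)) := by
    funext c
    rcases (h c)[i c]? with _ | b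
    · simp
    · cases b <;> simp
  rwa [h2] at h1

end preds

end Pool.Agent.Helper78.PT
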