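import Pool.Agent.Helper78.Prog

/-!
# A total language of bit-string expressions, all of which are polynomial-time computable

Variables are de Bruijn *levels*: an expression at level `n` may use the variables `0, ..., n-1`
and its binders bind the variables `n` (and `n + 1`).
-/

namespace Pool.Agent.Helper78.PT

open Turing

/-- Expressions denoting bit strings. -/
inductive E : Type
  | nil : E
  | bit (b : Bool) : E
  | app (e₁ e₂ : E) : E
  | var (i : ℕ) : E
  /-- loop over the bits of variable `i`; the body may use the reversed prefix and the suffix -/
  | forr (i : ℕ) (ef et : E) : E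
  | lett (e₁ e₂ : E) : E
  | ifNil (i : ℕ) (e₁ e₂ : E) : E
  /-- compare the lengths of two variables -/
  | ifLe (i j : ℕ) (e₁ e₂ : E) : E

/-- Traverse a list; `f b pre suf` is called at each position, where `b` is the current element,
`pre` the reversed list of the previous elements, and `suf` the list of the following ones. -/
def forAux (f : Bool → List Bool → List Bool → List Bool) : List Bool → List Bool → List Bool
  | _, [] => []
  | pre, b :: suf => f b pre suf ++ forAux f (b :: pre) suf

/-- Denotation. -/
def den : E → ℕ → (ℕ → List Bool) → List Bool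
  | .nil, _, _ => []
  | .bit b, _, _ => [b]
  | .app e₁ e₂, n, v => den e₁ n v ++ den e₂ n v
  | .var i, _, v => v i
  | .forr i ef et, n, v => forAux (fun b pre suf =>
      cond b (den et (n + 2) (Function.update (Function.update v n pre) (n + 1) suf))
        (den ef (n + 2) (Function.update (Function.update v n pre) (n + 1) suf))) [] (v i)
  | .lett e₁ e₂, n, v => den e₂ (n + 1) (Function.update v n (den e₁ n v))
  | .ifNil i e₁ e₂, n, v => if v i = [] then den e₁ n v else den e₂ n v
  | .ifLe i j e₁ e₂, n, v => if (v i).length ≤ (v j).length then den e₁ n v else den e₂ n v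

/-- Empty the stack `a`. -/
def clear (a : ℕ) : Prog := .loop a .skip .skip

/-- Move the stack `a` to the stack `b`, reversing it. -/
def move (a b : ℕ) : Prog := .loop a (.push b false) (.push b true)

/-- Copy the stack `a` to the stack `c`, using the scratch stack `m`. -/
def dup (a m c : ℕ) : Prog :=
  .seq (move a m) (.loop m (.seq (.push a false) (.push c false)) (.seq (.push a true) (.push c true)))

/-- Push the stack `a` on the stack `o`, top first, using the scratch stack `m`. -/
def emit (a m o : ℕ) : Prog :=
  .seq (.loop a (.seq (.push m false) (.push o false)) (.seq (.push m true) (.push o true)))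
    (move m a)

/-- Compile an expression at level `n` with variables stored on the stacks given by `ρ`, output
pushed on the stack `o`, and all the stacks from `m` on empty. -/
def comp : E → (n : ℕ) → (ρ : ℕ → ℕ) → (o m : ℕ) → Prog
  | .nil, _, _, _, _ => .skip
  | .bit b, _, _, o, _ => .push o b
  | .app e₁ e₂, n, ρ, o, m => .seq (comp e₁ n ρ o m) (comp e₂ n ρ o m)
  | .var i, _, ρ, o, m => emit (ρ i) m o
  | .forr i ef et, n, ρ, o, m =>
      .seq (dup (ρ i) m (m + 1))
        (.seq (.loop (m + 1)
          (.seq (comp ef (n + 2) (Function.update (Function.update ρ n m) (n + 1) (m + 1)) o (m + 2))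
            (.push m false))
          (.seq (comp et (n + 2) (Function.update (Function.update ρ n m) (n + 1) (m + 1)) o (m + 2))
            (.push m true)))
          (clear m))
  | .lett e₁ e₂, n, ρ, o, m =>
      .seq (comp e₁ n ρ m (m + 1))
        (.seq (move m (m + 1))
          (.seq (comp e₂ (n + 1) (Function.update ρ n (m + 1)) o (m + 2)) (clear (m + 1))))
  | .ifNil i e₁ e₂, n, ρ, o, m =>
      .ifTop (ρ i) (comp e₁ n ρ o m) (comp e₂ n ρ o m) (comp e₂ n ρ o m)
  | .ifLe i j e₁ e₂, n, ρ, o, m =>
      .seq (dup (ρ i) m (m + 1))
        (.seq (dup (ρ j) m (m + 2))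
          (.seq (.loop (m + 1) (.ifTop (m + 2) (.push m true) (.pop (m + 2)) (.pop (m + 2)))
              (.ifTop (m + 2) (.push m true) (.pop (m + 2)) (.pop (m + 2))))
            (.seq (clear (m + 2))
              (.ifTop m (comp e₁ n ρ o m) (.seq (clear m) (comp e₂ n ρ o m))
                (.seq (clear m) (comp e₂ n ρ o m))))))

/-! ### Cost of the basic programs -/

theorem exec_eq {p : Prog} {s s' s'' : St} {t t' : ℕ} (h : Exec p s t s') (ht : t = t')
    (hs : s' = s'') : Exec p s t' s'' := by
  subst ht hs
  exact h

theorem exec_clear (a : ℕ) : ∀ (l : List Bool) (s : St), s a = l →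
    Exec (clear a) s (2 * l.length + 1) (Function.update s a []) := by
  intro l
  induction l with
  | nil =>
    intro s hs
    refine exec_eq (Exec.loopNil hs) rfl ?_
    rw [← hs]
    exact (Function.update_eq_self a s).symm
  | cons b l ih =>
    intro s hs
    have h1 := ih (Function.update s a l) (by simp)
    cases b with
    | false =>
      refine exec_eq (Exec.loopFalse hs (Exec.skip _) h1) ?_ (by simp)
      simp only [List.length_cons]
      omega
    | true =>
      refine exec_eq (Exec.loopTrue hs (Exec.skip _) h1) ?_ (by simp)
      simp only [List.length_cons]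
      omega

theorem exec_move {a b : ℕ} (hab : a ≠ b) : ∀ (l : List Bool) (s : St), s a = l →
    Exec (move a b) s (2 * l.length + 1)
      (Function.update (Function.update s a []) b (l.reverse ++ s b)) := by
  intro l
  induction l with
  | nil =>
    intro s hs
    refine exec_eq (Exec.loopNil hs) rfl ?_
    funext k
    by_cases hk : k = b
    · subst hk; simp
    · by_cases hk' : k = a
      · subst hk'; simp [hk, hs]
      · simp [hk, hk']
  | cons c l ih =>
    intro s hs
    have h1 := ih (Function.update (Function.update s a l) b (c :: s b)) (by simp [hab])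
    cases c with
    | false =>
      refine exec_eq (Exec.loopFalse hs (exec_eq (Exec.push b false _) rfl
        (by simp [hab.symm])) h1) ?_ ?_
      · simp only [List.length_cons]
        omega
      · funext k
        by_cases hk : k = b
        · subst hk; simp
        · by_cases hk' : k = a
          · subst hk'; simp [hk]
          · simp [hk, hk']
    | true =>
      refine exec_eq (Exec.loopTrue hs (exec_eq (Exec.push b true _) rfl
        (by simp [hab.symm])) h1) ?_ ?_
      · simp only [List.length_cons]
        omega
      · funext k
        by_cases hk : k = b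
        · subst hk; simp
        · by_cases hk' : k = a
          · subst hk'; simp [hk]
          · simp [hk, hk']

/-- The loop pushing the content of `m` on both `a` and `c`. -/
theorem exec_move2 {a m c : ℕ} (ham : a ≠ m) (hac : a ≠ c) (hmc : m ≠ c) :
    ∀ (l : List Bool) (s : St), s m = l →
    Exec (.loop m (.seq (.push a false) (.push c false)) (.seq (.push a true) (.push c true))) s
      (3 * l.length + 1)
      (Function.update (Function.update (Function.update s m []) a (l.reverse ++ s a)) c
        (l.reverse ++ s c)) := by
  intro l
  induction l with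
  | nil =>
    intro s hs
    refine exec_eq (Exec.loopNil hs) rfl ?_
    funext k
    by_cases hk : k = c
    · subst hk; simp
    · by_cases hk' : k = a
      · subst hk'; simp [hk]
      · by_cases hk'' : k = m
        · subst hk''; simp [hk, hk', hs]
        · simp [hk, hk', hk'']
  | cons b l ih =>
    intro s hs
    have h1 := ih (Function.update (Function.update (Function.update s m l) a (b :: s a)) c
      (b :: s c)) (by simp [ham.symm, hmc])
    cases b with
    | false =>
      refine exec_eq (Exec.loopFalse hs (Exec.seq (Exec.push a false _)
        (exec_eq (Exec.push c false _) rfl ?_)) h1) ?_ ?_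
      · simp [ham, hac.symm, hmc.symm]
      · simp only [List.length_cons]
        omega
      · funext k
        by_cases hk : k = c
        · subst hk; simp
        · by_cases hk' : k = a
          · subst hk'; simp [hk]
          · by_cases hk'' : k = m
            · subst hk''; simp [hk, hk']
            · simp [hk, hk', hk'']
    | true =>
      refine exec_eq (Exec.loopTrue hs (Exec.seq (Exec.push a true _)
        (exec_eq (Exec.push c true _) rfl ?_)) h1) ?_ ?_
      · simp [ham, hac.symm, hmc.symm]
      · simp only [List.length_cons]
        omega
      · funext k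
        by_cases hk : k = c
        · subst hk; simp
        · by_cases hk' : k = a
          · subst hk'; simp [hk]
          · by_cases hk'' : k = m
            · subst hk''; simp [hk, hk']
            · simp [hk, hk', hk'']

theorem exec_dup {a m c : ℕ} (ham : a ≠ m) (hac : a ≠ c) (hmc : m ≠ c) (s : St)
    (hm : s m = []) :
    Exec (dup a m c) s (5 * (s a).length + 2) (Function.update s c (s a ++ s c)) := by
  have h1 := exec_move ham (s a) s rfl
  have h2 := exec_move2 ham hac hmc (s a).reverse
    (Function.update (Function.update s a []) m ((s a).reverse ++ s m)) (by simp [hm])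
  refine exec_eq (Exec.seq h1 h2) ?_ ?_
  · simp only [List.length_reverse]
    omega
  · funext k
    by_cases hk : k = c
    · subst hk; simp [hac.symm, hmc.symm]
    · by_cases hk' : k = a
      · subst hk'; simp [hk, ham]
      · by_cases hk'' : k = m
        · subst hk''; simp [hk, hk', hm]
        · simp [hk, hk', hk'']

theorem exec_emit {a m o : ℕ} (ham : a ≠ m) (hao : a ≠ o) (hmo : m ≠ o) (s : St)
    (hm : s m = []) :
    Exec (emit a m o) s (5 * (s a).length + 2) (Function.update s o ((s a).reverse ++ s o)) := by
  have h1 := exec_move2 (a := m) (m := a) (c := o) ham.symm hmo hao (s a) s rfl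
  have h2 := exec_move ham.symm (s a).reverse
    (Function.update (Function.update (Function.update s a []) m ((s a).reverse ++ s m)) o
      ((s a).reverse ++ s o)) (by simp [hm, hmo])
  refine exec_eq (Exec.seq h1 h2) ?_ ?_
  · simp only [List.length_reverse]
    omega
  · funext k
    by_cases hk : k = o
    · subst hk; simp [hao.symm, hmo.symm]
    · by_cases hk' : k = a
      · subst hk'; simp [hk, ham]
      · by_cases hk'' : k = m
        · subst hk''; simp [hk, hk', hm]
        · simp [hk, hk', hk'']

theorem exec_cmp (m : ℕ) : ∀ (l : List Bool) (s : St), s (m + 1) = l →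
    Exec (.loop (m + 1) (.ifTop (m + 2) (.push m true) (.pop (m + 2)) (.pop (m + 2)))
              (.ifTop (m + 2) (.push m true) (.pop (m + 2)) (.pop (m + 2)))) s (3 * l.length + 1)
      (Function.update (Function.update (Function.update s (m + 1) []) (m + 2)
        ((s (m + 2)).drop l.length)) m
          (List.replicate (l.length - (s (m + 2)).length) true ++ s m)) := by
  intro l
  induction l with
  | nil =>
    intro s hs
    refine exec_eq (Exec.loopNil hs) rfl ?_
    funext k
    by_cases hk : k = m
    · subst hk; simp
    · by_cases hk' : k = m + 2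
      · subst hk'; simp
      · by_cases hk'' : k = m + 1
        · subst hk''; simp [hs]
        · simp [hk, hk', hk'']
  | cons b l ih =>
    intro s hs
    have hbody : ∃ s1, Exec (.ifTop (m + 2) (.push m true) (.pop (m + 2)) (.pop (m + 2)))
        (Function.update s (m + 1) l) 2 s1 ∧ s1 (m + 1) = l ∧
        s1 (m + 2) = (s (m + 2)).tail ∧
        s1 m = List.replicate (1 - (s (m + 2)).length) true ++ s m ∧
        ∀ k, k ≠ m → k ≠ m + 1 → k ≠ m + 2 → s1 k = s k := by
      rcases h2 : s (m + 2) with _ | ⟨c, r⟩
      · refine ⟨_, Exec.ifNil (by simp [h2]) (Exec.push m true _), ?_, ?_, ?_, ?_⟩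
        · simp
        · simp [h2]
        · simp
        · intro k h3 h4 h5
          simp [h3, h4]
      · cases c with
        | false =>
          refine ⟨_, Exec.ifFalse (l := r) (by simp [h2]) (Exec.pop (m + 2) _), ?_, ?_, ?_, ?_⟩
          · simp
          · simp [h2]
          · simp
          · intro k h3 h4 h5
            simp [h4, h5]
        | true =>
          refine ⟨_, Exec.ifTrue (l := r) (by simp [h2]) (Exec.pop (m + 2) _), ?_, ?_, ?_, ?_⟩
          · simp
          · simp [h2]
          · simp
          · intro k h3 h4 h5
            simp [h4, h5]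
    obtain ⟨s1, he, e1, e2, e3, e4⟩ := hbody
    have h1 := ih s1 e1
    have hfin : Function.update (Function.update (Function.update s1 (m + 1) []) (m + 2)
        ((s1 (m + 2)).drop l.length)) m
          (List.replicate (l.length - (s1 (m + 2)).length) true ++ s1 m) =
        Function.update (Function.update (Function.update s (m + 1) []) (m + 2)
        ((s (m + 2)).drop (b :: l).length)) m
          (List.replicate ((b :: l).length - (s (m + 2)).length) true ++ s m) := by
      funext k
      by_cases hk : k = m
      · subst hk
        simp only [Function.update_self, e2, e3, List.length_tail, List.length_cons]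
        rw [← List.append_assoc, List.replicate_append_replicate]
        congr 2
        omega
      · by_cases hk' : k = m + 2
        · subst hk'
          simp [e2]
        · by_cases hk'' : k = m + 1
          · subst hk''; simp
          · simp [hk, hk', hk'', e4 k hk hk'' hk']
    rw [← hfin]
    cases b with
    | false =>
      refine exec_eq (Exec.loopFalse hs he h1) ?_ rfl
      simp only [List.length_cons]
      omega
    | true =>
      refine exec_eq (Exec.loopTrue hs he h1) ?_ rfl
      simp only [List.length_cons]
      omega

/-- State with `pre`, `suf`, `acc` on the stacks `m`, `m + 1`, `o`. -/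
def st3 (s : St) (m o : ℕ) (pre suf acc : List Bool) : St :=
  Function.update (Function.update (Function.update s m pre) (m + 1) suf) o acc

theorem exec_for {m o : ℕ} (hmo : o < m) (s : St) (F : Bool → List Bool → List Bool → List Bool)
    (B : Bool → Prog) (T Z : ℕ)
    (hB : ∀ b pre suf acc, pre.length + suf.length ≤ Z → ∃ t, t ≤ T ∧
      Exec (B b) (st3 s m o pre suf acc) t (st3 s m o pre suf ((F b pre suf).reverse ++ acc))) :
    ∀ (suf pre acc : List Bool), pre.length + suf.length ≤ Z → ∃ t, t ≤ suf.length * (T + 2) + 1 ∧
      Exec (.loop (m + 1) (.seq (B false) (.push m false)) (.seq (B true) (.push m true)))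
        (st3 s m o pre suf acc) t
        (st3 s m o (suf.reverse ++ pre) [] ((forAux F pre suf).reverse ++ acc)) := by
  intro suf
  induction suf with
  | nil =>
    intro pre acc _
    refine ⟨1, by simp, exec_eq (Exec.loopNil ?_) rfl ?_⟩
    · have : m + 1 ≠ o := by omega
      simp [st3, this]
    · simp [forAux]
  | cons b suf ih =>
    intro pre acc hlen
    have hm1o : m + 1 ≠ o := by omega
    have hmo' : m ≠ o := by omega
    obtain ⟨t1, ht1, he1⟩ := hB b pre suf acc (by simp only [List.length_cons] at hlen; omega)
    obtain ⟨t2, ht2, he2⟩ := ih (b :: pre) ((F b pre suf).reverse ++ acc)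
      (by simp only [List.length_cons] at hlen ⊢; omega)
    have hpush : Exec (.push m b) (st3 s m o pre suf ((F b pre suf).reverse ++ acc)) 1
        (st3 s m o (b :: pre) suf ((F b pre suf).reverse ++ acc)) := by
      refine exec_eq (Exec.push m b _) rfl ?_
      funext k
      by_cases hk : k = o
      · subst hk; simp [st3, hmo'.symm]
      · by_cases hk' : k = m + 1
        · subst hk'; simp [st3, hk]
        · by_cases hk'' : k = m
          · subst hk''; simp [st3, hk]
          · simp [st3, hk, hk', hk'']
    have hstart : Function.update (st3 s m o pre (b :: suf) acc) (m + 1) suf =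
        st3 s m o pre suf acc := by
      funext k
      by_cases hk : k = o
      · subst hk; simp [st3, hm1o.symm]
      · by_cases hk' : k = m + 1
        · subst hk'; simp [st3, hk]
        · simp [st3, hk, hk']
    have hfin : st3 s m o ((b :: suf).reverse ++ pre) []
        ((forAux F pre (b :: suf)).reverse ++ acc) =
        st3 s m o (suf.reverse ++ b :: pre) []
          ((forAux F (b :: pre) suf).reverse ++ ((F b pre suf).reverse ++ acc)) := by
      simp [forAux]
    rw [hfin]
    refine ⟨t1 + 1 + t2 + 1, ?_, ?_⟩
    · simp only [List.length_cons, Nat.add_mul]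
      omega
    · cases b with
      | false =>
        refine Exec.loopFalse (l := suf) ?_ ?_ he2
        · simp [st3, hm1o]
        · rw [hstart]
          exact Exec.seq he1 hpush
      | true =>
        refine Exec.loopTrue (l := suf) ?_ ?_ he2
        · simp [st3, hm1o]
        · rw [hstart]
          exact Exec.seq he1 hpush

/-! ### Length and time bounds -/

open Polynomial in
/-- A bound for the length of the value of an expression. -/
noncomputable def lb : E → Polynomial ℕ
  | .nil => 0
  | .bit _ => 1
  | .app e₁ e₂ => lb e₁ + lb e₂
  | .var _ => X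
  | .forr _ ef et => X * (lb ef + lb et)
  | .lett e₁ e₂ => (lb e₂).comp (X + lb e₁)
  | .ifNil _ e₁ e₂ => lb e₁ + lb e₂
  | .ifLe _ _ e₁ e₂ => lb e₁ + lb e₂

open Polynomial in
/-- A bound for the running time of a compiled expression. -/
noncomputable def tb : E → Polynomial ℕ
  | .nil => 1
  | .bit _ => 1
  | .app e₁ e₂ => tb e₁ + tb e₂
  | .var _ => 5 * X + 2
  | .forr _ ef et => (5 * X + 2) + (X * (tb ef + tb et + 2) + 1) + (2 * X + 1)
  | .lett e₁ e₂ => tb e₁ + (2 * lb e₁ + 1) + (tb e₂).comp (X + lb e₁) + (2 * lb e₁ + 1)
  | .ifNil _ e₁ e₂ => tb e₁ + tb e₂ + 1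
  | .ifLe _ _ e₁ e₂ => (5 * X + 2) + (5 * X + 2) + (3 * X + 1) + (2 * X + 1) + 1 + tb e₁ +
      (2 * X + 1) + tb e₂

theorem eval_mono (p : Polynomial ℕ) {a b : ℕ} (h : a ≤ b) : p.eval a ≤ p.eval b := by
  induction p using Polynomial.induction_on' with
  | add p q hp hq =>
    rw [Polynomial.eval_add, Polynomial.eval_add]
    exact Nat.add_le_add hp hq
  | monomial n c =>
    rw [Polynomial.eval_monomial, Polynomial.eval_monomial]
    exact Nat.mul_le_mul_left _ (Nat.pow_le_pow_left h _)

theorem length_forAux (F : Bool → List Bool → List Bool → List Bool) (Z L : ℕ)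
    (hF : ∀ b pre suf, pre.length + suf.length ≤ Z → (F b pre suf).length ≤ L) :
    ∀ (suf pre : List Bool), pre.length + suf.length ≤ Z →
      (forAux F pre suf).length ≤ suf.length * L := by
  intro suf
  induction suf with
  | nil => intro pre _; simp [forAux]
  | cons b suf ih =>
    intro pre h
    simp only [List.length_cons] at h
    have h1 := ih (b :: pre) (by simp only [List.length_cons]; omega)
    have h2 := hF b pre suf (by omega)
    simp only [forAux, List.length_append, List.length_cons, Nat.add_mul]
    omega

theorem den_length (e : E) : ∀ (n : ℕ) (v : ℕ → List Bool) (Z : ℕ), (∀ i, (v i).length ≤ Z) →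
    (den e n v).length ≤ (lb e).eval Z := by
  induction e with
  | nil => intro n v Z _; simp [den, lb]
  | bit b => intro n v Z _; simp [den, lb]
  | app e₁ e₂ ih₁ ih₂ =>
    intro n v Z h
    simp only [den, lb, List.length_append, Polynomial.eval_add]
    exact Nat.add_le_add (ih₁ n v Z h) (ih₂ n v Z h)
  | var i => intro n v Z h; simpa [den, lb] using h i
  | forr i ef et ihf iht =>
    intro n v Z h
    simp only [den, lb, Polynomial.eval_mul, Polynomial.eval_add, Polynomial.eval_X]
    refine le_trans (length_forAux _ Z ((lb ef).eval Z + (lb et).eval Z) ?_ (v i) [] ?_) ?_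
    · intro b pre suf hps
      have hv : ∀ j, (Function.update (Function.update v n pre) (n + 1) suf j).length ≤ Z := by
        intro j
        by_cases hj : j = n + 1
        · subst hj; simp; omega
        · by_cases hj' : j = n
          · subst hj'; simp; omega
          · simp [hj, hj', h j]
      cases b with
      | false => exact le_trans (ihf _ _ _ hv) (Nat.le_add_right _ _)
      | true => exact le_trans (iht _ _ _ hv) (Nat.le_add_left _ _)
    · simpa using h i
    · exact Nat.mul_le_mul_right _ (h i)
  | lett e₁ e₂ ih₁ ih₂ =>
    intro n v Z h
    simp only [den, lb, Polynomial.eval_comp, Polynomial.eval_add, Polynomial.eval_X]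
    apply ih₂
    intro j
    by_cases hj : j = n
    · subst hj
      simp only [Function.update_self]
      exact le_trans (ih₁ _ _ Z h) (Nat.le_add_left _ _)
    · simp only [Function.update_of_ne hj]
      exact le_trans (h j) (Nat.le_add_right _ _)
  | ifNil i e₁ e₂ ih₁ ih₂ =>
    intro n v Z h
    simp only [den, lb, Polynomial.eval_add]
    split
    · exact le_trans (ih₁ _ _ Z h) (Nat.le_add_right _ _)
    · exact le_trans (ih₂ _ _ Z h) (Nat.le_add_left _ _)
  | ifLe i j e₁ e₂ ih₁ ih₂ =>
    intro n v Z h
    simp only [den, lb, Polynomial.eval_add]
    split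
    · exact le_trans (ih₁ _ _ Z h) (Nat.le_add_right _ _)
    · exact le_trans (ih₂ _ _ Z h) (Nat.le_add_left _ _)

theorem comp_exec (e : E) : ∀ (n : ℕ) (v : ℕ → List Bool) (ρ : ℕ → ℕ) (o m : ℕ) (s : St) (Z : ℕ),
    (∀ i, s (ρ i) = v i) → (∀ i, ρ i < m) → (∀ i, ρ i ≠ o) → o < m →
    (∀ j, m ≤ j → s j = []) → (∀ i, (v i).length ≤ Z) →
    ∃ t, t ≤ (tb e).eval Z ∧
      Exec (comp e n ρ o m) s t (Function.update s o ((den e n v).reverse ++ s o)) := by
  induction e with
  | nil =>
    intro n v ρ o m s Z hv hρ hρo hom hs hZ
    refine ⟨1, by simp [tb], exec_eq (Exec.skip s) rfl ?_⟩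
    simp [den]
  | bit b =>
    intro n v ρ o m s Z hv hρ hρo hom hs hZ
    refine ⟨1, by simp [tb], exec_eq (Exec.push o b s) rfl ?_⟩
    simp [den]
  | app e₁ e₂ ih₁ ih₂ =>
    intro n v ρ o m s Z hv hρ hρo hom hs hZ
    obtain ⟨t1, ht1, h1⟩ := ih₁ n v ρ o m s Z hv hρ hρo hom hs hZ
    obtain ⟨t2, ht2, h2⟩ := ih₂ n v ρ o m
      (Function.update s o ((den e₁ n v).reverse ++ s o)) Z
      (by intro i; simp [hρo i, hv i]) hρ hρo hom
      (by intro j hj; have : j ≠ o := by omega
          simp [this, hs j hj]) hZ
    refine ⟨t1 + t2, ?_, exec_eq (Exec.seq h1 h2) rfl ?_⟩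
    · simp only [tb, Polynomial.eval_add]; omega
    · simp [den]
  | var i =>
    intro n v ρ o m s Z hv hρ hρo hom hs hZ
    have h1 := exec_emit (a := ρ i) (m := m) (o := o) (by have := hρ i; omega) (hρo i)
      (by omega) s (hs m le_rfl)
    refine ⟨_, ?_, exec_eq h1 rfl ?_⟩
    · simp only [tb, Polynomial.eval_add, Polynomial.eval_mul, Polynomial.eval_X,
        Polynomial.eval_ofNat]
      have := hZ i
      rw [hv i]
      omega
    · simp [den, hv i]
  | forr i ef et ihf iht =>
    intro n v ρ o m s Z hv hρ hρo hom hs hZ
    have h1 := exec_dup (a := ρ i) (m := m) (c := m + 1) (by have := hρ i; omega)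
      (by have := hρ i; omega) (by omega) s (hs m le_rfl)
    set F : Bool → List Bool → List Bool → List Bool := fun b pre suf =>
      cond b (den et (n + 2) (Function.update (Function.update v n pre) (n + 1) suf))
        (den ef (n + 2) (Function.update (Function.update v n pre) (n + 1) suf)) with hF
    set B : Bool → Prog := fun b => cond b
      (comp et (n + 2) (Function.update (Function.update ρ n m) (n + 1) (m + 1)) o (m + 2))
      (comp ef (n + 2) (Function.update (Function.update ρ n m) (n + 1) (m + 1)) o (m + 2))
      with hB
    have hbody : ∀ b pre suf acc, pre.length + suf.length ≤ Z →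
        ∃ t, t ≤ (tb ef).eval Z + (tb et).eval Z ∧
        Exec (B b) (st3 s m o pre suf acc) t (st3 s m o pre suf ((F b pre suf).reverse ++ acc)) := by
      intro b pre suf acc hps
      have c1 : ∀ j, st3 s m o pre suf acc
          (Function.update (Function.update ρ n m) (n + 1) (m + 1) j) =
          Function.update (Function.update v n pre) (n + 1) suf j := by
        intro j
        by_cases hj : j = n + 1
        · subst hj
          have : m + 1 ≠ o := by omega
          simp [st3, this]
        · by_cases hj' : j = n
          · subst hj'
            have : m ≠ o := by omega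
            simp [st3, this]
          · have h3 : ρ j ≠ m := by have := hρ j; omega
            have h4 : ρ j ≠ m + 1 := by have := hρ j; omega
            simp [st3, hj, hj', hρo j, h3, h4, hv j]
      have c2 : ∀ j, Function.update (Function.update ρ n m) (n + 1) (m + 1) j < m + 2 := by
        intro j
        by_cases hj : j = n + 1
        · subst hj; simp
        · by_cases hj' : j = n
          · subst hj'; simp
          · have := hρ j
            simp only [hj, hj', Function.update_of_ne, ne_eq, not_false_eq_true]
            omega
      have c3 : ∀ j, Function.update (Function.update ρ n m) (n + 1) (m + 1) j ≠ o := by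
        intro j
        by_cases hj : j = n + 1
        · subst hj; simp; omega
        · by_cases hj' : j = n
          · subst hj'; simp; omega
          · simp [hj, hj', hρo j]
      have c4 : ∀ j, m + 2 ≤ j → st3 s m o pre suf acc j = [] := by
        intro j hj
        have h3 : j ≠ o := by omega
        have h4 : j ≠ m := by omega
        have h5 : j ≠ m + 1 := by omega
        simp [st3, h3, h4, h5, hs j (by omega)]
      have c5 : ∀ j, (Function.update (Function.update v n pre) (n + 1) suf j).length ≤ Z := by
        intro j
        by_cases hj : j = n + 1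
        · subst hj; simp; omega
        · by_cases hj' : j = n
          · subst hj'; simp; omega
          · simp [hj, hj', hZ j]
      have hacc : st3 s m o pre suf acc o = acc := by simp [st3]
      have hupd : ∀ r, Function.update (st3 s m o pre suf acc) o r = st3 s m o pre suf r := by
        intro r; simp [st3]
      cases b with
      | false =>
        obtain ⟨t, ht, he⟩ := ihf (n + 2) _ _ o (m + 2) _ Z c1 c2 c3 (by omega) c4 c5
        rw [hacc, hupd] at he
        exact ⟨t, by omega, he⟩
      | true =>
        obtain ⟨t, ht, he⟩ := iht (n + 2) _ _ o (m + 2) _ Z c1 c2 c3 (by omega) c4 c5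
        rw [hacc, hupd] at he
        exact ⟨t, by omega, he⟩
    obtain ⟨t2, ht2, h2⟩ := exec_for hom s F B _ Z hbody (v i) [] (s o) (by simpa using hZ i)
    have hm1 : s (m + 1) = [] := hs _ (by omega)
    have hm0 : s m = [] := hs _ (by omega)
    have hstart : st3 s m o [] (v i) (s o) = Function.update s (m + 1) (s (ρ i) ++ s (m + 1)) := by
      funext k
      by_cases hk : k = o
      · subst hk
        have : k ≠ m + 1 := by omega
        simp [st3, this]
      · by_cases hk' : k = m + 1
        · subst hk'; simp [st3, hk, hm1, hv i]
        · by_cases hk'' : k = m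
          · subst hk''; simp [st3, hk, hm0]
          · simp [st3, hk, hk', hk'']
    rw [hstart] at h2
    have h3 := exec_clear m ((v i).reverse) (st3 s m o ((v i).reverse ++ []) []
      ((forAux F [] (v i)).reverse ++ s o)) (by
        have : m ≠ o := by omega
        simp [st3, this])
    refine ⟨_, ?_, exec_eq (Exec.seq h1 (Exec.seq h2 h3)) rfl ?_⟩
    · simp only [tb, Polynomial.eval_add, Polynomial.eval_mul, Polynomial.eval_X,
        Polynomial.eval_ofNat, Polynomial.eval_one, List.length_reverse]
      have h4 := hZ i
      rw [hv i]
      have h5 : (v i).length * (Polynomial.eval Z (tb ef) + Polynomial.eval Z (tb et) + 2) ≤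
        Z * (Polynomial.eval Z (tb ef) + Polynomial.eval Z (tb et) + 2) :=
        Nat.mul_le_mul_right _ h4
      omega
    · funext k
      by_cases hk : k = o
      · subst hk
        have h5 : k ≠ m := by omega
        simp [st3, den, hF, h5]
      · by_cases hk' : k = m + 1
        · subst hk'; simp [st3, hk, hm1]
        · by_cases hk'' : k = m
          · subst hk''; simp [hk, hm0]
          · simp [st3, hk, hk', hk'']
  | lett e₁ e₂ ih₁ ih₂ =>
    intro n v ρ o m s Z hv hρ hρo hom hs hZ
    have hm0 : s m = [] := hs _ (by omega)
    have hm1 : s (m + 1) = [] := hs _ (by omega)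
    obtain ⟨t1, ht1, h1⟩ := ih₁ n v ρ m (m + 1) s Z hv (fun i => by have := hρ i; omega)
      (fun i => by have := hρ i; omega) (by omega) (fun j hj => hs j (by omega)) hZ
    have h2 := exec_move (a := m) (b := m + 1) (by omega) ((den e₁ n v).reverse)
      (Function.update s m ((den e₁ n v).reverse ++ s m)) (by simp [hm0])
    have hs2 : Function.update (Function.update (Function.update s m
        ((den e₁ n v).reverse ++ s m)) m []) (m + 1) ((den e₁ n v).reverse.reverse ++
        (Function.update s m ((den e₁ n v).reverse ++ s m)) (m + 1)) =
        Function.update s (m + 1) (den e₁ n v) := by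
      funext k
      by_cases hk' : k = m + 1
      · subst hk'; simp [hm1]
      · by_cases hk'' : k = m
        · subst hk''; simp [hm0]
        · simp [hk', hk'']
    rw [hs2] at h2
    have hlen := den_length e₁ n v Z hZ
    obtain ⟨t3, ht3, h3⟩ := ih₂ (n + 1) (Function.update v n (den e₁ n v))
      (Function.update ρ n (m + 1)) o (m + 2) (Function.update s (m + 1) (den e₁ n v))
      (Z + (lb e₁).eval Z)
      (by
        intro i
        by_cases hi : i = n
        · subst hi; simp
        · have : ρ i ≠ m + 1 := by have := hρ i; omega
          simp [hi, this, hv i])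
      (by
        intro i
        by_cases hi : i = n
        · subst hi; simp
        · have := hρ i
          simp only [hi, Function.update_of_ne, ne_eq, not_false_eq_true]
          omega)
      (by
        intro i
        by_cases hi : i = n
        · subst hi; simp; omega
        · simp [hi, hρo i])
      (by omega)
      (by
        intro j hj
        have : j ≠ m + 1 := by omega
        simp [this, hs j (by omega)])
      (by
        intro i
        by_cases hi : i = n
        · subst hi; simp; omega
        · have := hZ i
          simp only [hi, Function.update_of_ne, ne_eq, not_false_eq_true]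
          omega)
    have h4 := exec_clear (m + 1) (den e₁ n v)
      (Function.update (Function.update s (m + 1) (den e₁ n v)) o
        ((den e₂ (n + 1) (Function.update v n (den e₁ n v))).reverse ++
          (Function.update s (m + 1) (den e₁ n v)) o))
      (by
        have : m + 1 ≠ o := by omega
        simp [this])
    refine ⟨_, ?_, exec_eq (Exec.seq h1 (Exec.seq h2 (Exec.seq h3 h4))) rfl ?_⟩
    · simp only [tb, Polynomial.eval_add, Polynomial.eval_mul, Polynomial.eval_X,
        Polynomial.eval_ofNat, Polynomial.eval_one, Polynomial.eval_comp, List.length_reverse]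
      omega
    · funext k
      by_cases hk : k = o
      · subst hk
        have h5 : k ≠ m + 1 := by omega
        simp [den, h5]
      · by_cases hk' : k = m + 1
        · subst hk'; simp [hk, hm1]
        · simp [hk, hk']
  | ifNil i e₁ e₂ ih₁ ih₂ =>
    intro n v ρ o m s Z hv hρ hρo hom hs hZ
    simp only [tb, Polynomial.eval_add, Polynomial.eval_one]
    rcases hvi : v i with _ | ⟨c, r⟩
    · obtain ⟨t1, ht1, h1⟩ := ih₁ n v ρ o m s Z hv hρ hρo hom hs hZ
      refine ⟨t1 + 1, by omega, exec_eq (Exec.ifNil (by rw [hv i, hvi]) h1) rfl ?_⟩
      simp [den, hvi]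
    · obtain ⟨t2, ht2, h2⟩ := ih₂ n v ρ o m s Z hv hρ hρo hom hs hZ
      cases c with
      | false =>
        refine ⟨t2 + 1, by omega, exec_eq (Exec.ifFalse (by rw [hv i, hvi]) h2) rfl ?_⟩
        simp [den, hvi]
      | true =>
        refine ⟨t2 + 1, by omega, exec_eq (Exec.ifTrue (by rw [hv i, hvi]) h2) rfl ?_⟩
        simp [den, hvi]
  | ifLe i j e₁ e₂ ih₁ ih₂ =>
    intro n v ρ o m s Z hv hρ hρo hom hs hZ
    have hm0 : s m = [] := hs _ (by omega)
    have hm1 : s (m + 1) = [] := hs _ (by omega)
    have hm2 : s (m + 2) = [] := hs _ (by omega)
    have hi := hρ i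
    have hj := hρ j
    have h1 := exec_dup (a := ρ i) (m := m) (c := m + 1) (by omega) (by omega) (by omega) s hm0
    set s1 := Function.update s (m + 1) (s (ρ i) ++ s (m + 1)) with hs1
    have h2 := exec_dup (a := ρ j) (m := m) (c := m + 2) (by omega) (by omega) (by omega) s1
      (by
        have : m ≠ m + 1 := by omega
        simp [hs1, this, hm0])
    set s2 := Function.update s1 (m + 2) (s1 (ρ j) ++ s1 (m + 2)) with hs2
    have e21 : s2 (m + 1) = v i := by simp [hs2, hs1, hm1, hv i]
    have e22 : s2 (m + 2) = v j := by
      have : ρ j ≠ m + 1 := by omega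
      simp [hs2, hs1, hm2, hv j, this]
    have e20 : s2 m = [] := by simp [hs2, hs1, hm0]
    have h3 := exec_cmp m (v i) s2 e21
    set s3 := Function.update (Function.update (Function.update s2 (m + 1) []) (m + 2)
        ((s2 (m + 2)).drop (v i).length)) m
          (List.replicate ((v i).length - (s2 (m + 2)).length) true ++ s2 m) with hs3
    have h4 := exec_clear (m + 2) ((v j).drop (v i).length) s3 (by
      have : m + 2 ≠ m := by omega
      simp [hs3, e22])
    have hs4 : Function.update s3 (m + 2) [] =
        Function.update s m (List.replicate ((v i).length - (v j).length) true) := by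
      funext k
      by_cases hk : k = m
      · subst hk; simp [hs3, e22, e20]
      · by_cases hk' : k = m + 1
        · subst hk'; simp [hs3, hm1]
        · by_cases hk'' : k = m + 2
          · subst hk''; simp [hm2]
          · simp [hs3, hs2, hs1, hk, hk', hk'']
    rw [hs4] at h4
    simp only [tb, Polynomial.eval_add, Polynomial.eval_mul, Polynomial.eval_X,
        Polynomial.eval_ofNat, Polynomial.eval_one]
    have hZi := hZ i
    have hZj := hZ j
    by_cases hle : (v i).length ≤ (v j).length
    · have hr : List.replicate ((v i).length - (v j).length) true = [] := by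
        rw [Nat.sub_eq_zero_of_le hle]; rfl
      rw [hr] at h4
      have hs5 : Function.update s m [] = s := by
        rw [← hm0]; exact Function.update_eq_self m s
      rw [hs5] at h4
      obtain ⟨t1, ht1, h5⟩ := ih₁ n v ρ o m s Z hv hρ hρo hom hs hZ
      refine ⟨_, ?_, exec_eq (Exec.seq h1 (Exec.seq h2 (Exec.seq h3 (Exec.seq h4
        (Exec.ifNil hm0 h5))))) rfl ?_⟩
      · have e3 : (s1 (ρ j)).length = (v j).length := by
          have : ρ j ≠ m + 1 := by omega
          simp [hs1, this, hv j]
        simp only [List.length_drop]
        rw [hv i, e3]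
        omega
      · simp [den, hle]
    · have hr : List.replicate ((v i).length - (v j).length) true =
          true :: List.replicate ((v i).length - (v j).length - 1) true := by
        rw [← List.replicate_succ]
        congr 1
        omega
      have h6 := exec_clear m (List.replicate ((v i).length - (v j).length) true)
        (Function.update s m (List.replicate ((v i).length - (v j).length) true)) (by simp)
      have hs5 : Function.update (Function.update s m
          (List.replicate ((v i).length - (v j).length) true)) m [] = s := by
        rw [Function.update_idem, ← hm0]; exact Function.update_eq_self m s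
      rw [hs5] at h6
      obtain ⟨t2, ht2, h5⟩ := ih₂ n v ρ o m s Z hv hρ hρo hom hs hZ
      refine ⟨_, ?_, exec_eq (Exec.seq h1 (Exec.seq h2 (Exec.seq h3 (Exec.seq h4
        (Exec.ifTrue (l := List.replicate ((v i).length - (v j).length - 1) true)
          (by simp [hr]) (Exec.seq h6 h5)))))) rfl ?_⟩
      · have e3 : (s1 (ρ j)).length = (v j).length := by
          have : ρ j ≠ m + 1 := by omega
          simp [hs1, this, hv j]
        simp only [List.length_drop, List.length_replicate]
        rw [hv i, e3]
        omega
      · simp [den, hle]

/-- Environment with `x` as variable `0`. -/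
def env1 (x : List Bool) : ℕ → List Bool := fun i => if i = 0 then x else []

theorem polyTime_den (e : E) : PolyTime (fun x => den e 1 (env1 x)) := by
  refine polyTime_of_exec
    (.seq (comp e 1 (fun i => if i = 0 then 0 else 1) 2 3) (.seq (clear 0) (move 2 1)))
    (tb e + (2 * Polynomial.X + 1) + (2 * lb e + 1)) _ ?_
  intro x
  obtain ⟨t, ht, h1⟩ := comp_exec e 1 (env1 x) (fun i => if i = 0 then 0 else 1) 2 3 (ini x)
    x.length
    (by intro i; by_cases hi : i = 0 <;> simp [hi, ini, env1])
    (by intro i; by_cases hi : i = 0 <;> simp [hi])
    (by intro i; by_cases hi : i = 0 <;> simp [hi])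
    (by omega)
    (by
      intro j hj
      have : j ≠ 0 := by omega
      simp [ini, this])
    (by intro i; by_cases hi : i = 0 <;> simp [hi, env1])
  have h2 := exec_clear 0 x (Function.update (ini x) 2 ((den e 1 (env1 x)).reverse ++ ini x 2))
    (by simp [ini])
  have h3 := exec_move (a := 2) (b := 1) (by omega) ((den e 1 (env1 x)).reverse)
    (Function.update (Function.update (ini x) 2 ((den e 1 (env1 x)).reverse ++ ini x 2)) 0 [])
    (by simp [ini])
  refine ⟨_, ?_, exec_eq (Exec.seq h1 (Exec.seq h2 h3)) rfl ?_⟩
  · have hlen := den_length e 1 (env1 x) x.length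
      (by intro i; by_cases hi : i = 0 <;> simp [hi, env1])
    simp only [Polynomial.eval_add, Polynomial.eval_mul, Polynomial.eval_X,
        Polynomial.eval_ofNat, Polynomial.eval_one, List.length_reverse]
    omega
  · funext k
    by_cases hk : k = 1
    · subst hk; simp [fin, ini]
    · by_cases hk' : k = 2
      · subst hk'; simp [fin]
      · by_cases hk'' : k = 0
        · subst hk''; simp [fin]
        · simp [fin, ini, hk, hk', hk'']

end Pool.Agent.Helper78.PT
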