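import Mathlib.Combinatorics.SimpleGraph.Metric
import Mathlib.Topology.Instances.Real.Lemmas
import Pool.Agent.Helper81.CxData

/-!
# Local metric dimension of planar graphs: definitions
-/

namespace Pool.Agent.Helper78.LMD

open Pool.Agent.Helper81.CC

/-- The graph with the vertices `0, ..., n - 1` whose edges are given by a list of pairs. -/
def graphOf (n : ℕ) (E : List (ℕ × ℕ)) : SimpleGraph (Fin n) :=
  SimpleGraph.fromRel fun u v => ((u : ℕ), (v : ℕ)) ∈ E

/-- A graph is planar if it can be drawn in the plane: distinct vertices are represented by distinct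
points, every edge by an arc which joins the points of its ends and contains the point of no other
vertex, and two different edges meet only in the point of a common end. -/
def IsPlanar {V : Type*} (G : SimpleGraph V) : Prop :=
  ∃ (pos : V → ℝ × ℝ) (arc : Sym2 V → Set (ℝ × ℝ)),
    Function.Injective pos ∧
    (∀ u v, G.Adj u v → ∃ c : ℝ → ℝ × ℝ,
      ContinuousOn c (Set.Icc 0 1) ∧ Set.InjOn c (Set.Icc 0 1) ∧ c 0 = pos u ∧ c 1 = pos v ∧
      arc s(u, v) = c '' Set.Icc 0 1) ∧
    (∀ e ∈ G.edgeSet, ∀ w, pos w ∈ arc e → w ∈ e) ∧
    (∀ e ∈ G.edgeSet, ∀ f ∈ G.edgeSet, e ≠ f → ∀ x ∈ arc e ∩ arc f, ∃ w, w ∈ e ∧ w ∈ f ∧ pos w = x)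

/-- `W` is a local metric generator: every two adjacent vertices have different distances to some
vertex in `W` (distances are infinite between different components). -/
def IsLMG {V : Type*} (G : SimpleGraph V) (W : Set V) : Prop :=
  ∀ x y, G.Adj x y → ∃ w ∈ W, G.edist x w ≠ G.edist y w

/-- The local metric dimension: the minimum size of a local metric generator. -/
noncomputable def localDim {V : Type*} (G : SimpleGraph V) : ℕ :=
  sInf {k | ∃ W : Finset V, W.card = k ∧ IsLMG G (W : Set V)}

/-- LOCAL METRIC DIMENSION ON PLANAR GRAPHS. An instance is a number `n`, a list `E` of edges and a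
number `k` such that the graph `graphOf n E` is planar; the question is whether its local metric
dimension is at most `k`. -/
noncomputable def LMDPlanar : Problem where
  Inst := {x : ℕ × List (ℕ × ℕ) × ℕ // IsPlanar (graphOf x.1 x.2.1)}
  enc x := encOf (ℕ × List (ℕ × ℕ) × ℕ) x.1
  enc_inj := (encOf_injective _).comp Subtype.val_injective
  Yes x := localDim (graphOf x.1.1 x.1.2.1) ≤ x.1.2.2

end Pool.Agent.Helper78.LMD
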