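import Pool.Agent.Helper78.LmdNet
import Pool.Agent.Helper78.LmdDefs

/-!
# Correctness of the reduction, for the abstract network graph
-/

namespace Pool.Agent.Helper78.LMD

open SimpleGraph Sum Jn Rd

variable {D : Mat}

theorem pos_len_arm {b : Bool} {i : ℕ} (hi : i < D.N) : D.net.len (arm b i) = 8 * D.M + 17 := by
  simp [Mat.net, rlen, hi]

/-- A hub-type twin statement for the edge of the variable `i`. -/
theorem ep_twin {i : ℕ} (hi : i < D.N) (hM : 0 < D.M) (b : Bool) {x : Jn}
    (hx : ¬ (x = ep b i ∨ x = ep (!b) i)) :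
    D.E x (ep b i) = min (D.E x (hub true i)) (D.E x (hub false i)) + 1 := by
  refine Net.twin (T := D.net) (t := ep b i) (t' := ep (!b) i) (h₁ := hub true i)
    (h₂ := hub false i) (E_hu hi) (E_hu hi) ?_ hx
  intro e he
  cases e with
  | hu s i' b' =>
    refine ⟨fun h => by simp [Mat.net, rsrc] at h, fun h _ => ?_⟩
    have h' : i' = i := by
      simp only [Mat.net, rdst, ep.injEq] at h
      rcases h with h | h <;> exact h.2
    subst h'
    have hl : D.net.len (hu s i' b') = 1 := by simp [Mat.net, rlen, hi]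
    rw [hl]
    cases s
    · rw [min_eq_right] <;> simp [Mat.net, rsrc]
    · rw [min_eq_left] <;> simp [Mat.net, rsrc]
  | arm b' i' =>
    refine ⟨fun h => by simp [Mat.net, rsrc] at h, fun h _ => ?_⟩
    have h' : i' = i := by
      simp only [Mat.net, rdst, ep.injEq] at h
      rcases h with h | h <;> exact h.2
    subst h'
    rw [pos_len_arm hi]
    have h1 : D.E (A (row b' i')) (hub true i') ≤ ((8 * D.M + 16 : ℕ) : ℕ∞) := E_Ahub hi hM
    refine (add_le_add_left (min_le_left _ _) 1).trans ?_
    refine (add_le_add_left h1 1).trans ?_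
    norm_cast
  | eps i' =>
    simp only [Mat.net, rsrc, rdst, ep.injEq]
    constructor
    · intro h h'
      exact absurd (show (false = b ∧ i' = i) ∨ (false = !b) ∧ i' = i by
        have hi' : i' = i := by rcases h with h | h <;> exact h.2
        cases b <;> simp [hi']) h'
    · intro h h'
      exact absurd (show (true = b ∧ i' = i) ∨ (true = !b) ∧ i' = i by
        have hi' : i' = i := by rcases h with h | h <;> exact h.2
        cases b <;> simp [hi']) h'
  | _ => simp [Mat.net, rsrc, rdst]

theorem g_twin (b : Bool) {x : Jn} (hx : ¬ (x = g b ∨ x = g (!b))) :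
    D.E x (g b) = D.E x (A (3 * D.N)) + 1 := by
  have h := Net.twin (T := D.net) (t := g b) (t' := g (!b)) (h₁ := A (3 * D.N))
    (h₂ := A (3 * D.N)) E_gg1 E_gg1 (x := x) ?_ hx
  · rw [min_self] at h; exact h
  intro e he
  cases e with
  | gg1 b' => simp [Mat.net, rsrc, rdst, rlen]
  | gg => cases b <;> simp [Mat.net, rsrc, rdst]
  | _ => simp [Mat.net, rsrc, rdst]

/-- The junction `x` does not distinguish `t` and `t'`. -/
theorem mid_neutral {e : Rd} {k : ℕ} {t t' : Jn} (he : 0 < D.net.len e) (hk : k ≤ D.net.len e)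
    (h1 : D.E (D.net.src e) t = D.E (D.net.src e) t')
    (h2 : D.E (D.net.dst e) t = D.E (D.net.dst e) t') :
    D.net.graph.edist (D.net.pt e k) (inl t) = D.net.graph.edist (D.net.pt e k) (inl t') := by
  rw [Net.edist_mid t he hk, Net.edist_mid t' he hk]
  simp only [Mat.E] at h1 h2
  rw [h1, h2]

/-- Used vertices. -/
def Used (D : Mat) (w : Jn ⊕ Rd × ℕ) : Prop :=
  ∃ e k, 0 < D.net.len e ∧ k ≤ D.net.len e ∧ w = D.net.pt e k

theorem res_eps {w : Jn ⊕ Rd × ℕ} (hw : Used D w) {i : ℕ} (hi : i < D.N) (hM : 0 < D.M)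
    (h : D.net.graph.edist w (inl (ep true i)) ≠ D.net.graph.edist w (inl (ep false i))) :
    ∃ b k, 0 < k ∧ k ≤ 8 * D.M + 17 ∧ w = D.net.pt (arm b i) k := by
  have hJ : ∀ x : Jn, D.E x (ep true i) ≠ D.E x (ep false i) → x = ep true i ∨ x = ep false i := by
    intro x hx
    by_contra hc
    apply hx
    rw [ep_twin hi hM true hc, ep_twin hi hM false (by
      rw [Bool.not_false]; exact fun h => hc h.symm)]
  have hE : ∀ b, (inl (ep b i) : Jn ⊕ Rd × ℕ) = D.net.pt (arm b i) (8 * D.M + 17) := by
    intro b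
    have := D.net.pt_len (e := arm b i) (by rw [pos_len_arm hi]; omega)
    rw [pos_len_arm hi] at this
    rw [this]; rfl
  have hJ' : ∀ x : Jn, D.E x (ep true i) ≠ D.E x (ep false i) →
      ∃ b k, 0 < k ∧ k ≤ 8 * D.M + 17 ∧ (inl x : Jn ⊕ Rd × ℕ) = D.net.pt (arm b i) k := by
    intro x hx
    rcases hJ x hx with rfl | rfl
    · exact ⟨true, 8 * D.M + 17, by omega, le_refl _, hE true⟩
    · exact ⟨false, 8 * D.M + 17, by omega, le_refl _, hE false⟩
  obtain ⟨e, k, he, hk, rfl⟩ := hw
  rcases Nat.eq_zero_or_pos k with rfl | hk0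
  · rw [Net.pt_zero] at h ⊢
    exact hJ' _ h
  rcases hk.eq_or_lt with rfl | hk1
  · rw [D.net.pt_len he] at h ⊢
    exact hJ' _ h
  by_cases h1 : D.E (D.net.src e) (ep true i) = D.E (D.net.src e) (ep false i)
  · by_cases h2 : D.E (D.net.dst e) (ep true i) = D.E (D.net.dst e) (ep false i)
    · exact absurd (mid_neutral he hk h1 h2) h
    · have h3 := hJ _ h2
      cases e with
      | arm b i' =>
        have : i' = i := by
          simp only [Mat.net, rdst, ep.injEq] at h3
          rcases h3 with h | h <;> exact h.2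
        subst this
        rw [pos_len_arm hi] at hk
        exact ⟨b, k, hk0, hk, rfl⟩
      | hu s i' b =>
        simp only [Mat.net, rlen] at hk1
        split_ifs at hk1 <;> omega
      | eps i' =>
        simp only [Mat.net, rlen] at hk1
        split_ifs at hk1 <;> omega
      | _ => simp [Mat.net, rdst] at h3
  · have h3 := hJ _ h1
    cases e with
    | eps i' =>
      simp only [Mat.net, rlen] at hk1
      split_ifs at hk1 <;> omega
    | _ => simp [Mat.net, rsrc] at h3

theorem res_gg {w : Jn ⊕ Rd × ℕ} (hw : Used D w)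
    (h : D.net.graph.edist w (inl (g true)) ≠ D.net.graph.edist w (inl (g false))) :
    ∃ b, w = inl (g b) := by
  have hJ : ∀ x : Jn, D.E x (g true) ≠ D.E x (g false) → x = g true ∨ x = g false := by
    intro x hx
    by_contra hc
    apply hx
    rw [g_twin true hc, g_twin false (by
      rw [Bool.not_false]; exact fun h => hc h.symm)]
  have hJ' : ∀ x : Jn, D.E x (g true) ≠ D.E x (g false) →
      ∃ b, (inl x : Jn ⊕ Rd × ℕ) = inl (g b) := by
    intro x hx
    rcases hJ x hx with rfl | rfl
    · exact ⟨true, rfl⟩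
    · exact ⟨false, rfl⟩
  obtain ⟨e, k, he, hk, rfl⟩ := hw
  rcases Nat.eq_zero_or_pos k with rfl | hk0
  · rw [Net.pt_zero] at h ⊢
    exact hJ' _ h
  rcases hk.eq_or_lt with rfl | hk1
  · rw [D.net.pt_len he] at h ⊢
    exact hJ' _ h
  by_cases h1 : D.E (D.net.src e) (g true) = D.E (D.net.src e) (g false)
  · by_cases h2 : D.E (D.net.dst e) (g true) = D.E (D.net.dst e) (g false)
    · exact absurd (mid_neutral he hk h1 h2) h
    · have h3 := hJ _ h2
      cases e with
      | gg1 b => simp only [Mat.net, rlen] at hk1; omega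
      | gg => simp only [Mat.net, rlen] at hk1; omega
      | _ => simp [Mat.net, rdst] at h3
  · have h3 := hJ _ h1
    cases e with
    | gg => simp only [Mat.net, rlen] at hk1; omega
    | _ => simp [Mat.net, rsrc] at h3

theorem row_le {b : Bool} {i : ℕ} (hi : i < D.N) : row b i ≤ 3 * D.N := by
  cases b <;> simp [row] <;> omega

theorem row_mod {b : Bool} {i : ℕ} : row b i % 3 ≠ 1 := by
  cases b <;> simp [row] <;> omega

theorem res_arm {b : Bool} {i k j : ℕ} (hi : i < D.N) (hk : k ≤ 8 * D.M + 17) (hj : j < D.M)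
    (h : D.net.graph.edist (D.net.pt (arm b i) k) (inl (u true j)) ≠
      D.net.graph.edist (D.net.pt (arm b i) k) (inl (u false j))) :
    D.R (row b i) j = true := by
  by_contra hR
  have hR' : D.R (row b i) j = false := by simpa using hR
  apply h
  apply mid_neutral
  · rw [pos_len_arm hi]; omega
  · rw [pos_len_arm hi]; exact hk
  · change D.E (A (row b i)) _ = D.E (A (row b i)) _
    rw [E_Au_eq (row_le hi) row_mod hj hR', E_Au_eq (row_le hi) row_mod hj hR']
  · change D.E (ep b i) _ = D.E (ep b i) _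
    rw [E_epu_eq hi hj, E_epu_eq hi hj]

theorem G_mod : 3 * D.N % 3 ≠ 1 := by omega

theorem E_Gu {s : Bool} {j : ℕ} (hj : j < D.M) : D.E (A (3 * D.N)) (u s j) = dA D (3 * D.N) j :=
  E_Au_eq le_rfl G_mod hj (R_last D j)

theorem g_neutral {b : Bool} {j : ℕ} (hj : j < D.M) :
    D.E (g b) (u true j) = D.E (g b) (u false j) := by
  rw [E_comm (g b), E_comm (g b), g_twin b (x := u true j) (by simp), g_twin b (x := u false j)
    (by simp), E_comm (u true j), E_comm (u false j), E_Gu hj, E_Gu hj]

theorem R_row {b : Bool} {i j : ℕ} (h : D.R (row b i) j = true) :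
    (b = true ∧ D.pos i j = true) ∨ (b = false ∧ D.neg i j = true) := by
  cases b
  · right
    have h1 : (3 * i + 2) % 3 = 2 := by omega
    have h2 : (3 * i + 2) / 3 = i := by omega
    simp only [Mat.R, row, Bool.false_eq_true, if_false, h1, h2] at h
    simpa using (by simpa using h : _ ∧ _).2
  · left
    have h1 : (3 * i) % 3 = 0 := by omega
    have h2 : (3 * i) / 3 = i := by omega
    simp only [Mat.R, row, if_true, h1, h2] at h
    simpa using (by simpa using h : _ ∧ _).2

theorem R_row' {b : Bool} {i j : ℕ} (hi : i < D.N)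
    (h : (b = true ∧ D.pos i j = true) ∨ (b = false ∧ D.neg i j = true)) :
    D.R (row b i) j = true := by
  rcases h with ⟨rfl, h⟩ | ⟨rfl, h⟩
  · have h1 : (3 * i) % 3 = 0 := by omega
    have h2 : (3 * i) / 3 = i := by omega
    simp [Mat.R, row, h, hi]
  · have h1 : (3 * i + 2) % 3 = 2 := by omega
    have h2 : (3 * i + 2) / 3 = i := by omega
    simp only [Mat.R, row, Bool.false_eq_true, if_false, h1, h2, h]
    simp; omega

/-- Satisfying assignments of a matrix. -/
def Mat.Sat (D : Mat) (a : ℕ → Bool) : Prop :=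
  ∀ j < D.M, ∃ i < D.N, (a i = true ∧ D.pos i j = true) ∨ (a i = false ∧ D.neg i j = true)

/-- Classes of vertices. -/
def cls : Jn ⊕ Rd × ℕ → ℕ
  | inl (ep _ i) => i + 1
  | inr (arm _ i, _) => i + 1
  | _ => 0

theorem cls_arm {b : Bool} {i k : ℕ} (hk0 : 0 < k) : cls (D.net.pt (arm b i) k) = i + 1 := by
  unfold Net.pt
  rw [if_neg hk0.ne']
  split_ifs <;> rfl

theorem adj_one {e : Rd} (h : D.net.len e = 1) (hne : D.net.src e ≠ D.net.dst e) :
    D.net.graph.Adj (inl (D.net.src e)) (inl (D.net.dst e)) := by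
  have h0 := D.net.pt_zero e
  have h1 := D.net.pt_len (e := e) (by omega)
  rw [h] at h1
  rw [← h0, ← h1]
  apply Net.adj_pt (by omega)
  rw [h0, Nat.zero_add, h1]
  simpa using hne

theorem sat_of_lmg (hM : 0 < D.M) (W : Finset (Jn ⊕ Rd × ℕ)) (hU : ∀ w ∈ W, Used D w)
    (hc : W.card ≤ D.N + 1) (hW : IsLMG D.net.graph (W : Set (Jn ⊕ Rd × ℕ))) :
    ∃ a, D.Sat a := by
  -- the landmark in the pendant triangle
  have hg : ∃ b, (inl (g b) : Jn ⊕ Rd × ℕ) ∈ W := by
    obtain ⟨w, hw, hr⟩ := hW _ _ (adj_one (D := D) (e := gg) rfl (by simp [Mat.net, rsrc, rdst]))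
    obtain ⟨b, rfl⟩ := res_gg (hU w hw) (by
      rw [SimpleGraph.edist_comm (u := w), SimpleGraph.edist_comm (u := w)]; exact hr)
    exact ⟨b, hw⟩
  -- the landmarks in the variable gadgets
  have hv : ∀ i, i < D.N → ∃ b k, 0 < k ∧ k ≤ 8 * D.M + 17 ∧ D.net.pt (arm b i) k ∈ W := by
    intro i hi
    obtain ⟨w, hw, hr⟩ := hW _ _ (adj_one (D := D) (e := eps i) (by simp [Mat.net, rlen, hi])
      (by simp [Mat.net, rsrc, rdst]))
    obtain ⟨b, k, h0, h1, rfl⟩ := res_eps (hU w hw) hi hM (by
      rw [SimpleGraph.edist_comm (u := w), SimpleGraph.edist_comm (u := w)]; exact hr)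
    exact ⟨b, k, h0, h1, hw⟩
  obtain ⟨bg, hbg⟩ := hg
  have hsub : Finset.range (D.N + 1) ⊆ W.image cls := by
    intro n hn
    rw [Finset.mem_range] at hn
    rw [Finset.mem_image]
    rcases n with _ | i
    · exact ⟨_, hbg, rfl⟩
    · obtain ⟨b, k, h0, h1, h2⟩ := hv i (by omega)
      exact ⟨_, h2, cls_arm h0⟩
  have hci : (W.image cls).card ≤ W.card := Finset.card_image_le
  have heq : Finset.range (D.N + 1) = W.image cls :=
    Finset.eq_of_subset_of_card_le hsub (by rw [Finset.card_range]; omega)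
  have hinj : Set.InjOn cls (W : Set (Jn ⊕ Rd × ℕ)) := by
    apply Finset.injOn_of_card_image_eq
    apply le_antisymm hci
    rw [← heq, Finset.card_range]; exact hc
  classical
  choose! b k hk0 hk1 hmem using hv
  refine ⟨b, fun j hj => ?_⟩
  obtain ⟨w, hw, hr⟩ := hW _ _ (adj_one (D := D) (e := e j) (by simp [Mat.net, rlen, hj])
    (by simp [Mat.net, rsrc, rdst]))
  have hcw : cls w ∈ Finset.range (D.N + 1) := by
    rw [heq]; exact Finset.mem_image_of_mem _ hw
  rw [Finset.mem_range] at hcw
  rcases hn : cls w with _ | i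
  · have : w = inl (g bg) := hinj hw hbg (by rw [hn]; rfl)
    subst this
    change D.E (u true j) (g bg) ≠ D.E (u false j) (g bg) at hr
    exact (hr (by rw [E_comm, g_neutral hj, E_comm])).elim
  · have hi : i < D.N := by omega
    have : w = D.net.pt (arm (b i) i) (k i) := hinj hw (hmem i hi) (by
      rw [hn, cls_arm (hk0 i hi)])
    subst this
    have h := res_arm (D := D) hi (hk1 i hi) hj (by
      rw [SimpleGraph.edist_comm, SimpleGraph.edist_comm (v := inl (u false j))]; exact hr)
    exact ⟨i, hi, R_row h⟩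

/-! ### From a satisfying assignment to a local metric generator -/

/-- The landmark of the variable `i` for the value `b`. -/
def mid (D : Mat) (b : Bool) (i : ℕ) : Jn ⊕ Rd × ℕ := D.net.pt (arm b i) (4 * D.M + 9)

theorem mid_used {b : Bool} {i : ℕ} (hi : i < D.N) : Used D (mid D b i) :=
  ⟨arm b i, 4 * D.M + 9, by rw [pos_len_arm hi]; omega, by rw [pos_len_arm hi]; omega, rfl⟩

theorem mid_eq (t : Jn) {b : Bool} {i : ℕ} (hi : i < D.N) :
    D.net.graph.edist (mid D b i) (inl t) =
      min (D.E (A (row b i)) t + ((4 * D.M + 9 : ℕ) : ℕ∞))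
        (D.E (ep b i) t + ((4 * D.M + 8 : ℕ) : ℕ∞)) := by
  have h := Net.edist_mid (T := D.net) t (e := arm b i) (i := 4 * D.M + 9)
    (by rw [pos_len_arm hi]; omega) (by rw [pos_len_arm hi]; omega)
  rw [pos_len_arm hi, show 8 * D.M + 17 - (4 * D.M + 9) = 4 * D.M + 8 by omega] at h
  exact h

theorem one_le_E {x y : Jn} (h : x ≠ y) : 1 ≤ D.E x y := by
  rw [Order.one_le_iff_pos]
  exact SimpleGraph.edist_pos_of_ne (by simpa using h)

theorem mid_eps {b : Bool} {i : ℕ} (hi : i < D.N) :
    D.net.graph.edist (mid D b i) (inl (ep true i)) ≠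
      D.net.graph.edist (mid D b i) (inl (ep false i)) := by
  have h1 : D.net.graph.edist (mid D b i) (inl (ep b i)) ≤ ((4 * D.M + 8 : ℕ) : ℕ∞) := by
    rw [mid_eq _ hi]
    refine (min_le_right _ _).trans ?_
    simp [Mat.E]
  have h2 : ((4 * D.M + 9 : ℕ) : ℕ∞) ≤ D.net.graph.edist (mid D b i) (inl (ep (!b) i)) := by
    rw [mid_eq _ hi]
    refine le_min ?_ ?_
    · exact le_add_self
    · calc ((4 * D.M + 9 : ℕ) : ℕ∞) = 1 + ((4 * D.M + 8 : ℕ) : ℕ∞) := by push_cast; ring
        _ ≤ _ := by gcongr; exact one_le_E (by cases b <;> simp)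
  have h3 : D.net.graph.edist (mid D b i) (inl (ep b i)) <
      D.net.graph.edist (mid D b i) (inl (ep (!b) i)) :=
    (h1.trans_lt (by exact_mod_cast Nat.lt_succ_self _)).trans_le h2
  cases b
  · exact h3.ne'
  · exact h3.ne

theorem dA_le_dH {b : Bool} {i j : ℕ} (hi : i < D.N) (hj : j < D.M) :
    dA D (row b i) j ≤ dH D i j := by
  cases b
  · have h : hN D (3 * i + 1) = hN D (3 * i + 2) + 4 := by unfold hN; omega
    simp only [dA, dH, row, Bool.false_eq_true, if_false, h]
    nlinarith
  · have h : hN D (3 * i) = hN D (3 * i + 1) + 4 := by unfold hN; omega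
    simp only [dA, dH, row, if_true, h, vN]
    nlinarith

theorem mid_col {b : Bool} {i j : ℕ} (hi : i < D.N) (hj : j < D.M)
    (hR : D.R (row b i) j = true) :
    D.net.graph.edist (mid D b i) (inl (u true j)) ≠
      D.net.graph.edist (mid D b i) (inl (u false j)) := by
  obtain ⟨n, hn⟩ : ∃ n, n + 2 = dA D (row b i) j := ⟨dA D (row b i) j - 2, by
    rw [dA]; omega⟩
  have h1 : D.net.graph.edist (mid D b i) (inl (u true j)) ≤
      ((n + (4 * D.M + 9) : ℕ) : ℕ∞) := by
    rw [mid_eq _ hi]
    refine (min_le_left _ _).trans ?_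
    push_cast
    gcongr
    exact E_Au' (row_le hi) row_mod hj hR hn
  have h2 : ((n + 1 + (4 * D.M + 9) : ℕ) : ℕ∞) ≤
      D.net.graph.edist (mid D b i) (inl (u false j)) := by
    rw [mid_eq _ hi]
    refine le_min ?_ ?_
    · have h := E_ge_A (r := row b i) (n := n + 1) (row_le hi) hj (by omega)
      rw [Nat.cast_add (n + 1)]
      gcongr
    · have h := E_ge_ep (b := b) hi hj
      have h3 := dA_le_dH (b := b) hi hj
      calc ((n + 1 + (4 * D.M + 9) : ℕ) : ℕ∞) ≤ ((dH D i j + 1 + (4 * D.M + 8) : ℕ) : ℕ∞) := by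
            norm_cast; omega
        _ = ((dH D i j + 1 : ℕ) : ℕ∞) + ((4 * D.M + 8 : ℕ) : ℕ∞) := Nat.cast_add _ _
        _ ≤ _ := by gcongr
  have h3 : D.net.graph.edist (mid D b i) (inl (u true j)) <
      D.net.graph.edist (mid D b i) (inl (u false j)) :=
    (h1.trans_lt (by norm_cast; omega)).trans_le h2
  exact h3.ne

/-- Finite distance. -/
def Cn (D : Mat) (x y : Jn) : Prop := D.E x y ≠ ⊤

theorem Cn.symm {x y : Jn} (h : Cn D x y) : Cn D y x := by
  unfold Cn at *; rwa [E_comm]

theorem Cn.trans {x y w : Jn} (h : Cn D x y) (h' : Cn D y w) : Cn D x w := by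
  unfold Cn Mat.E at *
  rw [edist_ne_top_iff_reachable] at *
  exact h.trans h'

theorem Cn.of_le {x y : Jn} {n : ℕ} (h : D.E x y ≤ n) : Cn D x y := by
  intro h'; rw [h'] at h; simp at h

theorem cn_p {s : Bool} {r j : ℕ} (hM : 0 < D.M) (hr : r ≤ 3 * D.N) (hj : j < D.M) :
    Cn D (p s r j) (A (3 * D.N)) := by
  have h1 : Cn D (p s r j) (p s r 0) := (Cn.of_le (E_pp hr j hj)).symm
  have h2 : ∀ r, r ≤ 3 * D.N → Cn D (p s r 0) (u s 0) := fun r hr => Cn.of_le (E_pu hr hM)
  have h3 : Cn D (A (3 * D.N)) (p s (3 * D.N) 0) := Cn.of_le (E_srcA le_rfl G_mod)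
  exact h1.trans ((h2 r hr).trans (h3.trans (h2 _ le_rfl)).symm)

theorem cn_src {e : Rd} (he : 0 < D.net.len e) (hM : 0 < D.M) :
    Cn D (D.net.src e) (A (3 * D.N)) := by
  cases e with
  | srcA s r =>
    simp only [Mat.net, rlen] at he
    split_ifs at he with h
    · exact (Cn.of_le (E_srcA (s := true) h.1 h.2)).trans (cn_p hM h.1 hM)
    · omega
  | srcN s i =>
    simp only [Mat.net, rlen] at he
    split_ifs at he with h
    · exact (Cn.of_le (E_srcN h)).trans (cn_p hM (by omega) hM)
    · omega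
  | pz s r j =>
    simp only [Mat.net, rlen] at he
    split_ifs at he with h
    · exact cn_p hM h.1 h.2
    · omega
  | zp s r j =>
    simp only [Mat.net, rlen] at he
    split_ifs at he with h
    · exact (Cn.of_le (E_pz h.1 (by omega))).symm.trans (cn_p hM h.1 (by omega))
    · omega
  | zq s r j =>
    simp only [Mat.net, rlen] at he
    split_ifs at he with h
    · exact (Cn.of_le (E_pz h.1 h.2)).symm.trans (cn_p hM h.1 h.2)
    · omega
  | qz s r j =>
    simp only [Mat.net, rlen] at he
    split_ifs at he with h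
    · exact (Cn.of_le (E_zq h.1 h.2)).symm.trans
        ((Cn.of_le (E_pz h.1 h.2)).symm.trans (cn_p hM h.1 h.2))
    · omega
  | qu s j =>
    simp only [Mat.net, rlen] at he
    split_ifs at he with h
    · exact (Cn.of_le (E_zq (Nat.zero_le _) h)).symm.trans
        ((Cn.of_le (E_pz (Nat.zero_le _) h)).symm.trans (cn_p hM (Nat.zero_le _) h))
    · omega
  | ch r j =>
    simp only [Mat.net, rlen] at he
    split_ifs at he with h
    · exact cn_p hM h.1 h.2.1
    · omega
  | e j =>
    simp only [Mat.net, rlen] at he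
    split_ifs at he with h
    · exact (Cn.of_le (E_zu (s := true) h 0 (Nat.zero_le _))).symm.trans
        ((Cn.of_le (E_pz (Nat.zero_le _) h)).symm.trans (cn_p hM (Nat.zero_le _) h))
    · omega
  | hu s i b =>
    simp only [Mat.net, rlen] at he
    split_ifs at he with h
    · exact (Cn.of_le (E_srcN h)).trans (cn_p hM (by omega) hM)
    · omega
  | arm b i =>
    simp only [Mat.net, rlen] at he
    split_ifs at he with h
    · exact (Cn.of_le (E_srcA (s := true) (row_le h) row_mod)).trans (cn_p hM (row_le h) hM)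
    · omega
  | eps i =>
    simp only [Mat.net, rlen] at he
    split_ifs at he with h
    · exact (Cn.of_le (E_hu (s := true) h)).symm.trans
        ((Cn.of_le (E_srcN h)).trans (cn_p hM (by omega) hM))
    · omega
  | gg1 b => exact Cn.of_le (n := 0) (by simp [Mat.net, rsrc, Mat.E])
  | gg => exact (Cn.of_le (E_gg1 (b := true))).symm

theorem cn_pt {e : Rd} {k : ℕ} (he : 0 < D.net.len e) (hk : k ≤ D.net.len e) (hM : 0 < D.M) :
    D.net.graph.edist (D.net.pt e k) (inl (A (3 * D.N))) ≠ ⊤ := by
  have h1 := cn_src he hM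
  unfold Cn Mat.E at h1
  rw [edist_ne_top_iff_reachable] at h1 ⊢
  refine Reachable.trans ?_ h1
  rw [← edist_ne_top_iff_reachable]
  intro h
  have h2 := Net.edist_pt_src (T := D.net) hk
  rw [h] at h2
  simp at h2

/-- Colour of a junction. -/
def col : Jn → Bool
  | ep _ _ => true
  | g _ => true
  | _ => false

/-- Colour of a vertex. -/
def vcol (D : Mat) : Jn ⊕ Rd × ℕ → Bool
  | inl x => col x
  | inr (x, k) => xor (col (D.net.src x)) (decide (k % 2 = 1))

/-- Special roads. -/
def Special : Rd → Prop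
  | e _ => True
  | eps _ => True
  | gg => True
  | _ => False

theorem col_dst {e : Rd} (he : 0 < D.net.len e) (hs : ¬ Special e) :
    col (D.net.dst e) = xor (col (D.net.src e)) (decide (D.net.len e % 2 = 1)) := by
  cases e with
  | e j => exact absurd trivial hs
  | eps i => exact absurd trivial hs
  | gg => exact absurd trivial hs
  | arm b i =>
    simp only [Mat.net, rlen] at he
    split_ifs at he with h
    · simp only [Mat.net, rlen, h, if_true, rsrc, rdst, col]
      have : (8 * D.M + 17) % 2 = 1 := by omega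
      simp [this]
    · omega
  | hu s i b =>
    simp only [Mat.net, rlen] at he
    split_ifs at he with h
    · simp [Mat.net, rlen, h, rsrc, rdst, col]
    · omega
  | gg1 b => simp [Mat.net, rlen, rsrc, rdst, col]
  | srcN s i =>
    simp only [Mat.net, rlen] at he
    split_ifs at he with h
    · simp only [Mat.net, rlen, h, if_true, rsrc, rdst, col]
      have : (4 * D.M + 6) % 2 = 0 := by omega
      simp [this]
    · omega
  | zp s r j =>
    simp only [Mat.net, rlen] at he
    split_ifs at he with h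
    · simp only [Mat.net, rlen, h, if_true, rsrc, rdst, col]
      have : (4 * (3 * D.N - r) + 2) % 2 = 0 := by omega
      simp [this]
    · omega
  | qz s r j =>
    simp only [Mat.net, rlen] at he
    split_ifs at he with h
    · simp only [Mat.net, rlen, h, if_true, rsrc, rdst, col]
      have : (4 * D.M + 2) % 2 = 0 := by omega
      simp [this]
    · omega
  | qu s j =>
    simp only [Mat.net, rlen] at he
    split_ifs at he with h
    · simp only [Mat.net, rlen, h, if_true, rsrc, rdst, col]
      have : (4 * D.M + 2) % 2 = 0 := by omega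
      simp [this]
    · omega
  | srcA s r =>
    simp only [Mat.net, rlen] at he
    split_ifs at he with h
    · simp [Mat.net, rlen, h, rsrc, rdst, col]
    · omega
  | pz s r j =>
    simp only [Mat.net, rlen] at he
    split_ifs at he with h
    · simp [Mat.net, rlen, h, rsrc, rdst, col]
    · omega
  | zq s r j =>
    simp only [Mat.net, rlen] at he
    split_ifs at he with h
    · simp [Mat.net, rlen, h, rsrc, rdst, col]
    · omega
  | ch r j =>
    simp only [Mat.net, rlen] at he
    split_ifs at he with h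
    · simp [Mat.net, rlen, h, rsrc, rdst, col]
    · omega

theorem vcol_pt {e : Rd} {k : ℕ} (he : 0 < D.net.len e) (hs : ¬ Special e)
    (hk : k ≤ D.net.len e) :
    vcol D (D.net.pt e k) = xor (col (D.net.src e)) (decide (k % 2 = 1)) := by
  rcases Nat.eq_zero_or_pos k with rfl | hk0
  · rw [Net.pt_zero]; simp [vcol]
  rcases hk.eq_or_lt with rfl | hk1
  · rw [D.net.pt_len he]; exact col_dst he hs
  · rw [Net.pt_mid _ hk0 hk1]; rfl

theorem vcol_ne {e : Rd} {k : ℕ} (hs : ¬ Special e) (hk : k < D.net.len e) :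
    vcol D (D.net.pt e k) ≠ vcol D (D.net.pt e (k + 1)) := by
  have he : 0 < D.net.len e := by omega
  rw [vcol_pt he hs hk.le, vcol_pt he hs hk]
  rcases Nat.mod_two_eq_zero_or_one k with h | h
  · have : (k + 1) % 2 = 1 := by omega
    simp [h, this]
  · have : (k + 1) % 2 = 0 := by omega
    simp [h, this]

theorem special_pt {e : Rd} {k : ℕ} (hs : Special e) (hk : k < D.net.len e) :
    k = 0 ∧ D.net.len e = 1 := by
  cases e with
  | e j =>
    simp only [Mat.net, rlen] at hk ⊢
    split_ifs at hk ⊢ with h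
    · omega
    · omega
  | eps j =>
    simp only [Mat.net, rlen] at hk ⊢
    split_ifs at hk ⊢ with h
    · omega
    · omega
  | gg =>
    have hk' : k < 1 := hk
    exact ⟨by omega, rfl⟩
  | _ => exact hs.elim

theorem E_Gep {i : ℕ} (hi : i < D.N) (hM : 0 < D.M) :
    D.E (A (3 * D.N)) (ep true i) = D.E (A (3 * D.N)) (ep false i) := by
  rw [ep_twin hi hM true (by simp), ep_twin hi hM false (by simp)]

theorem E_Gg (b : Bool) : D.E (A (3 * D.N)) (g b) = 1 := by
  rw [g_twin b (by simp)]; simp [Mat.E]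

theorem special_neutral {e : Rd} (hs : Special e) (he : 0 < D.net.len e) (hM : 0 < D.M) :
    D.E (D.net.src e) (A (3 * D.N)) = D.E (D.net.dst e) (A (3 * D.N)) := by
  rw [E_comm, E_comm (D.net.dst e)]
  cases e with
  | e j =>
    simp only [Mat.net, rlen] at he
    split_ifs at he with h
    · change D.E (A (3 * D.N)) (u true j) = D.E (A (3 * D.N)) (u false j)
      rw [E_Gu h, E_Gu h]
    · omega
  | eps i =>
    simp only [Mat.net, rlen] at he
    split_ifs at he with h
    · exact E_Gep h hM
    · omega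
  | gg =>
    change D.E (A (3 * D.N)) (g true) = D.E (A (3 * D.N)) (g false)
    rw [E_Gg, E_Gg]
  | _ => exact hs.elim

theorem colour_cond (hM : 0 < D.M) (x y : Jn ⊕ Rd × ℕ) (h : D.net.graph.Adj x y) :
    vcol D x ≠ vcol D y ∨ D.net.graph.edist x (inl (A (3 * D.N))) =
      D.net.graph.edist y (inl (A (3 * D.N))) := by
  have key : ∀ (e : Rd) (k : ℕ), k < D.net.len e →
      vcol D (D.net.pt e k) ≠ vcol D (D.net.pt e (k + 1)) ∨
      D.net.graph.edist (D.net.pt e k) (inl (A (3 * D.N))) =
      D.net.graph.edist (D.net.pt e (k + 1)) (inl (A (3 * D.N))) := by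
    intro e k hk
    by_cases hs : Special e
    · right
      obtain ⟨rfl, h1⟩ := special_pt hs hk
      have h2 := D.net.pt_len (e := e) (by omega)
      rw [h1] at h2
      rw [Net.pt_zero, Nat.zero_add, h2]
      exact special_neutral hs (by omega) hM
    · exact Or.inl (vcol_ne hs hk)
  rw [Net.graph, SimpleGraph.fromRel_adj] at h
  obtain ⟨-, ⟨e, i, hi, rfl, rfl⟩ | ⟨e, i, hi, rfl, rfl⟩⟩ := h
  · exact key e i hi
  · rcases key e i hi with h | h
    · exact Or.inl h.symm
    · exact Or.inr h.symm

/-- Distances to a vertex of the pendant triangle. -/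
theorem pendant {e : Rd} {k : ℕ} (b : Bool) (he : 0 < D.net.len e) (hk : k ≤ D.net.len e)
    (h1 : ¬ (D.net.src e = g b ∨ D.net.src e = g (!b)))
    (h2 : ¬ (D.net.dst e = g b ∨ D.net.dst e = g (!b))) :
    D.net.graph.edist (D.net.pt e k) (inl (g b)) =
      D.net.graph.edist (D.net.pt e k) (inl (A (3 * D.N))) + 1 := by
  rw [Net.edist_mid _ he hk, Net.edist_mid _ he hk]
  have k1 := g_twin (D := D) b h1
  have k2 := g_twin (D := D) b h2
  simp only [Mat.E] at k1 k2
  rw [k1, k2, ← min_add_add_right]
  congr 1 <;> rw [add_right_comm]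

/-- The local metric generator of an assignment. -/
def gen (D : Mat) (a : ℕ → Bool) : Finset (Jn ⊕ Rd × ℕ) :=
  insert (inl (g true)) ((Finset.range D.N).image fun i => mid D (a i) i)

theorem gen_card (a : ℕ → Bool) : (gen D a).card ≤ D.N + 1 := by
  refine (Finset.card_insert_le _ _).trans ?_
  have := Finset.card_image_le (s := Finset.range D.N) (f := fun i => mid D (a i) i)
  rw [Finset.card_range] at this
  omega

theorem gen_used {a : ℕ → Bool} {w : Jn ⊕ Rd × ℕ} (hw : w ∈ gen D a) : Used D w := by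
  rw [gen, Finset.mem_insert, Finset.mem_image] at hw
  rcases hw with rfl | ⟨i, hi, rfl⟩
  · exact ⟨gg, 0, by simp [Mat.net, rlen], Nat.zero_le _, by rw [Net.pt_zero]; rfl⟩
  · exact mid_used (Finset.mem_range.1 hi)

theorem lmg_of_sat (hN : 0 < D.N) (hM : 0 < D.M) {a : ℕ → Bool} (ha : D.Sat a) :
    IsLMG D.net.graph (gen D a : Set (Jn ⊕ Rd × ℕ)) := by
  have hg : (inl (g true) : Jn ⊕ Rd × ℕ) ∈ (gen D a : Set (Jn ⊕ Rd × ℕ)) := by
    simp [gen]
  have hm : ∀ i < D.N, mid D (a i) i ∈ (gen D a : Set (Jn ⊕ Rd × ℕ)) := by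
    intro i hi
    rw [Finset.mem_coe, gen, Finset.mem_insert, Finset.mem_image]
    exact Or.inr ⟨i, Finset.mem_range.2 hi, rfl⟩
  have key : ∀ (e : Rd) (k : ℕ), k < D.net.len e →
      ∃ w ∈ (gen D a : Set (Jn ⊕ Rd × ℕ)), D.net.graph.edist (D.net.pt e k) w ≠
        D.net.graph.edist (D.net.pt e (k + 1)) w := by
    intro e k hk
    have he : 0 < D.net.len e := by omega
    by_cases hs : Special e
    · obtain ⟨rfl, h1⟩ := special_pt hs hk
      have h2 := D.net.pt_len (e := e) (by omega)
      rw [h1] at h2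
      rw [Net.pt_zero, Nat.zero_add, h2]
      cases e with
      | e j =>
        have hj : j < D.M := by
          by_contra h
          simp [Mat.net, rlen, h] at he
        obtain ⟨i, hi, h⟩ := ha j hj
        refine ⟨_, hm i hi, ?_⟩
        rw [SimpleGraph.edist_comm, SimpleGraph.edist_comm (v := mid D (a i) i)]
        refine mid_col hi hj (R_row' hi ?_)
        exact h
      | eps i =>
        have hi : i < D.N := by
          by_contra h
          simp [Mat.net, rlen, h] at he
        refine ⟨_, hm i hi, ?_⟩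
        rw [SimpleGraph.edist_comm, SimpleGraph.edist_comm (v := mid D (a i) i)]
        exact mid_eps hi
      | gg =>
        refine ⟨_, hg, ?_⟩
        simp only [Mat.net, rsrc, rdst, SimpleGraph.edist_self]
        exact (SimpleGraph.edist_pos_of_ne (by simp)).ne
      | _ => exact hs.elim
    · have hpar : D.net.graph.edist (D.net.pt e k) (inl (A (3 * D.N))) ≠
          D.net.graph.edist (D.net.pt e (k + 1)) (inl (A (3 * D.N))) :=
        parity_ne (colour_cond hM) (cn_pt he hk.le hM) (vcol_ne hs hk)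
      by_cases hg1 : ∃ b, e = gg1 b
      · obtain ⟨b, rfl⟩ := hg1
        have hk0 : k = 0 := by simp only [Mat.net, rlen] at hk; omega
        subst hk0
        have h2 := D.net.pt_len (e := gg1 b) he
        rw [show D.net.len (gg1 b) = 1 from rfl] at h2
        rw [Net.pt_zero, Nat.zero_add, h2]
        cases b
        · refine ⟨_, hm 0 hN, ?_⟩
          rw [SimpleGraph.edist_comm, SimpleGraph.edist_comm (v := mid D (a 0) 0)]
          have hl := pos_len_arm (D := D) (b := a 0) (i := 0) hN
          have h3 := pendant (D := D) (e := arm (a 0) 0) (k := 4 * D.M + 9) false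
            (by rw [hl]; omega) (by rw [hl]; omega)
            (by simp [Mat.net, rsrc]) (by simp [Mat.net, rdst])
          have h4 := cn_pt (D := D) (e := arm (a 0) 0) (k := 4 * D.M + 9)
            (by rw [hl]; omega) (by rw [hl]; omega) hM
          change D.net.graph.edist (D.net.pt (arm (a 0) 0) (4 * D.M + 9)) (inl (A (3 * D.N))) ≠
            D.net.graph.edist (D.net.pt (arm (a 0) 0) (4 * D.M + 9)) (inl (g false))
          rw [h3]
          intro h5
          lift D.net.graph.edist (D.net.pt (arm (a 0) 0) (4 * D.M + 9)) (inl (A (3 * D.N)))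
            to ℕ using h4 with n
          have : n = n + 1 := by exact_mod_cast h5
          omega
        · refine ⟨_, hg, ?_⟩
          simp only [Mat.net, rsrc, rdst, SimpleGraph.edist_self]
          exact (SimpleGraph.edist_pos_of_ne (by simp)).ne'
      · refine ⟨_, hg, ?_⟩
        have c1 : ¬ (D.net.src e = g true ∨ D.net.src e = g (!true)) := by
          cases e with
          | gg => exact absurd trivial hs
          | _ => simp [Mat.net, rsrc]
        have c2 : ¬ (D.net.dst e = g true ∨ D.net.dst e = g (!true)) := by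
          cases e with
          | gg => exact absurd trivial hs
          | gg1 b => exact absurd ⟨b, rfl⟩ hg1
          | _ => simp [Mat.net, rdst]
        rw [pendant true he hk.le c1 c2, pendant true he hk c1 c2]
        intro h
        exact hpar (ENat.add_left_injective_of_ne_top (n := 1) (by simp) h)
  intro x y h
  rw [Net.graph, SimpleGraph.fromRel_adj] at h
  obtain ⟨-, ⟨e, i, hi, rfl, rfl⟩ | ⟨e, i, hi, rfl, rfl⟩⟩ := h
  · exact key e i hi
  · obtain ⟨w, hw, h⟩ := key e i hi
    exact ⟨w, hw, h.symm⟩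

end Pool.Agent.Helper78.LMD
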