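import Pool.Agent.Helper78.LmdPlan

/-!
# The network has a straight plane drawing
-/

namespace Pool.Agent.Helper78.LMD

open Sum Jn Rd

theorem jok_src (D : Mat) (e : Rd) (he : 0 < D.net.len e) : jok D.N (rsrc D.N e) := by
  cases e with
  | srcA s r =>
    have h : r ≤ 3 * D.N ∧ r % 3 ≠ 1 := by
      by_contra h; simp only [Mat.net, rlen, if_neg h] at he; omega
    exact h.2
  | srcN s i =>
    have h : i < D.N := by
      by_contra h; simp only [Mat.net, rlen, if_neg h] at he; omega
    exact h
  | hu s i b =>
    have h : i < D.N := by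
      by_contra h; simp only [Mat.net, rlen, if_neg h] at he; omega
    exact h
  | arm b i =>
    cases b
    · simp only [rsrc, row, jok, Bool.false_eq_true, if_false]; omega
    · simp only [rsrc, row, jok, if_true]; omega
  | eps i =>
    have h : i < D.N := by
      by_contra h; simp only [Mat.net, rlen, if_neg h] at he; omega
    exact h
  | gg1 b => simp only [rsrc, jok]; omega
  | _ => exact trivial

theorem jok_dst (D : Mat) (e : Rd) (he : 0 < D.net.len e) : jok D.N (rdst e) := by
  cases e with
  | hu s i b =>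
    have h : i < D.N := by
      by_contra h; simp only [Mat.net, rlen, if_neg h] at he; omega
    exact h
  | arm b i =>
    have h : i < D.N := by
      by_contra h; simp only [Mat.net, rlen, if_neg h] at he; omega
    exact h
  | eps i =>
    have h : i < D.N := by
      by_contra h; simp only [Mat.net, rlen, if_neg h] at he; omega
    exact h
  | _ => exact trivial

theorem cx_dst (D : Mat) (e : Rd) :
    cx D.N (rdst e) = cx D.N (rsrc D.N e) + dnn e * ddx e := by
  cases e with
  | hu s i b => cases b <;> simp [rdst, rsrc, cx, dnn, ddx] <;> ring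
  | arm b i => cases b <;> simp [rdst, rsrc, cx, dnn, ddx, row] <;> ring
  | _ => simp [rdst, rsrc, cx, dnn, ddx] <;> ring

theorem cy_dst (D : Mat) (e : Rd) :
    cy (rdst e) = cy (rsrc D.N e) + dnn e * ddy e := by
  cases e with
  | hu s i b => cases s <;> simp [rdst, rsrc, cy, dnn, ddy, sg]
  | srcA s r => cases s <;> simp [rdst, rsrc, cy, dnn, ddy, sg]
  | srcN s r => cases s <;> simp [rdst, rsrc, cy, dnn, ddy, sg] <;> ring
  | pz s r j => cases s <;> simp [rdst, rsrc, cy, dnn, ddy, sg]
  | zp s r j => cases s <;> simp [rdst, rsrc, cy, dnn, ddy, sg]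
  | zq s r j => cases s <;> simp [rdst, rsrc, cy, dnn, ddy, sg] <;> ring
  | qz s r j => cases s <;> simp [rdst, rsrc, cy, dnn, ddy, sg] <;> ring
  | qu s j => cases s <;> simp [rdst, rsrc, cy, dnn, ddy, sg]
  | ch r j => simp [rdst, rsrc, cy, dnn, ddy, sg]; ring
  | e j => simp [rdst, rsrc, cy, dnn, ddy, sg]
  | arm b i => cases b <;> simp [rdst, rsrc, cy, dnn, ddy, sg]
  | eps i => simp [rdst, rsrc, cy, dnn, ddy, sg]
  | gg1 b => cases b <;> simp [rdst, rsrc, cy, dnn, ddy, sg]
  | gg => simp [rdst, rsrc, cy, dnn, ddy, sg]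

theorem straight (D : Mat) :
    D.net.Straight fun a => ((cx D.N a : ℝ), (cy a : ℝ)) := by
  apply straight_of_int (cx D.N) cy ddx ddy dnn
  · intro e he
    change (∃ a, cx D.N (rsrc D.N e) = 2 * a) ∧ (∃ b, cy (rsrc D.N e) = 2 * b)
    constructor
    · generalize rsrc D.N e = a
      cases a with
      | z s r j => exact ⟨2 * j + 1, by simp only [cx]; ring⟩
      | p s r j => exact ⟨2 * j, by simp only [cx]; ring⟩
      | q s r j => exact ⟨2 * j + 1, by simp only [cx]; ring⟩
      | u s j => exact ⟨2 * j + 1, by simp only [cx]; ring⟩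
      | A r => exact ⟨-(2 * r + 3), by simp only [cx]; ring⟩
      | hub s i => exact ⟨-(6 * i + 4), by simp only [cx]; ring⟩
      | ep b i =>
        cases b
        · exact ⟨-(6 * i + 5), by simp only [cx, Bool.false_eq_true, if_false]; ring⟩
        · exact ⟨-(6 * i + 4), by simp only [cx, if_true]; ring⟩
      | g b => exact ⟨-(6 * D.N + 4), by simp only [cx]; ring⟩
    · generalize rsrc D.N e = a
      cases a with
      | z s r j => exact ⟨sg s * (2 * r + 3), by simp only [cy]; ring⟩
      | p s r j => exact ⟨sg s * (2 * r + 3), by simp only [cy]; ring⟩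
      | q s r j => exact ⟨sg s * (2 * r + 2), by simp only [cy]; ring⟩
      | u s j => exact ⟨sg s, by simp only [cy]; ring⟩
      | A r => exact ⟨0, by simp only [cy]; ring⟩
      | hub s i => exact ⟨sg s, by simp only [cy]; ring⟩
      | ep b i => exact ⟨0, by simp only [cy]; ring⟩
      | g b => exact ⟨sg b, by simp only [cy]; ring⟩
  · intro e he
    cases e with
    | arm b i => cases b <;> simp [dnn]
    | _ => simp only [dnn]; omega
  · intro e he
    cases e with
    | hu s i b => cases b <;> simp [ddx]
    | arm b i => cases b <;> simp [ddx]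
    | _ => simp [ddx]
  · intro e he
    cases e with
    | hu s i b => cases s <;> simp [ddy, sg]
    | srcA s r => cases s <;> simp [ddy, sg]
    | srcN s r => cases s <;> simp [ddy, sg]
    | zq s r j => cases s <;> simp [ddy, sg]
    | qz s r j => cases s <;> simp [ddy, sg]
    | qu s j => cases s <;> simp [ddy, sg]
    | gg1 b => cases b <;> simp [ddy, sg]
    | _ => simp [ddy]
  · intro e he
    cases e with
    | hu s i b => cases s <;> simp [ddy, sg]
    | zq s r j => cases s <;> simp [ddy, sg]
    | qz s r j => cases s <;> simp [ddy, sg]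
    | qu s j => cases s <;> simp [ddy, sg]
    | arm b i => cases b <;> simp [ddx]
    | _ => simp [ddx, ddy]
  · intro e he; exact cx_dst D e
  · intro e he; exact cy_dst D e
  · intro e e' he he' k k' h0 h1 h0' h1' hx hy
    have key : ∀ (e : Rd), 0 < D.net.len e → ∀ k : ℤ, 0 ≤ k → k ≤ dnn e →
        (own D.N (cx D.N (rsrc D.N e) + k * ddx e) (cy (rsrc D.N e) + k * ddy e) = inl e) ∨
        (∃ a, own D.N (cx D.N (rsrc D.N e) + k * ddx e) (cy (rsrc D.N e) + k * ddy e) = inr a ∧
          D.net.EndZ dnn e k a) := by
      intro e he k h0 h1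
      rcases h0.eq_or_lt with rfl | h2
      · right
        refine ⟨rsrc D.N e, ?_, Or.inl ⟨rfl, rfl⟩⟩
        rw [zero_mul, zero_mul, add_zero, add_zero]
        exact own_jn _ _ (jok_src D e he)
      · rcases h1.eq_or_lt with rfl | h3
        · right
          refine ⟨rdst e, ?_, Or.inr ⟨rfl, rfl⟩⟩
          rw [← cx_dst, ← cy_dst]
          exact own_jn _ _ (jok_dst D e he)
        · left
          exact own_rd D e he k h2 h3
    change cx D.N (rsrc D.N e) + k * ddx e = cx D.N (rsrc D.N e') + k' * ddx e' at hx
    change cy (rsrc D.N e) + k * ddy e = cy (rsrc D.N e') + k' * ddy e' at hy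
    have k1 := key e he k h0 h1
    have k2 := key e' he' k' h0' h1'
    rw [hx, hy] at k1
    rcases k1 with k1 | ⟨a, k1, k1'⟩ <;> rcases k2 with k2 | ⟨a', k2, k2'⟩
    · left
      rw [k1] at k2
      exact Sum.inl_injective k2
    · rw [k1] at k2; cases k2
    · rw [k1] at k2; cases k2
    · right
      rw [k1] at k2
      have : a = a' := Sum.inr_injective k2
      subst this
      exact ⟨a, k1', k2'⟩

end Pool.Agent.Helper78.LMD
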