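import Pool.Agent.Helper78.LmdDraw
import Pool.Agent.Helper78.LmdCorrect
import Pool.Agent.Helper81.CompC

/-!
# The reduction as a polynomial-time function on formulas
-/

namespace Pool.Agent.Helper78.LMD

open Pool.Agent.Helper81.CC SimpleGraph Sum

/-- Codes of junctions. -/
def cJ : Jn → ℕ × Bool × ℕ × ℕ
  | .z s r j => (0, s, r, j)
  | .p s r j => (1, s, r, j)
  | .q s r j => (2, s, r, j)
  | .u s j => (3, s, j, 0)
  | .A r => (4, false, r, 0)
  | .hub s i => (5, s, i, 0)
  | .ep b i => (6, b, i, 0)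
  | .g b => (7, b, 0, 0)

/-- Codes of roads. -/
def cR : Rd → ℕ × Bool × ℕ × ℕ
  | .srcA s r => (0, s, r, 0)
  | .srcN s i => (1, s, i, 0)
  | .pz s r j => (2, s, r, j)
  | .zp s r j => (3, s, r, j)
  | .zq s r j => (4, s, r, j)
  | .qz s r j => (5, s, r, j)
  | .qu s j => (6, s, j, 0)
  | .ch r j => (7, false, r, j)
  | .e j => (8, false, j, 0)
  | .hu s i b => (9, s, i, if b then 1 else 0)
  | .arm b i => (10, b, i, 0)
  | .eps i => (11, false, i, 0)
  | .gg1 b => (12, b, 0, 0)
  | .gg => (13, false, 0, 0)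

/-- Codes of vertices. -/
def cV : Jn ⊕ Rd × ℕ → ℕ × (ℕ × Bool × ℕ × ℕ) × ℕ
  | inl a => (0, cJ a, 0)
  | inr (e, k) => (1, cR e, k)

theorem cJ_inj : Function.Injective cJ := by
  intro a b h
  cases a <;> cases b <;> simp_all [cJ]

theorem cR_inj : Function.Injective cR := by
  intro a b h
  cases a <;> cases b <;> simp_all [cR]
  all_goals (rename_i b1 b2; cases b1 <;> cases b2 <;> simp_all)

theorem cV_inj : Function.Injective cV := by
  rintro (a | ⟨e, k⟩) (b | ⟨e', k'⟩) h
  · simp only [cV, Prod.mk.injEq, true_and, and_true] at h; rw [cJ_inj h]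
  · simp [cV] at h
  · simp [cV] at h
  · simp only [cV, Prod.mk.injEq, true_and] at h; rw [cR_inj h.1, h.2]

/-- Number of variables. -/
def NN (φ : CNF) : ℕ := (φ.flatten.map (fun l => l.2)).sum + 1

/-- Chord indicator. -/
def RR (φ : CNF) (r j : ℕ) : Bool :=
  decide (r < 3 * NN φ) && ((decide (r % 3 = 0) && decide ((true, r / 3) ∈ φ.getD j [])) ||
    (decide (r % 3 = 2) && decide ((false, r / 3) ∈ φ.getD j [])))

/-- The matrix of a formula. -/
def matOf (φ : CNF) : Mat :=
  ⟨NN φ, φ.length, fun i j => decide ((true, i) ∈ φ.getD j []),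
    fun i j => decide ((false, i) ∈ φ.getD j [])⟩

/-- Record of a road. -/
abbrev Rec := (ℕ × Bool × ℕ × ℕ) × (ℕ × Bool × ℕ × ℕ) × ℕ × (ℕ × Bool × ℕ × ℕ)

/-- The record of a road. -/
def rc (D : Mat) (e : Rd) : Rec := (cJ (rsrc D.N e), cJ (rdst e), rlen D e, cR e)

/-- Records of the source roads. -/
def rA (s : Bool) (r : ℕ) : List Rec :=
  if r % 3 = 1 then [] else [((4, false, r, 0), (1, s, r, 0), 2, (0, s, r, 0))]

/-- Records of the roads at the hubs. -/
def rN (M : ℕ) (s : Bool) (i : ℕ) : List Rec :=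
  [((5, s, i, 0), (1, s, 3 * i + 1, 0), 4 * M + 6, (1, s, i, 0)),
   ((5, s, i, 0), (6, true, i, 0), 1, (9, s, i, 1)),
   ((5, s, i, 0), (6, false, i, 0), 1, (9, s, i, 0))]

/-- Records of the roads at a crossing. -/
def rG (s : Bool) (r j : ℕ) : List Rec :=
  [((1, s, r, j), (0, s, r, j), 2, (2, s, r, j)), ((0, s, r, j), (2, s, r, j), 2, (4, s, r, j))]

/-- Records of the horizontal roads. -/
def rH (N M : ℕ) (s : Bool) (r j : ℕ) : List Rec :=
  if j + 1 < M then [((0, s, r, j), (1, s, r, j + 1), 4 * (3 * N - r) + 2, (3, s, r, j))] else []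

/-- Records of the vertical roads. -/
def rV (N M : ℕ) (s : Bool) (r j : ℕ) : List Rec :=
  if r + 1 ≤ 3 * N then [((2, s, r + 1, j), (0, s, r, j), 4 * M + 2, (5, s, r, j))] else []

/-- Records of the last vertical roads. -/
def rQ (M : ℕ) (s : Bool) (j : ℕ) : List Rec :=
  [((2, s, 0, j), (3, s, j, 0), 4 * M + 2, (6, s, j, 0))]

/-- Records of the roads at the pendant triangle. -/
def rT (N : ℕ) (s : Bool) : List Rec := [((4, false, 3 * N, 0), (7, s, 0, 0), 1, (12, s, 0, 0))]

/-- Records of the chords. -/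
def rC (b : Bool) (r j : ℕ) : List Rec :=
  if b = true then [((1, true, r, j), (2, true, r, j), 2, (7, false, r, j))] else []

/-- Records of the clause edges. -/
def rE (j : ℕ) : List Rec := [((3, true, j, 0), (3, false, j, 0), 1, (8, false, j, 0))]

/-- Records of the variable gadgets. -/
def rM (M i : ℕ) : List Rec :=
  [((4, false, 3 * i, 0), (6, true, i, 0), 8 * M + 17, (10, true, i, 0)),
   ((4, false, 3 * i + 2, 0), (6, false, i, 0), 8 * M + 17, (10, false, i, 0)),
   ((6, true, i, 0), (6, false, i, 0), 1, (11, false, i, 0))]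

/-- Records of one of the two copies. -/
def rS (N M : ℕ) (s : Bool) : List Rec :=
  ((List.range (3 * N + 1)).flatMap fun r => rA s r) ++
    (((List.range N).flatMap fun i => rN M s i) ++
    (((List.range (3 * N + 1)).flatMap fun r => (List.range M).flatMap fun j =>
      rG s r j ++ (rH N M s r j ++ rV N M s r j)) ++
    (((List.range M).flatMap fun j => rQ M s j) ++ rT N s)))

/-- All records of present roads. -/
def recs (φ : CNF) : List Rec :=
  rS (NN φ) φ.length true ++ (rS (NN φ) φ.length false ++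
  (((List.range (3 * NN φ + 1)).flatMap fun r => (List.range φ.length).flatMap fun j =>
    rC (RR φ r j) r j) ++
  (((List.range φ.length).flatMap fun j => rE j) ++
  (((List.range (NN φ)).flatMap fun i => rM φ.length i) ++
    [((7, true, 0, 0), (7, false, 0, 0), 1, (13, false, 0, 0))]))))

/-- The code of the point number `i` of a road. -/
def ptc (x : Rec) (i : ℕ) : ℕ × (ℕ × Bool × ℕ × ℕ) × ℕ :=
  if i = 0 then (0, x.1, 0) else if i = x.2.2.1 then (0, x.2.1, 0) else (1, x.2.2.2, i)

/-- All codes of points, with repetitions. -/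
def pts (φ : CNF) : List (ℕ × (ℕ × Bool × ℕ × ℕ) × ℕ) :=
  (recs φ).flatMap fun x => (List.range (x.2.2.1 + 1)).map fun i => ptc x i

/-- Remove repetitions. -/
def uniq {α : Type} [DecidableEq α] (l : List α) : List α :=
  (l.zipIdx.filter fun x => decide (l.idxOf x.1 = x.2)).map fun x => x.1

/-- The vertices. -/
def vs (φ : CNF) : List (ℕ × (ℕ × Bool × ℕ × ℕ) × ℕ) := uniq (pts φ)

/-- The edges. -/
def es (φ : CNF) : List (ℕ × ℕ) :=
  (recs φ).flatMap fun x => (List.range x.2.2.1).map fun i =>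
    ((vs φ).idxOf (ptc x i), (vs φ).idxOf (ptc x (i + 1)))

theorem polyTime_NN : PolyTime NN := by
  unfold NN; fun_prop

theorem polyTime_RR : PolyTime (fun z : CNF × ℕ × ℕ => RR z.1 z.2.1 z.2.2) := by
  have h := polyTime_NN
  unfold RR; fun_prop

theorem polyTime_rA : PolyTime (fun z : Bool × ℕ => rA z.1 z.2) := by
  unfold rA; fun_prop

theorem polyTime_rN : PolyTime (fun z : ℕ × Bool × ℕ => rN z.1 z.2.1 z.2.2) := by
  unfold rN; fun_prop

theorem polyTime_rG : PolyTime (fun z : Bool × ℕ × ℕ => rG z.1 z.2.1 z.2.2) := by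
  unfold rG; fun_prop

theorem polyTime_rH : PolyTime (fun z : ℕ × ℕ × Bool × ℕ × ℕ =>
    rH z.1 z.2.1 z.2.2.1 z.2.2.2.1 z.2.2.2.2) := by
  unfold rH; fun_prop

theorem polyTime_rV : PolyTime (fun z : ℕ × ℕ × Bool × ℕ × ℕ =>
    rV z.1 z.2.1 z.2.2.1 z.2.2.2.1 z.2.2.2.2) := by
  unfold rV; fun_prop

theorem polyTime_rQ : PolyTime (fun z : ℕ × Bool × ℕ => rQ z.1 z.2.1 z.2.2) := by
  unfold rQ; fun_prop

theorem polyTime_rT : PolyTime (fun z : ℕ × Bool => rT z.1 z.2) := by
  unfold rT; fun_prop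

theorem polyTime_rC : PolyTime (fun z : Bool × ℕ × ℕ => rC z.1 z.2.1 z.2.2) := by
  unfold rC; fun_prop

theorem polyTime_rE : PolyTime (fun j : ℕ => rE j) := by
  unfold rE; fun_prop

theorem polyTime_rM : PolyTime (fun z : ℕ × ℕ => rM z.1 z.2) := by
  unfold rM; fun_prop

theorem polyTime_rS : PolyTime (fun z : ℕ × ℕ × Bool => rS z.1 z.2.1 z.2.2) := by
  have h1 := polyTime_rA
  have h2 := polyTime_rN
  have h3 := polyTime_rG
  have h4 := polyTime_rH
  have h5 := polyTime_rV
  have h6 := polyTime_rQ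
  have h7 := polyTime_rT
  unfold rS
  fun_prop

theorem polyTime_recs : PolyTime recs := by
  have h1 := polyTime_NN
  have h2 := polyTime_RR
  have h3 := polyTime_rS
  have h4 := polyTime_rC
  have h5 := polyTime_rE
  have h6 := polyTime_rM
  unfold recs
  fun_prop

theorem polyTime_ptc : PolyTime (fun z : Rec × ℕ => ptc z.1 z.2) := by
  unfold ptc; fun_prop

theorem polyTime_pts : PolyTime pts := by
  have h1 := polyTime_recs
  have h2 := polyTime_ptc
  unfold pts; fun_prop

theorem polyTime_vs : PolyTime vs := by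
  have h1 := polyTime_pts
  unfold vs uniq; fun_prop

theorem polyTime_es : PolyTime es := by
  have h1 := polyTime_recs
  have h2 := polyTime_ptc
  have h3 := polyTime_vs
  unfold es; fun_prop

end Pool.Agent.Helper78.LMD
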