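import Pool.Agent.Helper78.LmdEnc
import Pool.Agent.Helper83.CookLevin

/-!
# NP-hardness of the local metric dimension of planar graphs
-/

namespace Pool.Agent.Helper78.LMD

open Pool.Agent.Helper81.CC SimpleGraph Sum

theorem edist_embed {V' V : Type*} {G' : SimpleGraph V'} {G : SimpleGraph V} (f : V' → V)
    (hf : Function.Injective f) (hadj : ∀ a b, G'.Adj a b ↔ G.Adj (f a) (f b))
    (hcov : ∀ x y, G.Adj x y → ∃ a, f a = x) (a b : V') :
    G.edist (f a) (f b) = G'.edist a b := by
  classical
  apply le_antisymm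
  · have h := pot_le (G := G') (F := fun x => G.edist (f x) (f b)) (fun x y hxy => by
      refine (SimpleGraph.edist_triangle (v := f y)).trans ?_
      rw [add_comm]
      gcongr
      exact edist_le_of_adj ((hadj x y).1 hxy)) a b
    simpa using h
  · set F : V → ℕ∞ := fun x => if h : ∃ a', f a' = x then G'.edist h.choose b else ⊤ with hF
    have hFf : ∀ a', F (f a') = G'.edist a' b := by
      intro a'
      have h : ∃ a'', f a'' = f a' := ⟨a', rfl⟩
      simp only [hF, dif_pos h]
      rw [hf h.choose_spec]
    have h := pot_le (G := G) (F := F) (fun x y hxy => by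
      obtain ⟨a1, rfl⟩ := hcov x y hxy
      obtain ⟨a2, rfl⟩ := hcov y _ hxy.symm
      rw [hFf, hFf]
      refine (SimpleGraph.edist_triangle (v := a2)).trans ?_
      rw [add_comm]
      gcongr
      exact edist_le_of_adj ((hadj _ _).2 hxy)) (f a) (f b)
    rw [hFf, hFf] at h
    simpa using h

/-! ### Lists -/

theorem mem_uniq {α : Type} [DecidableEq α] {l : List α} {x : α} : x ∈ uniq l ↔ x ∈ l := by
  unfold uniq
  rw [List.mem_map]
  constructor
  · rintro ⟨⟨y, i⟩, h, rfl⟩
    rw [List.mem_filter] at h
    have := List.mem_zipIdx_iff_getElem?.1 h.1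
    exact List.mem_of_getElem? this
  · intro h
    refine ⟨(x, l.idxOf x), ?_, rfl⟩
    rw [List.mem_filter]
    refine ⟨?_, by simp⟩
    rw [List.mem_zipIdx_iff_getElem?]
    simp only
    rw [List.getElem?_eq_getElem (List.idxOf_lt_length_iff.2 h), List.getElem_idxOf]

theorem nodup_uniq {α : Type} [DecidableEq α] (l : List α) : (uniq l).Nodup := by
  unfold uniq
  have h1 : (l.zipIdx).Nodup := by
    have : (l.zipIdx.map Prod.snd).Nodup := by
      rw [List.zipIdx_map_snd]
      exact List.nodup_range'
    exact List.Nodup.of_map _ this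
  refine List.Nodup.map_on ?_ (h1.filter _)
  rintro ⟨x, i⟩ hx ⟨y, j⟩ hy h
  simp only at h
  subst h
  have h2 := (List.mem_filter.1 hx).2
  have h3 := (List.mem_filter.1 hy).2
  simp only [decide_eq_true_eq] at h2 h3
  rw [← h2, ← h3]

theorem RR_eq (φ : CNF) (r j : ℕ) : (matOf φ).R r j = RR φ r j := rfl

theorem rS_mem {φ : CNF} {s : Bool} {x : Rec} (h : x ∈ rS (NN φ) φ.length s) : x ∈ recs φ := by
  simp only [recs, List.mem_append]
  cases s
  · exact Or.inr (Or.inl h)
  · exact Or.inl h

open Rd in
theorem mem_recs (φ : CNF) (x : Rec) :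
    x ∈ recs φ ↔ ∃ e, 0 < (matOf φ).net.len e ∧ x = rc (matOf φ) e := by
  constructor
  · intro hx
    have hS : ∀ s, x ∈ rS (NN φ) φ.length s →
        ∃ e, 0 < (matOf φ).net.len e ∧ x = rc (matOf φ) e := by
      intro s hx
      simp only [rS, List.mem_append, List.mem_flatMap, List.mem_range] at hx
      rcases hx with ⟨r, hr, hx⟩ | ⟨i, hi, hx⟩ | ⟨r, hr, j, hj, hx | hx | hx⟩ | ⟨j, hj, hx⟩ | hx
      · simp only [rA] at hx
        split_ifs at hx with h
        · simp at hx
        · rw [List.mem_singleton] at hx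
          have h1 : r ≤ 3 * (matOf φ).N ∧ r % 3 ≠ 1 := ⟨by simp only [matOf]; omega, h⟩
          refine ⟨srcA s r, ?_, ?_⟩
          · simp only [Mat.net, rlen, if_pos h1]; omega
          · rw [hx]; simp only [rc, rlen, if_pos h1, cJ, cR, rsrc, rdst]
      · simp only [rN, List.mem_cons, List.not_mem_nil, or_false] at hx
        have h1 : i < (matOf φ).N := hi
        rcases hx with rfl | rfl | rfl
        · refine ⟨srcN s i, ?_, ?_⟩
          · simp only [Mat.net, rlen, if_pos h1]; omega
          · simp only [rc, rlen, if_pos h1, cJ, cR, rsrc, rdst]; rfl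
        · refine ⟨hu s i true, ?_, ?_⟩
          · simp only [Mat.net, rlen, if_pos h1]; omega
          · simp only [rc, rlen, if_pos h1, cJ, cR, rsrc, rdst]; rfl
        · refine ⟨hu s i false, ?_, ?_⟩
          · simp only [Mat.net, rlen, if_pos h1]; omega
          · simp only [rc, rlen, if_pos h1, cJ, cR, rsrc, rdst]; rfl
      · simp only [rG, List.mem_cons, List.not_mem_nil, or_false] at hx
        have h1 : r ≤ 3 * (matOf φ).N ∧ j < (matOf φ).M := ⟨by simp only [matOf]; omega, hj⟩
        rcases hx with rfl | rfl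
        · refine ⟨pz s r j, ?_, ?_⟩
          · simp only [Mat.net, rlen, if_pos h1]; omega
          · simp only [rc, rlen, if_pos h1, cJ, cR, rsrc, rdst]
        · refine ⟨zq s r j, ?_, ?_⟩
          · simp only [Mat.net, rlen, if_pos h1]; omega
          · simp only [rc, rlen, if_pos h1, cJ, cR, rsrc, rdst]
      · simp only [rH] at hx
        split_ifs at hx with h
        · rw [List.mem_singleton] at hx
          have h1 : r ≤ 3 * (matOf φ).N ∧ j + 1 < (matOf φ).M := ⟨by simp only [matOf]; omega, h⟩
          refine ⟨zp s r j, ?_, ?_⟩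
          · simp only [Mat.net, rlen, if_pos h1]; omega
          · rw [hx]; simp only [rc, rlen, if_pos h1, cJ, cR, rsrc, rdst]; rfl
        · simp at hx
      · simp only [rV] at hx
        split_ifs at hx with h
        · rw [List.mem_singleton] at hx
          have h1 : r + 1 ≤ 3 * (matOf φ).N ∧ j < (matOf φ).M := ⟨h, hj⟩
          refine ⟨qz s r j, ?_, ?_⟩
          · simp only [Mat.net, rlen, if_pos h1]; omega
          · rw [hx]; simp only [rc, rlen, if_pos h1, cJ, cR, rsrc, rdst]; rfl
        · simp at hx
      · rw [rQ, List.mem_singleton] at hx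
        have h1 : j < (matOf φ).M := hj
        refine ⟨qu s j, ?_, ?_⟩
        · simp only [Mat.net, rlen, if_pos h1]; omega
        · rw [hx]; simp only [rc, rlen, if_pos h1, cJ, cR, rsrc, rdst]; rfl
      · rw [rT, List.mem_singleton] at hx
        exact ⟨gg1 s, by simp [Mat.net, rlen], hx⟩
    simp only [recs, List.mem_append, List.mem_flatMap, List.mem_range, List.mem_singleton] at hx
    rcases hx with hx | hx | ⟨r, hr, j, hj, hx⟩ | ⟨j, hj, hx⟩ | ⟨i, hi, hx⟩ | hx
    · exact hS _ hx
    · exact hS _ hx
    · simp only [rC] at hx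
      split_ifs at hx with h
      · rw [List.mem_singleton] at hx
        have h1 : r ≤ 3 * (matOf φ).N ∧ j < (matOf φ).M ∧ (matOf φ).R r j = true :=
          ⟨by simp only [matOf]; omega, hj, h⟩
        refine ⟨ch r j, ?_, ?_⟩
        · simp only [Mat.net, rlen, if_pos h1]; omega
        · rw [hx]; simp only [rc, rlen, if_pos h1, cJ, cR, rsrc, rdst]
      · simp at hx
    · rw [rE, List.mem_singleton] at hx
      have h1 : j < (matOf φ).M := hj
      refine ⟨e j, ?_, ?_⟩
      · simp only [Mat.net, rlen, if_pos h1]; omega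
      · rw [hx]; simp only [rc, rlen, if_pos h1, cJ, cR, rsrc, rdst]
    · simp only [rM, List.mem_cons, List.not_mem_nil, or_false] at hx
      have h1 : i < (matOf φ).N := hi
      rcases hx with rfl | rfl | rfl
      · refine ⟨arm true i, ?_, ?_⟩
        · simp only [Mat.net, rlen, if_pos h1]; omega
        · simp only [rc, rlen, if_pos h1, cJ, cR, rsrc, rdst, row]; rfl
      · refine ⟨arm false i, ?_, ?_⟩
        · simp only [Mat.net, rlen, if_pos h1]; omega
        · simp only [rc, rlen, if_pos h1, cJ, cR, rsrc, rdst, row]; rfl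
      · refine ⟨eps i, ?_, ?_⟩
        · simp only [Mat.net, rlen, if_pos h1]; omega
        · simp only [rc, rlen, if_pos h1, cJ, cR, rsrc, rdst]
    · exact ⟨gg, by simp [Mat.net, rlen], hx⟩
  · rintro ⟨e, he, rfl⟩
    simp only [Mat.net] at he
    cases e with
    | srcA s r =>
      simp only [rlen] at he
      split_ifs at he with h
      · apply rS_mem (s := s)
        simp only [rS, List.mem_append, List.mem_flatMap, List.mem_range]
        left
        refine ⟨r, by have := h.1; simp only [matOf] at this; omega, ?_⟩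
        rw [rA, if_neg h.2, List.mem_singleton]
        simp only [rc, rlen, if_pos h, cJ, cR, rsrc, rdst]
      · omega
    | srcN s i =>
      simp only [rlen] at he
      split_ifs at he with h
      · apply rS_mem (s := s)
        simp only [rS, List.mem_append, List.mem_flatMap, List.mem_range]
        right; left
        refine ⟨i, h, ?_⟩
        simp only [rN, List.mem_cons]
        left
        simp only [rc, rlen, if_pos h, cJ, cR, rsrc, rdst]; rfl
      · omega
    | pz s r j =>
      simp only [rlen] at he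
      split_ifs at he with h
      · apply rS_mem (s := s)
        simp only [rS, List.mem_append, List.mem_flatMap, List.mem_range]
        right; right; left
        refine ⟨r, by have := h.1; simp only [matOf] at this; omega, j, h.2, ?_⟩
        left
        simp only [rG, List.mem_cons]
        left
        simp only [rc, rlen, if_pos h, cJ, cR, rsrc, rdst]
      · omega
    | zp s r j =>
      simp only [rlen] at he
      split_ifs at he with h
      · apply rS_mem (s := s)
        simp only [rS, List.mem_append, List.mem_flatMap, List.mem_range]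
        right; right; left
        refine ⟨r, by have := h.1; simp only [matOf] at this; omega, j,
          by have := h.2; simp only [matOf] at this; omega, ?_⟩
        right; left
        have h2 : j + 1 < φ.length := h.2
        rw [rH, if_pos h2, List.mem_singleton]
        simp only [rc, rlen, if_pos h, cJ, cR, rsrc, rdst]; rfl
      · omega
    | zq s r j =>
      simp only [rlen] at he
      split_ifs at he with h
      · apply rS_mem (s := s)
        simp only [rS, List.mem_append, List.mem_flatMap, List.mem_range]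
        right; right; left
        refine ⟨r, by have := h.1; simp only [matOf] at this; omega, j, h.2, ?_⟩
        left
        simp only [rG, List.mem_cons]
        right; left
        simp only [rc, rlen, if_pos h, cJ, cR, rsrc, rdst]
      · omega
    | qz s r j =>
      simp only [rlen] at he
      split_ifs at he with h
      · apply rS_mem (s := s)
        simp only [rS, List.mem_append, List.mem_flatMap, List.mem_range]
        right; right; left
        have h2 : r + 1 ≤ 3 * NN φ := h.1
        refine ⟨r, by omega, j, h.2, ?_⟩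
        right; right
        rw [rV, if_pos h2, List.mem_singleton]
        simp only [rc, rlen, if_pos h, cJ, cR, rsrc, rdst]; rfl
      · omega
    | qu s j =>
      simp only [rlen] at he
      split_ifs at he with h
      · apply rS_mem (s := s)
        simp only [rS, List.mem_append, List.mem_flatMap, List.mem_range]
        right; right; right; left
        refine ⟨j, h, ?_⟩
        rw [rQ, List.mem_singleton]
        simp only [rc, rlen, if_pos h, cJ, cR, rsrc, rdst]; rfl
      · omega
    | ch r j =>
      simp only [rlen] at he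
      split_ifs at he with h
      · simp only [recs, List.mem_append, List.mem_flatMap, List.mem_range]
        right; right; left
        refine ⟨r, by have := h.1; simp only [matOf] at this; omega, j, h.2.1, ?_⟩
        have h2 : RR φ r j = true := h.2.2
        rw [rC, if_pos h2, List.mem_singleton]
        simp only [rc, rlen, if_pos h, cJ, cR, rsrc, rdst]
      · omega
    | e j =>
      simp only [rlen] at he
      split_ifs at he with h
      · simp only [recs, List.mem_append, List.mem_flatMap, List.mem_range]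
        right; right; right; left
        refine ⟨j, h, ?_⟩
        rw [rE, List.mem_singleton]
        simp only [rc, rlen, if_pos h, cJ, cR, rsrc, rdst]
      · omega
    | hu s i b =>
      simp only [rlen] at he
      split_ifs at he with h
      · apply rS_mem (s := s)
        simp only [rS, List.mem_append, List.mem_flatMap, List.mem_range]
        right; left
        refine ⟨i, h, ?_⟩
        simp only [rN, List.mem_cons]
        cases b
        · right; right; left
          simp only [rc, rlen, if_pos h, cJ, cR, rsrc, rdst]; rfl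
        · right; left
          simp only [rc, rlen, if_pos h, cJ, cR, rsrc, rdst]; rfl
      · omega
    | arm b i =>
      simp only [rlen] at he
      split_ifs at he with h
      · simp only [recs, List.mem_append, List.mem_flatMap, List.mem_range]
        right; right; right; right; left
        refine ⟨i, h, ?_⟩
        simp only [rM, List.mem_cons]
        cases b
        · right; left
          simp only [rc, rlen, if_pos h, cJ, cR, rsrc, rdst, row]; rfl
        · left
          simp only [rc, rlen, if_pos h, cJ, cR, rsrc, rdst, row]; rfl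
      · omega
    | eps i =>
      simp only [rlen] at he
      split_ifs at he with h
      · simp only [recs, List.mem_append, List.mem_flatMap, List.mem_range]
        right; right; right; right; left
        refine ⟨i, h, ?_⟩
        simp only [rM, List.mem_cons]
        right; right; left
        simp only [rc, rlen, if_pos h, cJ, cR, rsrc, rdst]
      · omega
    | gg1 b =>
      apply rS_mem (s := b)
      simp only [rS, List.mem_append, List.mem_flatMap, List.mem_range]
      right; right; right; right
      rw [rT, List.mem_singleton]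
      rfl
    | gg =>
      simp only [recs, List.mem_append, List.mem_flatMap, List.mem_range]
      right; right; right; right; right
      rw [List.mem_singleton]
      rfl

theorem ptc_rc (D : Mat) (e : Rd) (i : ℕ) : ptc (rc D e) i = cV (D.net.pt e i) := by
  unfold ptc rc Net.pt
  simp only [Mat.net]
  split_ifs <;> rfl

theorem mem_pts (φ : CNF) (y : ℕ × (ℕ × Bool × ℕ × ℕ) × ℕ) :
    y ∈ pts φ ↔ ∃ w, Used (matOf φ) w ∧ y = cV w := by
  simp only [pts, List.mem_flatMap, mem_recs, List.mem_map, List.mem_range, Used]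
  constructor
  · rintro ⟨x, ⟨e, he, rfl⟩, i, hi, rfl⟩
    refine ⟨(matOf φ).net.pt e i, ⟨e, i, he, ?_, rfl⟩, ptc_rc _ _ _⟩
    simp only [rc] at hi
    change i ≤ rlen (matOf φ) e
    omega
  · rintro ⟨w, ⟨e, i, he, hi, rfl⟩, rfl⟩
    refine ⟨_, ⟨e, he, rfl⟩, i, ?_, ptc_rc _ _ _⟩
    simp only [rc]
    change i ≤ rlen (matOf φ) e at hi
    omega

theorem mem_vs (φ : CNF) (y : ℕ × (ℕ × Bool × ℕ × ℕ) × ℕ) :
    y ∈ vs φ ↔ ∃ w, Used (matOf φ) w ∧ y = cV w := by
  rw [vs, mem_uniq, mem_pts]

/-- The vertex of the network with a given number. -/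
noncomputable def lab (φ : CNF) (a : Fin (vs φ).length) : Jn ⊕ Rd × ℕ :=
  ((mem_vs φ _).1 (List.get_mem (vs φ) a)).choose

theorem lab_used (φ : CNF) (a : Fin (vs φ).length) : Used (matOf φ) (lab φ a) :=
  ((mem_vs φ _).1 (List.get_mem (vs φ) a)).choose_spec.1

theorem cV_lab (φ : CNF) (a : Fin (vs φ).length) : (vs φ).get a = cV (lab φ a) :=
  ((mem_vs φ _).1 (List.get_mem (vs φ) a)).choose_spec.2

theorem lab_inj (φ : CNF) : Function.Injective (lab φ) := by
  intro a b h
  have h1 : (vs φ).get a = (vs φ).get b := by rw [cV_lab, cV_lab, h]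
  exact List.Nodup.injective_get (nodup_uniq _) h1

theorem lab_surj (φ : CNF) {w : Jn ⊕ Rd × ℕ} (hw : Used (matOf φ) w) : ∃ a, lab φ a = w := by
  have h := (mem_vs φ (cV w)).2 ⟨w, hw, rfl⟩
  obtain ⟨a, ha⟩ := List.get_of_mem h
  exact ⟨a, cV_inj (by rw [← cV_lab, ha])⟩

theorem idx_lab (φ : CNF) (a : Fin (vs φ).length) : (vs φ).idxOf (cV (lab φ a)) = a := by
  rw [← cV_lab]
  exact List.get_idxOf (nodup_uniq _) a

theorem mem_es (φ : CNF) (a b : Fin (vs φ).length) :
    ((a : ℕ), (b : ℕ)) ∈ es φ ↔ ∃ e i, i < (matOf φ).net.len e ∧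
      lab φ a = (matOf φ).net.pt e i ∧ lab φ b = (matOf φ).net.pt e (i + 1) := by
  simp only [es, List.mem_flatMap, mem_recs, List.mem_map, List.mem_range, Prod.mk.injEq]
  constructor
  · rintro ⟨x, ⟨e, he, rfl⟩, i, hi, h1, h2⟩
    have hi' : i < (matOf φ).net.len e := hi
    rw [ptc_rc] at h1 h2
    obtain ⟨a', ha'⟩ := lab_surj φ (w := (matOf φ).net.pt e i) ⟨e, i, he, hi'.le, rfl⟩
    obtain ⟨b', hb'⟩ := lab_surj φ (w := (matOf φ).net.pt e (i + 1)) ⟨e, i + 1, he, hi', rfl⟩
    rw [← ha', idx_lab] at h1
    rw [← hb', idx_lab] at h2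
    have h1' : a' = a := Fin.ext h1
    have h2' : b' = b := Fin.ext h2
    subst h1' h2'
    exact ⟨e, i, hi', ha', hb'⟩
  · rintro ⟨e, i, hi, h1, h2⟩
    refine ⟨_, ⟨e, by omega, rfl⟩, i, hi, ?_, ?_⟩
    · rw [ptc_rc, ← h1, idx_lab]
    · rw [ptc_rc, ← h2, idx_lab]

theorem adj_iff (φ : CNF) (a b : Fin (vs φ).length) :
    (graphOf (vs φ).length (es φ)).Adj a b ↔ (matOf φ).net.graph.Adj (lab φ a) (lab φ b) := by
  rw [graphOf, Net.graph, SimpleGraph.fromRel_adj, SimpleGraph.fromRel_adj, mem_es, mem_es,
    (lab_inj φ).ne_iff]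

theorem used_of_adj (φ : CNF) {x y : Jn ⊕ Rd × ℕ} (h : (matOf φ).net.graph.Adj x y) :
    Used (matOf φ) x := by
  rw [Net.graph, SimpleGraph.fromRel_adj] at h
  obtain ⟨-, ⟨e, i, hi, rfl, rfl⟩ | ⟨e, i, hi, rfl, rfl⟩⟩ := h
  · exact ⟨e, i, by omega, hi.le, rfl⟩
  · exact ⟨e, i + 1, by omega, hi, rfl⟩

theorem edist_lab (φ : CNF) (a b : Fin (vs φ).length) :
    (matOf φ).net.graph.edist (lab φ a) (lab φ b) =
      (graphOf (vs φ).length (es φ)).edist a b :=
  edist_embed (lab φ) (lab_inj φ) (adj_iff φ) (fun _ _ h => lab_surj φ (used_of_adj φ h)) a b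

theorem planar (φ : CNF) : IsPlanar (graphOf (vs φ).length (es φ)) := by
  refine Net.isPlanar (straight (matOf φ)) (lab φ) (lab_inj φ) ?_ fun u v h => (adj_iff φ u v).1 h
  intro v
  exact lab_used φ v

theorem localDim_le_iff {n : ℕ} (G : SimpleGraph (Fin n)) (k : ℕ) :
    localDim G ≤ k ↔ ∃ W : Finset (Fin n), W.card ≤ k ∧ IsLMG G (W : Set (Fin n)) := by
  have hne : {k | ∃ W : Finset (Fin n), W.card = k ∧ IsLMG G (W : Set (Fin n))}.Nonempty := by
    refine ⟨_, Finset.univ, rfl, ?_⟩
    intro x y h
    refine ⟨x, by simp, ?_⟩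
    rw [SimpleGraph.edist_self]
    exact (SimpleGraph.edist_pos_of_ne h.ne').ne
  constructor
  · intro h
    obtain ⟨W, hW, hL⟩ := Nat.sInf_mem hne
    exact ⟨W, by rw [hW]; exact h, hL⟩
  · rintro ⟨W, hW, hL⟩
    have h : localDim G ≤ W.card := Nat.sInf_le ⟨W, rfl, hL⟩
    exact h.trans hW

theorem lt_NN {φ : CNF} {c : List Lit} {l : Lit} (hc : c ∈ φ) (hl : l ∈ c) : l.2 < NN φ := by
  have h1 : l ∈ φ.flatten := List.mem_flatten.2 ⟨c, hc, hl⟩
  have h2 : l.2 ∈ φ.flatten.map (fun l => l.2) := List.mem_map.2 ⟨l, h1, rfl⟩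
  have h3 := List.single_le_sum (l := φ.flatten.map (fun l => l.2)) (by simp) _ h2
  rw [NN]
  omega

theorem sat_iff (φ : CNF) (a : ℕ → Bool) : CNF.Sat a φ ↔ (matOf φ).Sat a := by
  constructor
  · intro h j hj
    have hj' : j < φ.length := hj
    obtain ⟨l, hl, hal⟩ := h _ (List.getElem_mem hj')
    refine ⟨l.2, lt_NN (List.getElem_mem hj') hl, ?_⟩
    have hg : φ.getD j [] = φ[j] := by simp [hj']
    obtain ⟨b, v⟩ := l
    simp only at hal
    cases b
    · right
      refine ⟨hal, ?_⟩
      simp only [matOf, hg]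
      simpa using hl
    · left
      refine ⟨hal, ?_⟩
      simp only [matOf, hg]
      simpa using hl
  · intro h c hc
    obtain ⟨j, hj, rfl⟩ := List.getElem_of_mem hc
    obtain ⟨i, hi, h1⟩ := h j hj
    have hg : φ.getD j [] = φ[j] := by simp [hj]
    simp only [matOf, hg] at h1
    rcases h1 with ⟨h1, h2⟩ | ⟨h1, h2⟩
    · exact ⟨(true, i), by simpa using h2, h1⟩
    · exact ⟨(false, i), by simpa using h2, h1⟩

theorem dim_iff (φ : CNF) (hφ : 0 < φ.length) :
    localDim (graphOf (vs φ).length (es φ)) ≤ NN φ + 1 ↔ φ.Satisfiable := by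
  classical
  rw [localDim_le_iff]
  have hM : 0 < (matOf φ).M := hφ
  have hN : 0 < (matOf φ).N := Nat.succ_pos _
  constructor
  · rintro ⟨W, hW, hL⟩
    have h := sat_of_lmg hM (W.image (lab φ)) (by
      intro w hw
      obtain ⟨a, -, rfl⟩ := Finset.mem_image.1 hw
      exact lab_used φ a) (Finset.card_image_le.trans hW) (by
      intro x y hxy
      obtain ⟨a, rfl⟩ := lab_surj φ (used_of_adj φ hxy)
      obtain ⟨b, rfl⟩ := lab_surj φ (used_of_adj φ hxy.symm)
      obtain ⟨w, hw, h⟩ := hL a b ((adj_iff φ a b).2 hxy)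
      refine ⟨lab φ w, ?_, ?_⟩
      · rw [Finset.mem_coe, Finset.mem_image]
        exact ⟨w, hw, rfl⟩
      · rw [edist_lab, edist_lab]; exact h)
    obtain ⟨a, ha⟩ := h
    exact ⟨a, (sat_iff φ a).2 ha⟩
  · rintro ⟨a, ha⟩
    have h := lmg_of_sat hN hM ((sat_iff φ a).1 ha)
    refine ⟨Finset.univ.filter fun x => lab φ x ∈ gen (matOf φ) a, ?_, ?_⟩
    · refine (Finset.card_le_card_of_injOn (t := gen (matOf φ) a) (lab φ) ?_
        (lab_inj φ).injOn).trans (gen_card (D := matOf φ) a)
      intro x hx
      simpa using hx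
    · intro x y hxy
      obtain ⟨w, hw, h1⟩ := h _ _ ((adj_iff φ x y).1 hxy)
      obtain ⟨w', rfl⟩ := lab_surj φ (gen_used hw)
      refine ⟨w', by simpa using hw, ?_⟩
      rw [edist_lab, edist_lab] at h1
      exact h1

/-- Add a tautological clause. -/
def aug (φ : CNF) : CNF := [(true, 0), (false, 0)] :: φ

theorem aug_sat (φ : CNF) : (aug φ).Satisfiable ↔ φ.Satisfiable := by
  constructor
  · rintro ⟨a, ha⟩
    exact ⟨a, fun c hc => ha c (List.mem_cons_of_mem _ hc)⟩
  · rintro ⟨a, ha⟩
    refine ⟨a, fun c hc => ?_⟩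
    rcases List.mem_cons.1 hc with rfl | hc
    · cases h : a 0
      · exact ⟨(false, 0), by simp, h⟩
      · exact ⟨(true, 0), by simp, h⟩
    · exact ha c hc

/-- The instance of a formula. -/
def inst (φ : CNF) : ℕ × List (ℕ × ℕ) × ℕ :=
  ((vs (aug φ)).length, es (aug φ), NN (aug φ) + 1)

theorem polyTime_inst : PolyTime inst := by
  have h1 := polyTime_vs
  have h2 := polyTime_es
  have h3 := polyTime_NN
  unfold inst aug
  fun_prop

theorem lmd_npHard : LMDPlanar.NPHard := by
  apply Problem.HardS.npHard
  refine Pool.Agent.Helper83.CL.SAT_hardS.trans ⟨fun φ => ⟨inst φ, planar (aug φ)⟩,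
    (PolyTime.mk polyTime_inst fun φ => planar (aug φ)).scomp, fun φ => ?_⟩
  change φ.Satisfiable ↔ localDim (graphOf (vs (aug φ)).length (es (aug φ))) ≤ NN (aug φ) + 1
  rw [dim_iff _ (by simp [aug]), aug_sat]

end Pool.Agent.Helper78.LMD
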