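import Pool.Agent.Helper78.Net

/-!
# The network of a matrix of clauses
-/

namespace Pool.Agent.Helper78.LMD

open SimpleGraph Sum

/-- Junctions. -/
inductive Jn : Type
  | z (s : Bool) (r j : ℕ)
  | p (s : Bool) (r j : ℕ)
  | q (s : Bool) (r j : ℕ)
  | u (s : Bool) (j : ℕ)
  | A (r : ℕ)
  | hub (s : Bool) (i : ℕ)
  | ep (b : Bool) (i : ℕ)
  | g (b : Bool)
  deriving DecidableEq

/-- Roads. -/
inductive Rd : Type
  | srcA (s : Bool) (r : ℕ)
  | srcN (s : Bool) (i : ℕ)
  | pz (s : Bool) (r j : ℕ)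
  | zp (s : Bool) (r j : ℕ)
  | zq (s : Bool) (r j : ℕ)
  | qz (s : Bool) (r j : ℕ)
  | qu (s : Bool) (j : ℕ)
  | ch (r j : ℕ)
  | e (j : ℕ)
  | hu (s : Bool) (i : ℕ) (b : Bool)
  | arm (b : Bool) (i : ℕ)
  | eps (i : ℕ)
  | gg1 (b : Bool)
  | gg
  deriving DecidableEq

open Jn Rd

/-- A matrix of clauses: `N` variables, `M` clauses, `pos i j` says that the variable `i` occurs in
the clause `j`, and `neg i j` that its negation does. -/
structure Mat where
  N : ℕ
  M : ℕ
  pos : ℕ → ℕ → Bool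
  neg : ℕ → ℕ → Bool

/-- The row with two possible signs of the variable `i`. -/
def row (b : Bool) (i : ℕ) : ℕ := if b then 3 * i else 3 * i + 2

/-- The chord indicator. -/
def Mat.R (D : Mat) (r j : ℕ) : Bool :=
  decide (r < 3 * D.N) && ((decide (r % 3 = 0) && D.pos (r / 3) j) ||
    (decide (r % 3 = 2) && D.neg (r / 3) j))

/-- First endpoints. -/
def rsrc (N : ℕ) : Rd → Jn
  | srcA _ r => A r
  | srcN s i => hub s i
  | pz s r j => p s r j
  | zp s r j => z s r j
  | zq s r j => z s r j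
  | qz s r j => q s (r + 1) j
  | qu s j => q s 0 j
  | ch r j => p true r j
  | e j => u true j
  | hu s i _ => hub s i
  | arm b i => A (row b i)
  | eps i => ep true i
  | gg1 _ => A (3 * N)
  | gg => g true

/-- Second endpoints. -/
def rdst : Rd → Jn
  | srcA s r => p s r 0
  | srcN s i => p s (3 * i + 1) 0
  | pz s r j => z s r j
  | zp s r j => p s r (j + 1)
  | zq s r j => q s r j
  | qz s r j => z s r j
  | qu s j => u s j
  | ch r j => q true r j
  | e j => u false j
  | hu _ i b => ep b i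
  | arm b i => ep b i
  | eps i => ep false i
  | gg1 b => g b
  | gg => g false

/-- Lengths. -/
def rlen (D : Mat) : Rd → ℕ
  | srcA _ r => if r ≤ 3 * D.N ∧ r % 3 ≠ 1 then 2 else 0
  | srcN _ i => if i < D.N then 4 * D.M + 6 else 0
  | pz _ r j => if r ≤ 3 * D.N ∧ j < D.M then 2 else 0
  | zp _ r j => if r ≤ 3 * D.N ∧ j + 1 < D.M then 4 * (3 * D.N - r) + 2 else 0
  | zq _ r j => if r ≤ 3 * D.N ∧ j < D.M then 2 else 0
  | qz _ r j => if r + 1 ≤ 3 * D.N ∧ j < D.M then 4 * D.M + 2 else 0
  | qu _ j => if j < D.M then 4 * D.M + 2 else 0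
  | ch r j => if r ≤ 3 * D.N ∧ j < D.M ∧ D.R r j = true then 2 else 0
  | e j => if j < D.M then 1 else 0
  | hu _ i _ => if i < D.N then 1 else 0
  | arm _ i => if i < D.N then 8 * D.M + 17 else 0
  | eps i => if i < D.N then 1 else 0
  | gg1 _ => 1
  | gg => 1

/-- The network. -/
def Mat.net (D : Mat) : Net Jn Rd := ⟨rsrc D.N, rdst, rlen D⟩

/-- Cost of a horizontal step in the row `r`. -/
def hz (D : Mat) (r : ℕ) : ℤ := 4 * (3 * D.N - r) + 4

/-- Cost of a vertical step. -/
def vz (D : Mat) : ℤ := 4 * D.M + 4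

/-- Chord indicator as an integer. -/
def rz (D : Mat) (r c : ℕ) : ℤ := if D.R r c = true then 1 else 0

/-- The potential vanishing at the lower end of the clause edge of the column `c`. -/
def pot (D : Mat) (k : ℤ) (c : ℕ) : Jn → ℤ
  | z s r j => (if j < c then (c - j) * hz D r - (if s then 2 * rz D r c else 0) else
      (j - c) * hz D r) + (r + 1) * vz D + (if s then k else 0)
  | p s r j => (if j ≤ c then (c - j) * hz D r + 2 - (if s then 2 * rz D r c else 0) else
      (j - c) * hz D r - 2) + (r + 1) * vz D + (if s then k else 0)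
  | q s r j => (if j < c then (c - j) * hz D r - (if s then 2 * rz D r c else 0) else
      if j = c then -2 else (j - c) * hz D r) + (r + 1) * vz D + (if s then k else 0)
  | u s j => (if j < c then (c - j) * hz D 0 + vz D else
      if j = c then 0 else (j - c) * hz D 0 + vz D) + (if s then k else 0)
  | A r => c * hz D r + (r + 1) * vz D - (2 - k) * rz D r c + 4
  | hub s i => c * hz D (3 * i + 1) + (3 * i + 2) * vz D + 4 + vz D + (if s then k else 0)
  | ep _ i => c * hz D (3 * i + 1) + (3 * i + 2) * vz D + 4 + vz D + 1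
  | g _ => c * hz D (3 * D.N) + (3 * D.N + 1) * vz D + 4 + 1

theorem rz_mem (D : Mat) (r c : ℕ) : 0 ≤ rz D r c ∧ rz D r c ≤ 1 := by
  unfold rz; split_ifs <;> simp

theorem R_mod (D : Mat) (i j : ℕ) : D.R (3 * i + 1) j = false := by
  simp only [Mat.R, show (3 * i + 1) % 3 = 1 by omega]; simp

theorem R_last (D : Mat) (j : ℕ) : D.R (3 * D.N) j = false := by
  simp [Mat.R]

theorem isPotZ (D : Mat) (k : ℤ) (hk : k = 0 ∨ k = 1) (c : ℕ) (hc : c < D.M) :
    D.net.IsPotZ (pot D k c) := by
  intro e he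
  have hR : ∀ r, 0 ≤ rz D r c ∧ rz D r c ≤ 1 := fun r => rz_mem D r c
  have hc' : (c : ℤ) + 1 ≤ D.M := by exact_mod_cast hc
  have hc0 : (0 : ℤ) ≤ c := by positivity
  cases e with
  | srcA s r =>
    simp only [Mat.net, rlen, rsrc, rdst, pot] at he ⊢
    have h : r ≤ 3 * D.N ∧ r % 3 ≠ 1 := by by_contra h; simp [h] at he
    rw [if_pos h, if_pos (Nat.zero_le _)]
    have := hR r
    rcases hk with rfl | rfl <;> cases s <;> simp <;> constructor <;> nlinarith
  | srcN s i =>
    simp only [Mat.net, rlen, rsrc, rdst, pot] at he ⊢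
    have h : i < D.N := by by_contra h; simp [h] at he
    rw [if_pos h, if_pos (Nat.zero_le _)]
    have h0 : rz D (3 * i + 1) c = 0 := by simp [rz, R_mod]
    rw [h0]
    push_cast
    unfold vz
    rcases hk with rfl | rfl <;> cases s <;> simp <;> constructor <;> nlinarith
  | pz s r j =>
    simp only [Mat.net, rlen, rsrc, rdst, pot] at he ⊢
    have h : r ≤ 3 * D.N ∧ j < D.M := by by_contra h; simp [h] at he
    rw [if_pos h]
    have := hR r
    rcases lt_trichotomy j c with hj | hj | hj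
    · simp only [hj, hj.le, if_true]
      constructor <;> push_cast <;> linarith
    · subst hj
      simp only [lt_irrefl, le_refl, if_true, if_false]
      cases s <;> simp <;> constructor <;> linarith
    · simp only [not_lt.2 hj.le, not_le.2 hj, if_false]
      constructor <;> push_cast <;> linarith
  | zp s r j =>
    simp only [Mat.net, rlen, rsrc, rdst, pot] at he ⊢
    have h : r ≤ 3 * D.N ∧ j + 1 < D.M := by by_contra h; simp [h] at he
    rw [if_pos h]
    have := hR r
    have hl : ((4 * (3 * D.N - r) + 2 : ℕ) : ℤ) = hz D r - 2 := by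
      unfold hz; have := h.1; omega
    rw [hl]
    have hz0 : 4 ≤ hz D r := by unfold hz; have := h.1; omega
    rcases lt_trichotomy j c with hj | hj | hj
    · have hj1 : j + 1 ≤ c := hj
      simp only [hj, hj1, if_true]
      constructor <;> push_cast <;> nlinarith
    · subst hj
      simp only [lt_irrefl, show ¬ (j + 1 ≤ j) by omega, if_false]
      constructor <;> push_cast <;> nlinarith
    · simp only [not_lt.2 hj.le, show ¬ (j + 1 ≤ c) by omega, if_false]
      constructor <;> push_cast <;> nlinarith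
  | zq s r j =>
    simp only [Mat.net, rlen, rsrc, rdst, pot] at he ⊢
    have h : r ≤ 3 * D.N ∧ j < D.M := by by_contra h; simp [h] at he
    rw [if_pos h]
    rcases lt_trichotomy j c with hj | hj | hj
    · simp only [hj, if_true]
      constructor <;> push_cast <;> linarith
    · subst hj
      simp only [lt_irrefl, if_true, if_false]
      constructor <;> push_cast <;> linarith
    · simp only [not_lt.2 hj.le, hj.ne', if_false]
      constructor <;> push_cast <;> linarith
  | qz s r j =>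
    simp only [Mat.net, rlen, rsrc, rdst, pot] at he ⊢
    have h : r + 1 ≤ 3 * D.N ∧ j < D.M := by by_contra h; rw [if_neg h] at he; omega
    rw [if_pos h]
    have h1 := hR r
    have h2 := hR (r + 1)
    have hj' : (j : ℤ) + 1 ≤ D.M := by exact_mod_cast h.2
    have hz0 : hz D r = hz D (r + 1) + 4 := by unfold hz; push_cast; ring
    rw [hz0]
    generalize hz D (r + 1) = H
    rcases lt_trichotomy j c with hj | hj | hj
    · have hj1 : (j : ℤ) + 1 ≤ c := by exact_mod_cast hj
      simp only [hj, if_true]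
      unfold vz
      cases s <;> simp <;> constructor <;> nlinarith
    · subst hj
      simp only [lt_irrefl, if_true, if_false]
      unfold vz
      constructor <;> push_cast <;> nlinarith
    · have hj1 : (c : ℤ) + 1 ≤ j := by exact_mod_cast hj
      simp only [not_lt.2 hj.le, hj.ne', if_false]
      unfold vz
      constructor <;> push_cast <;> nlinarith
  | qu s j =>
    simp only [Mat.net, rlen, rsrc, rdst, pot] at he ⊢
    have h : j < D.M := by by_contra h; simp [h] at he
    rw [if_pos h]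
    have h1 := hR 0
    have hj' : (j : ℤ) + 1 ≤ D.M := by exact_mod_cast h
    rcases lt_trichotomy j c with hj | hj | hj
    · simp only [hj, if_true]
      unfold vz
      cases s <;> simp <;> constructor <;> nlinarith
    · subst hj
      simp only [lt_irrefl, if_true, if_false]
      unfold vz
      constructor <;> push_cast <;> nlinarith
    · simp only [not_lt.2 hj.le, hj.ne', if_false]
      unfold vz
      constructor <;> push_cast <;> nlinarith
  | ch r j =>
    simp only [Mat.net, rlen, rsrc, rdst, pot] at he ⊢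
    have h : r ≤ 3 * D.N ∧ j < D.M ∧ D.R r j = true := by by_contra h; simp [h] at he
    rw [if_pos h]
    rcases lt_trichotomy j c with hj | hj | hj
    · simp only [hj, hj.le, if_true]
      constructor <;> push_cast <;> linarith
    · subst hj
      have : rz D r j = 1 := by simp [rz, h.2.2]
      simp only [lt_irrefl, le_refl, if_true, if_false, this]
      constructor <;> push_cast <;> linarith
    · simp only [not_lt.2 hj.le, not_le.2 hj, hj.ne', if_false]
      constructor <;> push_cast <;> linarith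
  | e j =>
    simp only [Mat.net, rlen, rsrc, rdst, pot] at he ⊢
    have h : j < D.M := by by_contra h; simp [h] at he
    rw [if_pos h]
    rcases hk with rfl | rfl <;> simp <;> linarith
  | hu s i b =>
    simp only [Mat.net, rlen, rsrc, rdst, pot] at he ⊢
    have h : i < D.N := by by_contra h; simp [h] at he
    rw [if_pos h]
    rcases hk with rfl | rfl <;> cases s <;> simp <;> linarith
  | arm b i =>
    simp only [Mat.net, rlen, rsrc, rdst, pot] at he ⊢
    have h : i < D.N := by by_contra h; simp [h] at he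
    rw [if_pos h]
    have h1 := hR (row b i)
    have hi : (0 : ℤ) ≤ i := by positivity
    have hA : 0 ≤ (2 - k) * rz D (row b i) c ∧ (2 - k) * rz D (row b i) c ≤ 2 := by
      rcases hk with rfl | rfl <;> constructor <;> linarith
    generalize (2 - k) * rz D (row b i) c = w at hA
    cases b
    · simp only [row, hz, vz, Bool.false_eq_true, if_false]
      constructor <;> push_cast <;> nlinarith
    · simp only [row, hz, vz, if_true]
      constructor <;> push_cast <;> nlinarith
  | eps i =>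
    simp only [Mat.net, rlen, rsrc, rdst, pot] at he ⊢
    have h : i < D.N := by by_contra h; simp [h] at he
    rw [if_pos h]
    simp
  | gg1 b =>
    simp only [Mat.net, rlen, rsrc, rdst, pot] at he ⊢
    have : rz D (3 * D.N) c = 0 := by simp [rz, R_last]
    rw [this]
    constructor <;> push_cast <;> linarith
  | gg =>
    simp [Mat.net, rlen, rsrc, rdst, pot]

/-- Distance of junctions. -/
noncomputable def Mat.E (D : Mat) (x y : Jn) : ℕ∞ := D.net.graph.edist (inl x) (inl y)

/-- Horizontal cost, as a natural number. -/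
def hN (D : Mat) (r : ℕ) : ℕ := 4 * (3 * D.N - r) + 4

/-- Vertical cost, as a natural number. -/
def vN (D : Mat) : ℕ := 4 * D.M + 4

variable {D : Mat}

theorem hz_eq {r : ℕ} (h : r ≤ 3 * D.N) : hz D r = hN D r := by
  unfold hz hN; omega

theorem vz_eq : vz D = vN D := by unfold vz vN; push_cast; ring

theorem E_comm (x y : Jn) : D.E x y = D.E y x := SimpleGraph.edist_comm

theorem E_tri {x y w : Jn} {a b n : ℕ} (h1 : D.E x y ≤ a) (h2 : D.E y w ≤ b) (h : a + b ≤ n) :
    D.E x w ≤ n :=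
  (edist_triangle_le h1 h2).trans (by exact_mod_cast h)

theorem E_road (e : Rd) (he : 0 < D.net.len e) : D.E (D.net.src e) (D.net.dst e) ≤ D.net.len e :=
  Net.edist_road he

theorem E_pz {s : Bool} {r j : ℕ} (hr : r ≤ 3 * D.N) (hj : j < D.M) :
    D.E (p s r j) (z s r j) ≤ (2 : ℕ) := by
  have := E_road (D := D) (pz s r j); simpa [Mat.net, rlen, rsrc, rdst, hr, hj] using this

theorem E_zp {s : Bool} {r j : ℕ} (hr : r ≤ 3 * D.N) (hj : j + 1 < D.M) :
    D.E (z s r j) (p s r (j + 1)) ≤ ((4 * (3 * D.N - r) + 2 : ℕ) : ℕ∞) := by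
  have := E_road (D := D) (zp s r j); simpa [Mat.net, rlen, rsrc, rdst, hr, hj] using this

theorem E_zq {s : Bool} {r j : ℕ} (hr : r ≤ 3 * D.N) (hj : j < D.M) :
    D.E (z s r j) (q s r j) ≤ (2 : ℕ) := by
  have := E_road (D := D) (zq s r j); simpa [Mat.net, rlen, rsrc, rdst, hr, hj] using this

theorem E_qz {s : Bool} {r j : ℕ} (hr : r + 1 ≤ 3 * D.N) (hj : j < D.M) :
    D.E (q s (r + 1) j) (z s r j) ≤ ((4 * D.M + 2 : ℕ) : ℕ∞) := by
  have hr' : r < 3 * D.N := hr
  have := E_road (D := D) (qz s r j); simpa [Mat.net, rlen, rsrc, rdst, hr', hj] using this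

theorem E_qu {s : Bool} {j : ℕ} (hj : j < D.M) :
    D.E (q s 0 j) (u s j) ≤ ((4 * D.M + 2 : ℕ) : ℕ∞) := by
  have := E_road (D := D) (qu s j); simpa [Mat.net, rlen, rsrc, rdst, hj] using this

theorem E_ch {r j : ℕ} (hr : r ≤ 3 * D.N) (hj : j < D.M) (hR : D.R r j = true) :
    D.E (p true r j) (q true r j) ≤ (2 : ℕ) := by
  have := E_road (D := D) (ch r j); simpa [Mat.net, rlen, rsrc, rdst, hr, hj, hR] using this

theorem E_srcA {s : Bool} {r : ℕ} (hr : r ≤ 3 * D.N) (h1 : r % 3 ≠ 1) :
    D.E (A r) (p s r 0) ≤ (2 : ℕ) := by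
  have := E_road (D := D) (srcA s r); simpa [Mat.net, rlen, rsrc, rdst, hr, h1] using this

theorem E_srcN {s : Bool} {i : ℕ} (hi : i < D.N) :
    D.E (hub s i) (p s (3 * i + 1) 0) ≤ ((4 * D.M + 6 : ℕ) : ℕ∞) := by
  have := E_road (D := D) (srcN s i); simpa [Mat.net, rlen, rsrc, rdst, hi] using this

theorem E_hu {s b : Bool} {i : ℕ} (hi : i < D.N) : D.E (hub s i) (ep b i) ≤ (1 : ℕ) := by
  have := E_road (D := D) (hu s i b); simpa [Mat.net, rlen, rsrc, rdst, hi] using this

theorem E_gg1 {b : Bool} : D.E (A (3 * D.N)) (g b) ≤ (1 : ℕ) := by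
  have := E_road (D := D) (gg1 b); simpa [Mat.net, rlen, rsrc, rdst] using this

theorem E_pp {s : Bool} {r : ℕ} (hr : r ≤ 3 * D.N) : ∀ j, j < D.M →
    D.E (p s r 0) (p s r j) ≤ ((j * hN D r : ℕ) : ℕ∞)
  | 0, _ => by simp [Mat.E]
  | j + 1, hj => by
    have h1 := E_pp (s := s) hr j (by omega)
    refine E_tri h1 (E_tri (E_pz hr (by omega)) (E_zp hr hj) (Nat.le_refl _)) ?_
    rw [hN, Nat.add_mul j 1]; omega

theorem E_zu {s : Bool} {j : ℕ} (hj : j < D.M) : ∀ r, r ≤ 3 * D.N →
    D.E (z s r j) (u s j) ≤ (((r + 1) * vN D : ℕ) : ℕ∞)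
  | 0, _ => by
    refine E_tri (E_zq (Nat.zero_le _) hj) (E_qu hj) ?_
    rw [vN]; omega
  | r + 1, hr => by
    have h1 := E_zu (s := s) hj r (by omega)
    refine E_tri (E_zq hr hj) (E_tri (E_qz hr hj) h1 (Nat.le_refl _)) ?_
    rw [vN, Nat.succ_mul (r + 1)]; omega

theorem E_qu' {s : Bool} {r j : ℕ} (hj : j < D.M) (hr : r ≤ 3 * D.N) {n : ℕ}
    (hn : (r + 1) * vN D ≤ n + 2) : D.E (q s r j) (u s j) ≤ (n : ℕ∞) := by
  cases r with
  | zero => exact (E_qu hj).trans (by simp only [vN] at hn; norm_cast; omega)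
  | succ r =>
    refine E_tri (E_qz hr hj) (E_zu (s := s) hj r (by omega)) ?_
    rw [Nat.succ_mul (r + 1)] at hn
    simp only [vN] at hn ⊢; omega

/-- Length of the canonical path from a source to the column `j`. -/
def dA (D : Mat) (r j : ℕ) : ℕ := j * hN D r + (r + 1) * vN D + 4

theorem E_pu {s : Bool} {r j : ℕ} (hr : r ≤ 3 * D.N) (hj : j < D.M) :
    D.E (p s r 0) (u s j) ≤ ((j * hN D r + (r + 1) * vN D + 2 : ℕ) : ℕ∞) :=
  E_tri (E_pp hr j hj) (E_tri (E_pz hr hj) (E_zu hj r hr) (Nat.le_refl _)) (by omega)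

theorem E_Au {s : Bool} {r j : ℕ} (hr : r ≤ 3 * D.N) (h1 : r % 3 ≠ 1) (hj : j < D.M) :
    D.E (A r) (u s j) ≤ dA D r j :=
  E_tri (E_srcA hr h1) (E_pu hr hj) (by rw [dA]; omega)

theorem E_Au' {r j n : ℕ} (hr : r ≤ 3 * D.N) (h1 : r % 3 ≠ 1) (hj : j < D.M)
    (hR : D.R r j = true) (hn : n + 2 = dA D r j) :
    D.E (A r) (u true j) ≤ n := by
  have hv : 4 ≤ (r + 1) * vN D := by rw [Nat.succ_mul, vN]; omega
  refine E_tri (E_srcA (s := true) hr h1) (E_tri (E_pp hr j hj)
    (E_tri (E_ch hr hj hR) (E_qu' (n := (r + 1) * vN D - 2) hj hr (by omega)) (Nat.le_refl _))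
    (Nat.le_refl _)) ?_
  simp only [dA] at hn
  omega

/-- Length of the canonical path from a hub to the column `j`. -/
def dH (D : Mat) (i j : ℕ) : ℕ := j * hN D (3 * i + 1) + (3 * i + 2) * vN D + 4 + vN D

theorem E_hubu {s : Bool} {i j : ℕ} (hi : i < D.N) (hj : j < D.M) :
    D.E (hub s i) (u s j) ≤ dH D i j :=
  E_tri (E_srcN hi) (E_pu (by omega) hj) (by
    simp only [dH, vN, show 3 * i + 1 + 1 = 3 * i + 2 from rfl]; omega)

theorem E_epu {s b : Bool} {i j : ℕ} (hi : i < D.N) (hj : j < D.M) :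
    D.E (ep b i) (u s j) ≤ ((dH D i j + 1 : ℕ) : ℕ∞) :=
  E_tri (E_comm (hub s i) (ep b i) ▸ E_hu hi) (E_hubu hi hj) (by omega)

theorem E_Ahub {s b : Bool} {i : ℕ} (hi : i < D.N) (hM : 0 < D.M) :
    D.E (A (row b i)) (hub s i) ≤ ((8 * D.M + 16 : ℕ) : ℕ∞) := by
  have hr : row b i ≤ 3 * D.N := by cases b <;> simp [row] <;> omega
  have h1 : row b i % 3 ≠ 1 := by cases b <;> simp [row] <;> omega
  have ha : D.E (A (row b i)) (z s (row b i) 0) ≤ (4 : ℕ) :=
    E_tri (E_srcA hr h1) (E_pz hr hM) (by omega)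
  have hb : D.E (z s (3 * i + 1) 0) (hub s i) ≤ ((4 * D.M + 8 : ℕ) : ℕ∞) := by
    rw [E_comm]; exact E_tri (E_srcN hi) (E_pz (by omega) hM) (by omega)
  have hc : D.E (z s (row b i) 0) (z s (3 * i + 1) 0) ≤ ((4 * D.M + 4 : ℕ) : ℕ∞) := by
    cases b
    · exact E_tri (E_zq (r := 3 * i + 2) (by omega) hM) (E_qz (by omega) hM) (by omega)
    · rw [E_comm]
      exact E_tri (E_zq (r := 3 * i + 1) (by omega) hM) (E_qz (by omega) hM) (by omega)
  exact E_tri ha (E_tri hc hb (Nat.le_refl _)) (by omega)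

/-- Lower bounds. -/
theorem E_low {k : ℤ} (hk : k = 0 ∨ k = 1) {c : ℕ} (hc : c < D.M) {x y : Jn} {n : ℕ}
    (h : pot D k c y + n ≤ pot D k c x) : (n : ℕ∞) ≤ D.E x y :=
  Net.le_edist (isPotZ D k hk c hc) h

theorem pot_u {s : Bool} {c : ℕ} : pot D 0 c (u s c) = 0 := by simp [pot]

theorem pot_u' {c : ℕ} : pot D 1 c (u false c) = 0 := by simp [pot]

theorem pot_A {k : ℤ} {r c : ℕ} (hr : r ≤ 3 * D.N) :
    pot D k c (A r) = dA D r c - (2 - k) * rz D r c := by
  simp only [pot, dA, hz_eq hr, vz_eq]; push_cast; ring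

theorem pot_ep {k : ℤ} {b : Bool} {i c : ℕ} (hi : i < D.N) :
    pot D k c (ep b i) = dH D i c + 1 := by
  simp only [pot, dH, hz_eq (show 3 * i + 1 ≤ 3 * D.N by omega), vz_eq]; push_cast; ring

/-- A source whose row has no chord in the column `j` is neutral for the column. -/
theorem E_Au_eq {s : Bool} {r j : ℕ} (hr : r ≤ 3 * D.N) (h1 : r % 3 ≠ 1) (hj : j < D.M)
    (hR : D.R r j = false) : D.E (A r) (u s j) = dA D r j := by
  apply le_antisymm (E_Au hr h1 hj)
  apply E_low (k := 0) (Or.inl rfl) hj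
  rw [pot_u, pot_A hr]
  simp [rz, hR]

theorem E_epu_eq {s b : Bool} {i j : ℕ} (hi : i < D.N) (hj : j < D.M) :
    D.E (ep b i) (u s j) = ((dH D i j + 1 : ℕ) : ℕ∞) := by
  apply le_antisymm (E_epu hi hj)
  apply E_low (k := 0) (Or.inl rfl) hj
  rw [pot_u, pot_ep hi]
  push_cast; omega

theorem E_ge_A {r j n : ℕ} (hr : r ≤ 3 * D.N) (hj : j < D.M) (hn : n + 1 = dA D r j) :
    (n : ℕ∞) ≤ D.E (A r) (u false j) := by
  apply E_low (k := 1) (Or.inr rfl) hj
  rw [pot_u', pot_A hr]
  have := rz_mem D r j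
  omega

theorem E_ge_ep {b : Bool} {i j : ℕ} (hi : i < D.N) (hj : j < D.M) :
    ((dH D i j + 1 : ℕ) : ℕ∞) ≤ D.E (ep b i) (u false j) := by
  rw [E_epu_eq hi hj]

end Pool.Agent.Helper78.LMD
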