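import Pool.Agent.Helper78.Octi
import Pool.Agent.Helper78.LmdNet

/-!
# The drawing of the network
-/

namespace Pool.Agent.Helper78.LMD

open Sum Jn Rd

/-- Sign. -/
def sg (s : Bool) : ℤ := if s then 1 else -1

/-- First coordinates. -/
def cx (N : ℕ) : Jn → ℤ
  | z _ _ j => 4 * j + 2
  | p _ _ j => 4 * j
  | q _ _ j => 4 * j + 2
  | u _ j => 4 * j + 2
  | A r => -(4 * r + 6)
  | hub _ i => -(12 * i + 8)
  | ep b i => if b then -(12 * i + 8) else -(12 * i + 10)
  | g _ => -(12 * N + 8)

/-- Second coordinates. -/
def cy : Jn → ℤ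
  | z s r _ => sg s * (4 * r + 6)
  | p s r _ => sg s * (4 * r + 6)
  | q s r _ => sg s * (4 * r + 4)
  | u s _ => sg s * 2
  | A _ => 0
  | hub s _ => sg s * 2
  | ep _ _ => 0
  | g b => sg b * 2

/-- First component of the direction. -/
def ddx : Rd → ℤ
  | srcA _ _ => 1
  | srcN _ _ => 1
  | pz _ _ _ => 1
  | zp _ _ _ => 1
  | zq _ _ _ => 0
  | qz _ _ _ => 0
  | qu _ _ => 0
  | ch _ _ => 1
  | e _ => 0
  | hu _ _ b => if b then 0 else -1
  | arm b _ => if b then -1 else 1
  | eps _ => -1
  | gg1 _ => -1
  | gg => 0

/-- Second component of the direction. -/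
def ddy : Rd → ℤ
  | srcA s _ => sg s
  | srcN s _ => sg s
  | pz _ _ _ => 0
  | zp _ _ _ => 0
  | zq s _ _ => - sg s
  | qz s _ _ => - sg s
  | qu s _ => - sg s
  | ch _ _ => -1
  | e _ => -1
  | hu s _ _ => - sg s
  | arm _ _ => 0
  | eps _ => 0
  | gg1 b => sg b
  | gg => -1

/-- Number of unit steps. -/
def dnn : Rd → ℤ
  | srcA _ r => 4 * r + 6
  | srcN _ i => 12 * i + 8
  | pz _ _ _ => 2
  | zp _ _ _ => 2
  | zq _ _ _ => 2
  | qz _ _ _ => 2
  | qu _ _ => 2
  | ch _ _ => 2
  | e _ => 4
  | hu _ _ _ => 2
  | arm b _ => if b then 2 else 4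
  | eps _ => 2
  | gg1 _ => 2
  | gg => 4

/-- The road or junction at the integer point with absolute values `X`, `Y` of the coordinates;
`s` says that the second coordinate is positive, and `t` that the first one is nonnegative. -/
def own' (N : ℕ) (t : Bool) (X : ℕ) (s : Bool) (Y : ℕ) : Rd ⊕ Jn :=
  if t = true then
    if X % 4 = 2 then
      if Y ≤ 1 then inl (e (X / 4))
      else if Y = 2 then inr (u s (X / 4))
      else if Y = 3 then inl (qu s (X / 4))
      else if Y % 4 = 0 then inr (q s (Y / 4 - 1) (X / 4))
      else if Y % 4 = 1 then inl (zq s (Y / 4 - 1) (X / 4))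
      else if Y % 4 = 2 then inr (z s (Y / 4 - 1) (X / 4))
      else inl (qz s (Y / 4 - 1) (X / 4))
    else if X % 4 = 1 then
      if Y % 4 = 2 then inl (pz s (Y / 4 - 1) (X / 4))
      else inl (ch (Y / 4 - 1) (X / 4))
    else if X % 4 = 3 then inl (zp s (Y / 4 - 1) (X / 4))
    else inr (p s (Y / 4 - 1) (X / 4))
  else if X = 12 * N + 8 then
    if Y ≤ 1 then inl gg else inr (g s)
  else if Y = 0 then
    if X % 12 = 6 ∨ X % 12 = 2 then inr (A (X / 4 - 1))
    else if X % 12 = 7 then inl (arm true (X / 12))
    else if X % 12 = 8 then inr (ep true (X / 12))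
    else if X % 12 = 9 then inl (eps (X / 12))
    else if X % 12 = 10 then inr (ep false (X / 12))
    else inl (arm false ((X - 10) / 12))
  else if (X + Y) % 4 = 0 then inl (gg1 s)
  else if (X + Y) % 4 = 1 then inl (hu s ((X + Y) / 12) true)
  else if (X + Y) % 12 ≠ 10 then inl (srcA s ((X + Y) / 4 - 1))
  else if Y = 1 then inl (hu s ((X + Y) / 12) false)
  else if Y = 2 then inr (hub s ((X + Y) / 12))
  else inl (srcN s ((X + Y) / 12))

/-- The road or junction at an integer point. -/
def own (N : ℕ) (x y : ℤ) : Rd ⊕ Jn :=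
  own' N (decide (0 ≤ x)) x.natAbs (decide (0 < y)) y.natAbs

theorem own_pos {N : ℕ} {x y : ℤ} {X Y : ℕ} {s : Bool} (hx : x = X) (hy : y = sg s * Y)
    (hY : 0 < Y) : own N x y = own' N true X s Y := by
  subst hx hy
  unfold own
  have h1 : decide (0 ≤ (X : ℤ)) = true := by simp
  have h2 : decide (0 < sg s * (Y : ℤ)) = s := by
    cases s
    · simp [sg]
    · simpa [sg] using hY
  have h3 : (sg s * (Y : ℤ)).natAbs = Y := by cases s <;> simp [sg]
  rw [h1, h2, h3, Int.natAbs_natCast]

theorem own_pos0 {N : ℕ} {x y : ℤ} {X : ℕ} (hx : x = X) (hy : y = 0) :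
    own N x y = own' N true X false 0 := by
  subst hx hy
  unfold own
  simp

theorem own_neg {N : ℕ} {x y : ℤ} {X Y : ℕ} {s : Bool} (hx : x = -X) (hX : 0 < X)
    (hy : y = sg s * Y) (hY : 0 < Y) : own N x y = own' N false X s Y := by
  subst hx hy
  unfold own
  have h1 : decide (0 ≤ -(X : ℤ)) = false := by simp; omega
  have h2 : decide (0 < sg s * (Y : ℤ)) = s := by
    cases s
    · simp [sg]
    · simpa [sg] using hY
  have h3 : (sg s * (Y : ℤ)).natAbs = Y := by cases s <;> simp [sg]
  rw [h1, h2, h3, Int.natAbs_neg, Int.natAbs_natCast]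

theorem own_neg0 {N : ℕ} {x y : ℤ} {X : ℕ} (hx : x = -X) (hX : 0 < X) (hy : y = 0) :
    own N x y = own' N false X false 0 := by
  subst hx hy
  unfold own
  have h1 : decide (0 ≤ -(X : ℤ)) = false := by simp; omega
  rw [h1]
  simp

/-- Junctions which are used. -/
def jok (N : ℕ) : Jn → Prop
  | A r => r % 3 ≠ 1
  | hub _ i => i < N
  | ep _ i => i < N
  | _ => True

theorem own_jn (N : ℕ) (a : Jn) (h : jok N a) : own N (cx N a) (cy a) = inr a := by
  cases a with
  | z s r j =>
    rw [own_pos (X := 4 * j + 2) (Y := 4 * r + 6) (s := s) (by simp only [cx]; push_cast; ring)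
      (by simp only [cy]; push_cast; ring) (by omega), own', if_pos rfl]
    split_ifs <;> first
    | (exfalso; omega)
    | (congr 2 <;> omega)
  | p s r j =>
    rw [own_pos (X := 4 * j) (Y := 4 * r + 6) (s := s) (by simp only [cx]; push_cast; ring)
      (by simp only [cy]; push_cast; ring) (by omega), own', if_pos rfl]
    split_ifs <;> first
    | (exfalso; omega)
    | (congr 2 <;> omega)
  | q s r j =>
    rw [own_pos (X := 4 * j + 2) (Y := 4 * r + 4) (s := s) (by simp only [cx]; push_cast; ring)
      (by simp only [cy]; push_cast; ring) (by omega), own', if_pos rfl]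
    split_ifs <;> first
    | (exfalso; omega)
    | (congr 2 <;> omega)
  | u s j =>
    rw [own_pos (X := 4 * j + 2) (Y := 2) (s := s) (by simp only [cx]; push_cast; ring)
      (by simp only [cy]; push_cast; ring) (by omega), own', if_pos rfl]
    split_ifs <;> first
    | (exfalso; omega)
    | (congr 2 <;> omega)
  | A r =>
    simp only [jok] at h
    rw [own_neg0 (X := 4 * r + 6) (by simp only [cx]; push_cast; ring) (by omega)
      (by simp only [cy]), own', if_neg (by simp)]
    split_ifs <;> first
    | (exfalso; omega)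
    | (congr 2 <;> omega)
  | hub s i =>
    simp only [jok] at h
    rw [own_neg (X := 12 * i + 8) (Y := 2) (s := s) (by simp only [cx]; push_cast; ring)
      (by omega) (by simp only [cy]; push_cast; ring) (by omega), own', if_neg (by simp)]
    split_ifs <;> first
    | (exfalso; omega)
    | (congr 2 <;> omega)
  | ep b i =>
    simp only [jok] at h
    cases b
    · rw [own_neg0 (X := 12 * i + 10)
        (by simp only [cx, Bool.false_eq_true, if_false]; push_cast; ring) (by omega)
        (by simp only [cy]), own', if_neg (by simp)]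
      split_ifs <;> first
      | (exfalso; omega)
      | (congr 2 <;> omega)
    · rw [own_neg0 (X := 12 * i + 8) (by simp only [cx, if_true]; push_cast; ring) (by omega)
        (by simp only [cy]), own', if_neg (by simp)]
      split_ifs <;> first
      | (exfalso; omega)
      | (congr 2 <;> omega)
  | g b =>
    rw [own_neg (X := 12 * N + 8) (Y := 2) (s := b) (by simp only [cx]; push_cast; ring)
      (by omega) (by simp only [cy]; push_cast; ring) (by omega), own', if_neg (by simp)]
    split_ifs <;> first
    | (exfalso; omega)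
    | rfl

/-- The point with integer parameter `k` of the road `e`. -/
theorem own_rd (D : Mat) (e : Rd) (he : 0 < D.net.len e) (k : ℤ) (h0 : 0 < k) (h1 : k < dnn e) :
    own D.N (cx D.N (rsrc D.N e) + k * ddx e) (cy (rsrc D.N e) + k * ddy e) = inl e := by
  lift k to ℕ using h0.le
  have h0' : 0 < k := by exact_mod_cast h0
  cases e with
  | srcA s r =>
    have h : r ≤ 3 * D.N ∧ r % 3 ≠ 1 := by
      by_contra h; simp only [Mat.net, rlen, if_neg h] at he; omega
    simp only [dnn] at h1
    obtain ⟨m, hm⟩ : ∃ m, m + k = 4 * r + 6 := ⟨4 * r + 6 - k, by omega⟩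
    have hm' : (m : ℤ) = 4 * r + 6 - k := by omega
    rw [own_neg (X := m) (Y := k) (s := s) (by simp only [rsrc, cx, ddx]; rw [hm']; ring)
      (by omega) (by simp only [rsrc, cy, ddy]; ring) h0', own', if_neg (by simp)]
    split_ifs <;> first
    | (exfalso; omega)
    | (congr 2 <;> omega)
  | srcN s i =>
    have h : i < D.N := by
      by_contra h; simp only [Mat.net, rlen, if_neg h] at he; omega
    simp only [dnn] at h1
    obtain ⟨m, hm⟩ : ∃ m, m + k = 12 * i + 8 := ⟨12 * i + 8 - k, by omega⟩
    have hm' : (m : ℤ) = 12 * i + 8 - k := by omega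
    rw [own_neg (X := m) (Y := k + 2) (s := s) (by simp only [rsrc, cx, ddx]; rw [hm']; ring)
      (by omega) (by simp only [rsrc, cy, ddy]; push_cast; ring) (by omega), own',
      if_neg (by simp)]
    split_ifs <;> first
    | (exfalso; omega)
    | (congr 2 <;> omega)
  | pz s r j =>
    simp only [dnn] at h1
    obtain rfl : k = 1 := by omega
    rw [own_pos (X := 4 * j + 1) (Y := 4 * r + 6) (s := s)
      (by simp only [rsrc, cx, ddx]; push_cast; ring)
      (by simp only [rsrc, cy, ddy]; push_cast; ring) (by omega), own', if_pos rfl]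
    split_ifs <;> first
    | (exfalso; omega)
    | (congr 2 <;> omega)
  | zp s r j =>
    simp only [dnn] at h1
    obtain rfl : k = 1 := by omega
    rw [own_pos (X := 4 * j + 3) (Y := 4 * r + 6) (s := s)
      (by simp only [rsrc, cx, ddx]; push_cast; ring)
      (by simp only [rsrc, cy, ddy]; push_cast; ring) (by omega), own', if_pos rfl]
    split_ifs <;> first
    | (exfalso; omega)
    | (congr 2 <;> omega)
  | zq s r j =>
    simp only [dnn] at h1
    obtain rfl : k = 1 := by omega
    rw [own_pos (X := 4 * j + 2) (Y := 4 * r + 5) (s := s)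
      (by simp only [rsrc, cx, ddx]; push_cast; ring)
      (by simp only [rsrc, cy, ddy]; push_cast; ring) (by omega), own', if_pos rfl]
    split_ifs <;> first
    | (exfalso; omega)
    | (congr 2 <;> omega)
  | qz s r j =>
    simp only [dnn] at h1
    obtain rfl : k = 1 := by omega
    rw [own_pos (X := 4 * j + 2) (Y := 4 * r + 7) (s := s)
      (by simp only [rsrc, cx, ddx]; push_cast; ring)
      (by simp only [rsrc, cy, ddy]; push_cast; ring) (by omega), own', if_pos rfl]
    split_ifs <;> first
    | (exfalso; omega)
    | (congr 2 <;> omega)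
  | qu s j =>
    simp only [dnn] at h1
    obtain rfl : k = 1 := by omega
    rw [own_pos (X := 4 * j + 2) (Y := 3) (s := s)
      (by simp only [rsrc, cx, ddx]; push_cast; ring)
      (by simp only [rsrc, cy, ddy]; push_cast; ring) (by omega), own', if_pos rfl]
    split_ifs <;> first
    | (exfalso; omega)
    | (congr 2 <;> omega)
  | ch r j =>
    simp only [dnn] at h1
    obtain rfl : k = 1 := by omega
    rw [own_pos (X := 4 * j + 1) (Y := 4 * r + 5) (s := true)
      (by simp only [rsrc, cx, ddx]; push_cast; ring)
      (by simp only [rsrc, cy, ddy, sg, if_true]; push_cast; ring) (by omega), own', if_pos rfl]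
    split_ifs <;> first
    | (exfalso; omega)
    | (congr 2 <;> omega)
  | e j =>
    simp only [dnn] at h1
    have hk : k = 1 ∨ k = 2 ∨ k = 3 := by omega
    rcases hk with rfl | rfl | rfl
    · rw [own_pos (X := 4 * j + 2) (Y := 1) (s := true)
        (by simp only [rsrc, cx, ddx]; push_cast; ring)
        (by norm_num [rsrc, cy, ddy, sg]) (by omega), own', if_pos rfl]
      split_ifs <;> first
      | (exfalso; omega)
      | (congr 2 <;> omega)
    · rw [own_pos0 (X := 4 * j + 2)
        (by simp only [rsrc, cx, ddx]; push_cast; ring)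
        (by norm_num [rsrc, cy, ddy, sg]), own', if_pos rfl]
      split_ifs <;> first
      | (exfalso; omega)
      | (congr 2 <;> omega)
    · rw [own_pos (X := 4 * j + 2) (Y := 1) (s := false)
        (by simp only [rsrc, cx, ddx]; push_cast; ring)
        (by norm_num [rsrc, cy, ddy, sg]) (by omega), own', if_pos rfl]
      split_ifs <;> first
      | (exfalso; omega)
      | (congr 2 <;> omega)
  | hu s i b =>
    have h : i < D.N := by
      by_contra h; simp only [Mat.net, rlen, if_neg h] at he; omega
    simp only [dnn] at h1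
    obtain rfl : k = 1 := by omega
    cases b
    · rw [own_neg (X := 12 * i + 9) (Y := 1) (s := s)
        (by simp only [rsrc, cx, ddx, Bool.false_eq_true, if_false]; push_cast; ring) (by omega)
        (by simp only [rsrc, cy, ddy]; push_cast; ring) (by omega), own', if_neg (by simp)]
      split_ifs <;> first
      | (exfalso; omega)
      | (congr 2 <;> omega)
    · rw [own_neg (X := 12 * i + 8) (Y := 1) (s := s)
        (by simp only [rsrc, cx, ddx, if_true]; push_cast; ring) (by omega)
        (by simp only [rsrc, cy, ddy]; push_cast; ring) (by omega), own', if_neg (by simp)]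
      split_ifs <;> first
      | (exfalso; omega)
      | (congr 2 <;> omega)
  | arm b i =>
    have h : i < D.N := by
      by_contra h; simp only [Mat.net, rlen, if_neg h] at he; omega
    cases b
    · simp only [dnn, Bool.false_eq_true, if_false] at h1
      have hk : k = 1 ∨ k = 2 ∨ k = 3 := by omega
      obtain ⟨m, hm⟩ : ∃ m, m + k = 12 * i + 14 := ⟨12 * i + 14 - k, by omega⟩
      have hm' : (m : ℤ) = 12 * i + 14 - k := by omega
      rw [own_neg0 (X := m)
        (by simp only [rsrc, row, cx, ddx, Bool.false_eq_true, if_false]; rw [hm']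
            push_cast; ring) (by omega)
        (by simp only [rsrc, cy, ddy]; ring), own', if_neg (by simp)]
      rcases hk with rfl | rfl | rfl <;> split_ifs <;> first
      | (exfalso; omega)
      | (congr 2 <;> omega)
    · simp only [dnn, if_true] at h1
      obtain rfl : k = 1 := by omega
      rw [own_neg0 (X := 12 * i + 7)
        (by simp only [rsrc, row, cx, ddx, if_true]; push_cast; ring) (by omega)
        (by simp only [rsrc, cy, ddy]; ring), own', if_neg (by simp)]
      split_ifs <;> first
      | (exfalso; omega)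
      | (congr 2 <;> omega)
  | eps i =>
    have h : i < D.N := by
      by_contra h; simp only [Mat.net, rlen, if_neg h] at he; omega
    simp only [dnn] at h1
    obtain rfl : k = 1 := by omega
    rw [own_neg0 (X := 12 * i + 9)
      (by simp only [rsrc, cx, ddx, if_true]; push_cast; ring) (by omega)
      (by simp only [rsrc, cy, ddy]; ring), own', if_neg (by simp)]
    split_ifs <;> first
    | (exfalso; omega)
    | (congr 2 <;> omega)
  | gg1 b =>
    simp only [dnn] at h1
    obtain rfl : k = 1 := by omega
    rw [own_neg (X := 12 * D.N + 7) (Y := 1) (s := b)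
      (by simp only [rsrc, cx, ddx]; push_cast; ring) (by omega)
      (by simp only [rsrc, cy, ddy]; push_cast; ring) (by omega), own', if_neg (by simp)]
    split_ifs <;> first
    | (exfalso; omega)
    | rfl
  | gg =>
    simp only [dnn] at h1
    have hk : k = 1 ∨ k = 2 ∨ k = 3 := by omega
    rcases hk with rfl | rfl | rfl
    · rw [own_neg (X := 12 * D.N + 8) (Y := 1) (s := true)
        (by simp only [rsrc, cx, ddx]; push_cast; ring) (by omega)
        (by norm_num [rsrc, cy, ddy, sg]) (by omega), own',
        if_neg (by simp)]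
      split_ifs <;> first
      | (exfalso; omega)
      | rfl
    · rw [own_neg0 (X := 12 * D.N + 8)
        (by simp only [rsrc, cx, ddx]; push_cast; ring) (by omega)
        (by norm_num [rsrc, cy, ddy, sg]), own', if_neg (by simp)]
      split_ifs <;> first
      | (exfalso; omega)
      | rfl
    · rw [own_neg (X := 12 * D.N + 8) (Y := 1) (s := false)
        (by simp only [rsrc, cx, ddx]; push_cast; ring) (by omega)
        (by norm_num [rsrc, cy, ddy, sg]) (by omega), own', if_neg (by simp)]
      split_ifs <;> first
      | (exfalso; omega)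
      | rfl

end Pool.Agent.Helper78.LMD
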