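import Mathlib.Combinatorics.SimpleGraph.Metric
import Mathlib.Tactic

/-!
# Subdivided networks

A network has junctions `J` and roads `ρ`; the road `e` joins the junctions `src e` and `dst e` and
has length `len e` (`0` means that the road is absent). The graph `net` is obtained by replacing
each road by a path of that length. We compute distances by means of potentials.
-/

namespace Pool.Agent.Helper78.LMD

open SimpleGraph Sum

section Basic

variable {V : Type*} {G : SimpleGraph V}

/-- A function which changes by at most one along edges is bounded by distance. -/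
theorem pot_le {F : V → ℕ∞} (hF : ∀ x y, G.Adj x y → F x ≤ F y + 1) (x y : V) :
    F x ≤ F y + G.edist x y := by
  have key : ∀ {x y : V} (p : G.Walk x y), F x ≤ F y + p.length := by
    intro x y p
    induction p with
    | nil => simp
    | @cons a b c h p ih =>
      refine (hF _ _ h).trans ?_
      calc F b + 1 ≤ (F c + p.length) + 1 := by gcongr
        _ = F c + ((p.cons h).length : ℕ∞) := by
          rw [Walk.length_cons, add_assoc]; push_cast; rfl
  by_cases h : G.edist x y = ⊤
  · rw [h]; simp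
  · obtain ⟨p, hp⟩ := exists_walk_of_edist_ne_top h
    rw [← hp]; exact key p

/-- Integer-valued version. -/
theorem potZ_le {F : V → ℤ} (hF : ∀ x y, G.Adj x y → F x ≤ F y + 1) {x y : V} {n : ℕ}
    (h : G.edist x y ≤ n) : F x ≤ F y + n := by
  have key : ∀ {x y : V} (p : G.Walk x y), F x ≤ F y + p.length := by
    intro x y p
    induction p with
    | nil => simp
    | @cons a b c h p ih =>
      have := hF _ _ h
      rw [Walk.length_cons]; push_cast; omega
  have h' : G.edist x y ≠ ⊤ := by
    intro h2; rw [h2] at h; simp at h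
  obtain ⟨p, hp⟩ := exists_walk_of_edist_ne_top h'
  have := key p
  rw [← hp] at h
  have h3 : p.length ≤ n := by exact_mod_cast h
  omega

theorem edist_triangle_le {x y z : V} {a b : ℕ} (h1 : G.edist x y ≤ a) (h2 : G.edist y z ≤ b) :
    G.edist x z ≤ ((a + b : ℕ) : ℕ∞) := by
  refine (SimpleGraph.edist_triangle (v := y)).trans ?_
  push_cast; gcongr

theorem edist_le_of_adj {x y : V} (h : G.Adj x y) : G.edist x y ≤ 1 := by
  rw [edist_eq_one_iff_adj.2 h]

/-- Parity of distances from a root. -/
theorem parity {g : V} {c : V → Bool}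
    (hc : ∀ x y, G.Adj x y → c x ≠ c y ∨ G.edist x g = G.edist y g) :
    ∀ (n : ℕ) (x : V), G.edist x g = n → (c x = c g ↔ Even n) := by
  intro n
  induction n with
  | zero =>
    intro x hx
    have : x = g := by simpa using hx
    simp [this]
  | succ n ih =>
    intro x hx
    obtain ⟨p, hp⟩ := exists_walk_of_edist_eq_coe hx
    cases p with
    | nil => simp at hp
    | @cons a b c' h p =>
      have h1 : G.edist b g ≤ n := by
        refine (edist_le p).trans ?_
        rw [Walk.length_cons] at hp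
        have : p.length = n := by omega
        rw [this]
      have h2 : G.edist b g = n := by
        refine le_antisymm h1 ?_
        have h3 : G.edist x g ≤ 1 + G.edist b g :=
          (SimpleGraph.edist_triangle (v := b)).trans (by gcongr; exact edist_le_of_adj h)
        rw [hx] at h3
        have h4 : G.edist b g ≠ ⊤ := by
          intro h5; rw [h5] at h1; simp at h1
        lift G.edist b g to ℕ using h4 with m
        have : n + 1 ≤ 1 + m := by exact_mod_cast h3
        have : n ≤ m := by omega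
        exact_mod_cast this
      have h5 := ih b h2
      rcases hc x b h with h6 | h6
      · rw [Nat.even_add_one, ← h5]
        cases hx1 : c x <;> cases hb1 : c b <;> cases hg1 : c g <;> simp_all
      · rw [hx, h2] at h6
        have : n + 1 = n := by exact_mod_cast h6
        omega

theorem parity_ne {g : V} {c : V → Bool}
    (hc : ∀ x y, G.Adj x y → c x ≠ c y ∨ G.edist x g = G.edist y g) {x y : V}
    (hx : G.edist x g ≠ ⊤) (hxy : c x ≠ c y) : G.edist x g ≠ G.edist y g := by
  intro h
  have hy : G.edist y g ≠ ⊤ := h ▸ hx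
  lift G.edist x g to ℕ using hx with n hn
  have h1 := parity hc n x hn.symm
  have h2 := parity hc n y h.symm
  rw [← h1] at h2
  cases hx1 : c x <;> cases hb1 : c y <;> cases hg1 : c g <;> simp_all

end Basic

variable {J ρ : Type*}

/-- A network: roads with endpoints and lengths. -/
structure Net (J ρ : Type*) where
  /-- first endpoint -/
  src : ρ → J
  /-- second endpoint -/
  dst : ρ → J
  /-- length, zero if the road is absent -/
  len : ρ → ℕ

variable (T : Net J ρ)

/-- The `i`-th point of the road `e`. -/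
def Net.pt (e : ρ) (i : ℕ) : J ⊕ ρ × ℕ :=
  if i = 0 then inl (T.src e) else if i = T.len e then inl (T.dst e) else inr (e, i)

/-- The graph of a network. -/
def Net.graph : SimpleGraph (J ⊕ ρ × ℕ) :=
  SimpleGraph.fromRel fun x y => ∃ e i, i < T.len e ∧ x = T.pt e i ∧ y = T.pt e (i + 1)

theorem Net.pt_zero (e : ρ) : T.pt e 0 = inl (T.src e) := by simp [Net.pt]

theorem Net.pt_len {e : ρ} (h : 0 < T.len e) : T.pt e (T.len e) = inl (T.dst e) := by
  simp [Net.pt, h.ne']

theorem Net.pt_mid {e : ρ} {i : ℕ} (h0 : 0 < i) (h1 : i < T.len e) : T.pt e i = inr (e, i) := by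
  simp [Net.pt, h0.ne', h1.ne]

/-- Extension of a function on junctions to all vertices. -/
noncomputable def Net.ext (f : J → ℕ∞) : J ⊕ ρ × ℕ → ℕ∞
  | inl a => f a
  | inr (e, i) => min (f (T.src e) + i) (f (T.dst e) + ((T.len e - i : ℕ) : ℕ∞))

/-- A potential on junctions. -/
def Net.IsPot (f : J → ℕ∞) : Prop :=
  ∀ e, 0 < T.len e → f (T.src e) ≤ f (T.dst e) + T.len e ∧ f (T.dst e) ≤ f (T.src e) + T.len e

variable {T}

theorem Net.ext_pt {f : J → ℕ∞} (hf : T.IsPot f) {e : ρ} (he : 0 < T.len e) {i : ℕ}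
    (hi : i ≤ T.len e) :
    T.ext f (T.pt e i) = min (f (T.src e) + i) (f (T.dst e) + ((T.len e - i : ℕ) : ℕ∞)) := by
  rcases Nat.eq_zero_or_pos i with rfl | h0
  · rw [Net.pt_zero]
    simp only [Net.ext]
    rw [min_eq_left]
    · simp
    · simpa using (hf e he).1
  · rcases hi.eq_or_lt with rfl | h1
    · rw [T.pt_len he]
      simp only [Net.ext]
      rw [min_eq_right]
      · simp
      · simpa using (hf e he).2
    · rw [T.pt_mid h0 h1]; rfl

theorem Net.ext_adj {f : J → ℕ∞} (hf : T.IsPot f) (x y : J ⊕ ρ × ℕ) (h : T.graph.Adj x y) :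
    T.ext f x ≤ T.ext f y + 1 := by
  have key : ∀ (e : ρ) (i : ℕ), i < T.len e →
      T.ext f (T.pt e i) ≤ T.ext f (T.pt e (i + 1)) + 1 ∧
      T.ext f (T.pt e (i + 1)) ≤ T.ext f (T.pt e i) + 1 := by
    intro e i hi
    have he : 0 < T.len e := by omega
    rw [Net.ext_pt hf he hi.le, Net.ext_pt hf he (i := i + 1) hi]
    obtain ⟨k, hk⟩ : ∃ k, T.len e - i = k + 1 := ⟨T.len e - i - 1, by omega⟩
    have hk' : T.len e - (i + 1) = k := by omega
    rw [hk, hk']
    rw [← min_add_add_right, ← min_add_add_right]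
    constructor
    · refine min_le_min ?_ ?_
      · push_cast; rw [add_assoc]; gcongr
        exact le_self_add.trans le_self_add
      · push_cast; rw [add_assoc]
    · refine min_le_min ?_ ?_
      · push_cast; rw [add_assoc]
      · push_cast; rw [add_assoc]; gcongr
        exact le_self_add.trans le_self_add
  rw [Net.graph, SimpleGraph.fromRel_adj] at h
  obtain ⟨-, ⟨e, i, hi, rfl, rfl⟩ | ⟨e, i, hi, rfl, rfl⟩⟩ := h
  · exact (key e i hi).1
  · exact (key e i hi).2

/-- Potentials bound distances from below. -/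
theorem Net.pot_le {f : J → ℕ∞} (hf : T.IsPot f) (x y : J ⊕ ρ × ℕ) :
    T.ext f x ≤ T.ext f y + T.graph.edist x y :=
  LMD.pot_le (Net.ext_adj hf) x y

/-- Integer potentials on junctions. -/
def Net.IsPotZ (T : Net J ρ) (f : J → ℤ) : Prop :=
  ∀ e, 0 < T.len e → f (T.src e) ≤ f (T.dst e) + T.len e ∧ f (T.dst e) ≤ f (T.src e) + T.len e

/-- Extension of an integer function on junctions to all vertices. -/
def Net.extZ (T : Net J ρ) (f : J → ℤ) : J ⊕ ρ × ℕ → ℤ
  | inl a => f a
  | inr (e, i) => min (f (T.src e) + i) (f (T.dst e) + (T.len e - i))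

theorem Net.extZ_pt {f : J → ℤ} (hf : T.IsPotZ f) {e : ρ} (he : 0 < T.len e) {i : ℕ}
    (hi : i ≤ T.len e) :
    T.extZ f (T.pt e i) = min (f (T.src e) + i) (f (T.dst e) + (T.len e - i)) := by
  have := hf e he
  rcases Nat.eq_zero_or_pos i with rfl | h0
  · rw [Net.pt_zero]
    simp only [Net.extZ]
    omega
  · rcases hi.eq_or_lt with rfl | h1
    · rw [T.pt_len he]
      simp only [Net.extZ]
      omega
    · rw [T.pt_mid h0 h1]; rfl

theorem Net.extZ_adj {f : J → ℤ} (hf : T.IsPotZ f) (x y : J ⊕ ρ × ℕ) (h : T.graph.Adj x y) :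
    T.extZ f x ≤ T.extZ f y + 1 := by
  have key : ∀ (e : ρ) (i : ℕ), i < T.len e →
      T.extZ f (T.pt e i) ≤ T.extZ f (T.pt e (i + 1)) + 1 ∧
      T.extZ f (T.pt e (i + 1)) ≤ T.extZ f (T.pt e i) + 1 := by
    intro e i hi
    have he : 0 < T.len e := by omega
    rw [Net.extZ_pt hf he hi.le, Net.extZ_pt hf he (i := i + 1) hi]
    push_cast
    omega
  rw [Net.graph, SimpleGraph.fromRel_adj] at h
  obtain ⟨-, ⟨e, i, hi, rfl, rfl⟩ | ⟨e, i, hi, rfl, rfl⟩⟩ := h
  · exact (key e i hi).1
  · exact (key e i hi).2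

theorem Net.potZ_le {f : J → ℤ} (hf : T.IsPotZ f) {a b : J} {n : ℕ}
    (h : T.graph.edist (inl a) (inl b) ≤ n) : f a ≤ f b + n :=
  LMD.potZ_le (F := T.extZ f) (Net.extZ_adj hf) h

/-- Lower bound for a distance between junctions. -/
theorem Net.le_edist {f : J → ℤ} (hf : T.IsPotZ f) {a b : J} {n : ℕ}
    (h : f b + n ≤ f a) : (n : ℕ∞) ≤ T.graph.edist (inl a) (inl b) := by
  by_contra hc
  push Not at hc
  have h1 : T.graph.edist (inl a) (inl b) ≠ ⊤ := by
    intro h2; rw [h2] at hc; simp at hc
  obtain ⟨m, hm⟩ := ENat.ne_top_iff_exists.1 h1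
  have h2 := Net.potZ_le hf (a := a) (b := b) (n := m) (by rw [hm])
  rw [← hm] at hc
  have : m < n := by exact_mod_cast hc
  omega

theorem Net.adj_pt {e : ρ} {i : ℕ} (hi : i < T.len e) (hne : T.pt e i ≠ T.pt e (i + 1)) :
    T.graph.Adj (T.pt e i) (T.pt e (i + 1)) := by
  rw [Net.graph, SimpleGraph.fromRel_adj]
  exact ⟨hne, Or.inl ⟨e, i, hi, rfl, rfl⟩⟩

theorem Net.edist_pt_succ {e : ρ} {i : ℕ} (hi : i < T.len e) :
    T.graph.edist (T.pt e i) (T.pt e (i + 1)) ≤ 1 := by
  by_cases hne : T.pt e i = T.pt e (i + 1)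
  · rw [← hne]; simp
  · exact edist_le_of_adj (Net.adj_pt hi hne)

theorem Net.edist_pt {e : ρ} (i k : ℕ) (hi : i + k ≤ T.len e) :
    T.graph.edist (T.pt e i) (T.pt e (i + k)) ≤ k := by
  induction k with
  | zero => simp
  | succ k ih =>
    have h1 := ih (by omega)
    have h2 := Net.edist_pt_succ (T := T) (e := e) (i := i + k) (by omega)
    exact edist_triangle_le (a := k) (b := 1) h1 (by exact_mod_cast h2)

theorem Net.edist_road {e : ρ} (he : 0 < T.len e) :
    T.graph.edist (inl (T.src e)) (inl (T.dst e)) ≤ T.len e := by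
  have := Net.edist_pt (T := T) (e := e) 0 (T.len e) (by omega)
  rwa [Nat.zero_add, T.pt_zero, T.pt_len he] at this

theorem Net.edist_pt_src {e : ρ} {i : ℕ} (hi : i ≤ T.len e) :
    T.graph.edist (T.pt e i) (inl (T.src e)) ≤ i := by
  have := Net.edist_pt (T := T) (e := e) 0 i (by omega)
  rw [SimpleGraph.edist_comm]
  rwa [Nat.zero_add, T.pt_zero] at this

theorem Net.edist_pt_dst {e : ρ} {i : ℕ} (he : 0 < T.len e) (hi : i ≤ T.len e) :
    T.graph.edist (T.pt e i) (inl (T.dst e)) ≤ ((T.len e - i : ℕ) : ℕ∞) := by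
  have := Net.edist_pt (T := T) (e := e) i (T.len e - i) (by omega)
  rwa [Nat.add_sub_cancel' hi, T.pt_len he] at this

theorem Net.isPot_edist (t : J ⊕ ρ × ℕ) : T.IsPot (fun a => T.graph.edist (inl a) t) := by
  intro e he
  have h := Net.edist_road (T := T) he
  constructor
  · refine (SimpleGraph.edist_triangle (v := inl (T.dst e))).trans ?_
    rw [add_comm]; gcongr
  · refine (SimpleGraph.edist_triangle (v := inl (T.src e))).trans ?_
    rw [add_comm, SimpleGraph.edist_comm (u := inl (T.dst e))]; gcongr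

/-- Distance from an inner point of a road to a junction. -/
theorem Net.edist_mid (t : J) {e : ρ} {i : ℕ} (he : 0 < T.len e) (hi : i ≤ T.len e) :
    T.graph.edist (T.pt e i) (inl t) =
      min (T.graph.edist (inl (T.src e)) (inl t) + i)
        (T.graph.edist (inl (T.dst e)) (inl t) + ((T.len e - i : ℕ) : ℕ∞)) := by
  apply le_antisymm
  · refine le_min ?_ ?_
    · refine (SimpleGraph.edist_triangle (v := inl (T.src e))).trans ?_
      rw [add_comm]; gcongr; exact Net.edist_pt_src hi
    · refine (SimpleGraph.edist_triangle (v := inl (T.dst e))).trans ?_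
      rw [add_comm]; gcongr; exact Net.edist_pt_dst he hi
  · have h := Net.pot_le (T := T) (Net.isPot_edist (inl t)) (T.pt e i) (inl t)
    rw [Net.ext_pt (Net.isPot_edist _) he hi] at h
    simpa [Net.ext] using h

/-- Junctions outside of a gadget see the end `t` of a special edge `t t'` through the hubs. -/
theorem Net.twin {t t' h₁ h₂ : J}
    (a₁ : T.graph.edist (inl h₁) (inl t) ≤ 1) (a₂ : T.graph.edist (inl h₂) (inl t) ≤ 1)
    (hr : ∀ e, 0 < T.len e →
      ((T.src e = t ∨ T.src e = t') → ¬ (T.dst e = t ∨ T.dst e = t') →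
        min (T.graph.edist (inl (T.dst e)) (inl h₁)) (T.graph.edist (inl (T.dst e)) (inl h₂)) + 1
          ≤ T.len e) ∧
      ((T.dst e = t ∨ T.dst e = t') → ¬ (T.src e = t ∨ T.src e = t') →
        min (T.graph.edist (inl (T.src e)) (inl h₁)) (T.graph.edist (inl (T.src e)) (inl h₂)) + 1
          ≤ T.len e))
    {x : J} (hx : ¬ (x = t ∨ x = t')) :
    T.graph.edist (inl x) (inl t) =
      min (T.graph.edist (inl x) (inl h₁)) (T.graph.edist (inl x) (inl h₂)) + 1 := by
  classical
  set g : J → ℕ∞ := fun x =>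
    min (T.graph.edist (inl x) (inl h₁)) (T.graph.edist (inl x) (inl h₂)) + 1 with hg
  set f : J → ℕ∞ := fun x => if x = t ∨ x = t' then 0 else g x with hf
  have hpot : T.IsPot f := by
    intro e he
    have hgp : g (T.src e) ≤ g (T.dst e) + T.len e ∧ g (T.dst e) ≤ g (T.src e) + T.len e := by
      have h1 := Net.isPot_edist (T := T) (inl h₁) e he
      have h2 := Net.isPot_edist (T := T) (inl h₂) e he
      simp only [hg]
      constructor
      · rw [add_right_comm, ← min_add_add_right (T.graph.edist (inl (T.dst e)) (inl h₁))]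
        exact add_le_add_left (min_le_min h1.1 h2.1) 1
      · rw [add_right_comm, ← min_add_add_right (T.graph.edist (inl (T.src e)) (inl h₁))]
        exact add_le_add_left (min_le_min h1.2 h2.2) 1
    have hr' := hr e he
    simp only [hf]
    by_cases c1 : T.src e = t ∨ T.src e = t' <;> by_cases c2 : T.dst e = t ∨ T.dst e = t'
    · simp [c1, c2]
    · rw [if_pos c1, if_neg c2]
      exact ⟨by simp, by rw [zero_add]; exact hr'.1 c1 c2⟩
    · rw [if_neg c1, if_pos c2]
      exact ⟨by rw [zero_add]; exact hr'.2 c2 c1, by simp⟩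
    · rw [if_neg c1, if_neg c2]; exact hgp
  apply le_antisymm
  · rw [← min_add_add_right]
    refine le_min ?_ ?_
    · exact (SimpleGraph.edist_triangle (v := inl h₁)).trans (by gcongr)
    · exact (SimpleGraph.edist_triangle (v := inl h₂)).trans (by gcongr)
  · have h := Net.pot_le (T := T) hpot (inl x) (inl t)
    simp only [Net.ext, hf, true_or, if_true, if_neg hx, zero_add] at h
    exact h

end Pool.Agent.Helper78.LMD
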