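import Pool.Agent.Helper78.Planar

/-!
# Roads in the eight principal directions between points with even coordinates
-/

namespace Pool.Agent.Helper78.LMD

variable {J ρ : Type*} {T : Net J ρ}

/-- `a` is the end of the road `e` at the integer parameter `k`. -/
def Net.EndZ (T : Net J ρ) (nn : ρ → ℤ) (e : ρ) (k : ℤ) (a : J) : Prop :=
  (k = 0 ∧ T.src e = a) ∨ (k = nn e ∧ T.dst e = a)

/-- Real intersections of lines in principal directions through even points. -/
theorem octi {dx dy dx' dy' a b : ℤ} {t t' : ℝ}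
    (h1 : dx = -1 ∨ dx = 0 ∨ dx = 1) (h2 : dy = -1 ∨ dy = 0 ∨ dy = 1)
    (h1' : dx' = -1 ∨ dx' = 0 ∨ dx' = 1) (h2' : dy' = -1 ∨ dy' = 0 ∨ dy' = 1)
    (h : ¬ (dx = 0 ∧ dy = 0)) (h' : ¬ (dx' = 0 ∧ dy' = 0))
    (e1 : t * dx - t' * dx' = ((2 * a : ℤ) : ℝ)) (e2 : t * dy - t' * dy' = ((2 * b : ℤ) : ℝ)) :
    (∃ k k' : ℤ, t = k ∧ t' = k') ∨
      (∃ c : ℤ, t' = t + c ∧ dx' = dx ∧ dy' = dy) ∨
      (∃ c : ℤ, t' = c - t ∧ dx' = -dx ∧ dy' = -dy) := by
  have key : (dx * dy' - dx' * dy ≠ 0 → ∃ q : ℤ, q * (dx * dy' - dx' * dy) = 2) := by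
    intro hne
    rcases h1 with rfl | rfl | rfl <;> rcases h2 with rfl | rfl | rfl <;>
      rcases h1' with rfl | rfl | rfl <;> rcases h2' with rfl | rfl | rfl <;>
      first
      | (exfalso; revert hne; norm_num; done)
      | (refine ⟨1, ?_⟩; norm_num; done)
      | (refine ⟨2, ?_⟩; norm_num; done)
      | (refine ⟨-1, ?_⟩; norm_num; done)
      | (refine ⟨-2, ?_⟩; norm_num; done)
  by_cases hdet : dx * dy' - dx' * dy = 0
  · right
    rcases h1 with rfl | rfl | rfl <;> rcases h2 with rfl | rfl | rfl <;>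
      rcases h1' with rfl | rfl | rfl <;> rcases h2' with rfl | rfl | rfl <;>
      first
      | (exfalso; revert hdet; norm_num; done)
      | (exfalso; exact h ⟨rfl, rfl⟩)
      | (exfalso; exact h' ⟨rfl, rfl⟩)
      | (left; refine ⟨2 * a, ?_, rfl, rfl⟩; push_cast at e1 ⊢; linarith; done)
      | (left; refine ⟨2 * b, ?_, rfl, rfl⟩; push_cast at e2 ⊢; linarith; done)
      | (left; refine ⟨-(2 * a), ?_, rfl, rfl⟩; push_cast at e1 ⊢; linarith; done)
      | (left; refine ⟨-(2 * b), ?_, rfl, rfl⟩; push_cast at e2 ⊢; linarith; done)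
      | (right; refine ⟨2 * a, ?_, rfl, rfl⟩; push_cast at e1 ⊢; linarith; done)
      | (right; refine ⟨2 * b, ?_, rfl, rfl⟩; push_cast at e2 ⊢; linarith; done)
      | (right; refine ⟨-(2 * a), ?_, rfl, rfl⟩; push_cast at e1 ⊢; linarith; done)
      | (right; refine ⟨-(2 * b), ?_, rfl, rfl⟩; push_cast at e2 ⊢; linarith; done)
  · left
    obtain ⟨q, hq⟩ := key hdet
    have hq' : (q : ℝ) * (dx * dy' - dx' * dy) = 2 := by exact_mod_cast hq
    refine ⟨q * (a * dy' - b * dx'), q * (a * dy - b * dx), ?_, ?_⟩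
    · push_cast at e1 e2 ⊢
      have : t * (q * (dx * dy' - dx' * dy)) = q * (2 * a * dy' - 2 * b * dx') := by
        rw [← e1, ← e2]; ring
      rw [hq'] at this
      linarith
    · push_cast at e1 e2 ⊢
      have : t' * (q * (dx * dy' - dx' * dy)) = q * (2 * a * dy - 2 * b * dx) := by
        rw [← e1, ← e2]; ring
      rw [hq'] at this
      linarith

/-- Straightness from an integer condition. -/
theorem straight_of_int (X Y : J → ℤ) (dx dy nn : ρ → ℤ)
    (hev : ∀ e, 0 < T.len e → (∃ a, X (T.src e) = 2 * a) ∧ (∃ b, Y (T.src e) = 2 * b))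
    (hn : ∀ e, 0 < T.len e → 2 ≤ nn e)
    (hdx : ∀ e, 0 < T.len e → dx e = -1 ∨ dx e = 0 ∨ dx e = 1)
    (hdy : ∀ e, 0 < T.len e → dy e = -1 ∨ dy e = 0 ∨ dy e = 1)
    (hd : ∀ e, 0 < T.len e → ¬ (dx e = 0 ∧ dy e = 0))
    (hX : ∀ e, 0 < T.len e → X (T.dst e) = X (T.src e) + nn e * dx e)
    (hY : ∀ e, 0 < T.len e → Y (T.dst e) = Y (T.src e) + nn e * dy e)
    (hI : ∀ e e', 0 < T.len e → 0 < T.len e' → ∀ k k' : ℤ, 0 ≤ k → k ≤ nn e → 0 ≤ k' →
      k' ≤ nn e' → X (T.src e) + k * dx e = X (T.src e') + k' * dx e' →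
      Y (T.src e) + k * dy e = Y (T.src e') + k' * dy e' →
      e = e' ∨ ∃ a, T.EndZ nn e k a ∧ T.EndZ nn e' k' a) :
    T.Straight fun a => ((X a : ℝ), (Y a : ℝ)) := by
  intro e e' t t' he he' ht0 ht1 ht0' ht1' heq
  have hnr : (2 : ℝ) ≤ nn e := by exact_mod_cast hn e he
  have hnr' : (2 : ℝ) ≤ nn e' := by exact_mod_cast hn e' he'
  have q1 : (X (T.src e) : ℝ) + (t * nn e) * dx e = X (T.src e') + (t' * nn e') * dx e' := by
    have := congrArg Prod.fst heq
    simp only [Net.seg, Prod.fst_add, Prod.smul_fst, Prod.fst_sub, smul_eq_mul, hX e he,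
      hX e' he'] at this
    push_cast at this
    linarith
  have q2 : (Y (T.src e) : ℝ) + (t * nn e) * dy e = Y (T.src e') + (t' * nn e') * dy e' := by
    have := congrArg Prod.snd heq
    simp only [Net.seg, Prod.snd_add, Prod.smul_snd, Prod.snd_sub, smul_eq_mul, hY e he,
      hY e' he'] at this
    push_cast at this
    linarith
  have hsame : e = e' → (e = e' ∧ t = t') := by
    intro h
    subst h
    refine ⟨rfl, ?_⟩
    have hz : t * nn e = t' * nn e := by
      rcases hdx e he with h | h | h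
      · rw [h] at q1; push_cast at q1; linarith
      · rcases hdy e he with h' | h' | h'
        · rw [h'] at q2; push_cast at q2; linarith
        · exact absurd ⟨h, h'⟩ (hd e he)
        · rw [h'] at q2; push_cast at q2; linarith
      · rw [h] at q1; push_cast at q1; linarith
    exact mul_right_cancel₀ (by linarith) hz
  by_cases hee : e = e'
  · exact Or.inl (hsame hee)
  right
  obtain ⟨⟨a, ha⟩, ⟨b, hb⟩⟩ := hev e he
  obtain ⟨⟨a', ha'⟩, ⟨b', hb'⟩⟩ := hev e' he'
  have hT0 : 0 ≤ t * nn e := by positivity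
  have hT1 : t * nn e ≤ nn e := by nlinarith
  have hT0' : 0 ≤ t' * nn e' := by positivity
  have hT1' : t' * nn e' ≤ nn e' := by nlinarith
  have int_case : ∀ k k' : ℤ, t * nn e = k → t' * nn e' = k' →
      ∃ a, T.End e t a ∧ T.End e' t' a := by
    intro k k' hk hk'
    rw [hk] at hT0 hT1 q1 q2
    rw [hk'] at hT0' hT1' q1 q2
    rcases hI e e' he he' k k' (by exact_mod_cast hT0) (by exact_mod_cast hT1)
      (by exact_mod_cast hT0') (by exact_mod_cast hT1') (by exact_mod_cast q1)
      (by exact_mod_cast q2) with h | ⟨a, h1, h2⟩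
    · exact absurd h hee
    · refine ⟨a, ?_, ?_⟩
      · rcases h1 with ⟨rfl, h1⟩ | ⟨rfl, h1⟩
        · left
          refine ⟨?_, h1⟩
          have : t * nn e = 0 := by rw [hk]; simp
          rcases mul_eq_zero.1 this with h | h
          · exact h
          · linarith
        · right
          refine ⟨?_, h1⟩
          have h3 : (nn e : ℝ) ≠ 0 := by linarith
          exact mul_right_cancel₀ h3 (by rw [hk]; simp)
      · rcases h2 with ⟨rfl, h1⟩ | ⟨rfl, h1⟩
        · left
          refine ⟨?_, h1⟩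
          have : t' * nn e' = 0 := by rw [hk']; simp
          rcases mul_eq_zero.1 this with h | h
          · exact h
          · linarith
        · right
          refine ⟨?_, h1⟩
          have h3 : (nn e' : ℝ) ≠ 0 := by linarith
          exact mul_right_cancel₀ h3 (by rw [hk']; simp)
  have key := octi (a := a' - a) (b := b' - b) (t := t * nn e) (t' := t' * nn e')
    (hdx e he) (hdy e he) (hdx e' he') (hdy e' he') (hd e he) (hd e' he')
    (by rw [ha, ha'] at q1; push_cast at q1 ⊢; linarith)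
    (by rw [hb, hb'] at q2; push_cast at q2 ⊢; linarith)
  rcases key with ⟨k, k', h1, h2⟩ | ⟨c, h1, h2, h3⟩ | ⟨c, h1, h2, h3⟩
  · exact int_case k k' h1 h2
  · -- parallel, same direction
    by_cases hint : (⌊t * nn e⌋ : ℝ) = t * nn e
    · exact int_case ⌊t * nn e⌋ (⌊t * nn e⌋ + c) hint.symm (by push_cast; rw [hint]; exact h1)
    exfalso
    set k := ⌊t * nn e⌋ with hk
    have f1 : (k : ℝ) < t * nn e := lt_of_le_of_ne (Int.floor_le _) hint
    have f2 : t * nn e < k + 1 := Int.lt_floor_add_one _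
    have g1 : 0 ≤ k := Int.floor_nonneg.2 hT0
    have g2 : k + 1 ≤ nn e := by
      have : (k : ℝ) < nn e := by linarith
      have : k < nn e := by exact_mod_cast this
      omega
    have g3 : 0 ≤ k + c := by
      have : (-1 : ℝ) < k + c := by linarith
      have : (-1 : ℤ) < k + c := by exact_mod_cast this
      omega
    have g4 : k + c + 1 ≤ nn e' := by
      have : (k : ℝ) + c < nn e' := by linarith
      have : k + c < nn e' := by exact_mod_cast this
      omega
    have r1 : (X (T.src e) : ℝ) = X (T.src e') + c * dx e := by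
      rw [h1, h2] at q1; push_cast at q1; linarith
    have r2 : (Y (T.src e) : ℝ) = Y (T.src e') + c * dy e := by
      rw [h1, h3] at q2; push_cast at q2; linarith
    have r1' : X (T.src e) = X (T.src e') + c * dx e := by exact_mod_cast r1
    have r2' : Y (T.src e) = Y (T.src e') + c * dy e := by exact_mod_cast r2
    have i1 := hI e e' he he' k (k + c) g1 (by omega) g3 (by omega)
      (by rw [r1', h2]; ring) (by rw [r2', h3]; ring)
    have i2 := hI e e' he he' (k + 1) (k + 1 + c) (by omega) g2 (by omega) (by omega)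
      (by rw [r1', h2]; ring) (by rw [r2', h3]; ring)
    have hn2 := hn e he
    rcases i1 with h | ⟨a1, h5, -⟩
    · exact hee h
    rcases i2 with h | ⟨a2, h6, -⟩
    · exact hee h
    rcases h5 with ⟨h5, -⟩ | ⟨h5, -⟩ <;> rcases h6 with ⟨h6, -⟩ | ⟨h6, -⟩ <;> omega
  · -- parallel, opposite directions
    by_cases hint : (⌊t * nn e⌋ : ℝ) = t * nn e
    · exact int_case ⌊t * nn e⌋ (c - ⌊t * nn e⌋) hint.symm (by push_cast; rw [hint]; exact h1)
    exfalso
    set k := ⌊t * nn e⌋ with hk
    have f1 : (k : ℝ) < t * nn e := lt_of_le_of_ne (Int.floor_le _) hint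
    have f2 : t * nn e < k + 1 := Int.lt_floor_add_one _
    have g1 : 0 ≤ k := Int.floor_nonneg.2 hT0
    have g2 : k + 1 ≤ nn e := by
      have : (k : ℝ) < nn e := by linarith
      have : k < nn e := by exact_mod_cast this
      omega
    have g3 : 0 ≤ c - k - 1 := by
      have : (0 : ℝ) < c - k := by linarith
      have : (0 : ℤ) < c - k := by exact_mod_cast this
      omega
    have g4 : c - k ≤ nn e' := by
      have : (c : ℝ) - k - 1 < nn e' := by linarith
      have : c - k - 1 < nn e' := by exact_mod_cast this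
      omega
    have r1 : (X (T.src e) : ℝ) = X (T.src e') - c * dx e := by
      rw [h1, h2] at q1; push_cast at q1; linarith
    have r2 : (Y (T.src e) : ℝ) = Y (T.src e') - c * dy e := by
      rw [h1, h3] at q2; push_cast at q2; linarith
    have r1' : X (T.src e) = X (T.src e') - c * dx e := by exact_mod_cast r1
    have r2' : Y (T.src e) = Y (T.src e') - c * dy e := by exact_mod_cast r2
    have i1 := hI e e' he he' k (c - k) g1 (by omega) (by omega) g4
      (by rw [r1', h2]; ring) (by rw [r2', h3]; ring)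
    have i2 := hI e e' he he' (k + 1) (c - k - 1) (by omega) g2 g3 (by omega)
      (by rw [r1', h2]; ring) (by rw [r2', h3]; ring)
    have hn2 := hn e he
    rcases i1 with h | ⟨a1, h5, -⟩
    · exact hee h
    rcases i2 with h | ⟨a2, h6, -⟩
    · exact hee h
    rcases h5 with ⟨h5, -⟩ | ⟨h5, -⟩ <;> rcases h6 with ⟨h6, -⟩ | ⟨h6, -⟩ <;> omega

end Pool.Agent.Helper78.LMD
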