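import Pool.Agent.Helper78.PcrEnc

/-!
# Optimal-colouring reconfiguration: correctness of the reduction
-/

namespace Pool.Agent.Helper78.PCR

open Pool.Agent.Helper81.CC Pool.Agent.Helper78.Sat3

/-! ### Lists -/

theorem mem_uniq {α : Type} [DecidableEq α] {l : List α} {x : α} : x ∈ uniq l ↔ x ∈ l := by
  unfold uniq
  rw [List.mem_map]
  constructor
  · rintro ⟨⟨y, i⟩, h, rfl⟩
    rw [List.mem_filter] at h
    have := List.mem_zipIdx_iff_getElem?.1 h.1
    exact List.mem_of_getElem? this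
  · intro h
    refine ⟨(x, l.idxOf x), ?_, rfl⟩
    rw [List.mem_filter]
    refine ⟨?_, by simp⟩
    rw [List.mem_zipIdx_iff_getElem?]
    simp only
    rw [List.getElem?_eq_getElem (List.idxOf_lt_length_iff.2 h), List.getElem_idxOf]

theorem nodup_uniq {α : Type} [DecidableEq α] (l : List α) : (uniq l).Nodup := by
  unfold uniq
  have h1 : (l.zipIdx).Nodup := by
    have : (l.zipIdx.map Prod.snd).Nodup := by
      rw [List.zipIdx_map_snd]
      exact List.nodup_range'
    exact List.Nodup.of_map _ this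
  refine List.Nodup.map_on ?_ (h1.filter _)
  rintro ⟨x, i⟩ hx ⟨y, j⟩ hy h
  simp only at h
  subst h
  have h2 := (List.mem_filter.1 hx).2
  have h3 := (List.mem_filter.1 hy).2
  simp only [decide_eq_true_eq] at h2 h3
  rw [← h2, ← h3]

/-- The vertices which are used. -/
inductive Us (k : ℕ) (ψ : CNF3) : Cd → Prop
  | pal (s : Bool) (c : ℕ) : 1 ≤ c → c ≤ k → Us k ψ (pal s c)
  | goal (s : Bool) (b : ℕ) : b < 4 → Us k ψ (goal s b)
  | oo (s : Bool) (b j : ℕ) (t : Lit × Lit × Lit) : b < 4 → ψ[j]? = some t → Us k ψ (oo s b j)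
  | pp (s : Bool) (b j : ℕ) (t : Lit × Lit × Lit) (a : ℕ) : b < 4 → ψ[j]? = some t → a < 3 →
      Us k ψ (pp s b j a (lit t a))
  | y1 (s : Bool) (b j : ℕ) (t : Lit × Lit × Lit) (a : ℕ) : b < 4 → ψ[j]? = some t → a < 3 →
      Us k ψ (y1 s b j a (lit t a))
  | y2 (s : Bool) (b j : ℕ) (t : Lit × Lit × Lit) (a : ℕ) : b < 4 → ψ[j]? = some t → a < 3 →
      Us k ψ (y2 s b j a (lit t a))
  | xx (s : Bool) (b j : ℕ) (t : Lit × Lit × Lit) (a : ℕ) : b < 4 → ψ[j]? = some t → a < 3 →
      Us k ψ (xx s b (lit t a).2)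

theorem mem_sid {k : ℕ} {ψ : CNF3} {s : Bool} {v : Cd} (h : v ∈ sid k ψ s) : Us k ψ v := by
  simp only [sid, List.mem_append, List.mem_map, List.mem_range, List.mem_flatMap] at h
  rcases h with ⟨c, hc, rfl⟩ | ⟨b, hb, h⟩
  · exact Us.pal s _ (by omega) (by omega)
  · simp only [copy, List.mem_cons, List.mem_flatMap] at h
    rcases h with rfl | ⟨⟨t, j⟩, hj, h⟩
    · exact Us.goal s b hb
    · have hj' : ψ[j]? = some t := by simpa using List.mem_zipIdx_iff_getElem?.1 hj
      simp only [clv, List.mem_cons, List.mem_flatMap, List.mem_range] at h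
      rcases h with rfl | ⟨a, ha, h⟩
      · exact Us.oo s b j t hb hj'
      · simp only [occ, List.mem_cons, List.not_mem_nil, or_false] at h
        rcases h with rfl | rfl | rfl | rfl
        · exact Us.pp s b j t a hb hj' ha
        · exact Us.y1 s b j t a hb hj' ha
        · exact Us.y2 s b j t a hb hj' ha
        · exact Us.xx s b j t a hb hj' ha

theorem sid_mem {k : ℕ} {ψ : CNF3} {v : Cd} (h : Us k ψ v) : v ∈ sid k ψ v.2.1 := by
  have key : ∀ (s : Bool) (b j : ℕ) (t : Lit × Lit × Lit) (a : ℕ), b < 4 → ψ[j]? = some t → a < 3 →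
      ∀ w ∈ occ s b j a (lit t a), w ∈ sid k ψ s := by
    intro s b j t a hb hj ha w hw
    simp only [sid, List.mem_append, List.mem_flatMap, List.mem_range, copy, List.mem_cons]
    refine Or.inr ⟨b, hb, Or.inr ⟨(t, j), ?_, ?_⟩⟩
    · rw [List.mem_zipIdx_iff_getElem?]; exact hj
    · simp only [clv, List.mem_cons, List.mem_flatMap, List.mem_range]
      exact Or.inr ⟨a, ha, hw⟩
  cases h with
  | pal s c h1 h2 =>
    simp only [sid, List.mem_append, List.mem_map, List.mem_range]
    exact Or.inl ⟨c - 1, by omega, by rw [Nat.sub_add_cancel h1]⟩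
  | goal s b hb =>
    simp only [sid, List.mem_append, List.mem_flatMap, List.mem_range, copy, List.mem_cons]
    exact Or.inr ⟨b, hb, Or.inl rfl⟩
  | oo s b j t hb hj =>
    simp only [sid, List.mem_append, List.mem_flatMap, List.mem_range, copy, List.mem_cons]
    refine Or.inr ⟨b, hb, Or.inr ⟨(t, j), ?_, ?_⟩⟩
    · rw [List.mem_zipIdx_iff_getElem?]; exact hj
    · simp only [clv, List.mem_cons]
      exact Or.inl trivial
  | pp s b j t a hb hj ha => exact key s b j t a hb hj ha _ (by simp [occ])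
  | y1 s b j t a hb hj ha => exact key s b j t a hb hj ha _ (by simp [occ])
  | y2 s b j t a hb hj ha => exact key s b j t a hb hj ha _ (by simp [occ])
  | xx s b j t a hb hj ha => exact key s b j t a hb hj ha _ (by simp [occ])

theorem mem_vs {k : ℕ} {ψ : CNF3} {v : Cd} : v ∈ vs k ψ ↔ Us k ψ v := by
  rw [vs, mem_uniq, List.mem_append]
  constructor
  · rintro (h | h)
    · exact mem_sid h
    · exact mem_sid h
  · intro h
    have := sid_mem h
    cases hs : v.2.1
    · rw [hs] at this; exact Or.inr this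
    · rw [hs] at this; exact Or.inl this

/-- The vertex type. -/
abbrev Vt (k : ℕ) (ψ : CNF3) : Type := Fin (vs k ψ).length

/-- The name of a vertex. -/
def lab {k : ℕ} {ψ : CNF3} (x : Vt k ψ) : Cd := (vs k ψ).get x

theorem lab_us {k : ℕ} {ψ : CNF3} (x : Vt k ψ) : Us k ψ (lab x) := mem_vs.1 (List.get_mem _ _)

theorem lab_inj {k : ℕ} {ψ : CNF3} : Function.Injective (lab (k := k) (ψ := ψ)) :=
  List.Nodup.injective_get (nodup_uniq _)

theorem lab_surj {k : ℕ} {ψ : CNF3} {v : Cd} (h : Us k ψ v) : ∃ x : Vt k ψ, lab x = v := by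
  obtain ⟨x, hx⟩ := List.get_of_mem (mem_vs.2 h)
  exact ⟨x, hx⟩

theorem idx_lab {k : ℕ} {ψ : CNF3} (x : Vt k ψ) : (vs k ψ).idxOf (lab x) = x :=
  List.get_idxOf (nodup_uniq _) x

theorem mem_es {k : ℕ} {ψ : CNF3} (x y : Vt k ψ) :
    ((x : ℕ), (y : ℕ)) ∈ es k ψ ↔ adjB (lab x) (lab y) = true := by
  simp only [es, prs, List.mem_map, List.mem_flatMap, List.mem_filter]
  constructor
  · rintro ⟨⟨u, v⟩, ⟨u', hu', v', ⟨hv', h⟩, huv⟩, h2⟩
    simp only [Prod.mk.injEq] at huv h2
    obtain ⟨rfl, rfl⟩ := huv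
    obtain ⟨x', rfl⟩ := lab_surj (mem_vs.1 hu')
    obtain ⟨y', rfl⟩ := lab_surj (mem_vs.1 hv')
    rw [idx_lab, idx_lab] at h2
    have h1' : x' = x := Fin.ext h2.1
    have h2' : y' = y := Fin.ext h2.2
    subst h1' h2'
    exact h
  · intro h
    refine ⟨(lab x, lab y), ⟨lab x, mem_vs.2 (lab_us x), lab y, ⟨mem_vs.2 (lab_us y), h⟩, rfl⟩, ?_⟩
    rw [idx_lab, idx_lab]

/-- The graph of the reduction. -/
abbrev gr (k : ℕ) (ψ : CNF3) : SimpleGraph (Vt k ψ) := graphOf (vs k ψ).length (es k ψ)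

theorem adjB_side {u v : Cd} (h : adjB u v = true) : side u ≠ side v := by
  unfold adjB at h
  rw [Bool.and_eq_true] at h
  simpa using h.1

theorem gr_adj {k : ℕ} {ψ : CNF3} (x y : Vt k ψ) :
    (gr k ψ).Adj x y ↔ adjB (lab x) (lab y) = true ∨ adjB (lab y) (lab x) = true := by
  rw [gr, graphOf, SimpleGraph.fromRel_adj, mem_es, mem_es]
  constructor
  · exact fun h => h.2
  · intro h
    refine ⟨?_, h⟩
    rintro rfl
    rcases h with h | h <;> exact adjB_side h rfl

theorem gr_colorable (k : ℕ) (ψ : CNF3) : (gr k ψ).Colorable 2 := by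
  refine ⟨SimpleGraph.Coloring.mk (fun x => if side (lab x) = true then 0 else 1) ?_⟩
  intro x y h
  have h1 : side (lab x) ≠ side (lab y) := by
    rw [gr_adj] at h
    rcases h with h | h
    · exact adjB_side h
    · exact (adjB_side h).symm
  cases h2 : side (lab x) <;> cases h3 : side (lab y) <;> simp_all

/-! ### Colourings -/

theorem act_ne {b c d : ℕ} (hc : c < 4) (hd : d < 4) (h : c ≠ d) : act b c ≠ act b d := by
  unfold act; omega

theorem act_pos (b c : ℕ) : 1 ≤ act b c := by unfold act; omega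

theorem act_le (b c : ℕ) : act b c ≤ 4 := by unfold act; omega

theorem v1_lt (a : ℕ) (sg : Bool) : v1 a sg < 4 := by unfold v1; split_ifs <;> omega

theorem v3_lt (sg : Bool) : v3 sg < 4 := by unfold v3; split_ifs <;> omega

theorem v1_ne_v3 (a : ℕ) (sg : Bool) : v1 a sg ≠ v3 sg := by
  unfold v1 v3; split_ifs <;> omega

theorem v1_ne_zero (a : ℕ) (sg : Bool) : v1 a sg ≠ 0 := by
  unfold v1; split_ifs <;> omega

theorem v3_ne_zero (sg : Bool) : v3 sg ≠ 0 := by
  unfold v3; split_ifs <;> omega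

theorem v1_ne_a (a : ℕ) (sg : Bool) : v1 a sg ≠ a + 1 := by
  unfold v1; split_ifs <;> omega

/-- The internal final colours. -/
def fi (al : ℕ → Bool) (ch : ℕ → ℕ) (v : Cd) : ℕ :=
  if v.1 = 2 then ch v.2.2.2.1 + 1
  else if v.1 = 3 then
    (if ch v.2.2.2.1 = v.2.2.2.2.1 then v1 v.2.2.2.2.1 v.2.2.2.2.2.1 else v.2.2.2.2.1 + 1)
  else if v.1 = 4 then
    (if ch v.2.2.2.1 = v.2.2.2.2.1 then 0 else v1 v.2.2.2.2.1 v.2.2.2.2.2.1)
  else if v.1 = 5 then (if ch v.2.2.2.1 = v.2.2.2.2.1 then v3 v.2.2.2.2.2.1 else 0)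
  else if al v.2.2.2.2.2.2 = true then 2 else 3

/-- The final colours. -/
def fin (al : ℕ → Bool) (ch : ℕ → ℕ) (v : Cd) : ℕ :=
  if v.1 = 0 then v.2.2.1 else if v.1 = 1 then v.2.2.1 + 1 else act v.2.2.1 (fi al ch v)

/-- The colouring after `T` stages. -/
def st (al : ℕ → Bool) (ch : ℕ → ℕ) (T : ℕ) (v : Cd) : ℕ :=
  if 6 < v.1 + T then fin al ch v else ini v

/-- A choice of a true literal in every clause. -/
def Good (ψ : CNF3) (al : ℕ → Bool) (ch : ℕ → ℕ) : Prop :=
  ∀ j t, ψ[j]? = some t → ch j < 3 ∧ al (lit t (ch j)).2 = (lit t (ch j)).1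

theorem inL_st {k : ℕ} {ψ : CNF3} {al : ℕ → Bool} {ch : ℕ → ℕ} (hg : Good ψ al ch) (T : ℕ)
    {v : Cd} (hv : Us k ψ v) : inL v (st al ch T v) = true ∨ (v.1 = 1 ∧ st al ch T v = 0) := by
  cases hv with
  | pal s c h1 h2 => left; simp [st, fin, ini, inL]
  | goal s b hb =>
    by_cases h : 6 < 1 + T
    · left; simp [st, h, fin, inL]
    · right; simp [st, h, ini]
  | oo s b j t hb hj =>
    left
    by_cases h : 6 < 2 + T <;> simp [st, h, fin, ini, inL, act_pos, act_le]
  | pp s b j t a hb hj ha =>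
    left
    by_cases h : 6 < 3 + T
    · by_cases h2 : ch j = a <;> simp [st, h, h2, fin, fi, inL, la, lb]
    · simp [st, h, ini, inL, la]
  | y1 s b j t a hb hj ha =>
    left
    by_cases h : 6 < 4 + T
    · by_cases h2 : ch j = a <;> simp [st, h, h2, fin, fi, inL, la, lb]
    · simp [st, h, ini, inL, la]
  | y2 s b j t a hb hj ha =>
    left
    by_cases h : 6 < 5 + T
    · by_cases h2 : ch j = a <;> simp [st, h, h2, fin, fi, inL, la, lb]
    · simp [st, h, ini, inL, la]
  | xx s b j t a hb hj ha =>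
    left
    by_cases h : 6 < 6 + T
    · by_cases h2 : al (lit t a).2 = true <;> simp [st, h, h2, fin, fi, inL, la, lb]
    · simp [st, h, ini, inL, la]

theorem inL_pos {k : ℕ} {ψ : CNF3} {v : Cd} (hv : Us k ψ v) {c : ℕ} (h : inL v c = true) :
    1 ≤ c := by
  have hact := act_pos
  cases hv <;> simp [inL] at h <;> first | omega | (rcases h with rfl | rfl <;> apply act_pos)

theorem inL_le {k : ℕ} (hk : 4 ≤ k) {ψ : CNF3} {v : Cd} (hv : Us k ψ v) {c : ℕ}
    (h : inL v c = true) : c ≤ k := by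
  have hact := act_le
  cases hv <;> simp [inL] at h <;>
    first | omega | (rcases h with rfl | rfl <;> exact (act_le _ _).trans hk)

theorem fin_ne_gam {k : ℕ} {ψ : CNF3} {al : ℕ → Bool} {ch : ℕ → ℕ} (hg : Good ψ al ch)
    {v : Cd} (hv : Us k ψ v) (h2 : 2 ≤ v.1) : fin al ch v ≠ gam v + 1 := by
  have e : ∀ b c, (c + b) % 4 + 1 = act b c := fun b c => by unfold act; omega
  cases hv with
  | pal s c h1 h2 => simp at h2
  | goal s b hb => simp at h2
  | oo s b j t hb hj =>
    simp only [fin, fi, gam]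
    simp only [if_true, OfNat.ofNat_ne_zero, OfNat.ofNat_ne_one, if_false, e]
    norm_num
    exact act_ne (by have := (hg j t hj).1; omega) (by omega) (by omega)
  | pp s b j t a hb hj ha =>
    have e0 : b % 4 + 1 = act b 0 := by unfold act; omega
    simp only [fin, fi, gam]
    norm_num [e0]
    have := v1_lt a (lit t a).1
    have := v1_ne_zero a (lit t a).1
    split_ifs
    · exact act_ne (by omega) (by omega) (by omega)
    · exact act_ne (by omega) (by omega) (by omega)
  | y1 s b j t a hb hj ha =>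
    simp only [fin, fi, gam]
    norm_num [e]
    have := v1_lt a (lit t a).1
    have h5 := v1_ne_zero a (lit t a).1
    unfold v1 at *
    split_ifs at * <;> exact act_ne (by omega) (by omega) (by omega)
  | y2 s b j t a hb hj ha =>
    simp only [fin, fi, gam]
    norm_num [e]
    unfold v3
    split_ifs <;> exact act_ne (by omega) (by omega) (by omega)
  | xx s b j t a hb hj ha =>
    simp only [fin, fi, gam]
    norm_num [e]
    split_ifs <;> exact act_ne (by omega) (by omega) (by omega)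

end Pool.Agent.Helper78.PCR
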