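import Mathlib.Combinatorics.SimpleGraph.Clique
import Mathlib.Combinatorics.SimpleGraph.Coloring.Vertex
import Pool.Agent.Helper81.CxData

/-!
# Optimal-colouring reconfiguration: definitions
-/

namespace Pool.Agent.Helper78.PCR

open Pool.Agent.Helper81.CC

/-- The graph with the vertices `0, ..., n - 1` whose edges are given by a list of pairs. -/
def graphOf (n : ℕ) (E : List (ℕ × ℕ)) : SimpleGraph (Fin n) :=
  SimpleGraph.fromRel fun u v => ((u : ℕ), (v : ℕ)) ∈ E

/-- A graph is perfect if the chromatic number of every induced subgraph equals its clique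
number. -/
def IsPerfect {V : Type*} (G : SimpleGraph V) : Prop :=
  ∀ S : Set V, (G.induce S).chromaticNumber = ((G.induce S).cliqueNum : ℕ∞)

/-- `f` is a `k`-colouring of `G` (with the colours `0, ..., k - 1`). -/
def IsCol {V : Type*} (G : SimpleGraph V) (k : ℕ) (f : V → ℕ) : Prop :=
  (∀ v, f v < k) ∧ ∀ v w, G.Adj v w → f v ≠ f w

/-- The `k`-colouring `g` arises from the `k`-colouring `f` by recolouring a single vertex. -/
def Step {V : Type*} (G : SimpleGraph V) (k : ℕ) (f g : V → ℕ) : Prop :=
  IsCol G k f ∧ IsCol G k g ∧ ∃ v, ∀ w, w ≠ v → g w = f w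

/-- `f` is `k`-reachable from the `k`-colouring `f₀`. -/
def Reach {V : Type*} (G : SimpleGraph V) (k : ℕ) (f₀ f : V → ℕ) : Prop :=
  IsCol G k f₀ ∧ Relation.ReflTransGen (Step G k) f₀ f

/-- The number of colours used by `f`. -/
def col {V : Type*} [Fintype V] (f : V → ℕ) : ℕ := (Finset.univ.image f).card

/-- `χ(G, k, f₀)`: the minimum number of colours used by a colouring which is `k`-reachable from
`f₀` (it is infinite if `f₀` is not a `k`-colouring). -/
noncomputable def chi {V : Type*} [Fintype V] (G : SimpleGraph V) (k : ℕ) (f₀ : V → ℕ) : ℕ∞ :=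
  ⨅ f : V → ℕ, ⨅ _ : Reach G k f₀ f, (col f : ℕ∞)

/-- The instances: a number `n` of vertices, a list of edges, a number `k` of colours, the list of
the colours of the vertices in the initial colouring, and a threshold `m`. -/
abbrev Ins := ℕ × List (ℕ × ℕ) × ℕ × List ℕ × ℕ

/-- The graph of an instance. -/
def Ins.graph (x : Ins) : SimpleGraph (Fin x.1) := graphOf x.1 x.2.1

/-- The number of colours of an instance. -/
def Ins.k (x : Ins) : ℕ := x.2.2.1

/-- The initial colouring of an instance. -/
def Ins.f₀ (x : Ins) : Fin x.1 → ℕ := fun v => x.2.2.2.1.getD v 0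

/-- The threshold of an instance. -/
def Ins.m (x : Ins) : ℕ := x.2.2.2.2

/-- OPTIMAL-COLOURING RECONFIGURATION, as a decision problem, restricted to a class `C` of
instances. An instance is a graph `G` with at least one edge, a number `k`, a `k`-colouring `f₀` of
`G` and a number `m`; the question is whether `χ(G, k, f₀) ≤ m`. -/
noncomputable def OCR (C : Ins → Prop) : Problem where
  Inst := {x : Ins // C x ∧ x.2.2.2.1.length = x.1 ∧ (∃ u v, x.graph.Adj u v) ∧
    IsCol x.graph x.k x.f₀}
  enc x := encOf Ins x.1
  enc_inj := (encOf_injective _).comp Subtype.val_injective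
  Yes x := chi x.1.graph x.1.k x.1.f₀ ≤ (x.1.m : ℕ∞)

/-- Optimal-colouring reconfiguration on perfect graphs: given a perfect graph `G`, a number `k`, a
`k`-colouring `f₀` of `G` and a number `m`, decide whether `χ(G, k, f₀) ≤ m`. -/
noncomputable def OCRPerfect : Problem := OCR fun x => IsPerfect x.graph

/-- Optimal-colouring reconfiguration on bipartite graphs with a fixed number `k` of colours and
the threshold `k - 1`: given a bipartite graph `G` and a `k`-colouring `f₀` of `G`, decide whether
`χ(G, k, f₀) < k`. -/
noncomputable def OCRBipartite (k : ℕ) : Problem :=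
  OCR fun x => x.graph.Colorable 2 ∧ x.k = k ∧ x.m + 1 = k

end Pool.Agent.Helper78.PCR
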