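import Pool.Agent.Helper83.CookLevin
import Pool.Agent.Helper81.CompC

/-!
# 3-SAT is NP-hard

Instances are lists of triples of literals.
-/

namespace Pool.Agent.Helper78.Sat3

open Pool.Agent.Helper81.CC

/-- Formulas whose clauses consist of three literals (not necessarily different). -/
abbrev CNF3 := List (Lit × Lit × Lit)

/-- The literal `l` is true under `a`. -/
def tr (a : ℕ → Bool) (l : Lit) : Prop := a l.2 = l.1

/-- Satisfiability. -/
def Sat (ψ : CNF3) : Prop := ∃ a : ℕ → Bool, ∀ t ∈ ψ, tr a t.1 ∨ tr a t.2.1 ∨ tr a t.2.2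

/-- The problem 3-SAT. -/
def SAT3 : Problem := Problem.of CNF3 Sat

/-- The auxiliary variables. -/
def yv (j i : ℕ) : ℕ := 2 * Nat.pair j i + 1

/-- The clauses for a clause with its number. -/
def cl3 (x : List Lit × ℕ) : CNF3 :=
  ((true, yv x.2 0), (true, yv x.2 0), (true, yv x.2 0)) ::
  ((false, yv x.2 x.1.length), (false, yv x.2 x.1.length), (false, yv x.2 x.1.length)) ::
  x.1.zipIdx.map fun y => ((false, yv x.2 y.2), (y.1.1, 2 * y.1.2), (true, yv x.2 (y.2 + 1)))

/-- The reduction. -/
def to3 (φ : CNF) : CNF3 := φ.zipIdx.flatMap cl3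

theorem polyTime_to3 : PolyTime to3 := by
  unfold to3 cl3 yv
  fun_prop

theorem sat_of_to3 {φ : CNF} (h : Sat (to3 φ)) : φ.Satisfiable := by
  obtain ⟨b, hb⟩ := h
  refine ⟨fun v => b (2 * v), fun c hc => ?_⟩
  obtain ⟨j, hj, rfl⟩ := List.getElem_of_mem hc
  have hz : (φ[j], j) ∈ φ.zipIdx := by
    rw [List.mem_zipIdx_iff_getElem?]; simp [hj]
  have hmem : ∀ t ∈ cl3 (φ[j], j), tr b t.1 ∨ tr b t.2.1 ∨ tr b t.2.2 := fun t ht =>
    hb t (List.mem_flatMap.2 ⟨_, hz, ht⟩)
  have h0 : b (yv j 0) = true := by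
    have := hmem ((true, yv j 0), (true, yv j 0), (true, yv j 0)) (by simp [cl3])
    simpa [tr] using this
  have h1 : b (yv j φ[j].length) = false := by
    have := hmem ((false, yv j φ[j].length), (false, yv j φ[j].length),
      (false, yv j φ[j].length)) (by simp [cl3])
    simpa [tr] using this
  by_contra hcon
  push Not at hcon
  have key : ∀ i, i ≤ φ[j].length → b (yv j i) = true := by
    intro i
    induction i with
    | zero => intro _; exact h0
    | succ i ih =>
      intro hi
      have hi' : i < φ[j].length := hi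
      have := hmem ((false, yv j i), ((φ[j][i]).1, 2 * (φ[j][i]).2), (true, yv j (i + 1))) (by
        simp only [cl3, List.mem_cons, List.mem_map]
        right; right
        refine ⟨(φ[j][i], i), ?_, rfl⟩
        rw [List.mem_zipIdx_iff_getElem?]; simp [hi'])
      simp only [tr] at this
      rcases this with h | h | h
      · rw [ih (by omega)] at h; simp at h
      · exact absurd h (hcon _ (List.getElem_mem hi'))
      · exact h
  rw [key _ le_rfl] at h1
  simp at h1

theorem to3_of_sat {φ : CNF} (h : φ.Satisfiable) : Sat (to3 φ) := by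
  classical
  obtain ⟨a, ha⟩ := h
  let g : ℕ → List Lit := fun j => φ.getD j []
  have g_def : ∀ j, g j = φ.getD j [] := fun _ => rfl
  let b : ℕ → Bool := fun n => if n % 2 = 0 then a (n / 2) else
    decide (∃ i', ((n - 1) / 2).unpair.2 ≤ i' ∧
      ∃ l, (g ((n - 1) / 2).unpair.1)[i']? = some l ∧ a l.2 = l.1)
  have b0 : ∀ v, b (2 * v) = a v := by intro v; simp [b]
  have b1 : ∀ j i, b (yv j i) = decide (∃ i', i ≤ i' ∧
      ∃ l, (g j)[i']? = some l ∧ a l.2 = l.1) := by
    intro j i
    have h1 : (2 * Nat.pair j i + 1) % 2 = 1 := by omega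
    have h2 : (2 * Nat.pair j i + 1 - 1) / 2 = Nat.pair j i := by omega
    simp only [b, yv, h1, h2, Nat.unpair_pair]
    simp
  refine ⟨b, fun t ht => ?_⟩
  obtain ⟨⟨cc, j⟩, hc, ht⟩ := List.mem_flatMap.1 ht
  have hj : φ[j]? = some cc := by
    have := List.mem_zipIdx_iff_getElem?.1 hc
    simpa using this
  have hg : g j = cc := by simp [g_def, List.getD_eq_getElem?_getD, hj]
  simp only [cl3, List.mem_cons, List.mem_map] at ht
  rcases ht with rfl | rfl | ⟨⟨l, i⟩, hl, rfl⟩
  · left
    simp only [tr, b1, hg, decide_eq_true_eq]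
    obtain ⟨l, hl, hal⟩ := ha cc (List.mem_of_getElem? hj)
    obtain ⟨i, hi, rfl⟩ := List.getElem_of_mem hl
    exact ⟨i, Nat.zero_le _, _, by simp [hi], hal⟩
  · left
    simp only [tr, b1, hg, decide_eq_false_iff_not]
    rintro ⟨i, hi, l, hl, -⟩
    rw [List.getElem?_eq_none hi] at hl
    simp at hl
  · have hi : cc[i]? = some l := by
      have := List.mem_zipIdx_iff_getElem?.1 hl
      simpa using this
    simp only [tr, b0, b1, hg]
    by_cases h1 : a l.2 = l.1
    · exact Or.inr (Or.inl h1)
    by_cases h2 : ∃ i', i ≤ i' ∧ ∃ l, cc[i']? = some l ∧ a l.2 = l.1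
    · right; right
      rw [decide_eq_true_eq]
      obtain ⟨i', hi', l', hl', hal'⟩ := h2
      refine ⟨i', ?_, l', hl', hal'⟩
      rcases hi'.eq_or_lt with rfl | h3
      · rw [hi] at hl'
        simp only [Option.some.injEq] at hl'
        subst hl'
        exact absurd hal' h1
      · exact h3
    · left
      rw [decide_eq_false_iff_not]; exact h2

theorem SAT3_hardS : SAT3.HardS :=
  Pool.Agent.Helper83.CL.SAT_hardS.of polyTime_to3 fun _ => ⟨to3_of_sat, sat_of_to3⟩

end Pool.Agent.Helper78.Sat3
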