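import Pool.Agent.Helper78.PcrGen
import Pool.Agent.Helper78.Sat3

/-!
# Optimal-colouring reconfiguration: the reduction

Vertices are named by tuples `(tag, s, b, j, a, sg, i)`. Tags: `0` palette vertices (colour `b`),
`1` goals, `2`-`6` the five kinds of vertices of the formula gadgets.
-/

namespace Pool.Agent.Helper78.PCR

open Pool.Agent.Helper81.CC Pool.Agent.Helper78.Sat3

/-- Names of vertices. -/
abbrev Cd := ℕ × Bool × ℕ × ℕ × ℕ × Bool × ℕ

instance instDecidableEqCd : DecidableEq Cd := instDecidableEqProd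

/-- palette vertex -/
abbrev pal (s : Bool) (c : ℕ) : Cd := (0, s, c, 0, 0, false, 0)
/-- goal vertex -/
abbrev goal (s : Bool) (b : ℕ) : Cd := (1, s, b, 0, 0, false, 0)
/-- clause vertex -/
abbrev oo (s : Bool) (b j : ℕ) : Cd := (2, s, b, j, 0, false, 0)
/-- first vertex of a literal occurrence -/
abbrev pp (s : Bool) (b j a : ℕ) (l : Lit) : Cd := (3, s, b, j, a, l.1, l.2)
/-- second vertex of a literal occurrence -/
abbrev y1 (s : Bool) (b j a : ℕ) (l : Lit) : Cd := (4, s, b, j, a, l.1, l.2)
/-- third vertex of a literal occurrence -/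
abbrev y2 (s : Bool) (b j a : ℕ) (l : Lit) : Cd := (5, s, b, j, a, l.1, l.2)
/-- variable vertex -/
abbrev xx (s : Bool) (b i : ℕ) : Cd := (6, s, b, 0, 0, false, i)

/-- The side of a vertex. -/
def side (v : Cd) : Bool :=
  if v.1 = 2 then !v.2.1 else if v.1 = 4 then !v.2.1 else if v.1 = 6 then !v.2.1 else v.2.1

/-- The actual colour for the internal colour `c` in copy number `b`. -/
def act (b c : ℕ) : ℕ := 1 + (c + b) % 4

/-- Colour used for the second and the first list. -/
def v1 (a : ℕ) (sg : Bool) : ℕ := if a = 0 then (if sg = true then 2 else 3) else 1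

/-- Colour used for the third list. -/
def v3 (sg : Bool) : ℕ := if sg = true then 3 else 2

/-- Initial internal colour. -/
def la (v : Cd) : ℕ :=
  if v.1 = 3 then v.2.2.2.2.1 + 1 else if v.1 = 4 then v1 v.2.2.2.2.1 v.2.2.2.2.2.1
  else if v.1 = 6 then 2 else 0

/-- The other internal colour. -/
def lb (v : Cd) : ℕ :=
  if v.1 = 3 then v1 v.2.2.2.2.1 v.2.2.2.2.2.1 else if v.1 = 5 then v3 v.2.2.2.2.2.1
  else if v.1 = 6 then 3 else 0

/-- The allowed colours. -/
def inL (v : Cd) (c : ℕ) : Bool :=
  if v.1 = 0 then decide (c = v.2.2.1) else if v.1 = 1 then decide (c = v.2.2.1 + 1)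
  else if v.1 = 2 then decide (1 ≤ c) && decide (c ≤ 4)
  else decide (c = act v.2.2.1 (la v)) || decide (c = act v.2.2.1 (lb v))

/-- The index of the goal which is joined to a vertex. -/
def gam (v : Cd) : ℕ :=
  ((if v.1 = 4 then (if v.2.2.2.2.1 = 0 then 1 else 2) else if v.1 = 5 then 1
    else if v.1 = 6 then 1 else 0) + v.2.2.1) % 4

/-- The initial colour. -/
def ini (v : Cd) : ℕ :=
  if v.1 = 0 then v.2.2.1 else if v.1 = 1 then 0 else act v.2.2.1 (la v)

/-- Adjacency in the gadgets. -/
def adjG (u v : Cd) : Bool :=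
  (decide (u.1 = 2) && decide (v.1 = 3) && decide ((u.2.1, u.2.2.1, u.2.2.2.1) =
    (v.2.1, v.2.2.1, v.2.2.2.1))) ||
  (((decide (u.1 = 3) && decide (v.1 = 4)) || (decide (u.1 = 4) && decide (v.1 = 5))) &&
    decide (u.2 = v.2)) ||
  (decide (u.1 = 5) && decide (v.1 = 6) && decide ((u.2.1, u.2.2.1, u.2.2.2.2.2.2) =
    (v.2.1, v.2.2.1, v.2.2.2.2.2.2)))

/-- Adjacency. -/
def adjB (u v : Cd) : Bool :=
  (side u != side v) && ((decide (v.1 = 0) && !inL u v.2.2.1) ||
    (decide (v.1 = 1) && decide (2 ≤ u.1) && decide (gam u = v.2.2.1)) || adjG u v)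

/-- The literals of a clause. -/
def lit (t : Lit × Lit × Lit) (a : ℕ) : Lit := if a = 0 then t.1 else if a = 1 then t.2.1 else t.2.2

/-- The vertices of one literal occurrence. -/
def occ (s : Bool) (b j a : ℕ) (l : Lit) : List Cd :=
  [pp s b j a l, y1 s b j a l, y2 s b j a l, xx s b l.2]

/-- The vertices for one clause. -/
def clv (s : Bool) (b j : ℕ) (t : Lit × Lit × Lit) : List Cd :=
  oo s b j :: (List.range 3).flatMap fun a => occ s b j a (lit t a)

/-- The vertices of one copy. -/
def copy (ψ : CNF3) (s : Bool) (b : ℕ) : List Cd :=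
  goal s b :: ψ.zipIdx.flatMap fun x => clv s b x.2 x.1

/-- The vertices on one side. -/
def sid (k : ℕ) (ψ : CNF3) (s : Bool) : List Cd :=
  ((List.range k).map fun c => pal s (c + 1)) ++ (List.range 4).flatMap fun b => copy ψ s b

/-- Remove repetitions. -/
def uniq {α : Type} [DecidableEq α] (l : List α) : List α :=
  (l.zipIdx.filter fun x => decide (l.idxOf x.1 = x.2)).map fun x => x.1

/-- The vertices; there are `k` palette vertices on each side. -/
def vs (k : ℕ) (ψ : CNF3) : List Cd := uniq (sid k ψ true ++ sid k ψ false)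

/-- The pairs of vertices which satisfy a condition. -/
def prs (L : List Cd) : List (Cd × Cd) :=
  L.flatMap fun u => (L.filter fun v => adjB u v).map fun v => (u, v)

/-- The edges. -/
def es (k : ℕ) (ψ : CNF3) : List (ℕ × ℕ) :=
  (prs (vs k ψ)).map fun e => ((vs k ψ).idxOf e.1, (vs k ψ).idxOf e.2)

/-- The instance for a formula, with `k + 1` colours. -/
def inst (k : ℕ) (ψ : CNF3) : Ins :=
  ((vs k ψ).length, es k ψ, k + 1, (vs k ψ).map ini, k)

theorem polyTime_side : PolyTime side := by
  unfold side; fun_prop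

theorem polyTime_act : PolyTime (fun z : ℕ × ℕ => act z.1 z.2) := by
  unfold act; fun_prop

theorem polyTime_v1 : PolyTime (fun z : ℕ × Bool => v1 z.1 z.2) := by
  unfold v1; fun_prop

theorem polyTime_v3 : PolyTime v3 := by
  unfold v3; fun_prop

theorem polyTime_la : PolyTime la := by
  have h1 := polyTime_v1
  unfold la; fun_prop

theorem polyTime_lb : PolyTime lb := by
  have h1 := polyTime_v1
  have h3 := polyTime_v3
  unfold lb; fun_prop

theorem polyTime_inL : PolyTime (fun z : Cd × ℕ => inL z.1 z.2) := by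
  have h1 := polyTime_act
  have h2 := polyTime_la
  have h3 := polyTime_lb
  unfold inL; fun_prop

theorem polyTime_gam : PolyTime gam := by
  unfold gam; fun_prop

theorem polyTime_ini : PolyTime ini := by
  have h1 := polyTime_act
  have h2 := polyTime_la
  unfold ini; fun_prop

theorem polyTime_adjG : PolyTime (fun z : Cd × Cd => adjG z.1 z.2) := by
  unfold adjG; fun_prop

theorem polyTime_adjB : PolyTime (fun z : Cd × Cd => adjB z.1 z.2) := by
  have h1 := polyTime_side
  have h2 := polyTime_inL
  have h3 := polyTime_gam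
  have h4 := polyTime_adjG
  unfold adjB; fun_prop

theorem polyTime_lit : PolyTime (fun z : (Lit × Lit × Lit) × ℕ => lit z.1 z.2) := by
  unfold lit; fun_prop

theorem polyTime_occ : PolyTime (fun z : Bool × ℕ × ℕ × ℕ × Lit =>
    occ z.1 z.2.1 z.2.2.1 z.2.2.2.1 z.2.2.2.2) := by
  unfold occ; fun_prop

theorem polyTime_clv : PolyTime (fun z : Bool × ℕ × ℕ × (Lit × Lit × Lit) =>
    clv z.1 z.2.1 z.2.2.1 z.2.2.2) := by
  have h1 := polyTime_lit
  have h2 := polyTime_occ
  unfold clv; fun_prop

theorem polyTime_copy : PolyTime (fun z : CNF3 × Bool × ℕ => copy z.1 z.2.1 z.2.2) := by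
  have h1 := polyTime_clv
  unfold copy; fun_prop

theorem polyTime_sid (k : ℕ) : PolyTime (fun z : CNF3 × Bool => sid k z.1 z.2) := by
  have h1 := polyTime_copy
  unfold sid; fun_prop

theorem polyTime_vs (k : ℕ) : PolyTime (vs k) := by
  have h1 := polyTime_sid k
  unfold vs uniq; fun_prop

theorem polyTime_prs : PolyTime prs := by
  have h1 := polyTime_adjB
  unfold prs; fun_prop

theorem polyTime_es (k : ℕ) : PolyTime (es k) := by
  have h1 := polyTime_vs k
  have h2 := polyTime_prs
  unfold es; fun_prop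

theorem polyTime_inst (k : ℕ) : PolyTime (inst k) := by
  have h1 := polyTime_vs k
  have h2 := polyTime_es k
  have h3 := polyTime_ini
  unfold inst; fun_prop

end Pool.Agent.Helper78.PCR
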