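import Pool.Agent.Helper78.PcrDefs

/-!
# Optimal-colouring reconfiguration: general facts
-/

namespace Pool.Agent.Helper78.PCR

variable {V : Type*} {G : SimpleGraph V} {k : ℕ}

/-- Several recolourings at once: two colourings which differ on an independent set only are
reachable from each other. -/
theorem reach_indep [Fintype V] {f g : V → ℕ} (hf : IsCol G k f) (hg : IsCol G k g)
    (h : ∀ v w, G.Adj v w → f v ≠ g v → f w = g w) : Relation.ReflTransGen (Step G k) f g := by
  classical
  obtain ⟨n, hn⟩ : ∃ n, (Finset.univ.filter fun v => f v ≠ g v).card = n := ⟨_, rfl⟩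
  induction n generalizing f with
  | zero =>
    rw [Finset.card_eq_zero, Finset.filter_eq_empty_iff] at hn
    have : f = g := funext fun v => not_not.1 (hn (Finset.mem_univ v))
    rw [this]
  | succ n ih =>
    have hne : (Finset.univ.filter fun v => f v ≠ g v).Nonempty := by
      rw [← Finset.card_pos]; omega
    obtain ⟨v, hv⟩ := hne
    have hv' : f v ≠ g v := (Finset.mem_filter.1 hv).2
    set f' : V → ℕ := Function.update f v (g v) with hf'
    have hcol : IsCol G k f' := by
      refine ⟨fun w => ?_, fun w z hwz => ?_⟩
      · by_cases hw : w = v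
        · subst hw; simp only [hf', Function.update_self]; exact hg.1 _
        · simp only [hf', Function.update_of_ne hw]; exact hf.1 _
      · by_cases hw : w = v
        · subst hw
          have hz : z ≠ w := hwz.ne'
          simp only [hf', Function.update_self, Function.update_of_ne hz]
          rw [h _ _ hwz hv']
          exact hg.2 _ _ hwz
        · by_cases hz : z = v
          · subst hz
            simp only [hf', Function.update_self, Function.update_of_ne hw]
            rw [h _ _ hwz.symm hv']
            exact hg.2 _ _ hwz
          · simp only [hf', Function.update_of_ne hw, Function.update_of_ne hz]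
            exact hf.2 _ _ hwz
    have hstep : Step G k f f' :=
      ⟨hf, hcol, v, fun w hw => by simp only [hf', Function.update_of_ne hw]⟩
    refine Relation.ReflTransGen.head hstep (ih hcol ?_ ?_)
    · intro w z hwz hw
      by_cases hw' : w = v
      · subst hw'; simp [hf'] at hw
      · simp only [hf', Function.update_of_ne hw'] at hw
        by_cases hz : z = v
        · subst hz; simp [hf']
        · simp only [hf', Function.update_of_ne hz]
          exact h _ _ hwz hw
    · have hset : (Finset.univ.filter fun w => f' w ≠ g w) =
          (Finset.univ.filter fun w => f w ≠ g w).erase v := by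
        ext w
        simp only [Finset.mem_filter, Finset.mem_univ, true_and, Finset.mem_erase]
        by_cases hw : w = v
        · subst hw; simp [hf']
        · simp only [hf', Function.update_of_ne hw]
          simp [hw]
      rw [hset, Finset.card_erase_of_mem hv]
      omega

theorem chi_le [Fintype V] {f₀ f : V → ℕ} {m : ℕ} (h : Reach G k f₀ f) (hm : col f ≤ m) :
    chi G k f₀ ≤ (m : ℕ∞) := by
  unfold chi
  refine (iInf_le _ f).trans ((iInf_le _ h).trans ?_)
  exact_mod_cast hm

theorem lt_chi [Fintype V] {f₀ : V → ℕ} {m : ℕ} (h : ∀ f, Reach G k f₀ f → m < col f) :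
    ¬ chi G k f₀ ≤ (m : ℕ∞) := by
  rw [not_le]
  refine lt_of_lt_of_le (b := ((m + 1 : ℕ) : ℕ∞)) (by exact_mod_cast Nat.lt_succ_self m) ?_
  unfold chi
  refine le_iInf fun f => le_iInf fun hf => ?_
  exact_mod_cast h f hf

/-- Bipartite graphs are perfect. -/
theorem isPerfect_of_colorable_two [Finite V] (h : G.Colorable 2) : IsPerfect G := by
  classical
  intro S
  have hc : (G.induce S).Colorable 2 := by
    obtain ⟨c⟩ := h
    exact ⟨c.comp (SimpleGraph.Embedding.induce S).toHom⟩
  set H := G.induce S with hH
  have hle : (H.cliqueNum : ℕ∞) ≤ H.chromaticNumber := by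
    obtain ⟨s, hs⟩ := H.exists_isNClique_cliqueNum
    have := hs.isClique.card_le_chromaticNumber
    rw [hs.card_eq] at this
    exact this
  refine le_antisymm ?_ hle
  by_cases h1 : ∃ u v, H.Adj u v
  · obtain ⟨u, v, huv⟩ := h1
    have h2 : 2 ≤ H.cliqueNum := by
      have : H.IsNClique 2 {u, v} := by
        refine ⟨?_, Finset.card_pair huv.ne⟩
        intro a ha b hb hab
        simp only [Finset.coe_pair, Set.mem_insert_iff, Set.mem_singleton_iff] at ha hb
        rcases ha with rfl | rfl <;> rcases hb with rfl | rfl
        · exact absurd rfl hab
        · exact huv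
        · exact huv.symm
        · exact absurd rfl hab
      have h3 := this.isClique.card_le_cliqueNum
      rw [this.card_eq] at h3
      exact h3
    refine hc.chromaticNumber_le.trans ?_
    exact_mod_cast h2
  · push Not at h1
    by_cases h2 : Nonempty S
    · obtain ⟨u⟩ := h2
      have h2 : 1 ≤ H.cliqueNum := by
        have : H.IsNClique 1 {u} := by
          rw [SimpleGraph.isNClique_one]
          exact ⟨u, rfl⟩
        have h3 := this.isClique.card_le_cliqueNum
        rw [this.card_eq] at h3
        exact h3
      have hc1 : H.Colorable 1 := ⟨SimpleGraph.Coloring.mk (fun _ => 0) fun {u v} huv =>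
        absurd huv (h1 u v)⟩
      refine hc1.chromaticNumber_le.trans ?_
      exact_mod_cast h2
    · have : IsEmpty S := not_nonempty_iff.1 h2
      have hc1 : H.Colorable 0 := ⟨SimpleGraph.Coloring.mk (fun x => this.elim x) fun {u} =>
        this.elim u⟩
      refine hc1.chromaticNumber_le.trans ?_
      simp

end Pool.Agent.Helper78.PCR
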