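import Pool.Agent.Helper78.PcrComb

/-!
# Optimal-colouring reconfiguration: the main theorem
-/

namespace Pool.Agent.Helper78.PCR

open Pool.Agent.Helper81.CC Pool.Agent.Helper78.Sat3

theorem adjB_cases {u v : Cd} (h : adjB u v = true) :
    (v.1 = 0 ∧ inL u v.2.2.1 = false) ∨ (v.1 = 1 ∧ 2 ≤ u.1 ∧ gam u = v.2.2.1) ∨
      adjG u v = true := by
  unfold adjB at h
  simp only [Bool.and_eq_true, Bool.or_eq_true, decide_eq_true_eq, Bool.not_eq_true'] at h
  obtain ⟨-, (h | h) | h⟩ := h
  · exact Or.inl h
  · exact Or.inr (Or.inl ⟨h.1.1, h.1.2, h.2⟩)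
  · exact Or.inr (Or.inr h)

theorem adjG_tags {u v : Cd} (h : adjG u v = true) : u.1 < v.1 := by
  unfold adjG at h
  simp only [Bool.and_eq_true, Bool.or_eq_true, decide_eq_true_eq] at h
  omega

theorem st_adjG {k : ℕ} {ψ : CNF3} {al : ℕ → Bool} {ch : ℕ → ℕ} (hg : Good ψ al ch) (T : ℕ)
    {u v : Cd} (hu : Us k ψ u) (hv : Us k ψ v) (h : adjG u v = true) :
    st al ch T u ≠ st al ch T v := by
  cases hu with
  | pal s c h1 h2 => simp [adjG] at h
  | goal s b hb => simp [adjG] at h
  | oo s b j t hb hj =>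
    cases hv <;> simp [adjG] at h
    rename_i s' b' j' t' a hb' hj' ha
    obtain ⟨rfl, rfl, rfl⟩ := h
    rw [hj] at hj'
    simp only [Option.some.injEq] at hj'
    subst hj'
    have h5 := v1_lt a (lit t a).1
    have h6 := v1_ne_zero a (lit t a).1
    have h7 := v1_ne_a a (lit t a).1
    have h8 := (hg j t hj).1
    by_cases h1 : 6 < 2 + T
    · have h2 : 6 < 3 + T := by omega
      by_cases h3 : ch j = a
      · simp only [st, h1, h2, if_true, fin, fi, h3]
        norm_num
        exact act_ne (by omega) (by omega) (by omega)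
      · simp only [st, h1, h2, if_true, fin, fi, h3]
        norm_num
        exact act_ne (by omega) (by omega) (by omega)
    · by_cases h2 : 6 < 3 + T
      · by_cases h3 : ch j = a
        · simp only [st, h1, h2, if_true, fin, fi, h3, ini, la]
          norm_num
          exact act_ne (by omega) (by omega) (by omega)
        · simp only [st, h1, h2, if_true, fin, fi, h3, ini, la]
          norm_num
          exact act_ne (by omega) (by omega) (by omega)
      · simp only [st, h1, h2, if_true, ini, la]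
        norm_num
        exact act_ne (by omega) (by omega) (by omega)
  | pp s b j t a hb hj ha =>
    cases hv <;> simp [adjG] at h
    rename_i s' b' j' t' a' hb' hj' ha'
    obtain ⟨rfl, rfl, rfl, rfl, h0⟩ := h
    have h := congrArg Prod.fst h0
    have h5 := v1_lt a (lit t a).1
    have h6 := v1_ne_zero a (lit t a).1
    have h7 := v1_ne_a a (lit t a).1
    by_cases h1 : 6 < 3 + T
    · have h2 : 6 < 4 + T := by omega
      by_cases h3 : ch j = a
      · simp only [st, h1, h2, if_true, fin, fi, h3, ← h]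
        norm_num
        exact act_ne (by omega) (by omega) (by omega)
      · simp only [st, h1, h2, if_true, fin, fi, h3, ← h]
        norm_num
        exact act_ne (by omega) (by omega) (by omega)
    · by_cases h2 : 6 < 4 + T
      · by_cases h3 : ch j = a
        · simp only [st, h1, h2, if_true, fin, fi, h3, ini, la, ← h]
          norm_num
          exact act_ne (by omega) (by omega) (by omega)
        · simp only [st, h1, h2, if_true, fin, fi, h3, ini, la, ← h]
          norm_num
          exact act_ne (by omega) (by omega) (by omega)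
      · simp only [st, h1, h2, if_true, ini, la, ← h]
        norm_num
        exact act_ne (by omega) (by omega) (by omega)
  | y1 s b j t a hb hj ha =>
    cases hv <;> simp [adjG] at h
    rename_i s' b' j' t' a' hb' hj' ha'
    obtain ⟨rfl, rfl, rfl, rfl, h0⟩ := h
    have h := congrArg Prod.fst h0
    have h5 := v1_lt a (lit t a).1
    have h6 := v1_ne_zero a (lit t a).1
    have h7 := v3_lt (lit t a).1
    have h8 := v3_ne_zero (lit t a).1
    have h9 := v1_ne_v3 a (lit t a).1
    by_cases h1 : 6 < 4 + T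
    · have h2 : 6 < 5 + T := by omega
      by_cases h3 : ch j = a
      · simp only [st, h1, h2, if_true, fin, fi, h3, ← h]
        norm_num
        exact act_ne (by omega) (by omega) (by omega)
      · simp only [st, h1, h2, if_true, fin, fi, h3, ← h]
        norm_num
        exact act_ne (by omega) (by omega) (by omega)
    · by_cases h2 : 6 < 5 + T
      · by_cases h3 : ch j = a
        · simp only [st, h1, h2, if_true, fin, fi, h3, ini, la, ← h]
          norm_num
          exact act_ne (by omega) (by omega) (by omega)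
        · simp only [st, h1, h2, if_true, fin, fi, h3, ini, la, ← h]
          norm_num
          exact act_ne (by omega) (by omega) (by omega)
      · simp only [st, h1, h2, if_true, ini, la, ← h]
        norm_num
        exact act_ne (by omega) (by omega) (by omega)
  | y2 s b j t a hb hj ha =>
    cases hv <;> simp [adjG] at h
    rename_i s' b' j' t' a' ha' hb' hj'
    obtain ⟨rfl, rfl, h⟩ := h
    have h7 := v3_lt (lit t a).1
    have h8 := v3_ne_zero (lit t a).1
    by_cases h1 : 6 < 5 + T
    · have h2 : 6 < 6 + T := by omega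
      by_cases h3 : ch j = a
      · have h10 := (hg j t hj).2
        rw [h3] at h10
        simp only [st, h1, h2, if_true, fin, fi, h3, ← h, h10]
        norm_num
        unfold v3
        split_ifs <;> exact act_ne (by omega) (by omega) (by omega)
      · simp only [st, h1, h2, if_true, fin, fi, h3, ← h]
        norm_num
        split_ifs <;> exact act_ne (by omega) (by omega) (by omega)
    · by_cases h2 : 6 < 6 + T
      · simp only [st, h1, h2, if_true, fin, fi, ini, la, ← h]
        norm_num
        split_ifs <;> exact act_ne (by omega) (by omega) (by omega)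
      · simp only [st, h1, h2, if_true, ini, la]
        norm_num
        exact act_ne (by omega) (by omega) (by omega)
  | xx s b j t a hb hj ha =>
    cases hv <;> simp [adjG] at h

theorem st_adj {k : ℕ} {ψ : CNF3} {al : ℕ → Bool} {ch : ℕ → ℕ} (hg : Good ψ al ch) {T : ℕ}
    (hT : T ≤ 6) {u v : Cd} (hu : Us k ψ u) (hv : Us k ψ v) (h : adjB u v = true) :
    st al ch T u ≠ st al ch T v := by
  rcases adjB_cases h with ⟨h1, h2⟩ | ⟨h1, h2, h3⟩ | h
  · have h3 : st al ch T v = v.2.2.1 := by simp only [st, fin, ini, h1]; simp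
    have h4 : 1 ≤ v.2.2.1 := by
      cases hv <;> simp at h1 ⊢
      omega
    rw [h3]
    intro h5
    rcases inL_st hg T hu with h6 | ⟨-, h6⟩
    · rw [h5, h2] at h6; simp at h6
    · omega
  · have hu1 : inL u (st al ch T u) = true := by
      rcases inL_st hg T hu with h6 | ⟨h6, -⟩
      · exact h6
      · omega
    by_cases hT6 : T = 6
    · subst hT6
      have h4 : st al ch 6 v = v.2.2.1 + 1 := by simp only [st, fin, h1]; simp
      have h5 : st al ch 6 u = fin al ch u := by
        unfold st; rw [if_pos (by omega)]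
      rw [h4, h5, ← h3]
      exact fin_ne_gam hg hu h2
    · have h4 : st al ch T v = 0 := by
        unfold st; rw [if_neg (by omega)]; simp [ini, h1]
      rw [h4]
      have := inL_pos hu hu1
      omega
  · exact st_adjG hg T hu hv h

theorem st_lt {k : ℕ} (hk : 4 ≤ k) {ψ : CNF3} {al : ℕ → Bool} {ch : ℕ → ℕ} (hg : Good ψ al ch)
    (T : ℕ) {v : Cd} (hv : Us k ψ v) : st al ch T v < k + 1 := by
  rcases inL_st hg T hv with h | ⟨-, h⟩
  · exact Nat.lt_succ_of_le (inL_le hk hv h)
  · omega

/-- The stages are colourings. -/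
theorem isCol_st {k : ℕ} (hk : 4 ≤ k) {ψ : CNF3} {al : ℕ → Bool} {ch : ℕ → ℕ} (hg : Good ψ al ch)
    {T : ℕ} (hT : T ≤ 6) : IsCol (gr k ψ) (k + 1) (fun x => st al ch T (lab x)) := by
  refine ⟨fun x => st_lt hk hg T (lab_us x), fun x y h => ?_⟩
  rw [gr_adj] at h
  rcases h with h | h
  · exact st_adj hg hT (lab_us x) (lab_us y) h
  · exact (st_adj hg hT (lab_us y) (lab_us x) h).symm

theorem st_change {al : ℕ → Bool} {ch : ℕ → ℕ} {T : ℕ} {v : Cd} (h : st al ch T v ≠ st al ch (T + 1) v) :
    v.1 + T = 6 := by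
  by_contra hne
  apply h
  unfold st
  by_cases h1 : 6 < v.1 + T
  · rw [if_pos h1, if_pos (by omega)]
  · rw [if_neg h1, if_neg (by omega)]

theorem adjB_tags {u v : Cd} (h : adjB u v = true) : v.1 = 0 ∨ u.1 ≠ v.1 := by
  rcases adjB_cases h with h | h | h
  · exact Or.inl h.1
  · right; omega
  · right; exact (adjG_tags h).ne

theorem reach_st {k : ℕ} (hk : 4 ≤ k) {ψ : CNF3} {al : ℕ → Bool} {ch : ℕ → ℕ} (hg : Good ψ al ch)
    {T : ℕ} (hT : T ≤ 6) : Relation.ReflTransGen (Step (gr k ψ) (k + 1))
      (fun x => st al ch 0 (lab x)) (fun x => st al ch T (lab x)) := by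
  induction T with
  | zero => exact Relation.ReflTransGen.refl
  | succ T ih =>
    refine (ih (by omega)).trans (reach_indep (isCol_st hk hg (by omega)) (isCol_st hk hg hT) ?_)
    intro x y hxy hx
    by_contra hy
    have h1 := st_change hx
    have h2 := st_change hy
    rw [gr_adj] at hxy
    rcases hxy with h | h
    · rcases adjB_tags h with h | h <;> omega
    · rcases adjB_tags h with h | h <;> omega

theorem st_zero (al : ℕ → Bool) (ch : ℕ → ℕ) {k : ℕ} {ψ : CNF3} (x : Vt k ψ) :
    st al ch 0 (lab x) = ini (lab x) := by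
  unfold st
  rw [if_neg]
  have := lab_us x
  generalize lab x = u at this ⊢
  cases this <;> simp

theorem fin_pos {k : ℕ} {ψ : CNF3} (al : ℕ → Bool) (ch : ℕ → ℕ) {v : Cd} (hv : Us k ψ v) :
    1 ≤ st al ch 6 v := by
  have h := act_pos
  unfold st fin ini
  cases hv <;> simp <;> first | omega | apply act_pos

theorem col_fin {k : ℕ} (hk : 4 ≤ k) {ψ : CNF3} {al : ℕ → Bool} {ch : ℕ → ℕ} (hg : Good ψ al ch) :
    col (fun x : Vt k ψ => st al ch 6 (lab x)) ≤ k := by
  have h : Finset.univ.image (fun x : Vt k ψ => st al ch 6 (lab x)) ⊆ Finset.Icc 1 k := by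
    intro c hc
    obtain ⟨x, -, rfl⟩ := Finset.mem_image.1 hc
    rw [Finset.mem_Icc]
    exact ⟨fin_pos al ch (lab_us x), Nat.le_of_lt_succ (st_lt hk hg 6 (lab_us x))⟩
  have := Finset.card_le_card h
  rw [Nat.card_Icc] at this
  unfold col
  omega

theorem good_of_sat {ψ : CNF3} (h : Sat ψ) : ∃ al ch, Good ψ al ch := by
  obtain ⟨al, hal⟩ := h
  have h1 : ∀ j : ℕ, ∃ a, ∀ t, ψ[j]? = some t → a < 3 ∧ al (lit t a).2 = (lit t a).1 := by
    intro j
    by_cases hj : j < ψ.length
    · rcases hal _ (List.getElem_mem hj) with h | h | h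
      · refine ⟨0, fun t ht => ?_⟩
        rw [List.getElem?_eq_getElem hj] at ht
        simp only [Option.some.injEq] at ht
        subst ht
        exact ⟨by omega, h⟩
      · refine ⟨1, fun t ht => ?_⟩
        rw [List.getElem?_eq_getElem hj] at ht
        simp only [Option.some.injEq] at ht
        subst ht
        exact ⟨by omega, h⟩
      · refine ⟨2, fun t ht => ?_⟩
        rw [List.getElem?_eq_getElem hj] at ht
        simp only [Option.some.injEq] at ht
        subst ht
        exact ⟨by omega, h⟩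
    · refine ⟨0, fun t ht => ?_⟩
      rw [List.getElem?_eq_none (by omega)] at ht
      simp at ht
  choose ch hch using h1
  exact ⟨al, ch, hch⟩

/-! ### The other direction -/

/-- The invariant. -/
def Inv {k : ℕ} {ψ : CNF3} (f : Vt k ψ → ℕ) : Prop :=
  ∀ x, ((lab x).1 = 1 → f x = 0) ∧ ((lab x).1 ≠ 1 → inL (lab x) (f x) = true)

theorem adj_pal {u : Cd} {c : ℕ} (h : inL u c = false) : adjB u (pal (!side u) c) = true := by
  unfold adjB
  have : side (pal (!side u) c) = !side u := by simp [side]
  rw [this]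
  simp [h]

theorem adj_goal {u : Cd} (h : 2 ≤ u.1) : adjB u (goal (!side u) (gam u)) = true := by
  unfold adjB
  have : side (goal (!side u) (gam u)) = !side u := by simp [side]
  rw [this]
  simp [h]

theorem gam_lt (u : Cd) : gam u < 4 := by unfold gam; omega

theorem sat_of_inv {k : ℕ} {ψ : CNF3} {f : Vt k ψ → ℕ} (hf : Inv f)
    (hc : IsCol (gr k ψ) (k + 1) f) {s : Bool} {b : ℕ} (hb : b < 4)
    (h : ∀ x, ∀ j, lab x = oo s b j → f x ≠ b + 1) : Sat ψ := by
  classical
  have hadj : ∀ x y, adjB (lab x) (lab y) = true → f x ≠ f y := fun x y hxy =>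
    hc.2 x y ((gr_adj x y).2 (Or.inl hxy))
  have hact0 : b + 1 = act b 0 := by unfold act; omega
  refine ⟨fun i => decide (∃ x, lab x = xx s b i ∧ f x = act b 2), fun t ht => ?_⟩
  obtain ⟨j, hj, rfl⟩ := List.getElem_of_mem ht
  have hj' : ψ[j]? = some ψ[j] := List.getElem?_eq_getElem hj
  generalize ψ[j] = t at hj'
  obtain ⟨xo, hxo⟩ := lab_surj (Us.oo (k := k) s b j t hb hj')
  have h1 := (hf xo).2 (by rw [hxo]; simp)
  have h2 := h xo j hxo
  rw [hxo] at h1
  have h3 : ∃ a, a < 3 ∧ f xo = act b (a + 1) := by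
    have h1' : 1 ≤ f xo ∧ f xo ≤ 4 := by simpa [inL] using h1
    obtain ⟨h4, h5⟩ := h1'
    refine ⟨(f xo + 3 * b + 2) % 4, ?_, ?_⟩
    · omega
    · unfold act; omega
  obtain ⟨a, ha, h3⟩ := h3
  obtain ⟨xp, hxp⟩ := lab_surj (Us.pp (k := k) s b j t a hb hj' ha)
  obtain ⟨xy1, hxy1⟩ := lab_surj (Us.y1 (k := k) s b j t a hb hj' ha)
  obtain ⟨xy2, hxy2⟩ := lab_surj (Us.y2 (k := k) s b j t a hb hj' ha)
  obtain ⟨xv, hxv⟩ := lab_surj (Us.xx (k := k) s b j t a hb hj' ha)
  have e1 : f xp = act b (v1 a (lit t a).1) := by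
    have h4 := (hf xp).2 (by rw [hxp]; simp)
    have h5 : f xo ≠ f xp := hadj xo xp (by rw [hxo, hxp]; cases s <;> simp [adjB, adjG, side])
    rw [hxp] at h4
    simp [inL, la, lb] at h4
    rcases h4 with h4 | h4
    · exact absurd (h3.trans h4.symm) h5
    · exact h4
  have e2 : f xy1 = act b 0 := by
    have h4 := (hf xy1).2 (by rw [hxy1]; simp)
    have h5 : f xp ≠ f xy1 := hadj xp xy1 (by
      rw [hxp, hxy1]; cases s <;> simp [adjB, adjG, side])
    rw [hxy1] at h4
    simp [inL, la, lb] at h4
    rcases h4 with h4 | h4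
    · exact absurd (e1.trans h4.symm) h5
    · exact h4
  have e3 : f xy2 = act b (v3 (lit t a).1) := by
    have h4 := (hf xy2).2 (by rw [hxy2]; simp)
    have h5 : f xy1 ≠ f xy2 := hadj xy1 xy2 (by
      rw [hxy1, hxy2]; cases s <;> simp [adjB, adjG, side])
    rw [hxy2] at h4
    simp [inL, la, lb] at h4
    rcases h4 with h4 | h4
    · exact absurd (e2.trans h4.symm) h5
    · exact h4
  have h4 := (hf xv).2 (by rw [hxv]; simp)
  have h5 : f xy2 ≠ f xv := hadj xy2 xv (by
    rw [hxy2, hxv]; cases s <;> simp [adjB, adjG, side])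
  rw [hxv] at h4
  simp [inL, la, lb] at h4
  have h6 : tr (fun i => decide (∃ x, lab x = xx s b i ∧ f x = act b 2)) (lit t a) := by
    unfold tr
    cases hsg : (lit t a).1
    · rw [decide_eq_false_iff_not]
      rintro ⟨x, hx, hfx⟩
      have : x = xv := lab_inj (hx.trans hxv.symm)
      subst this
      rw [hsg] at e3
      apply h5
      rw [e3, hfx]
      simp [v3]
    · rw [decide_eq_true_eq]
      refine ⟨xv, hxv, ?_⟩
      rcases h4 with h4 | h4
      · exact h4
      · exfalso
        apply h5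
        rw [e3, h4, hsg]
        simp [v3]
  have ha' : a = 0 ∨ a = 1 ∨ a = 2 := by omega
  rcases ha' with rfl | rfl | rfl
  · exact Or.inl h6
  · exact Or.inr (Or.inl h6)
  · exact Or.inr (Or.inr h6)

theorem inv_step {k : ℕ} (hk : 4 ≤ k) {ψ : CNF3} (hψ : ¬ Sat ψ) {f g : Vt k ψ → ℕ} (hf : Inv f)
    (h : Step (gr k ψ) (k + 1) f g) : Inv g := by
  obtain ⟨hcf, hcg, v0, hv0⟩ := h
  intro x
  by_cases hx : x = v0
  swap
  · rw [hv0 x hx]; exact hf x
  subst hx
  have hadj : ∀ y, adjB (lab x) (lab y) = true → g x ≠ f y := fun y hxy => by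
    have hne : y ≠ x := by rintro rfl; exact adjB_side hxy rfl
    rw [← hv0 y hne]
    exact hcg.2 x y ((gr_adj x y).2 (Or.inl hxy))
  have hadj' : ∀ y, adjB (lab y) (lab x) = true → g x ≠ f y := fun y hxy => by
    have hne : y ≠ x := by rintro rfl; exact adjB_side hxy rfl
    rw [← hv0 y hne]
    exact hcg.2 x y ((gr_adj x y).2 (Or.inr hxy))
  have hlt := hcg.1 x
  -- a colour which is not allowed is `0`
  have key : ∀ c, 1 ≤ c → c ≤ k → inL (lab x) c = false → g x ≠ c := by
    intro c h1 h2 h3
    obtain ⟨y, hy⟩ := lab_surj (Us.pal (ψ := ψ) (!side (lab x)) c h1 h2)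
    have h4 := hadj y (by rw [hy]; exact adj_pal h3)
    have h5 := (hf y).2 (by rw [hy]; simp)
    rw [hy] at h5
    have h6 : f y = c := by simpa [inL] using h5
    rw [h6] at h4
    exact h4
  constructor
  · intro htag
    by_contra hne
    have hus := lab_us x
    generalize hlab : lab x = u at *
    cases hus <;> simp at htag
    rename_i s b hb
    have h1 : g x = b + 1 := by
      by_contra h2
      exact key (g x) (by omega) (by omega) (by simp [inL]; exact h2) rfl
    apply hψ
    refine sat_of_inv hf hcf hb (s := s) fun y j hy hy' => ?_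
    have h3 : adjB (lab y) (goal s b) = true := by
      rw [hy]
      cases s <;> simp [adjB, side, gam] <;> omega
    exact hadj' y h3 (h1.trans hy'.symm)
  · intro htag
    by_contra hL
    rw [Bool.not_eq_true] at hL
    by_cases h0 : 1 ≤ g x
    · exact key (g x) h0 (by omega) hL rfl
    · have h0 : g x = 0 := by omega
      have hus := lab_us x
      by_cases h2 : 2 ≤ (lab x).1
      · obtain ⟨y, hy⟩ := lab_surj (Us.goal (k := k) (ψ := ψ) (!side (lab x)) (gam (lab x))
          (gam_lt _))
        have h3 := hadj y (by rw [hy]; exact adj_goal h2)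
        have h4 := (hf y).1 (by rw [hy])
        omega
      · generalize hlab : lab x = u at *
        cases hus <;> simp at htag h2
        rename_i s c h1 h2
        obtain ⟨b, hb, hbc⟩ : ∃ b, b < 4 ∧ c ≠ b + 1 := by
          by_cases hc : c = 1
          · exact ⟨1, by omega, by omega⟩
          · exact ⟨0, by omega, by omega⟩
        obtain ⟨y, hy⟩ := lab_surj (Us.goal (k := k) (ψ := ψ) (!s) b hb)
        have h3 := hadj' y (by
          rw [hy]
          cases s <;> simp [adjB, side, inL, hbc])
        have h4 := (hf y).1 (by rw [hy])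
        omega

theorem inv_ini {k : ℕ} {ψ : CNF3} : Inv (fun x : Vt k ψ => ini (lab x)) := by
  intro x
  have hus := lab_us x
  constructor
  · intro h; simp [ini, h]
  · intro h
    show inL (lab x) (ini (lab x)) = true
    generalize lab x = u at hus h ⊢
    cases hus <;> simp [ini, inL, act_pos, act_le] at h ⊢

theorem col_of_inv {k : ℕ} {ψ : CNF3} {f : Vt k ψ → ℕ} (hf : Inv f) : k < col f := by
  have h : Finset.range (k + 1) ⊆ Finset.univ.image f := by
    intro c hc
    rw [Finset.mem_range] at hc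
    rw [Finset.mem_image]
    by_cases h0 : c = 0
    · subst h0
      obtain ⟨y, hy⟩ := lab_surj (Us.goal (k := k) (ψ := ψ) true 0 (by omega))
      exact ⟨y, Finset.mem_univ _, (hf y).1 (by rw [hy])⟩
    · obtain ⟨y, hy⟩ := lab_surj (Us.pal (ψ := ψ) true c (k := k) (by omega) (by omega))
      refine ⟨y, Finset.mem_univ _, ?_⟩
      have h5 := (hf y).2 (by rw [hy]; simp)
      rw [hy] at h5
      simpa [inL] using h5
  have := Finset.card_le_card h
  rw [Finset.card_range] at this
  unfold col
  omega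

theorem chi_iff {k : ℕ} (hk : 4 ≤ k) (ψ : CNF3) :
    chi (gr k ψ) (k + 1) (fun x => ini (lab x)) ≤ (k : ℕ∞) ↔ Sat ψ := by
  constructor
  · intro h
    by_contra hψ
    refine lt_chi (fun f hf => ?_) h
    apply col_of_inv
    have : ∀ g, Relation.ReflTransGen (Step (gr k ψ) (k + 1)) (fun x => ini (lab x)) g → Inv g := by
      intro g hg
      induction hg with
      | refl => exact inv_ini
      | tail _ h ih => exact inv_step hk hψ ih h
    exact this f hf.2
  · intro h
    obtain ⟨al, ch, hg⟩ := good_of_sat h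
    have h0 : (fun x : Vt k ψ => st al ch 0 (lab x)) = fun x => ini (lab x) :=
      funext fun x => st_zero al ch x
    refine chi_le ⟨?_, ?_⟩ (col_fin hk hg)
    · rw [← h0]; exact isCol_st hk hg (by omega)
    · rw [← h0]; exact reach_st hk hg le_rfl

/-! ### The theorems -/

theorem inst_f₀ (k : ℕ) (ψ : CNF3) : Ins.f₀ (inst k ψ) = fun x : Vt k ψ => ini (lab x) := by
  funext x
  have hx : (x : ℕ) < (vs k ψ).length := x.2
  simp only [Ins.f₀, inst]
  rw [List.getD_eq_getElem?_getD, List.getElem?_map, List.getElem?_eq_getElem hx]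
  rfl

theorem ini_adjG {k : ℕ} {ψ : CNF3} {u v : Cd} (hu : Us k ψ u) (hv : Us k ψ v)
    (h : adjG u v = true) : ini u ≠ ini v := by
  cases hu with
  | pal s c h1 h2 => simp [adjG] at h
  | goal s b hb => simp [adjG] at h
  | oo s b j t hb hj =>
    cases hv <;> simp [adjG] at h
    obtain ⟨rfl, rfl, rfl⟩ := h
    simp only [ini, la]
    norm_num
    exact act_ne (by omega) (by omega) (by omega)
  | pp s b j t a hb hj ha =>
    cases hv <;> simp [adjG] at h
    rename_i s' b' j' t' a' hb' hj' ha'
    obtain ⟨rfl, rfl, rfl, rfl, h0⟩ := h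
    have h := congrArg Prod.fst h0
    have h5 := v1_lt a (lit t a).1
    have h7 := v1_ne_a a (lit t a).1
    simp only [ini, la, ← h]
    norm_num
    exact act_ne (by omega) (by omega) (by omega)
  | y1 s b j t a hb hj ha =>
    cases hv <;> simp [adjG] at h
    rename_i s' b' j' t' a' hb' hj' ha'
    obtain ⟨rfl, rfl, rfl, rfl, h0⟩ := h
    have h5 := v1_lt a (lit t a).1
    have h6 := v1_ne_zero a (lit t a).1
    simp only [ini, la]
    norm_num
    exact act_ne (by omega) (by omega) (by omega)
  | y2 s b j t a hb hj ha =>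
    cases hv <;> simp [adjG] at h
    obtain ⟨rfl, rfl, h⟩ := h
    simp only [ini, la]
    norm_num
    exact act_ne (by omega) (by omega) (by omega)
  | xx s b j t a hb hj ha =>
    cases hv <;> simp [adjG] at h

theorem ini_adj {k : ℕ} {ψ : CNF3} {u v : Cd} (hu : Us k ψ u) (hv : Us k ψ v)
    (h : adjB u v = true) : ini u ≠ ini v := by
  obtain ⟨x, rfl⟩ := lab_surj hu
  have hI := inv_ini x
  rcases adjB_cases h with ⟨h1, h2⟩ | ⟨h1, h2, h3⟩ | h
  · have h3 : ini v = v.2.2.1 := by simp only [ini, h1]; simp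
    have h4 : 1 ≤ v.2.2.1 := by
      cases hv <;> simp at h1 ⊢
      omega
    rw [h3]
    intro h5
    by_cases h6 : (lab x).1 = 1
    · have := hI.1 h6
      simp only at this
      omega
    · have := hI.2 h6
      simp only at this
      rw [h5, h2] at this
      simp at this
  · have h4 : ini v = 0 := by simp [ini, h1]
    have h5 : (lab x).1 ≠ 1 := by omega
    have := inL_pos hu (hI.2 h5)
    simp only at this
    omega
  · exact ini_adjG hu hv h

theorem isCol_ini {k : ℕ} (hk : 4 ≤ k) (ψ : CNF3) :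
    IsCol (gr k ψ) (k + 1) (fun x : Vt k ψ => ini (lab x)) := by
  constructor
  · intro x
    by_cases h : (lab x).1 = 1
    · have := (inv_ini x).1 h
      simp only at this
      show ini (lab x) < k + 1
      omega
    · exact Nat.lt_succ_of_le (inL_le hk (lab_us x) ((inv_ini x).2 h))
  · intro x y h
    rw [gr_adj] at h
    rcases h with h | h
    · exact ini_adj (lab_us x) (lab_us y) h
    · exact (ini_adj (lab_us y) (lab_us x) h).symm

theorem inst_ok {k : ℕ} (hk : 4 ≤ k) (ψ : CNF3) {C : Ins → Prop} (hC : C (inst k ψ)) :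
    C (inst k ψ) ∧ (inst k ψ).2.2.2.1.length = (inst k ψ).1 ∧
      (∃ u v, (inst k ψ).graph.Adj u v) ∧ IsCol (inst k ψ).graph (inst k ψ).k (inst k ψ).f₀ := by
  refine ⟨hC, by simp [inst], ?_, ?_⟩
  · obtain ⟨x, hx⟩ := lab_surj (Us.pal (k := k) (ψ := ψ) true 1 (by omega) (by omega))
    obtain ⟨y, hy⟩ := lab_surj (Us.pal (k := k) (ψ := ψ) false 2 (by omega) (by omega))
    exact ⟨x, y, (gr_adj x y).2 (Or.inl (by rw [hx, hy]; decide))⟩
  · rw [inst_f₀]
    exact isCol_ini hk ψ

theorem ocr_hard {k : ℕ} (hk : 4 ≤ k) {C : Ins → Prop} (hC : ∀ ψ, C (inst k ψ)) :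
    (OCR C).NPHard := by
  apply Problem.HardS.npHard
  refine SAT3_hardS.trans ⟨fun ψ => ⟨inst k ψ, inst_ok hk ψ (hC ψ)⟩,
    (PolyTime.mk (polyTime_inst k) fun ψ => inst_ok hk ψ (hC ψ)).scomp, fun ψ => ?_⟩
  change Sat ψ ↔ chi (inst k ψ).graph (inst k ψ).k (inst k ψ).f₀ ≤ ((inst k ψ).m : ℕ∞)
  rw [inst_f₀]
  exact (chi_iff hk ψ).symm

theorem ocrPerfect_npHard : OCRPerfect.NPHard :=
  ocr_hard (k := 4) le_rfl fun ψ => isPerfect_of_colorable_two (gr_colorable 4 ψ)

theorem ocrBipartite_npHard {k : ℕ} (hk : 5 ≤ k) : (OCRBipartite k).NPHard := by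
  obtain ⟨k, rfl⟩ : ∃ k', k = k' + 1 := ⟨k - 1, by omega⟩
  exact ocr_hard (k := k) (by omega) fun ψ => ⟨gr_colorable k ψ, rfl, rfl⟩

end Pool.Agent.Helper78.PCR
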