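import Pool.Agent.Helper78.Net
import Pool.Agent.Helper78.LmdDefs
import Mathlib.Analysis.Convex.Segment
import Mathlib.Analysis.Normed.Affine.AddTorsor
import Mathlib.Topology.Algebra.Affine

/-!
# Planar drawings of networks
-/

namespace Pool.Agent.Helper78.LMD

open SimpleGraph Sum

variable {J ρ : Type*} {T : Net J ρ}

/-- The point with parameter `t` of the straight road `e`. -/
noncomputable def Net.seg (T : Net J ρ) (P : J → ℝ × ℝ) (e : ρ) (t : ℝ) : ℝ × ℝ :=
  P (T.src e) + t • (P (T.dst e) - P (T.src e))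

/-- `a` is the end of the road `e` at the parameter `t`. -/
def Net.End (T : Net J ρ) (e : ρ) (t : ℝ) (a : J) : Prop :=
  (t = 0 ∧ T.src e = a) ∨ (t = 1 ∧ T.dst e = a)

/-- The straight roads form a plane drawing. -/
def Net.Straight (T : Net J ρ) (P : J → ℝ × ℝ) : Prop :=
  ∀ e e' t t', 0 < T.len e → 0 < T.len e' → 0 ≤ t → t ≤ 1 → 0 ≤ t' → t' ≤ 1 →
    T.seg P e t = T.seg P e' t' → (e = e' ∧ t = t') ∨ ∃ a, T.End e t a ∧ T.End e' t' a

/-- Positions of all vertices. -/
noncomputable def Net.vpos (T : Net J ρ) (P : J → ℝ × ℝ) : J ⊕ ρ × ℕ → ℝ × ℝ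
  | inl a => P a
  | inr (e, i) => T.seg P e ((i : ℝ) / T.len e)

theorem Net.vpos_pt {P : J → ℝ × ℝ} {e : ρ} {i : ℕ} (he : 0 < T.len e) (hi : i ≤ T.len e) :
    T.vpos P (T.pt e i) = T.seg P e ((i : ℝ) / T.len e) := by
  rcases Nat.eq_zero_or_pos i with rfl | h0
  · rw [Net.pt_zero]; simp [Net.vpos, Net.seg]
  · rcases hi.eq_or_lt with rfl | h1
    · rw [T.pt_len he]
      have : (T.len e : ℝ) ≠ 0 := by exact_mod_cast he.ne'
      simp [Net.vpos, Net.seg, this]
    · rw [T.pt_mid h0 h1]; rfl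

theorem Net.pt_of_end {e : ρ} {i : ℕ} {a : J} (he : 0 < T.len e)
    (h : T.End e ((i : ℝ) / T.len e) a) : T.pt e i = inl a := by
  have hl : (T.len e : ℝ) ≠ 0 := by exact_mod_cast he.ne'
  rcases h with ⟨h, rfl⟩ | ⟨h, rfl⟩
  · rw [div_eq_zero_iff] at h
    rcases h with h | h
    · have : i = 0 := by exact_mod_cast h
      rw [this, Net.pt_zero]
    · exact absurd h hl
  · rw [div_eq_one_iff_eq hl] at h
    have : i = T.len e := by exact_mod_cast h
    rw [this, T.pt_len he]

theorem Net.vpos_inj {P : J → ℝ × ℝ} (hP : T.Straight P) {e e' : ρ} {i i' : ℕ}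
    (he : 0 < T.len e) (hi : i ≤ T.len e) (he' : 0 < T.len e') (hi' : i' ≤ T.len e')
    (h : T.vpos P (T.pt e i) = T.vpos P (T.pt e' i')) : T.pt e i = T.pt e' i' := by
  rw [Net.vpos_pt he hi, Net.vpos_pt he' hi'] at h
  have hl : (0 : ℝ) < T.len e := by exact_mod_cast he
  have hl' : (0 : ℝ) < T.len e' := by exact_mod_cast he'
  have h1 : (i : ℝ) ≤ T.len e := by exact_mod_cast hi
  have h1' : (i' : ℝ) ≤ T.len e' := by exact_mod_cast hi'
  rcases hP e e' _ _ he he' (by positivity) ((div_le_one hl).2 h1) (by positivity)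
    ((div_le_one hl').2 h1') h with ⟨rfl, h⟩ | ⟨a, ha, ha'⟩
  · rw [div_left_inj' hl.ne'] at h
    have : i = i' := by exact_mod_cast h
    rw [this]
  · rw [Net.pt_of_end he ha, Net.pt_of_end he' ha']

theorem Net.mem_seg {P : J → ℝ × ℝ} {e : ρ} {i : ℕ} (hi : i < T.len e) {x : ℝ × ℝ}
    (hx : x ∈ segment ℝ (T.vpos P (T.pt e i)) (T.vpos P (T.pt e (i + 1)))) :
    ∃ t : ℝ, (i : ℝ) ≤ t * T.len e ∧ t * T.len e ≤ i + 1 ∧ 0 ≤ t ∧ t ≤ 1 ∧ x = T.seg P e t := by
  have he : 0 < T.len e := by omega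
  have hl : (0 : ℝ) < T.len e := by exact_mod_cast he
  rw [Net.vpos_pt he hi.le, Net.vpos_pt he (i := i + 1) hi, segment_eq_image] at hx
  obtain ⟨s, ⟨hs0, hs1⟩, rfl⟩ := hx
  have h1 : ((i : ℝ) + 1) ≤ T.len e := by exact_mod_cast hi
  refine ⟨((i : ℝ) + s) / T.len e, ?_, ?_, by positivity, ?_, ?_⟩
  · rw [div_mul_cancel₀ _ hl.ne']; linarith
  · rw [div_mul_cancel₀ _ hl.ne']; linarith
  · rw [div_le_one hl]; linarith
  · unfold Net.seg
    push_cast
    ext <;> simp <;> field_simp <;> ring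

theorem Net.pt_of_end' {e : ρ} {i : ℕ} {a : J} {t : ℝ} (hi : i < T.len e)
    (h0 : (i : ℝ) ≤ t * T.len e) (h1 : t * T.len e ≤ i + 1) (h : T.End e t a) :
    inl a = T.pt e i ∨ inl a = T.pt e (i + 1) := by
  rcases h with ⟨rfl, rfl⟩ | ⟨rfl, rfl⟩
  · left
    rw [zero_mul] at h0
    have : i = 0 := by
      have : (i : ℝ) = 0 := le_antisymm h0 (by positivity)
      exact_mod_cast this
    rw [this, Net.pt_zero]
  · right
    rw [one_mul] at h1
    have h2 : T.len e ≤ i + 1 := by exact_mod_cast h1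
    have : T.len e = i + 1 := by omega
    have h3 := T.pt_len (e := e) (by omega)
    rw [this] at h3
    exact h3.symm

/-- A subgraph of a straight network is planar. -/
theorem Net.isPlanar {P : J → ℝ × ℝ} (hP : T.Straight P) {V : Type*} {G : SimpleGraph V}
    (lab : V → J ⊕ ρ × ℕ) (hlab : Function.Injective lab)
    (hused : ∀ v, ∃ e i, 0 < T.len e ∧ i ≤ T.len e ∧ lab v = T.pt e i)
    (hadj : ∀ u v, G.Adj u v → T.graph.Adj (lab u) (lab v)) : IsPlanar G := by
  have hpos : Function.Injective fun v => T.vpos P (lab v) := by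
    intro u v h
    obtain ⟨e, i, he, hi, hu⟩ := hused u
    obtain ⟨e', i', he', hi', hv⟩ := hused v
    apply hlab
    simp only [hu, hv] at h ⊢
    exact Net.vpos_inj hP he hi he' hi' h
  have hedge : ∀ u v, G.Adj u v → ∃ e i, i < T.len e ∧
      ((lab u = T.pt e i ∧ lab v = T.pt e (i + 1)) ∨
        (lab v = T.pt e i ∧ lab u = T.pt e (i + 1))) := by
    intro u v h
    have h1 := hadj u v h
    rw [Net.graph, SimpleGraph.fromRel_adj] at h1
    obtain ⟨-, ⟨e, i, hi, h2, h3⟩ | ⟨e, i, hi, h2, h3⟩⟩ := h1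
    · exact ⟨e, i, hi, Or.inl ⟨h2, h3⟩⟩
    · exact ⟨e, i, hi, Or.inr ⟨h2, h3⟩⟩
  -- the geometric description of an edge
  have hgeo : ∀ u v, G.Adj u v → ∃ e i, i < T.len e ∧
      (∀ w, (lab w = T.pt e i ∨ lab w = T.pt e (i + 1)) → w ∈ s(u, v)) ∧
      (∃ w, lab w = T.pt e i) ∧ (∃ w, lab w = T.pt e (i + 1)) ∧
      (∀ w, w ∈ s(u, v) → (lab w = T.pt e i ∨ lab w = T.pt e (i + 1))) ∧
      ∀ x ∈ segment ℝ (T.vpos P (lab u)) (T.vpos P (lab v)),
        ∃ t : ℝ, (i : ℝ) ≤ t * T.len e ∧ t * T.len e ≤ i + 1 ∧ 0 ≤ t ∧ t ≤ 1 ∧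
          x = T.seg P e t := by
    intro u v h
    obtain ⟨e, i, hi, ⟨h1, h2⟩ | ⟨h1, h2⟩⟩ := hedge u v h
    · refine ⟨e, i, hi, ?_, ⟨u, h1⟩, ⟨v, h2⟩, ?_, ?_⟩
      · intro w hw
        rw [← h1, ← h2] at hw
        rw [Sym2.mem_iff]
        exact hw.imp (fun h => hlab h) (fun h => hlab h)
      · intro w hw
        rw [Sym2.mem_iff] at hw
        rcases hw with rfl | rfl
        · exact Or.inl h1
        · exact Or.inr h2
      · intro x hx
        rw [h1, h2] at hx
        exact Net.mem_seg hi hx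
    · refine ⟨e, i, hi, ?_, ⟨v, h1⟩, ⟨u, h2⟩, ?_, ?_⟩
      · intro w hw
        rw [← h1, ← h2] at hw
        rw [Sym2.mem_iff]
        exact hw.symm.imp (fun h => hlab h) (fun h => hlab h)
      · intro w hw
        rw [Sym2.mem_iff] at hw
        rcases hw with rfl | rfl
        · exact Or.inr h2
        · exact Or.inl h1
      · intro x hx
        rw [h1, h2, segment_symm] at hx
        exact Net.mem_seg hi hx
  refine ⟨fun v => T.vpos P (lab v),
    Sym2.lift ⟨fun u v => segment ℝ (T.vpos P (lab u)) (T.vpos P (lab v)),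
      fun u v => segment_symm ℝ _ _⟩, hpos, ?_, ?_, ?_⟩
  · intro u v h
    refine ⟨fun t => AffineMap.lineMap (T.vpos P (lab u)) (T.vpos P (lab v)) t, ?_, ?_, by simp,
      by simp, ?_⟩
    · exact (AffineMap.lineMap_continuous).continuousOn
    · intro s _ t _ hst
      exact AffineMap.lineMap_injective ℝ (fun h' => h.ne (hpos h')) hst
    · simp only [Sym2.lift_mk]
      rw [segment_eq_image_lineMap]
  · intro e he w hw
    induction e using Sym2.ind with
    | _ u v =>
      rw [SimpleGraph.mem_edgeSet] at he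
      obtain ⟨e, i, hi, hm, -, -, -, hseg⟩ := hgeo u v he
      simp only [Sym2.lift_mk] at hw
      obtain ⟨t, h0, h1, ht0, ht1, hx⟩ := hseg _ hw
      obtain ⟨e', i', he', hi', hlw⟩ := hused w
      apply hm
      have hl' : (0 : ℝ) < T.len e' := by exact_mod_cast he'
      have hi2 : (i' : ℝ) ≤ T.len e' := by exact_mod_cast hi'
      rw [hlw, Net.vpos_pt he' hi'] at hx
      have hel : 0 < T.len e := by omega
      rcases hP e e' t _ hel he' ht0 ht1 (by positivity) ((div_le_one hl').2 hi2) hx.symm with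
        ⟨rfl, h⟩ | ⟨a, ha, ha'⟩
      · rw [h, div_mul_cancel₀ _ hl'.ne'] at h0 h1
        have h2 : i ≤ i' := by exact_mod_cast h0
        have h3 : i' ≤ i + 1 := by exact_mod_cast h1
        rcases h2.eq_or_lt with rfl | h4
        · exact Or.inl hlw
        · right; rw [hlw]; congr 1; omega
      · rw [hlw, Net.pt_of_end he' ha']
        exact Net.pt_of_end' hi h0 h1 ha
  · intro e he f hf hef x hx
    induction e using Sym2.ind with
    | _ u v =>
    induction f using Sym2.ind with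
    | _ u' v' =>
      rw [SimpleGraph.mem_edgeSet] at he hf
      obtain ⟨e, i, hi, hm, ⟨w0, hw0⟩, ⟨w1, hw1⟩, hm', hseg⟩ := hgeo u v he
      obtain ⟨e', i', hi', gm, ⟨v0, hv0⟩, ⟨v1, hv1⟩, gm', gseg⟩ := hgeo u' v' hf
      simp only [Sym2.lift_mk] at hx
      obtain ⟨t, h0, h1, ht0, ht1, hx1⟩ := hseg _ hx.1
      obtain ⟨t', h0', h1', ht0', ht1', hx1'⟩ := gseg _ hx.2
      have hel : 0 < T.len e := by omega
      have hel' : 0 < T.len e' := by omega
      have hll : (0 : ℝ) < T.len e := by exact_mod_cast hel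
      rcases hP e e' t t' hel hel' ht0 ht1 ht0' ht1' (hx1 ▸ hx1') with ⟨rfl, rfl⟩ | ⟨a, ha, ha'⟩
      · -- the same road
        rcases lt_trichotomy i i' with hlt | heq | hgt
        · have h2 : ((i : ℝ) + 1) ≤ i' := by exact_mod_cast hlt
          have h3 : t * T.len e = i + 1 := le_antisymm h1 (by linarith)
          have h4 : i' = i + 1 := by
            have : (i' : ℝ) = i + 1 := by linarith
            exact_mod_cast this
          subst h4
          refine ⟨w1, hm w1 (Or.inr hw1), gm w1 (Or.inl hw1), ?_⟩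
          simp only [hw1]
          rw [Net.vpos_pt hel hi, hx1]
          congr 1
          rw [div_eq_iff hll.ne']; push_cast; linarith
        · exfalso
          subst heq
          apply hef
          ext w
          constructor
          · intro hw; exact gm w (hm' w hw)
          · intro hw; exact hm w (gm' w hw)
        · have h2 : ((i' : ℝ) + 1) ≤ i := by exact_mod_cast hgt
          have h3 : t * T.len e = i := le_antisymm (by linarith) h0
          have h4 : i = i' + 1 := by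
            have : (i : ℝ) = i' + 1 := by linarith
            exact_mod_cast this
          subst h4
          refine ⟨w0, hm w0 (Or.inl hw0), gm w0 (Or.inr hw0), ?_⟩
          simp only [hw0]
          rw [Net.vpos_pt hel hi.le, hx1]
          congr 1
          rw [div_eq_iff hll.ne']; linarith
      · -- a common junction
        have k1 := Net.pt_of_end' hi h0 h1 ha
        have k2 := Net.pt_of_end' hi' h0' h1' ha'
        obtain ⟨w, hw⟩ : ∃ w, lab w = inl a := by
          rcases k1 with k | k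
          · exact ⟨w0, hw0.trans k.symm⟩
          · exact ⟨w1, hw1.trans k.symm⟩
        refine ⟨w, hm w ?_, gm w ?_, ?_⟩
        · rw [hw]; exact k1
        · rw [hw]; exact k2
        · simp only [hw, Net.vpos]
          rw [hx1]
          rcases ha with ⟨rfl, rfl⟩ | ⟨rfl, rfl⟩ <;> simp [Net.seg]

end Pool.Agent.Helper78.LMD
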