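import Mathlib

/-!
# Stack programs and their translation to Mathlib's `TM2` machines

A tiny structured language of stack programs (stacks of bits indexed by `ℕ`), with a big-step
semantics that counts steps, and a translation into Mathlib's `Turing.FinTM2` machines which
preserves the number of steps.
-/

namespace Pool.Agent.Helper78.PT

open Turing

/-- Structured programs working on finitely many stacks of bits. -/
inductive Prog : Type
  | skip : Prog
  | push (k : ℕ) (b : Bool) : Prog
  | pop (k : ℕ) : Prog
  | seq (p q : Prog) : Prog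
  | ifTop (k : ℕ) (pe pf pt : Prog) : Prog
  | loop (k : ℕ) (pf pt : Prog) : Prog

/-- Contents of the stacks. -/
abbrev St := ℕ → List Bool

/-- Big-step semantics: `Exec p s t s'` says that `p` started in `s` ends in `s'` after exactly
`t` steps. -/
inductive Exec : Prog → St → ℕ → St → Prop
  | skip (s : St) : Exec .skip s 1 s
  | push (k : ℕ) (b : Bool) (s : St) : Exec (.push k b) s 1 (Function.update s k (b :: s k))
  | pop (k : ℕ) (s : St) : Exec (.pop k) s 1 (Function.update s k (s k).tail)
  | seq {p q : Prog} {s₁ s₂ s₃ : St} {t₁ t₂ : ℕ} :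
      Exec p s₁ t₁ s₂ → Exec q s₂ t₂ s₃ → Exec (.seq p q) s₁ (t₁ + t₂) s₃
  | ifNil {k : ℕ} {pe pf pt : Prog} {s s' : St} {t : ℕ} :
      s k = [] → Exec pe s t s' → Exec (.ifTop k pe pf pt) s (t + 1) s'
  | ifFalse {k : ℕ} {pe pf pt : Prog} {s s' : St} {t : ℕ} {l : List Bool} :
      s k = false :: l → Exec pf s t s' → Exec (.ifTop k pe pf pt) s (t + 1) s'
  | ifTrue {k : ℕ} {pe pf pt : Prog} {s s' : St} {t : ℕ} {l : List Bool} :
      s k = true :: l → Exec pt s t s' → Exec (.ifTop k pe pf pt) s (t + 1) s'
  | loopNil {k : ℕ} {pf pt : Prog} {s : St} :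
      s k = [] → Exec (.loop k pf pt) s 1 s
  | loopFalse {k : ℕ} {pf pt : Prog} {s s₁ s₂ : St} {t₁ t₂ : ℕ} {l : List Bool} :
      s k = false :: l → Exec pf (Function.update s k l) t₁ s₁ →
      Exec (.loop k pf pt) s₁ t₂ s₂ → Exec (.loop k pf pt) s (t₁ + t₂ + 1) s₂
  | loopTrue {k : ℕ} {pf pt : Prog} {s s₁ s₂ : St} {t₁ t₂ : ℕ} {l : List Bool} :
      s k = true :: l → Exec pt (Function.update s k l) t₁ s₁ →
      Exec (.loop k pf pt) s₁ t₂ s₂ → Exec (.loop k pf pt) s (t₁ + t₂ + 1) s₂

/-- A bound for the stack indices used by a program. -/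
def Prog.bound : Prog → ℕ
  | .skip => 0
  | .push k _ => k + 1
  | .pop k => k + 1
  | .seq p q => max p.bound q.bound
  | .ifTop k pe pf pt => max (k + 1) (max pe.bound (max pf.bound pt.bound))
  | .loop k pf pt => max (k + 1) (max pf.bound pt.bound)

/-- Labels of the machine of a program. -/
@[reducible] def Lab : Prog → Type
  | .skip => Unit
  | .push _ _ => Unit
  | .pop _ => Unit
  | .seq p q => Lab p ⊕ Lab q
  | .ifTop _ pe pf pt => Unit ⊕ (Lab pe ⊕ (Lab pf ⊕ Lab pt))
  | .loop _ pf pt => Unit ⊕ (Lab pf ⊕ Lab pt)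

instance labFintype : (p : Prog) → Fintype (Lab p)
  | .skip => inferInstanceAs (Fintype Unit)
  | .push _ _ => inferInstanceAs (Fintype Unit)
  | .pop _ => inferInstanceAs (Fintype Unit)
  | .seq p q =>
    letI := labFintype p
    letI := labFintype q
    inferInstanceAs (Fintype (Lab p ⊕ Lab q))
  | .ifTop _ pe pf pt =>
    letI := labFintype pe
    letI := labFintype pf
    letI := labFintype pt
    inferInstanceAs (Fintype (Unit ⊕ (Lab pe ⊕ (Lab pf ⊕ Lab pt))))
  | .loop _ pf pt =>
    letI := labFintype pf
    letI := labFintype pt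
    inferInstanceAs (Fintype (Unit ⊕ (Lab pf ⊕ Lab pt)))

/-- Entry label. -/
def entry : (p : Prog) → Lab p
  | .skip => ()
  | .push _ _ => ()
  | .pop _ => ()
  | .seq p _ => .inl (entry p)
  | .ifTop _ _ _ _ => .inl ()
  | .loop _ _ _ => .inl ()

/-- The stack index `k` as an element of `Fin N`. -/
def ix (N : ℕ) [NeZero N] (k : ℕ) : Fin N := ⟨k % N, Nat.mod_lt _ (Nat.pos_of_ne_zero (NeZero.ne N))⟩

theorem ix_val {N : ℕ} [NeZero N] {k : ℕ} (hk : k < N) : ((ix N k : Fin N) : ℕ) = k :=
  Nat.mod_eq_of_lt hk

section code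

variable {Λ : Type} (N : ℕ) [NeZero N]

/-- Statements of the machine with stack index type `Fin N`. -/
abbrev MStmt (Λ : Type) (N : ℕ) := TM2.Stmt (fun _ : Fin N => Bool) Λ (Option Bool)

/-- The code of a program. -/
def code : (p : Prog) → (Lab p → Λ) → Λ → Lab p → MStmt Λ N
  | .skip, _, ex => fun _ => .goto fun _ => ex
  | .push k b, _, ex => fun _ => .push (ix N k) (fun _ => b) (.goto fun _ => ex)
  | .pop k, _, ex => fun _ => .pop (ix N k) (fun v _ => v) (.goto fun _ => ex)
  | .seq p q, emb, ex => fun l =>
      match l with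
      | .inl l => code p (fun l => emb (.inl l)) (emb (.inr (entry q))) l
      | .inr l => code q (fun l => emb (.inr l)) ex l
  | .ifTop k pe pf pt, emb, ex => fun l =>
      match l with
      | .inl _ => .peek (ix N k) (fun _ o => o) (.goto fun v =>
          match v with
          | none => emb (.inr (.inl (entry pe)))
          | some false => emb (.inr (.inr (.inl (entry pf))))
          | some true => emb (.inr (.inr (.inr (entry pt)))))
      | .inr (.inl l) => code pe (fun l => emb (.inr (.inl l))) ex l
      | .inr (.inr (.inl l)) => code pf (fun l => emb (.inr (.inr (.inl l)))) ex l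
      | .inr (.inr (.inr l)) => code pt (fun l => emb (.inr (.inr (.inr l)))) ex l
  | .loop k pf pt, emb, ex => fun l =>
      match l with
      | .inl _ => .pop (ix N k) (fun _ o => o) (.goto fun v =>
          match v with
          | none => ex
          | some false => emb (.inr (.inl (entry pf)))
          | some true => emb (.inr (.inr (entry pt))))
      | .inr (.inl l) => code pf (fun l => emb (.inr (.inl l))) (emb (.inl ())) l
      | .inr (.inr l) => code pt (fun l => emb (.inr (.inr l))) (emb (.inl ())) l

end code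

/-- Restriction of a stack state to the stacks below `N`. -/
def res (N : ℕ) (s : St) : Fin N → List Bool := fun i => s i

theorem res_update {N : ℕ} [NeZero N] (s : St) {k : ℕ} (hk : k < N) (l : List Bool) :
    res N (Function.update s k l) = Function.update (res N s) (ix N k) l := by
  funext i
  have h1 : ((ix N k : Fin N) : ℕ) = k := ix_val hk
  by_cases h : i = ix N k
  · subst h
    simp [res, h1]
  · have h2 : (i : ℕ) ≠ k := by
      intro h3
      apply h
      apply Fin.ext
      rw [h1, h3]
    simp [res, h, h2]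

theorem res_apply {N : ℕ} [NeZero N] (s : St) {k : ℕ} (hk : k < N) :
    res N s (ix N k) = s k := by
  have h1 : ((ix N k : Fin N) : ℕ) = k := ix_val hk
  simp [res, h1]

/-- `t` steps of a partial step function. -/
def stepsTo {σ : Type} (f : σ → Option σ) (t : ℕ) (a b : σ) : Prop :=
  (flip bind f)^[t] (some a) = some b

theorem stepsTo.trans {σ : Type} {f : σ → Option σ} {t₁ t₂ : ℕ} {a b c : σ}
    (h₁ : stepsTo f t₁ a b) (h₂ : stepsTo f t₂ b c) : stepsTo f (t₁ + t₂) a c := by
  unfold stepsTo at *
  rw [Nat.add_comm, Function.iterate_add_apply, h₁, h₂]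

theorem stepsTo.one {σ : Type} {f : σ → Option σ} {a b : σ} (h : f a = some b) :
    stepsTo f 1 a b := by
  unfold stepsTo
  simpa [flip] using h

theorem exec_tm {N : ℕ} [NeZero N] {Λ : Type} (M : Λ → MStmt Λ N) {p : Prog} {s s' : St} {t : ℕ}
    (h : Exec p s t s') :
    ∀ (_ : p.bound ≤ N) (emb : Lab p → Λ) (ex : Λ) (_ : ∀ l, M (emb l) = code N p emb ex l)
      (v : Option Bool), ∃ v' : Option Bool,
      stepsTo (TM2.step M) t ⟨some (emb (entry p)), v, res N s⟩ ⟨some ex, v', res N s'⟩ := by
  induction h with
  | skip s =>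
    intro hb emb ex hM v
    refine ⟨v, stepsTo.one ?_⟩
    simp [entry, TM2.step, hM, code]
  | push k b s =>
    intro hb emb ex hM v
    refine ⟨v, stepsTo.one ?_⟩
    simp only [Prog.bound] at hb
    have hk : k < N := by omega
    simp [entry, TM2.step, hM, code, res_update s hk, res_apply s hk]
  | pop k s =>
    intro hb emb ex hM v
    refine ⟨v, stepsTo.one ?_⟩
    simp only [Prog.bound] at hb
    have hk : k < N := by omega
    simp [entry, TM2.step, hM, code, res_update s hk, res_apply s hk]
  | @seq p q s₁ s₂ s₃ t₁ t₂ _ _ ih₁ ih₂ =>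
    intro hb emb ex hM v
    simp only [Prog.bound] at hb
    obtain ⟨v₁, h₁⟩ := ih₁ (le_trans (le_max_left _ _) hb) (fun l => emb (.inl l))
      (emb (.inr (entry q))) (fun l => by rw [hM]; rfl) v
    obtain ⟨v₂, h₂⟩ := ih₂ (le_trans (le_max_right _ _) hb) (fun l => emb (.inr l)) ex
      (fun l => by rw [hM]; rfl) v₁
    exact ⟨v₂, h₁.trans h₂⟩
  | @ifNil k pe pf pt s s' t hs _ ih =>
    intro hb emb ex hM v
    simp only [Prog.bound] at hb
    have hk : k < N := by omega
    obtain ⟨v₁, h₁⟩ := ih (by omega) (fun l => emb (.inr (.inl l))) ex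
      (fun l => by rw [hM]; rfl) none
    refine ⟨v₁, ?_⟩
    rw [Nat.add_comm]
    refine stepsTo.trans (stepsTo.one ?_) h₁
    simp [entry, TM2.step, hM, code, res_apply s hk, hs]
  | @ifFalse k pe pf pt s s' t l hs _ ih =>
    intro hb emb ex hM v
    simp only [Prog.bound] at hb
    have hk : k < N := by omega
    obtain ⟨v₁, h₁⟩ := ih (by omega) (fun l => emb (.inr (.inr (.inl l)))) ex
      (fun l => by rw [hM]; rfl) (some false)
    refine ⟨v₁, ?_⟩
    rw [Nat.add_comm]
    refine stepsTo.trans (stepsTo.one ?_) h₁
    simp [entry, TM2.step, hM, code, res_apply s hk, hs]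
  | @ifTrue k pe pf pt s s' t l hs _ ih =>
    intro hb emb ex hM v
    simp only [Prog.bound] at hb
    have hk : k < N := by omega
    obtain ⟨v₁, h₁⟩ := ih (by omega) (fun l => emb (.inr (.inr (.inr l)))) ex
      (fun l => by rw [hM]; rfl) (some true)
    refine ⟨v₁, ?_⟩
    rw [Nat.add_comm]
    refine stepsTo.trans (stepsTo.one ?_) h₁
    simp [entry, TM2.step, hM, code, res_apply s hk, hs]
  | @loopNil k pf pt s hs =>
    intro hb emb ex hM v
    simp only [Prog.bound] at hb
    have hk : k < N := by omega
    refine ⟨none, stepsTo.one ?_⟩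
    have h0 : Function.update (res N s) (ix N k) [] = res N s := by
      rw [← res_update s hk]
      congr 1
      rw [← hs]
      exact Function.update_eq_self k s
    simp [entry, TM2.step, hM, code, res_apply s hk, hs, h0]
  | @loopFalse k pf pt s s₁ s₂ t₁ t₂ l hs _ _ ih₁ ih₂ =>
    intro hb emb ex hM v
    have hb' := hb
    simp only [Prog.bound] at hb
    have hk : k < N := by omega
    obtain ⟨v₁, h₁⟩ := ih₁ (by omega) (fun l => emb (.inr (.inl l))) (emb (.inl ()))
      (fun l => by rw [hM]; rfl) (some false)
    obtain ⟨v₂, h₂⟩ := ih₂ hb' emb ex hM v₁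
    refine ⟨v₂, ?_⟩
    rw [Nat.add_comm]
    refine stepsTo.trans (stepsTo.one ?_) (h₁.trans h₂)
    simp [entry, TM2.step, hM, code, res_apply s hk, hs, res_update s hk]
  | @loopTrue k pf pt s s₁ s₂ t₁ t₂ l hs _ _ ih₁ ih₂ =>
    intro hb emb ex hM v
    have hb' := hb
    simp only [Prog.bound] at hb
    have hk : k < N := by omega
    obtain ⟨v₁, h₁⟩ := ih₁ (by omega) (fun l => emb (.inr (.inr l))) (emb (.inl ()))
      (fun l => by rw [hM]; rfl) (some true)
    obtain ⟨v₂, h₂⟩ := ih₂ hb' emb ex hM v₁
    refine ⟨v₂, ?_⟩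
    rw [Nat.add_comm]
    refine stepsTo.trans (stepsTo.one ?_) (h₁.trans h₂)
    simp [entry, TM2.step, hM, code, res_apply s hk, hs, res_update s hk]

/-- Initial stack state: the input is on stack `0`. -/
def ini (x : List Bool) : St := fun k => if k = 0 then x else []

/-- Final stack state: the output is on stack `1`. -/
def fin (y : List Bool) : St := fun k => if k = 1 then y else []

/-- The machine of a program, reading its input on stack `0`, writing its output on stack `1`. -/
def machine (p : Prog) (N : ℕ) [NeZero N] : FinTM2 where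
  K := Fin N
  k₀ := ix N 0
  k₁ := ix N 1
  Γ := fun _ => Bool
  Λ := Option (Lab p)
  main := some (entry p)
  ΛFin := by
    letI := labFintype p
    infer_instance
  σ := Option Bool
  initialState := none
  m := fun l => match l with
    | none => .load (fun _ => none) .halt
    | some l => code N p some none l

/-- The functions on bit strings computed in polynomial time by a Turing machine, in the sense of
Mathlib's `Turing.TM2ComputableInPolyTime` (input and output are written bit by bit). -/
def PolyTime (f : List Bool → List Bool) : Prop :=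
  Nonempty (TM2ComputableInPolyTime (id : List Bool → List Bool) (id : List Bool → List Bool) f)

theorem polyTime_of_exec (p : Prog) (P : Polynomial ℕ) (f : List Bool → List Bool)
    (h : ∀ x, ∃ t, t ≤ P.eval x.length ∧ Exec p (ini x) t (fin (f x))) : PolyTime f := by
  obtain ⟨N, hN2, hNb⟩ : ∃ N : ℕ, 2 ≤ N ∧ p.bound ≤ N := ⟨max 2 p.bound, by simp, by simp⟩
  haveI : NeZero N := ⟨by omega⟩
  refine ⟨⟨⟨machine p N, Equiv.refl _, Equiv.refl _⟩, P + 1, ?_⟩⟩
  intro x
  apply Classical.choice
  obtain ⟨t, ht, he⟩ := h x
  obtain ⟨v', hs⟩ := exec_tm (N := N) (Λ := Option (Lab p)) (machine p N).m he hNb some none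
    (fun l => rfl) none
  have hi : initList (machine p N) (List.map (Equiv.refl Bool).invFun (id x)) =
      (⟨some (some (entry p)), none, res N (ini x)⟩ : TM2.Cfg (fun _ : Fin N => Bool)
        (Option (Lab p)) (Option Bool)) := by
    unfold initList
    have h1 : (fun k : Fin N => res N (ini x) k) = fun k : Fin N =>
        @dite (List Bool) (k = ix N 0) ((machine p N).kDecidableEq k (ix N 0))
          (fun _ => List.map (Equiv.refl Bool).invFun (id x)) fun _ => [] := by
      funext k
      by_cases hk : k = ix N 0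
      · rw [dif_pos hk]
        subst hk
        simp [res, ini, ix_val (N := N) (k := 0) (by omega)]
      · rw [dif_neg hk]
        have : (k : ℕ) ≠ 0 := by
          intro h0
          apply hk
          apply Fin.ext
          rw [h0, ix_val (by omega)]
        simp [res, ini, this]
    show TM2.Cfg.mk _ _ _ = TM2.Cfg.mk _ _ _
    congr 1
    exact h1.symm
  have hf : haltList (machine p N) (List.map (Equiv.refl Bool).invFun (id (f x))) =
      (⟨none, none, res N (fin (f x))⟩ : TM2.Cfg (fun _ : Fin N => Bool)
        (Option (Lab p)) (Option Bool)) := by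
    unfold haltList
    have h1 : (fun k : Fin N => res N (fin (f x)) k) = fun k : Fin N =>
        @dite (List Bool) (k = ix N 1) ((machine p N).kDecidableEq k (ix N 1))
          (fun _ => List.map (Equiv.refl Bool).invFun (id (f x))) fun _ => [] := by
      funext k
      by_cases hk : k = ix N 1
      · rw [dif_pos hk]
        subst hk
        simp [res, fin, ix_val (N := N) (k := 1) (by omega)]
      · rw [dif_neg hk]
        have : (k : ℕ) ≠ 1 := by
          intro h0
          apply hk
          apply Fin.ext
          rw [h0, ix_val (by omega)]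
        simp [res, fin, this]
    show TM2.Cfg.mk _ _ _ = TM2.Cfg.mk _ _ _
    congr 1
    exact h1.symm
  have hlast : stepsTo (TM2.step (machine p N).m) 1
      (⟨some none, v', res N (fin (f x))⟩ : TM2.Cfg (fun _ : Fin N => Bool)
        (Option (Lab p)) (Option Bool)) ⟨none, none, res N (fin (f x))⟩ := stepsTo.one rfl
  have hall := hs.trans hlast
  refine ⟨⟨⟨t + 1, ?_⟩, ?_⟩⟩
  · show (flip bind (TM2.step (machine p N).m))^[t + 1]
      (some (initList (machine p N) (List.map (Equiv.refl Bool).invFun (id x)))) =
      some (haltList (machine p N) (List.map (Equiv.refl Bool).invFun (id (f x))))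
    rw [hi, hf]
    exact hall
  · simp only [id]
    rw [Polynomial.eval_add, Polynomial.eval_one]
    omega

end Pool.Agent.Helper78.PT
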