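import Mathlib

/-!
# Reset Mealy automata, the decision problem RESET, and the class PSPACE
-/

namespace Pool.Agent.Helper78.Reset

/-! ## Mealy automata -/

/-- A Mealy automaton with state set `Q` and alphabet `A`: transition map `δ`, output map `lam`. -/
structure Mealy (Q A : Type) where
  δ : Q → A → Q
  lam : Q → A → A

namespace Mealy

variable {Q A : Type} (M : Mealy Q A)

/-- The state `q · u` reached from `q` by reading the word `u`. -/
def act (q : Q) (u : List A) : Q := u.foldl M.δ q

/-- The output `q ∘ u` produced from `q` when reading the word `u`. -/
def outp : Q → List A → List A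
  | _, [] => []
  | q, a :: u => M.lam q a :: outp (M.δ q a) u

/-- `u` is a synchronizing word: `|Q · u| = 1`. -/
def Syn (u : List A) : Prop := (Set.range fun q => M.act q u).ncard = 1

/-- `M` is reset: it is synchronizing, and every state maps synchronizing words to synchronizing
words. -/
def IsReset : Prop := (∃ u, M.Syn u) ∧ ∀ q u, M.Syn u → M.Syn (M.outp q u)

end Mealy

/-- The code `1 ... 1 0` of a number. -/
def unary (k : ℕ) : List Bool := List.replicate k true ++ [false]

/-- The string coding a Mealy automaton with states `0, ..., n - 1` and letters `0, ..., m - 1`: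
the numbers `n` and `m`, followed by the table of the pairs `(δ q a, lam q a)`. -/
def encode {n m : ℕ} (M : Mealy (Fin n) (Fin m)) : List Bool :=
  unary n ++ unary m ++ (List.finRange n).flatMap fun q =>
    (List.finRange m).flatMap fun a => unary (M.δ q a) ++ unary (M.lam q a)

/-- The decision problem RESET, as a set of strings. -/
def RESET : Set (List Bool) :=
  {x | ∃ (n m : ℕ) (M : Mealy (Fin n) (Fin m)), 0 < n ∧ M.IsReset ∧ x = encode M}

/-! ## Polynomial space -/

/-- Head movements. -/
inductive Dir
  | left
  | stay
  | right

/-- Move the head on the one-way infinite tape (moving left from cell `0` has no effect). -/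
def Dir.move : Dir → ℕ → ℕ
  | .left, i => i - 1
  | .stay, i => i
  | .right, i => i + 1

/-- Deterministic one-tape Turing machines with input alphabet `Bool`. A state `q` with
`halt q = some b` is a halting state with answer `b`. -/
structure TM where
  Q : Type
  Γ : Type
  [finQ : Fintype Q]
  [finΓ : Fintype Γ]
  start : Q
  blank : Γ
  inp : Bool → Γ
  halt : Q → Option Bool
  tr : Q → Γ → Q × Γ × Dir

/-- Configurations: state, head position, tape contents. -/
structure TM.Cfg (M : TM) where
  state : M.Q
  head : ℕ
  tape : ℕ → M.Γ

/-- The initial configuration on input `x`. -/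
def TM.init (M : TM) (x : List Bool) : M.Cfg where
  state := M.start
  head := 0
  tape := fun i => (x[i]?).elim M.blank M.inp

/-- One step of the machine; halting configurations do not change. -/
def TM.next (M : TM) (c : M.Cfg) : M.Cfg :=
  match M.halt c.state with
  | some _ => c
  | none =>
    { state := (M.tr c.state (c.tape c.head)).1
      head := (M.tr c.state (c.tape c.head)).2.2.move c.head
      tape := Function.update c.tape c.head (M.tr c.state (c.tape c.head)).2.1 }

/-- The configuration after `t` steps on input `x`. -/
def TM.run (M : TM) (x : List Bool) (t : ℕ) : M.Cfg := M.next^[t] (M.init x)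

/-- The class PSPACE: languages decided by a one-tape Turing machine whose head stays, on every
input `x`, within the first `p (|x|)` cells, for some polynomial `p`. -/
def PSPACE : Set (Set (List Bool)) :=
  {L | ∃ (M : TM) (p : Polynomial ℕ), ∀ x : List Bool,
    (∀ t, (M.run x t).head < p.eval x.length) ∧
    ∃ t b, M.halt (M.run x t).state = some b ∧ (b = true ↔ x ∈ L)}

end Pool.Agent.Helper78.Reset
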