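import Pool.Agent.Helper78.Closure
import Pool.Agent.Helper78.ResetDefs

/-!
# RESET is PSPACE-hard: the proof
-/

namespace Pool.Agent.Helper78.Reset

/-! ## General facts on Mealy automata -/

namespace Mealy

variable {Q A : Type} (M : Mealy Q A)

theorem syn_iff [Nonempty Q] (u : List A) : M.Syn u ↔ ∀ q q', M.act q u = M.act q' u := by
  unfold Syn
  rw [Set.ncard_eq_one]
  constructor
  · rintro ⟨p, hp⟩ q q'
    have h1 : M.act q u ∈ Set.range fun q => M.act q u := ⟨q, rfl⟩
    have h2 : M.act q' u ∈ Set.range fun q => M.act q u := ⟨q', rfl⟩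
    rw [hp] at h1 h2
    rw [h1, h2]
  · intro h
    obtain ⟨q0⟩ := ‹Nonempty Q›
    refine ⟨M.act q0 u, ?_⟩
    ext p
    constructor
    · rintro ⟨q, rfl⟩
      exact h q q0
    · intro hp
      rw [hp]
      exact ⟨q0, rfl⟩

/-- Transport of an automaton along bijections. -/
def transport {Q' A' : Type} (eQ : Q ≃ Q') (eA : A ≃ A') : Mealy Q' A' where
  δ q a := eQ (M.δ (eQ.symm q) (eA.symm a))
  lam q a := eA (M.lam (eQ.symm q) (eA.symm a))

variable {M}

theorem act_transport {Q' A' : Type} (eQ : Q ≃ Q') (eA : A ≃ A') (u : List A) : ∀ q : Q,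
    (M.transport eQ eA).act (eQ q) (u.map eA) = eQ (M.act q u) := by
  induction u with
  | nil => intro q; rfl
  | cons a u ih =>
    intro q
    have := ih (M.δ q a)
    simp only [act, List.foldl_cons, List.map_cons, transport, Equiv.symm_apply_apply] at this ⊢
    exact this

theorem outp_transport {Q' A' : Type} (eQ : Q ≃ Q') (eA : A ≃ A') (u : List A) : ∀ q : Q,
    (M.transport eQ eA).outp (eQ q) (u.map eA) = (M.outp q u).map eA := by
  induction u with
  | nil => intro q; rfl
  | cons a u ih =>
    intro q
    have := ih (M.δ q a)
    simp only [outp, List.map_cons, transport, Equiv.symm_apply_apply] at this ⊢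
    rw [this]

theorem syn_transport [Nonempty Q] {Q' A' : Type} (eQ : Q ≃ Q') (eA : A ≃ A') (u : List A) :
    (M.transport eQ eA).Syn (u.map eA) ↔ M.Syn u := by
  haveI : Nonempty Q' := eQ.nonempty_congr.1 inferInstance
  rw [syn_iff, syn_iff]
  constructor
  · intro h q q'
    have := h (eQ q) (eQ q')
    rw [act_transport, act_transport] at this
    exact eQ.injective this
  · intro h q q'
    obtain ⟨q, rfl⟩ := eQ.surjective q
    obtain ⟨q', rfl⟩ := eQ.surjective q'
    rw [act_transport, act_transport, h q q']

theorem isReset_transport [Nonempty Q] {Q' A' : Type} (eQ : Q ≃ Q') (eA : A ≃ A') :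
    (M.transport eQ eA).IsReset ↔ M.IsReset := by
  have hs : ∀ u : List A', ∃ v : List A, u = v.map eA := fun u =>
    ⟨u.map eA.symm, by simp [List.map_map]⟩
  constructor
  · rintro ⟨⟨u, hu⟩, h⟩
    obtain ⟨u, rfl⟩ := hs u
    refine ⟨⟨u, (syn_transport eQ eA u).1 hu⟩, fun q v hv => ?_⟩
    have := h (eQ q) (v.map eA) ((syn_transport eQ eA v).2 hv)
    rw [outp_transport] at this
    exact (syn_transport eQ eA _).1 this
  · rintro ⟨⟨u, hu⟩, h⟩
    refine ⟨⟨u.map eA, (syn_transport eQ eA u).2 hu⟩, fun q v hv => ?_⟩
    obtain ⟨v, rfl⟩ := hs v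
    obtain ⟨q, rfl⟩ := eQ.surjective q
    rw [outp_transport]
    exact (syn_transport eQ eA _).2 (h q v ((syn_transport eQ eA v).1 hv))

end Mealy

/-! ## The automaton simulating a space-bounded machine -/

section simulation

variable (M : TM) (S : ℕ) (τ : ℕ → M.Γ) (hS : 0 < S)

/-- States: four control states, and for every cell `i < S` the states `(i, a)`, meaning that cell
`i` contains `a`, and `(i, q)`, meaning that the head is at cell `i` in state `q`. -/
abbrev QT := Fin 4 ⊕ (Fin S × (M.Γ ⊕ M.Q))

/-- Letters: `0` acts as the identity, `1` resets, `2` starts, `3` finishes; the letter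
`(i, (q, a))` performs the step of the machine in state `q` at cell `i` reading `a`. -/
abbrev AT := Fin 4 ⊕ (Fin S × (M.Q × M.Γ))

open Classical in
/-- The simulating automaton. -/
noncomputable def sim : Mealy (QT M S) (AT M S) where
  δ q a := match a with
    | .inl 0 => q
    | .inl 1 => .inl 2
    | .inl 2 => match q with
      | .inl _ => .inl 1
      | .inr (i, .inl _) => .inr (i, .inl (τ i))
      | .inr (_, .inr _) => .inr (⟨0, hS⟩, .inr M.start)
    | .inl 3 => match q with
      | .inl 0 => .inl 3
      | .inl 1 => .inl 2
      | .inl 2 => .inl 2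
      | .inl 3 => .inl 3
      | .inr (_, .inl _) => .inl 2
      | .inr (_, .inr p) => if M.halt p = some false then .inl 2 else .inl 3
    | .inr (k, (p, b)) => match q with
      | .inl 0 => .inl 3
      | .inl 1 => .inl 1
      | .inl 2 => .inl 2
      | .inl 3 => .inl 3
      | .inr (i, .inl c) =>
        if (k : ℕ) = i then (if c = b then .inr (i, .inl (M.tr p b).2.1) else .inl 3) else .inr (i, .inl c)
      | .inr (i, .inr p') =>
        if p' = p ∧ M.halt p = none then
          (if (k : ℕ) = i then
            (if h : (M.tr p b).2.2.move i < S then .inr (⟨(M.tr p b).2.2.move i, h⟩, .inr (M.tr p b).1)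
              else .inl 3)
            else .inl 3)
        else .inl 3
  lam q a := match a with
    | .inl 0 => .inl 1
    | .inl 1 => .inl 1
    | .inl 2 => match q with
      | .inl 0 => .inl 0
      | _ => .inl 1
    | .inl 3 => match q with
      | .inl 1 => .inl 0
      | _ => .inl 1
    | .inr _ => match q with
      | .inl 1 => .inl 0
      | _ => .inl 1

end simulation

section correctness

variable {M : TM} {S : ℕ} {τ : ℕ → M.Γ} {hS : 0 < S}

theorem act_cons {Q A : Type} (N : Mealy Q A) (q : Q) (a : A) (u : List A) :
    N.act q (a :: u) = N.act (N.δ q a) u := rfl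

theorem act_append {Q A : Type} (N : Mealy Q A) (q : Q) (u v : List A) :
    N.act q (u ++ v) = N.act (N.act q u) v := by
  simp [Mealy.act]

instance : Nonempty (QT M S) := ⟨.inl 0⟩

open Classical in
theorem delta_cell (i k : Fin S) (c b : M.Γ) (p : M.Q) :
    (sim M S τ hS).δ (.inr (i, .inl c)) (.inr (k, (p, b))) =
      if (k : ℕ) = i then (if c = b then .inr (i, .inl (M.tr p b).2.1) else .inl 3)
        else .inr (i, .inl c) := rfl

open Classical in
theorem delta_head (i k : Fin S) (b : M.Γ) (p p' : M.Q) :
    (sim M S τ hS).δ (.inr (i, .inr p')) (.inr (k, (p, b))) =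
      if p' = p ∧ M.halt p = none then
          (if (k : ℕ) = i then
            (if h : (M.tr p b).2.2.move i < S then .inr (⟨(M.tr p b).2.2.move i, h⟩, .inr (M.tr p b).1)
              else .inl 3)
            else .inl 3)
        else .inl 3 := rfl

theorem act_one (w : List (Fin S × (M.Q × M.Γ))) :
    (sim M S τ hS).act (.inl 1) (w.map .inr) = .inl 1 := by
  induction w with
  | nil => rfl
  | cons a w ih => exact ih

theorem act_two (w : List (Fin S × (M.Q × M.Γ))) :
    (sim M S τ hS).act (.inl 2) (w.map .inr) = .inl 2 := by
  induction w with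
  | nil => rfl
  | cons a w ih => exact ih

theorem act_three (w : List (Fin S × (M.Q × M.Γ))) :
    (sim M S τ hS).act (.inl 3) (w.map .inr) = .inl 3 := by
  induction w with
  | nil => rfl
  | cons a w ih => exact ih

theorem act_cell (w : List (Fin S × (M.Q × M.Γ))) : ∀ (j : Fin S) (c : M.Γ),
    (∃ c', (sim M S τ hS).act (.inr (j, .inl c)) (w.map .inr) = .inr (j, .inl c')) ∨
      (sim M S τ hS).act (.inr (j, .inl c)) (w.map .inr) = .inl 3 := by
  induction w with
  | nil => intro j c; exact Or.inl ⟨c, rfl⟩
  | cons a w ih =>
    intro j c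
    obtain ⟨k, p, b⟩ := a
    rw [List.map_cons, act_cons, delta_cell]
    split_ifs with h1 h2
    · exact ih _ _
    · exact Or.inr (act_three w)
    · exact ih _ _

/-- If the word `w` followed by the finishing letter brings the states describing the
configuration `c` to state `2`, then the machine started in `c` reaches a state with answer
`false`. -/
theorem sound (w : List (Fin S × (M.Q × M.Γ))) : ∀ (c : M.Cfg) (hc : c.head < S),
    (∀ j : Fin S, (sim M S τ hS).act (.inr (j, .inl (c.tape j))) (w.map .inr ++ [.inl 3]) = .inl 2) →
    (sim M S τ hS).act (.inr (⟨c.head, hc⟩, .inr c.state)) (w.map .inr ++ [.inl 3]) = .inl 2 →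
    ∃ t, M.halt (M.next^[t] c).state = some false := by
  induction w with
  | nil =>
    intro c hc _ h2
    refine ⟨0, ?_⟩
    by_contra h
    have h' : ¬ M.halt c.state = some false := h
    simp [Mealy.act, sim, h'] at h2
  | cons a w ih =>
    intro c hc h1 h2
    obtain ⟨k, p, b⟩ := a
    rw [List.map_cons, List.cons_append, act_cons] at h2
    have hdead : (sim M S τ hS).act (.inl 3) (w.map .inr ++ [.inl 3]) = .inl 3 := by
      rw [act_append, act_three]; rfl
    rw [delta_head] at h2
    split_ifs at h2 with h3 h4 h5
    · obtain ⟨hp, hh⟩ := h3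
      have hk : k = ⟨c.head, hc⟩ := Fin.ext h4
      subst hk
      have hcell := h1 ⟨c.head, hc⟩
      rw [List.map_cons, List.cons_append, act_cons, delta_cell, if_pos rfl] at hcell
      split_ifs at hcell with h6
      · subst h6
        subst hp
        have hnext : M.next c =
            { state := (M.tr c.state (c.tape c.head)).1
              head := (M.tr c.state (c.tape c.head)).2.2.move c.head
              tape := Function.update c.tape c.head (M.tr c.state (c.tape c.head)).2.1 } := by
          unfold TM.next
          rw [hh]
        obtain ⟨t, ht⟩ := ih (M.next c) (by rw [hnext]; exact h5) (by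
          intro j
          have hj := h1 j
          rw [List.map_cons, List.cons_append, act_cons, delta_cell] at hj
          rw [hnext]
          by_cases hjc : c.head = (j : ℕ)
          · have : j = ⟨c.head, hc⟩ := Fin.ext hjc.symm
            subst this
            rw [if_pos rfl, if_pos rfl] at hj
            simpa using hj
          · rw [if_neg hjc] at hj
            have : (j : ℕ) ≠ c.head := fun h => hjc h.symm
            simpa [Function.update_of_ne this] using hj) (by
          have := h2
          simp only [hnext]
          exact this)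
        exact ⟨t + 1, by rw [Function.iterate_succ_apply]; exact ht⟩
      · have := hcell.symm.trans hdead
        simp at this
    · have := h2.symm.trans hdead
      simp at this
    · have := h2.symm.trans hdead
      simp at this
    · have := h2.symm.trans hdead
      simp at this

theorem complete (t : ℕ) : ∀ (c : M.Cfg) (hc : ∀ t, (M.next^[t] c).head < S),
    M.halt (M.next^[t] c).state = some false →
    ∃ w : List (Fin S × (M.Q × M.Γ)),
    (∀ j : Fin S, (sim M S τ hS).act (.inr (j, .inl (c.tape j))) (w.map .inr ++ [.inl 3]) = .inl 2) ∧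
    (sim M S τ hS).act (.inr (⟨c.head, hc 0⟩, .inr c.state)) (w.map .inr ++ [.inl 3]) = .inl 2 := by
  induction t with
  | zero =>
    intro c hc h
    refine ⟨[], fun j => ?_, ?_⟩
    · simp [Mealy.act, sim]
    · have h' : M.halt c.state = some false := h
      simp [Mealy.act, sim, h']
  | succ t ih =>
    intro c hc h
    rcases hh : M.halt c.state with _ | b
    · have hnext : M.next c =
          { state := (M.tr c.state (c.tape c.head)).1
            head := (M.tr c.state (c.tape c.head)).2.2.move c.head
            tape := Function.update c.tape c.head (M.tr c.state (c.tape c.head)).2.1 } := by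
        unfold TM.next
        rw [hh]
      have hc0 : c.head < S := hc 0
      have hc1 : (M.tr c.state (c.tape c.head)).2.2.move c.head < S := by
        have := hc 1
        simp only [Function.iterate_one, hnext] at this
        exact this
      obtain ⟨w, h1, h2⟩ := ih (M.next c) (fun t => by
        have := hc (t + 1)
        rwa [Function.iterate_succ_apply] at this) (by
        rwa [Function.iterate_succ_apply] at h)
      refine ⟨(⟨c.head, hc0⟩, (c.state, c.tape c.head)) :: w, fun j => ?_, ?_⟩
      · rw [List.map_cons, List.cons_append, act_cons]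
        have hj := h1 j
        simp only [hnext] at hj
        rw [delta_cell]
        by_cases hjc : c.head = (j : ℕ)
        · have : j = ⟨c.head, hc0⟩ := Fin.ext hjc.symm
          subst this
          rw [if_pos rfl, if_pos rfl]
          simpa using hj
        · rw [if_neg hjc]
          have : (j : ℕ) ≠ c.head := fun h => hjc h.symm
          simpa [Function.update_of_ne this] using hj
      · rw [List.map_cons, List.cons_append, act_cons]
        have h3 : (sim M S τ hS).δ (.inr (⟨c.head, hc 0⟩, .inr c.state))
            (.inr (⟨c.head, hc0⟩, (c.state, c.tape c.head))) =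
            .inr (⟨_, hc1⟩, .inr (M.tr c.state (c.tape c.head)).1) := by
          rw [delta_head, if_pos ⟨rfl, hh⟩, if_pos rfl, dif_pos hc1]
        rw [h3]
        have := h2
        simp only [hnext] at this
        exact this
    · -- halted: the configuration does not change
      have hfix : M.next c = c := by
        unfold TM.next
        rw [hh]
      have hfix' : ∀ n, M.next^[n] c = c := fun n => Function.iterate_fixed hfix n
      rw [hfix', hh] at h
      refine ⟨[], fun j => ?_, ?_⟩
      · simp [Mealy.act, sim]
      · simp [Mealy.act, sim, hh, h]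

theorem syn_of_mem (v : List (AT M S)) (hv : (Sum.inl 1 : AT M S) ∈ v) :
    (sim M S τ hS).Syn v := by
  rw [Mealy.syn_iff]
  obtain ⟨v1, v2, rfl⟩ := List.append_of_mem hv
  intro q q'
  rw [act_append, act_append, act_cons, act_cons]
  rfl

theorem not_syn_of_ne (v : List (AT M S)) {q q' : QT M S}
    (h : (sim M S τ hS).act q v ≠ (sim M S τ hS).act q' v) : ¬ (sim M S τ hS).Syn v := by
  rw [Mealy.syn_iff]
  intro h'
  exact h (h' q q')

theorem outp_other (q : QT M S) (h0 : q ≠ .inl 0) (h1 : q ≠ .inl 1) (u : List (AT M S))
    (hu : (Sum.inl 1 : AT M S) ∉ (sim M S τ hS).outp q u) : u = [] := by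
  rcases u with _ | ⟨a, u⟩
  · rfl
  · exfalso
    apply hu
    have : (sim M S τ hS).lam q a = .inl 1 := by
      rcases a with a | a
      · fin_cases a
        · rfl
        · rfl
        · rcases q with q | q
          · fin_cases q
            · exact absurd rfl h0
            · exact absurd rfl h1
            · rfl
            · rfl
          · rfl
        · rcases q with q | q
          · fin_cases q
            · exact absurd rfl h0
            · exact absurd rfl h1
            · rfl
            · rfl
          · rfl
      · rcases q with q | q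
        · fin_cases q
          · exact absurd rfl h0
          · exact absurd rfl h1
          · rfl
          · rfl
        · rfl
    rw [Mealy.outp, this]
    exact List.mem_cons_self

theorem outp_one (u : List (AT M S)) (hu : (Sum.inl 1 : AT M S) ∉ (sim M S τ hS).outp (.inl 1) u) :
    ∃ w : List (Fin S × (M.Q × M.Γ)), u = w.map .inr ∨ u = w.map .inr ++ [.inl 3] := by
  induction u with
  | nil => exact ⟨[], Or.inl rfl⟩
  | cons a u ih =>
    rw [Mealy.outp, List.mem_cons, not_or] at hu
    obtain ⟨h1, h2⟩ := hu
    rcases a with a | a
    · have ha : a = 3 := by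
        fin_cases a
        · exact absurd rfl h1
        · exact absurd rfl h1
        · exact absurd rfl h1
        · rfl
      subst ha
      have hu : u = [] := outp_other (.inl 2) (by simp) (by simp) u h2
      subst hu
      exact ⟨[], Or.inr rfl⟩
    · obtain ⟨w, hw⟩ := ih h2
      refine ⟨a :: w, ?_⟩
      rcases hw with hw | hw
      · left; rw [hw]; rfl
      · right; rw [hw]; rfl

theorem outp_e (w : List (Fin S × (M.Q × M.Γ))) :
    (sim M S τ hS).outp (.inl 1) (w.map .inr ++ [.inl 3]) =
      List.replicate (w.length + 1) (.inl 0) := by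
  induction w with
  | nil => rfl
  | cons a w ih =>
    rw [List.map_cons, List.cons_append, Mealy.outp, List.length_cons, List.replicate_succ]
    have h1 : (sim M S τ hS).δ (.inl 1) (.inr a) = .inl 1 := rfl
    rw [h1, ih]
    rfl

theorem act_e (k : ℕ) (q : QT M S) :
    (sim M S τ hS).act q (List.replicate k (.inl 0)) = q := by
  induction k with
  | zero => rfl
  | succ k ih => rw [List.replicate_succ, act_cons]; exact ih

/-- The simulating automaton is reset if and only if the machine does not answer `false`. -/
theorem sim_isReset (c : M.Cfg) (h0 : c.head = 0) (hst : c.state = M.start) (hc : c.tape = τ)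
    (hb : ∀ t, (M.next^[t] c).head < S) :
    (sim M S τ hS).IsReset ↔ ¬ ∃ t, M.halt (M.next^[t] c).state = some false := by
  have h0' : c.head < S := by rw [h0]; exact hS
  have hhead : (⟨c.head, h0'⟩ : Fin S) = ⟨0, hS⟩ := Fin.ext h0
  constructor
  · rintro ⟨_, hr⟩ ⟨t, ht⟩
    obtain ⟨w, h1, h2⟩ := complete (τ := τ) (hS := hS) t c hb ht
    have h2' : (sim M S τ hS).act (.inr (⟨0, hS⟩, .inr M.start)) (w.map .inr ++ [.inl 3]) =
        .inl 2 := by
      rw [← hst, ← hhead]
      exact h2
    have h1' : ∀ j : Fin S, (sim M S τ hS).act (.inr (j, .inl (τ j)))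
        (w.map .inr ++ [.inl 3]) = .inl 2 := by
      intro j
      have := h1 j
      rw [hc] at this
      exact this
    have hsyn : (sim M S τ hS).Syn (.inl 2 :: (w.map .inr ++ [.inl 3])) := by
      rw [Mealy.syn_iff]
      have hall : ∀ q, (sim M S τ hS).act q (.inl 2 :: (w.map .inr ++ [.inl 3])) = .inl 2 := by
        intro q
        rw [act_cons]
        rcases q with q | ⟨i, c' | p⟩
        · have : (sim M S τ hS).δ (.inl q) (.inl 2) = .inl 1 := rfl
          rw [this, act_append, act_one]
          rfl
        · exact h1' i
        · exact h2'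
      intro q q'
      rw [hall, hall]
    have h3 := hr (.inl 0) _ hsyn
    have h4 : (sim M S τ hS).outp (.inl 0) (.inl 2 :: (w.map .inr ++ [.inl 3])) =
        List.replicate (w.length + 2) (.inl 0) := by
      rw [Mealy.outp]
      have h5 : (sim M S τ hS).δ (.inl 0) (.inl 2) = .inl 1 := rfl
      rw [h5, outp_e]
      rfl
    rw [h4] at h3
    refine not_syn_of_ne (q := .inl 0) (q' := .inl 1) _ ?_ h3
    rw [act_e, act_e]
    simp
  · intro hno
    refine ⟨⟨[.inl 1], syn_of_mem _ List.mem_cons_self⟩, fun q u hu => ?_⟩
    by_cases hmem : (Sum.inl 1 : AT M S) ∈ (sim M S τ hS).outp q u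
    · exact syn_of_mem _ hmem
    · exfalso
      have hnil : u ≠ [] := by
        rintro rfl
        refine not_syn_of_ne (q := .inl 0) (q' := .inl 1) _ ?_ hu
        simp [Mealy.act]
      by_cases hq0 : q = .inl 0
      · subst hq0
        rcases u with _ | ⟨a, u⟩
        · exact hnil rfl
        rw [Mealy.outp, List.mem_cons, not_or] at hmem
        obtain ⟨hm1, hm2⟩ := hmem
        have ha : a = .inl 2 := by
          rcases a with a | a
          · fin_cases a
            · exact absurd rfl hm1
            · exact absurd rfl hm1
            · rfl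
            · exact absurd rfl hm1
          · exact absurd rfl hm1
        subst ha
        obtain ⟨w, hw | hw⟩ := outp_one u hm2
        · subst hw
          refine not_syn_of_ne (q := .inl 0) (q' := .inr (⟨0, hS⟩, .inl M.blank)) _ ?_ hu
          rw [act_cons, act_cons]
          have e1 : (sim M S τ hS).δ (.inl 0) (.inl 2) = .inl 1 := rfl
          have e2 : (sim M S τ hS).δ (.inr (⟨0, hS⟩, .inl M.blank)) (.inl 2) =
            .inr (⟨0, hS⟩, .inl (τ 0)) := rfl
          rw [e1, e2, act_one]
          rcases act_cell (τ := τ) (hS := hS) w ⟨0, hS⟩ (τ 0) with ⟨c', h⟩ | h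
          · rw [h]; simp
          · rw [h]; simp
        · subst hw
          apply hno
          rw [Mealy.syn_iff] at hu
          have hz : (sim M S τ hS).act (.inl 0) (.inl 2 :: (w.map .inr ++ [.inl 3])) = .inl 2 := by
            rw [act_cons]
            have e1 : (sim M S τ hS).δ (.inl 0) (.inl 2) = .inl 1 := rfl
            rw [e1, act_append, act_one]
            rfl
          refine sound (τ := τ) (hS := hS) w c h0' (fun j => ?_) ?_
          · have := hu (.inr (j, .inl M.blank)) (.inl 0)
            rw [hz, act_cons] at this
            rw [hc]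
            exact this
          · have := hu (.inr (⟨0, hS⟩, .inr M.start)) (.inl 0)
            rw [hz, act_cons] at this
            rw [hhead, hst]
            exact this
      · by_cases hq1 : q = .inl 1
        · subst hq1
          obtain ⟨w, hw | hw⟩ := outp_one u hmem
          · subst hw
            refine not_syn_of_ne (q := .inl 2) (q' := .inl 3) _ ?_ hu
            rw [act_two, act_three]
            simp
          · subst hw
            refine not_syn_of_ne (q := .inl 2) (q' := .inl 3) _ ?_ hu
            rw [act_append, act_append, act_two, act_three]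
            simp [Mealy.act, sim]
        · exact hnil (outp_other q hq0 hq1 u hmem)

end correctness

/-! ## The coding is injective -/

theorem unary_append_inj {k k' : ℕ} {l l' : List Bool} (h : unary k ++ l = unary k' ++ l') :
    k = k' ∧ l = l' := by
  induction k generalizing k' with
  | zero =>
    rcases k' with _ | k'
    · simpa [unary] using h
    · simp [unary, List.replicate_succ] at h
  | succ k ih =>
    rcases k' with _ | k'
    · simp [unary, List.replicate_succ] at h
    · have h' : unary k ++ l = unary k' ++ l' := by
        simpa [unary, List.replicate_succ] using h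
      obtain ⟨h1, h2⟩ := ih h'
      exact ⟨by omega, h2⟩

theorem table_inj {A : Type} (F G : A → List ℕ) : ∀ l : List A,
    (∀ a ∈ l, (F a).length = (G a).length) → l.flatMap F = l.flatMap G → ∀ a ∈ l, F a = G a := by
  intro l
  induction l with
  | nil => intro _ _ a ha; simp at ha
  | cons b l ih =>
    intro hlen h a ha
    rw [List.flatMap_cons, List.flatMap_cons] at h
    obtain ⟨h1, h2⟩ := List.append_inj h (hlen b List.mem_cons_self)
    rcases List.mem_cons.1 ha with rfl | ha
    · exact h1
    · exact ih (fun a ha => hlen a (List.mem_cons_of_mem _ ha)) h2 a ha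

theorem code_inj : ∀ l l' : List ℕ, l.flatMap unary = l'.flatMap unary → l = l' := by
  intro l
  induction l with
  | nil =>
    intro l' h
    rcases l' with _ | ⟨b, l'⟩
    · rfl
    · simp [unary] at h
  | cons a l ih =>
    intro l' h
    rcases l' with _ | ⟨b, l'⟩
    · simp [unary] at h
    · rw [List.flatMap_cons, List.flatMap_cons] at h
      obtain ⟨h1, h2⟩ := unary_append_inj h
      rw [h1, ih l' h2]

theorem encode_eq_code {n m : ℕ} (N : Mealy (Fin n) (Fin m)) :
    encode N = (n :: m :: (List.finRange n).flatMap fun q =>
      (List.finRange m).flatMap fun a => [(N.δ q a : ℕ), (N.lam q a : ℕ)]).flatMap unary := by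
  simp [encode, List.flatMap_cons, List.flatMap_assoc]

theorem encode_inj {n m n' m' : ℕ} {N : Mealy (Fin n) (Fin m)} {N' : Mealy (Fin n') (Fin m')}
    (h : encode N = encode N') : ∃ (hn : n = n') (hm : m = m'), hn ▸ hm ▸ N = N' := by
  rw [encode_eq_code, encode_eq_code] at h
  have h1 := code_inj _ _ h
  rw [List.cons.injEq, List.cons.injEq] at h1
  obtain ⟨hn, hm, h2⟩ := h1
  subst hn hm
  refine ⟨rfl, rfl, ?_⟩
  have hlen : ∀ (N : Mealy (Fin n) (Fin m)) (q : Fin n) (l : List (Fin m)),
      (l.flatMap fun a => [(N.δ q a : ℕ), (N.lam q a : ℕ)]).length = 2 * l.length := by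
    intro N q l
    induction l with
    | nil => rfl
    | cons a l ih =>
      rw [List.flatMap_cons, List.length_append, ih]
      simp only [List.length_cons, List.length_nil]
      omega
  have h3 := table_inj _ _ (List.finRange n) (fun q _ => by rw [hlen, hlen]) h2
  have h4 : ∀ q a, (N.δ q a : ℕ) = N'.δ q a ∧ (N.lam q a : ℕ) = N'.lam q a := by
    intro q a
    have h5 := table_inj _ _ (List.finRange m) (fun _ _ => by simp) (h3 q (List.mem_finRange q)) a
      (List.mem_finRange a)
    simpa using h5
  obtain ⟨d, l⟩ := N
  obtain ⟨d', l'⟩ := N'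
  show Mealy.mk d l = Mealy.mk d' l'
  congr 1
  · funext q a
    exact Fin.ext (h4 q a).1
  · funext q a
    exact Fin.ext (h4 q a).2

theorem encode_mem_RESET {n m : ℕ} (N : Mealy (Fin n) (Fin m)) (hn : 0 < n) :
    encode N ∈ RESET ↔ N.IsReset := by
  constructor
  · rintro ⟨n', m', N', _, hr, h⟩
    obtain ⟨hn', hm', h1⟩ := encode_inj h
    subst hn' hm'
    rw [show N = N' from h1]
    exact hr
  · intro h
    exact ⟨n, m, N, hn, h, rfl⟩

/-! ## Enumerating the table -/

theorem finRange_flatMap (n : ℕ) (G : ℕ → List Bool) :
    ((List.finRange n).flatMap fun i : Fin n => G (i : ℕ)) = (List.range n).flatMap G := by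
  have : (List.finRange n).map Fin.val = List.range n := by simp
  rw [← this, List.flatMap_map]

theorem range_mul_flatMap (S C : ℕ) (G : ℕ → List Bool) :
    (List.range (S * C)).flatMap G =
      (List.range S).flatMap fun i => (List.range C).flatMap fun c => G (c + C * i) := by
  induction S with
  | zero => simp
  | succ S ih =>
    rw [Nat.add_mul, Nat.one_mul, List.range_add, List.flatMap_append, ih, List.range_succ,
      List.flatMap_append, List.flatMap_map]
    congr 1
    simp only [List.flatMap_cons, List.flatMap_nil, List.append_nil]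
    congr 1
    funext c
    congr 1
    rw [Nat.mul_comm, Nat.add_comm]

/-- The numbering of `Fin 4 ⊕ (Fin S × B)`. -/
def num {B : Type} (S C : ℕ) (e : B ≃ Fin C) : Fin 4 ⊕ (Fin S × B) ≃ Fin (4 + S * C) :=
  (Equiv.sumCongr (Equiv.refl (Fin 4))
    ((Equiv.prodCongr (Equiv.refl (Fin S)) e).trans finProdFinEquiv)).trans finSumFinEquiv

theorem num_inl {B : Type} (S C : ℕ) (e : B ≃ Fin C) (k : Fin 4) :
    (num S C e (.inl k) : ℕ) = k := by
  simp [num]

theorem num_inr {B : Type} (S C : ℕ) (e : B ≃ Fin C) (i : Fin S) (c : B) :
    (num S C e (.inr (i, c)) : ℕ) = 4 + ((e c : ℕ) + C * i) := by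
  simp [num]

theorem enum_flatMap {B : Type} (S C : ℕ) (e : B ≃ Fin C) (F : Fin 4 ⊕ (Fin S × B) → List Bool) :
    (List.finRange (4 + S * C)).flatMap (fun j => F ((num S C e).symm j)) =
      (List.finRange 4).flatMap (fun k => F (.inl k)) ++
        (List.finRange S).flatMap fun i => (List.finRange C).flatMap fun c =>
          F (.inr (i, e.symm c)) := by
  set G : ℕ → List Bool := fun j =>
    if h : j < 4 + S * C then F ((num S C e).symm ⟨j, h⟩) else [] with hG
  have h1 : (List.finRange (4 + S * C)).flatMap (fun j => F ((num S C e).symm j)) =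
      (List.range (4 + S * C)).flatMap G := by
    rw [← finRange_flatMap]
    congr 1
    funext j
    simp [hG]
  rw [h1, List.range_add, List.flatMap_append, List.flatMap_map, range_mul_flatMap]
  congr 1
  · rw [← finRange_flatMap]
    congr 1
    funext k
    have hk : (k : ℕ) < 4 + S * C := by omega
    simp only [hG, hk, dif_pos]
    congr 1
    rw [Equiv.symm_apply_eq]
    exact Fin.ext (num_inl S C e k).symm
  · rw [← finRange_flatMap]
    congr 1
    funext i
    rw [← finRange_flatMap]
    congr 1
    funext c
    have hic : 4 + ((c : ℕ) + C * i) < 4 + S * C := by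
      have := (num S C e (.inr (i, e.symm c))).isLt
      rw [num_inr] at this
      simpa using this
    simp only [hG, hic, dif_pos]
    congr 1
    rw [Equiv.symm_apply_eq]
    apply Fin.ext
    rw [num_inr]
    simp

/-! ## The reduction -/

section reduction

open Pool.Agent.Helper78.PT

variable (M : TM)

/-- Number of states of the automaton per cell. -/
noncomputable def cC : ℕ :=
  letI := M.finQ
  letI := M.finΓ
  Fintype.card (M.Γ ⊕ M.Q)

/-- Number of letters of the automaton per cell. -/
noncomputable def cD : ℕ :=
  letI := M.finQ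
  letI := M.finΓ
  Fintype.card (M.Q × M.Γ)

/-- Numbering. -/
noncomputable def eC : (M.Γ ⊕ M.Q) ≃ Fin (cC M) :=
  letI := M.finQ
  letI := M.finΓ
  Fintype.equivFin _

/-- Numbering. -/
noncomputable def eD : (M.Q × M.Γ) ≃ Fin (cD M) :=
  letI := M.finQ
  letI := M.finΓ
  Fintype.equivFin _

/-- The number of the state `(i, c)`. -/
noncomputable def ns (i : ℕ) (c : M.Γ ⊕ M.Q) : ℕ := 4 + ((eC M c : ℕ) + cC M * i)

open Classical in
/-- Numerical transitions, for the letters `(k, d)`. -/
noncomputable def fd (S i : ℕ) (c : M.Γ ⊕ M.Q) (k : ℕ) (d : M.Q × M.Γ) : ℕ :=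
  match c with
  | .inl c' => if k = i then (if c' = d.2 then ns M i (.inl (M.tr d.1 d.2).2.1) else 3)
      else ns M i (.inl c')
  | .inr p' => if p' = d.1 ∧ M.halt d.1 = none then
      (if k = i then (if (M.tr d.1 d.2).2.2.move i < S then
        ns M ((M.tr d.1 d.2).2.2.move i) (.inr (M.tr d.1 d.2).1) else 3) else 3) else 3

open Classical in
/-- Numerical transitions, for the control letters. -/
noncomputable def fc (t : M.Γ) (i : ℕ) (c : M.Γ ⊕ M.Q) (a : Fin 4) : ℕ :=
  match a with
  | 0 => ns M i c
  | 1 => 2
  | 2 => match c with
    | .inl _ => ns M i (.inl t)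
    | .inr _ => ns M 0 (.inr M.start)
  | 3 => match c with
    | .inl _ => 2
    | .inr p => if M.halt p = some false then 2 else 3

/-- Initial tape. -/
def tape0 (x : List Bool) (i : ℕ) : M.Γ := (x[i]?).elim M.blank M.inp

/-- Transitions between control states. -/
def kcc (q a : Fin 4) : ℕ :=
  match a with
  | 0 => q
  | 1 => 2
  | 2 => 1
  | 3 => match q with
    | 0 => 3
    | 1 => 2
    | 2 => 2
    | 3 => 3

/-- Outputs at control states for control letters. -/
def kco (q a : Fin 4) : ℕ :=
  match a with
  | 0 => 1
  | 1 => 1
  | 2 => match q with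
    | 0 => 0
    | _ => 1
  | 3 => match q with
    | 1 => 0
    | _ => 1

/-- Transitions of the control states for the letters `(k, d)`. -/
def kl (q : Fin 4) : ℕ :=
  match q with
  | 0 => 3
  | 1 => 1
  | 2 => 2
  | 3 => 3

/-- Outputs at the control states for the letters `(k, d)`. -/
def klo (q : Fin 4) : ℕ :=
  match q with
  | 1 => 0
  | _ => 1

/-- The string computed by the reduction. -/
noncomputable def gen (S : ℕ) (x : List Bool) : List Bool :=
  unary (4 + S * cC M) ++ unary (4 + S * cD M) ++
    (((List.finRange 4).flatMap fun q =>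
        ((List.finRange 4).flatMap fun a => unary (kcc q a) ++ unary (kco q a)) ++
        (List.range S).flatMap fun _ => (List.finRange (cD M)).flatMap fun _ =>
          unary (kl q) ++ unary (klo q)) ++
      ((List.range S).flatMap fun i => (List.finRange (cC M)).flatMap fun c =>
        ((List.finRange 4).flatMap fun a =>
          unary (fc M (tape0 M x i) i ((eC M).symm c) a) ++ unary 1) ++
        (List.range S).flatMap fun k => (List.finRange (cD M)).flatMap fun d =>
          unary (fd M S i ((eC M).symm c) k ((eD M).symm d)) ++ unary 1))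

theorem gen_eq (S : ℕ) (hS : 0 < S) (x : List Bool) :
    encode ((sim M S (tape0 M x) hS).transport (num S (cC M) (eC M)) (num S (cD M) (eD M))) =
      gen M S x := by
  have e1 : ∀ s : Fin 4 ⊕ (Fin S × (M.Γ ⊕ M.Q)),
      (List.finRange (4 + S * cD M)).flatMap (fun a =>
        unary (num S (cC M) (eC M) ((sim M S (tape0 M x) hS).δ s ((num S (cD M) (eD M)).symm a))) ++
        unary (num S (cD M) (eD M) ((sim M S (tape0 M x) hS).lam s ((num S (cD M) (eD M)).symm a))))
      = (List.finRange 4).flatMap (fun a =>
        unary (num S (cC M) (eC M) ((sim M S (tape0 M x) hS).δ s (.inl a))) ++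
        unary (num S (cD M) (eD M) ((sim M S (tape0 M x) hS).lam s (.inl a)))) ++
        (List.finRange S).flatMap fun k => (List.finRange (cD M)).flatMap fun d =>
        unary (num S (cC M) (eC M) ((sim M S (tape0 M x) hS).δ s (.inr (k, (eD M).symm d)))) ++
        unary (num S (cD M) (eD M) ((sim M S (tape0 M x) hS).lam s (.inr (k, (eD M).symm d)))) :=
    fun s => enum_flatMap S (cD M) (eD M) (fun a =>
        unary (num S (cC M) (eC M) ((sim M S (tape0 M x) hS).δ s a)) ++
        unary (num S (cD M) (eD M) ((sim M S (tape0 M x) hS).lam s a)))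
  have e2 := enum_flatMap S (cC M) (eC M) (fun s => (List.finRange (4 + S * cD M)).flatMap (fun a =>
        unary (num S (cC M) (eC M) ((sim M S (tape0 M x) hS).δ s ((num S (cD M) (eD M)).symm a))) ++
        unary (num S (cD M) (eD M)
          ((sim M S (tape0 M x) hS).lam s ((num S (cD M) (eD M)).symm a)))))
  unfold encode gen Mealy.transport
  rw [e2]
  congr 1
  congr 1
  · apply List.flatMap_congr
    intro q _
    rw [e1, ← finRange_flatMap]
    congr 1
    · apply List.flatMap_congr
      intro a _
      congr 2
      · fin_cases a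
        · exact num_inl _ _ _ _
        · exact num_inl _ _ _ _
        · exact num_inl _ _ _ _
        · fin_cases q <;> exact num_inl _ _ _ _
      · fin_cases a
        · exact num_inl _ _ _ _
        · exact num_inl _ _ _ _
        · fin_cases q <;> exact num_inl _ _ _ _
        · fin_cases q <;> exact num_inl _ _ _ _
    · apply List.flatMap_congr
      intro k _
      apply List.flatMap_congr
      intro d _
      congr 2
      · fin_cases q <;> exact num_inl _ _ _ _
      · fin_cases q <;> exact num_inl _ _ _ _
  · rw [← finRange_flatMap]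
    apply List.flatMap_congr
    intro i _
    apply List.flatMap_congr
    intro c _
    rw [e1, ← finRange_flatMap]
    congr 1
    · apply List.flatMap_congr
      intro a _
      congr 2
      · generalize (eC M).symm c = c'
        fin_cases a
        · exact num_inr _ _ _ _ _
        · exact num_inl _ _ _ _
        · rcases c' with c' | c'
          · exact num_inr _ _ _ _ _
          · exact num_inr _ _ _ _ _
        · rcases c' with c' | c'
          · exact num_inl _ _ _ _
          · by_cases h : M.halt c' = some false
            · simp [sim, fc, h, num_inl]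
            · simp [sim, fc, h, num_inl]
      · fin_cases a <;> exact num_inl _ _ _ _
    · apply List.flatMap_congr
      intro k _
      apply List.flatMap_congr
      intro d _
      congr 2
      · generalize (eC M).symm c = c'
        generalize (eD M).symm d = d'
        obtain ⟨p, b⟩ := d'
        rcases c' with c' | c'
        · rw [delta_cell]
          simp only [fd]
          split_ifs
          · exact num_inr _ _ _ _ _
          · exact num_inl _ _ _ _
          · exact num_inr _ _ _ _ _
        · rw [delta_head]
          simp only [fd]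
          split_ifs
          · exact num_inr _ _ _ _ _
          · exact num_inl _ _ _ _
          · exact num_inl _ _ _ _
          · exact num_inl _ _ _ _

theorem pm_unary {C : Type} [Ctx C] {f : C → ℕ} (hf : PM f) : PM (fun c => unary (f c)) :=
  hf.unary.app (PM.const _)

theorem pm_ns {C : Type} [Ctx C] {f : C → ℕ} (hf : PM f) (c : M.Γ ⊕ M.Q) :
    PM (fun x => ns M (f x) c) :=
  (PM.const _).add ((PM.const _).add ((PM.const _).mul hf))

theorem pm_move {C : Type} [Ctx C] {f : C → ℕ} (hf : PM f) (d : Dir) :
    PM (fun x => d.move (f x)) := by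
  cases d
  · exact hf.sub (PM.const 1)
  · exact hf
  · exact hf.add (PM.const 1)

theorem pm_fd (c : M.Γ ⊕ M.Q) (d : M.Q × M.Γ) {C : Type} [Ctx C] {S i k : C → ℕ} (hS : PM S)
    (hi : PM i) (hk : PM k) : PM (fun x => fd M (S x) (i x) c (k x) d) := by
  classical
  rcases c with c | p'
  · refine PM.ite (PMP.eq hk hi) ?_ (pm_ns M hi _)
    by_cases h : c = d.2
    · simp only [h, if_true]
      exact pm_ns M hi _
    · simp only [h, if_false]
      exact PM.const _
  · by_cases h : p' = d.1 ∧ M.halt d.1 = none
    · simp only [fd, h, if_true]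
      refine PM.ite (PMP.eq hk hi) (PM.ite (PMP.lt (pm_move hi _) hS) (pm_ns M (pm_move hi _) _)
        (PM.const _)) (PM.const _)
    · simp only [fd, h, if_false]
      exact PM.const _

theorem pm_fc (c : M.Γ ⊕ M.Q) (a : Fin 4) :
    PM (fun x : List Bool × ℕ => fc M (tape0 M x.1 x.2) x.2 c a) := by
  fin_cases a
  · exact pm_ns M PM.snd _
  · exact PM.const _
  · rcases c with c | p
    · have h1 : PM (fun x : List Bool × ℕ => ((x.1[x.2]?).elim (ns M x.2 (.inl M.blank))
          (fun b => ns M x.2 (.inl (M.inp b))))) :=
        PM.optElim PM.fst PM.snd (pm_ns M PM.snd _) (B := fun b x => ns M x.2 (.inl (M.inp b)))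
          (fun b => pm_ns M PM.snd _)
      have h2 : (fun x : List Bool × ℕ => ((x.1[x.2]?).elim (ns M x.2 (.inl M.blank))
          (fun b => ns M x.2 (.inl (M.inp b))))) =
          (fun x : List Bool × ℕ => fc M (tape0 M x.1 x.2) x.2 (.inl c) 2) := by
        funext x
        simp only [fc, tape0]
        rcases x.1[x.2]? with _ | b
        · rfl
        · rfl
      rw [h2] at h1
      exact h1
    · exact PM.const _
  · rcases c with c | p
    · exact PM.const _
    · exact PM.const _

theorem pm_gen (p : Polynomial ℕ) : PM (fun x : List Bool => gen M (p.eval x.length) x) := by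
  have hS : PM (fun x : List Bool => p.eval x.length) := PM.poly (PM.length PM.id) p
  refine ((pm_unary ((PM.const _).add (hS.mul (PM.const _)))).app
    (pm_unary ((PM.const _).add (hS.mul (PM.const _))))).app (PM.app ?_ ?_)
  · refine PM.listFlatMap _ (fun q _ => PM.app (PM.const _) (PM.range hS (PM.const _)))
  · refine PM.range hS (g := fun x i => (List.finRange (cC M)).flatMap fun c =>
        ((List.finRange 4).flatMap fun a =>
          unary (fc M (tape0 M x i) i ((eC M).symm c) a) ++ unary 1) ++
        (List.range (p.eval x.length)).flatMap fun k => (List.finRange (cD M)).flatMap fun d =>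
          unary (fd M (p.eval x.length) i ((eC M).symm c) k ((eD M).symm d)) ++ unary 1) ?_
    refine PM.listFlatMap _ (fun c _ => PM.app ?_ ?_)
    · refine PM.listFlatMap _ (fun a _ => PM.app (pm_unary ?_) (PM.const _))
      exact pm_fc M _ a
    · refine PM.range (hS.comp PM.fst) (g := fun y k => (List.finRange (cD M)).flatMap fun d =>
          unary (fd M (p.eval y.1.length) y.2 ((eC M).symm c) k ((eD M).symm d)) ++ unary 1) ?_
      refine PM.listFlatMap _ (fun d _ => PM.app (pm_unary ?_) (PM.const _))
      exact pm_fd M _ _ (hS.comp (PM.fst.comp PM.fst)) (PM.snd.comp PM.fst) PM.snd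

end reduction

theorem reset_pspace_hard : ∀ L ∈ PSPACE, ∃ f : List Bool → List Bool,
    Nonempty (Turing.TM2ComputableInPolyTime (id : List Bool → List Bool)
      (id : List Bool → List Bool) f) ∧ ∀ x, x ∈ L ↔ f x ∈ RESET := by
  rintro L ⟨M, p, h⟩
  refine ⟨fun x => gen M (p.eval x.length) x, (pm_gen M p).polyTime, fun x => ?_⟩
  obtain ⟨h1, t, b, h2, h3⟩ := h x
  have hS : 0 < p.eval x.length := lt_of_le_of_lt (Nat.zero_le _) (h1 0)
  show x ∈ L ↔ gen M (p.eval x.length) x ∈ RESET
  rw [← gen_eq M _ hS x, encode_mem_RESET _ (by omega), Mealy.isReset_transport,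
    sim_isReset (τ := tape0 M x) (M.init x) rfl rfl rfl h1]
  have hstab : ∀ s b, M.halt (M.run x s).state = some b → ∀ r, s ≤ r → M.run x r = M.run x s := by
    intro s b hs r hr
    obtain ⟨d, rfl⟩ := Nat.exists_eq_add_of_le hr
    unfold TM.run
    rw [Nat.add_comm, Function.iterate_add_apply]
    apply Function.iterate_fixed
    show M.next (M.run x s) = M.run x s
    unfold TM.next
    rw [hs]
  rw [← h3]
  constructor
  · rintro rfl ⟨s, hs⟩
    have hs' : M.halt (M.run x s).state = some false := hs
    rcases le_total s t with hst | hst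
    · rw [hstab s _ hs' t hst, hs'] at h2
      simp at h2
    · rw [hstab t _ h2 s hst, h2] at hs'
      simp at hs'
  · intro hno
    by_contra hb
    have hb' : b = false := by simpa using hb
    subst hb'
    exact hno ⟨t, h2⟩

end Pool.Agent.Helper78.Reset
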